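import Pool.Agent.H84.Q2.Body
import Pool.Graph.R_seed8.TH703.HU.Defs2

/-!
# Convex hulls
-/

set_option autoImplicit false

open MeasureTheory Set Metric Filter Topology
open scoped ENNReal Real

noncomputable section

namespace Pool.Agent.H84.Q2

open Pool.Agent.TH304.MI Pool.Agent.TH703.HU Pool.Agent.TH959.HU

/-- The part of a box body over a set spanning the base spans the body. -/
theorem hull_BB {b : ℕ} {S : Set ℂ} {l : Fin b → ℂ → ℝ}
    (haff : ∀ i (x y : ℂ) (s t : ℝ), s + t = 1 → l i (s • x + t • y) = s * l i x + t * l i y)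
    {V : Set ℂ} (hV : V ⊆ DB S l) (hhull : DB S l ⊆ convexHull ℝ V) :
    BB S l ⊆ convexHull ℝ {p : PP b | p ∈ BB S l ∧ xc p ∈ V} := by
  intro p hp
  have hx : xc p ∈ DB S l := DB_of_BB' hp
  set r : Fin b → ℝ := fun k => yc p k / l k (xc p) with hr
  have hr1 : ∀ k, |r k| < 1 := by
    intro k
    have h1 := hx.2 k
    rw [hr]
    simp only
    rw [abs_div, abs_of_pos h1, div_lt_one h1]
    exact hp.2 k
  set Φ : ℂ → PP b := fun x => Sb b (x, fun k => r k * l k x) with hΦ
  have hΦp : Φ (xc p) = p := by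
    rw [hΦ]
    simp only
    have h2 : (fun k => r k * l k (xc p)) = yc p := by
      funext k
      rw [hr]
      simp only
      exact div_mul_cancel₀ _ (hx.2 k).ne'
    rw [h2]
    exact Sb_T p
  have haffΦ : ∀ (x y : ℂ) (s t : ℝ), s + t = 1 → Φ (s • x + t • y) = s • Φ x + t • Φ y := by
    intro x y s t hst
    rw [hΦ]
    simp only
    rw [← map_smul, ← map_smul, ← map_add]
    congr 1
    refine Prod.ext rfl ?_
    funext k
    simp only [Prod.snd_add, Prod.smul_snd, Pi.add_apply, Pi.smul_apply, smul_eq_mul]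
    rw [haff k x y s t hst]
    ring
  have hconv : Convex ℝ {x | Φ x ∈ convexHull ℝ {p : PP b | p ∈ BB S l ∧ xc p ∈ V}} := by
    intro x hx y hy s t hs ht hst
    show Φ (s • x + t • y) ∈ convexHull ℝ {p : PP b | p ∈ BB S l ∧ xc p ∈ V}
    rw [haffΦ x y s t hst]
    exact (convex_convexHull ℝ _) hx hy hs ht hst
  have hsub : V ⊆ {x | Φ x ∈ convexHull ℝ {p : PP b | p ∈ BB S l ∧ xc p ∈ V}} := by
    intro x hxV
    have hxD := hV hxV
    show Φ x ∈ convexHull ℝ {p : PP b | p ∈ BB S l ∧ xc p ∈ V}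
    apply subset_convexHull
    refine ⟨⟨?_, fun k => ?_⟩, ?_⟩
    · rw [hΦ]
      simp only
      rw [xc_Sb]
      exact hxD.1
    · rw [hΦ]
      simp only
      rw [xc_Sb, yc_Sb, abs_mul, abs_of_pos (hxD.2 k)]
      have := mul_lt_mul_of_pos_right (hr1 k) (hxD.2 k)
      simpa using this
    · rw [hΦ]
      simp only
      rw [xc_Sb]
      exact hxV
  have h3 := convexHull_min hsub hconv (hhull hx)
  have h4 : Φ (xc p) ∈ convexHull ℝ {p : PP b | p ∈ BB S l ∧ xc p ∈ V} := h3
  rwa [hΦp] at h4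

/-- Separation by a unit vector. -/
theorem exists_unit {b : ℕ} {C : Set (PP b)} (hC : Convex ℝ C) {p : PP b}
    (hp : p ∉ closure C) : ∃ v : PP b, ‖v‖ = 1 ∧ ∀ c ∈ C, inner ℝ v p ≤ inner ℝ v c := by
  by_cases hne : C.Nonempty
  · obtain ⟨f, u, h1, h2⟩ := geometric_hahn_banach_point_closed hC.closure isClosed_closure hp
    obtain ⟨c, hc⟩ := hne
    have h3 := h2 c (subset_closure hc)
    set w : PP b := (InnerProductSpace.toDual ℝ (PP b)).symm f with hw
    have hwf : ∀ x, inner ℝ w x = f x := fun x => by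
      rw [hw]
      exact InnerProductSpace.toDual_symm_apply
    have hw0 : w ≠ 0 := by
      intro h0
      have h4 := hwf p
      have h5 := hwf c
      rw [h0, inner_zero_left] at h4 h5
      linarith
    have hn : 0 < ‖w‖ := norm_pos_iff.2 hw0
    refine ⟨(‖w‖)⁻¹ • w, ?_, fun c hc => ?_⟩
    · rw [norm_smul, norm_inv, norm_norm, inv_mul_cancel₀ hn.ne']
    · rw [real_inner_smul_left, real_inner_smul_left, hwf, hwf]
      have h4 := h2 c (subset_closure hc)
      exact mul_le_mul_of_nonneg_left (by linarith) (by positivity)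
  · rw [not_nonempty_iff_eq_empty] at hne
    refine ⟨EuclideanSpace.single 0 1, by simp, fun c hc => ?_⟩
    rw [hne] at hc
    exact absurd hc (notMem_empty _)

theorem hull_point {b : ℕ} {Ω W : Set (PP b)} (hΩo : IsOpen Ω)
    (hW : IsOpen W) (hWs : W ⊆ Ω) (hull : Ω ⊆ convexHull ℝ W)
    {F D : ℕ → Set (PP b)}
    (hlim : Tendsto (fun k => volume (F k ∩ W)) atTop (𝓝 0))
    (hD : ∀ k, volume ((Ω \ F k) \ D k) = 0) {p : PP b} (hp : p ∈ Ω) :
    ∀ᶠ k in atTop, p ∈ closure (convexHull ℝ (D k)) := by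
  by_contra hcon
  have hcon2 : ∃ᶠ k in atTop, p ∉ closure (convexHull ℝ (D k)) := Filter.not_eventually.1 hcon
  obtain ⟨φ, hφ, hφp⟩ := extraction_of_frequently_atTop hcon2
  have hv : ∀ k, ∃ v : PP b, ‖v‖ = 1 ∧ ∀ c ∈ D (φ k), inner ℝ v p ≤ inner ℝ v c := by
    intro k
    obtain ⟨v, h1, h2⟩ := exists_unit (convex_convexHull ℝ (D (φ k))) (hφp k)
    exact ⟨v, h1, fun c hc => h2 c (subset_convexHull ℝ _ hc)⟩
  choose v hv1 hv2 using hv
  have hcomp : IsCompact (sphere (0 : PP b) 1) := isCompact_sphere _ _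
  obtain ⟨v0, hv0, ψ, hψ, hlimv⟩ := hcomp.tendsto_subseq (x := v)
    (fun k => by rw [mem_sphere_zero_iff_norm]; exact hv1 k)
  rw [mem_sphere_zero_iff_norm] at hv0
  -- a point of `W` strictly below
  obtain ⟨s, hsW, hs⟩ : ∃ s ∈ W, inner ℝ v0 s < inner ℝ v0 p := by
    by_contra hno
    push Not at hno
    have h1 : W ⊆ {x | inner ℝ v0 p ≤ inner ℝ v0 x} := hno
    have h2 : Convex ℝ {x : PP b | inner ℝ v0 p ≤ inner ℝ v0 x} := by
      have := convex_halfSpace_ge (𝕜 := ℝ) (f := fun x : PP b => inner ℝ v0 x)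
        (IsLinearMap.mk (fun x y => inner_add_right _ _ _) (fun c x => by
          rw [inner_smul_right]; rfl)) (inner ℝ v0 p)
      exact this
    have h3 := hull.trans (convexHull_min h1 h2)
    obtain ⟨δ, hδ, hball⟩ := Metric.isOpen_iff.1 hΩo p hp
    have h4 : p - (δ / 2) • v0 ∈ Ω := by
      apply hball
      rw [mem_ball, dist_eq_norm, sub_sub_cancel_left, norm_neg, norm_smul, hv0, mul_one,
        Real.norm_of_nonneg (by positivity)]
      linarith
    have h5 : inner ℝ v0 p ≤ inner ℝ v0 (p - (δ / 2) • v0) := h3 h4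
    rw [inner_sub_right, inner_smul_right, real_inner_self_eq_norm_sq, hv0] at h5
    norm_num at h5
    linarith
  -- a ball around it
  obtain ⟨r, hr, hball⟩ := Metric.isOpen_iff.1 hW s hsW
  set η : ℝ := inner ℝ v0 p - inner ℝ v0 s with hη
  have hη0 : 0 < η := by rw [hη]; linarith
  set ρ : ℝ := min r (η / 4) with hρ
  have hρ0 : 0 < ρ := lt_min hr (by positivity)
  set M : ℝ := ‖p‖ + ‖s‖ + ρ with hM
  have hM0 : 0 < M := by positivity
  have hev : ∀ᶠ k in atTop, ‖v (ψ k) - v0‖ < η / (4 * M) := by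
    have h1 := hlimv.dist tendsto_const_nhds (b := v0)
    have h2 := (tendsto_iff_norm_sub_tendsto_zero.1 hlimv)
    exact (tendsto_order.1 h2).2 _ (by positivity)
  have hnull : ∀ᶠ k in atTop, volume (ball s ρ) ≤ volume (F (φ (ψ k)) ∩ W) := by
    filter_upwards [hev] with k hk
    have hdis : ∀ x ∈ ball s ρ, x ∉ D (φ (ψ k)) := by
      intro x hx hxD
      have h1 := hv2 (ψ k) x hxD
      rw [mem_ball, dist_eq_norm] at hx
      have h2 : inner ℝ (v (ψ k)) (p - x) ≤ (0 : ℝ) := by
        rw [inner_sub_right]; linarith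
      have h3 : inner ℝ (v (ψ k)) (p - x) = inner ℝ (v (ψ k) - v0) (p - x) +
          (inner ℝ v0 (s - x) + η) := by
        rw [hη]
        simp only [inner_sub_left, inner_sub_right]
        ring
      have h4 : |inner ℝ (v (ψ k) - v0) (p - x)| ≤ ‖v (ψ k) - v0‖ * ‖p - x‖ :=
        abs_real_inner_le_norm _ _
      have h5 : |inner ℝ v0 (s - x)| ≤ ‖v0‖ * ‖s - x‖ := abs_real_inner_le_norm _ _
      have h6 : ‖p - x‖ ≤ M := by
        have e : p - x = p - s + (s - x) := by abel
        calc ‖p - x‖ ≤ ‖p - s‖ + ‖s - x‖ := by rw [e]; exact norm_add_le _ _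
          _ ≤ ‖p‖ + ‖s‖ + ρ := by
            have := norm_sub_le p s
            rw [norm_sub_rev] at hx
            linarith
      have h7 : ‖v (ψ k) - v0‖ * ‖p - x‖ ≤ η / (4 * M) * M :=
        mul_le_mul hk.le h6 (norm_nonneg _) (by positivity)
      have h8 : η / (4 * M) * M = η / 4 := by field_simp
      have h9 : ‖v0‖ * ‖s - x‖ ≤ η / 4 := by
        rw [hv0, one_mul, norm_sub_rev]
        exact hx.le.trans (min_le_right _ _)
      have h10 := (abs_le.1 (h4.trans h7)).1
      have h11 := (abs_le.1 (h5.trans h9)).1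
      rw [h8] at h10
      linarith
    have hsub : ball s ρ ⊆ (F (φ (ψ k)) ∩ W) ∪ ((Ω \ F (φ (ψ k))) \ D (φ (ψ k))) := by
      intro x hx
      have hxW : x ∈ W := hball (ball_subset_ball (min_le_left _ _) hx)
      by_cases hxF : x ∈ F (φ (ψ k))
      · exact Or.inl ⟨hxF, hxW⟩
      · exact Or.inr ⟨⟨hWs hxW, hxF⟩, hdis x hx⟩
    calc volume (ball s ρ) ≤ volume (F (φ (ψ k)) ∩ W) +
          volume ((Ω \ F (φ (ψ k))) \ D (φ (ψ k))) := (measure_mono hsub).trans (measure_union_le _ _)
      _ = volume (F (φ (ψ k)) ∩ W) := by rw [hD, add_zero]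
  have hlim2 : Tendsto (fun k => volume (F (φ (ψ k)) ∩ W)) atTop (𝓝 0) :=
    hlim.comp (hφ.tendsto_atTop.comp hψ.tendsto_atTop)
  have h1 := ge_of_tendsto hlim2 hnull
  have h2 : 0 < volume (ball s ρ) := measure_ball_pos volume s hρ0
  exact absurd h1 (not_le.2 h2)

theorem hull_limit {b : ℕ} {Ω W : Set (PP b)} (hΩo : IsOpen Ω)
    (hΩb : Bornology.IsBounded Ω)
    (hW : IsOpen W) (hWs : W ⊆ Ω) (hull : Ω ⊆ convexHull ℝ W)
    {F D : ℕ → Set (PP b)}
    (hlim : Tendsto (fun k => volume (F k ∩ W)) atTop (𝓝 0))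
    (hD : ∀ k, volume ((Ω \ F k) \ D k) = 0) :
    Tendsto (fun k => volume (Ω \ convexHull ℝ (D k))) atTop (𝓝 0) := by
  have h1 : ∀ k, volume (Ω \ convexHull ℝ (D k)) ≤ volume (Ω \ closure (convexHull ℝ (D k))) := by
    intro k
    have h2 : Ω \ convexHull ℝ (D k) ⊆ (Ω \ closure (convexHull ℝ (D k))) ∪
        frontier (convexHull ℝ (D k)) := by
      intro x hx
      by_cases hxc : x ∈ closure (convexHull ℝ (D k))
      · right
        exact ⟨hxc, fun h => hx.2 (interior_subset h)⟩
      · exact Or.inl ⟨hx.1, hxc⟩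
    calc volume (Ω \ convexHull ℝ (D k)) ≤ volume (Ω \ closure (convexHull ℝ (D k))) +
          volume (frontier (convexHull ℝ (D k))) := (measure_mono h2).trans (measure_union_le _ _)
      _ = volume (Ω \ closure (convexHull ℝ (D k))) := by
          rw [(convex_convexHull ℝ (D k)).addHaar_frontier volume, add_zero]
  refine tendsto_of_tendsto_of_tendsto_of_le_of_le tendsto_const_nhds ?_ (fun _ => zero_le) h1
  have hm : ∀ k, MeasurableSet (Ω \ closure (convexHull ℝ (D k))) := fun k =>
    hΩo.measurableSet.diff isClosed_closure.measurableSet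
  have h3 : ∀ k, volume (Ω \ closure (convexHull ℝ (D k))) =
      ∫⁻ x, (Ω \ closure (convexHull ℝ (D k))).indicator (fun _ => (1 : ℝ≥0∞)) x := fun k => by
    rw [lintegral_indicator (hm k), setLIntegral_one]
  simp_rw [h3]
  have h4 : (0 : ℝ≥0∞) = ∫⁻ _ : PP b, (0 : ℝ≥0∞) := by simp
  rw [h4]
  refine tendsto_lintegral_of_dominated_convergence (Ω.indicator fun _ => (1 : ℝ≥0∞))
    (fun k => measurable_const.indicator (hm k)) (fun k => ?_) ?_ ?_
  · refine Eventually.of_forall fun x => ?_
    exact indicator_le_indicator_of_subset sdiff_subset (fun _ => zero_le) x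
  · rw [lintegral_indicator hΩo.measurableSet, setLIntegral_one]
    exact hΩb.measure_lt_top.ne
  · refine Eventually.of_forall fun x => ?_
    refine tendsto_const_nhds.congr' ?_
    by_cases hx : x ∈ Ω
    · filter_upwards [hull_point hΩo hW hWs hull hlim hD hx] with k hk
      rw [indicator_of_notMem]
      exact fun h => h.2 hk
    · exact Eventually.of_forall fun k => (indicator_of_notMem (fun h => hx h.1) _).symm

/-- Almost every point of a set is a density point. -/
theorem ae_dens1 {n : ℕ} {Ω E : Set (EuclideanSpace ℝ (Fin n))} (hE : MeasurableSet E)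
    (hs : E ⊆ Ω) : volume (E \ dens1 Ω E) = 0 := by
  have h1 := Besicovitch.ae_tendsto_measure_inter_div_of_measurableSet
    (volume : Measure (EuclideanSpace ℝ (Fin n))) hE
  rw [ae_iff] at h1
  refine measure_mono_null ?_ h1
  rintro x ⟨hxE, hxd⟩ hcon
  apply hxd
  refine ⟨hs hxE, ?_⟩
  rw [indicator_of_mem hxE] at hcon
  refine hcon.congr' ?_
  filter_upwards [self_mem_nhdsWithin] with r hr
  have hr0 : (0 : ℝ) < r := hr
  have h2 : volume (closedBall x r) = volume (ball x r) := by
    apply le_antisymm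
    · have h4 : closedBall x r ⊆ ball x r ∪ sphere x r := by
        intro y hy
        rcases (mem_closedBall.1 hy).lt_or_eq with h | h
        · exact Or.inl h
        · exact Or.inr h
      calc volume (closedBall x r) ≤ volume (ball x r) + volume (sphere x r) :=
            (measure_mono h4).trans (measure_union_le _ _)
        _ = volume (ball x r) := by
            rw [Measure.addHaar_sphere_of_ne_zero volume x hr0.ne', add_zero]
    · exact measure_mono ball_subset_closedBall
  have h3 : volume (E ∩ closedBall x r) = volume (E ∩ ball x r) := by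
    apply le_antisymm
    · have h4 : E ∩ closedBall x r ⊆ (E ∩ ball x r) ∪ sphere x r := by
        rintro y ⟨hyE, hy⟩
        rcases (mem_closedBall.1 hy).lt_or_eq with h | h
        · exact Or.inl ⟨hyE, h⟩
        · exact Or.inr h
      calc volume (E ∩ closedBall x r) ≤ volume (E ∩ ball x r) + volume (sphere x r) :=
            (measure_mono h4).trans (measure_union_le _ _)
        _ = volume (E ∩ ball x r) := by
            rw [Measure.addHaar_sphere_of_ne_zero volume x hr0.ne', add_zero]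
    · exact measure_mono (inter_subset_inter_right _ ball_subset_closedBall)
  rw [h2, h3]

end Pool.Agent.H84.Q2
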