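import Pool.Agent.H84.Q2.Lim
import Pool.Agent.H84.Q2.Hull
import Pool.Graph.R_seed8.TH703.HU.Fin2
import Pool.Graph.R_seed8.TH859.HU.B9

/-!
# From the planar problem to isoperimetric sets in thin convex bodies
-/

set_option autoImplicit false

open MeasureTheory Set Metric Filter Topology
open scoped ENNReal Real

noncomputable section

namespace Pool.Agent.H84.Q2

open Pool.Agent.TH304.MI Pool.Agent.TH703.HU

/-- A minimizer for the `ε`-perimeter gives an isoperimetric set in the thin body. -/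
theorem thin {b : ℕ} {Ω F : Set (PP b)} (hBo : IsOpen Ω)
    (hBb : Bornology.IsBounded Ω) {ε : ℝ} (hε : 0 < ε) {α : ℝ}
    (hα1 : α < 1) (hα0 : 0 < α) (hF : ExB ε Ω ((1 - α) * volume.real Ω) F) {C₀ : ℝ}
    (hC₀ : PLe ε Ω F C₀) :
    IsIso (sc ε '' Ω) (sc ε '' Ω \ sc ε '' F) α ∧
      Per (sc ε '' Ω) (sc ε '' Ω \ sc ε '' F) < ⊤ := by
  have b9 := Pool.Agent.TH859.HU.b9
  have hε' : ε ≠ 0 := hε.ne'
  set L := scC b ε hε' with hL
  have hLs : ∀ S : Set (PP b), sc ε '' S = L '' S := fun S => rfl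
  have hLm : ∀ {S : Set (PP b)}, MeasurableSet S → MeasurableSet (L '' S) :=
    fun hS => (L.toHomeomorph.toMeasurableEquiv.measurableEmbedding.measurableSet_image).2 hS
  set κ : ℝ≥0∞ := ENNReal.ofReal |LinearMap.det (L : PP b →L[ℝ] PP b).toLinearMap| with hκ
  have hκv : ∀ S : Set (PP b), volume (L '' S) = κ * volume S := fun S =>
    Measure.addHaar_image_continuousLinearEquiv volume L S
  have hdet : LinearMap.det (L : PP b →L[ℝ] PP b).toLinearMap ≠ 0 := by
    have := LinearEquiv.isUnit_det' L.toLinearEquiv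
    exact this.ne_zero
  have hκ0 : κ ≠ 0 := by
    rw [hκ, Ne, ENNReal.ofReal_eq_zero, not_le]
    exact abs_pos.2 hdet
  have hκt : κ ≠ ⊤ := ENNReal.ofReal_ne_top
  rw [hLs, hLs]
  set Ω' : Set (PP b) := L '' Ω with hΩ
  have hΩo : IsOpen Ω' := L.toHomeomorph.isOpenMap _ hBo
  have hΩb : Bornology.IsBounded Ω' :=
    (L : PP b →L[ℝ] PP b).lipschitz.isBounded_image hBb
  have hΩfin : volume Ω' ≠ ⊤ := hΩb.measure_lt_top.ne
  have hBfin : volume Ω ≠ ⊤ := hBb.measure_lt_top.ne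
  have hFi : L '' F ⊆ Ω' := image_mono hF.sub
  have hFim : MeasurableSet (L '' F) := hLm hF.meas
  have hFfin : volume (L '' F) ≠ ⊤ := measure_ne_top_of_subset hFi hΩfin
  set E : Set (PP b) := Ω' \ L '' F with hE
  have hEm : MeasurableSet E := hΩo.measurableSet.diff hFim
  have hEΩ : E ⊆ Ω' := sdiff_subset
  have hEv : volume E = volume Ω' - volume (L '' F) := measure_sdiff hFi hFim.nullMeasurableSet hFfin
  have hFfin0 : volume F ≠ ⊤ := measure_ne_top_of_subset hF.sub hBfin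
  -- volume fraction
  have hαE : volume E = ENNReal.ofReal α * volume Ω' := by
    rw [hEv, hΩ, hκv, hκv]
    have h1 : volume F = ENNReal.ofReal ((1 - α) * volume.real Ω) := by
      rw [← hF.vol, Measure.real, ENNReal.ofReal_toReal hFfin0]
    have h2 : volume Ω = ENNReal.ofReal (volume.real Ω) := by
      rw [Measure.real, ENNReal.ofReal_toReal hBfin]
    have h3 : (0 : ℝ) ≤ volume.real Ω := measureReal_nonneg
    rw [h1, h2, ← ENNReal.mul_sub (fun _ _ => hκt),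
      ← ENNReal.ofReal_sub _ (mul_nonneg (by linarith) h3)]
    rw [mul_comm (ENNReal.ofReal α), mul_assoc, ← ENNReal.ofReal_mul' hα0.le]
    congr 2
    ring
  -- transfer of perimeter bounds between `F` and `E`
  have hEC : ∀ C : ℝ, PLe ε Ω F C → PLe 1 Ω' E (ε ^ b * C) := by
    intro C hC
    have h1 := (b9 _ _ ε hε hBo F hF.meas hF.sub C).1 hC
    exact PLe_compl hFim hFi h1
  have hεp : (0 : ℝ) < ε ^ b := by positivity
  refine ⟨⟨hEm, hEΩ, hαE, ?_⟩, ?_⟩
  · -- minimality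
    intro H hH hHΩ hHv
    by_cases htop : Per Ω' H = ⊤
    · rw [htop]
      exact le_top
    have hC : Per Ω' H ≤ ENNReal.ofReal (Per Ω' H).toReal := by rw [ENNReal.ofReal_toReal htop]
    have h1 := (per_le_iff Ω' H ENNReal.toReal_nonneg).1 hC
    have h2 := PLe_compl hH hHΩ h1
    set G : Set (PP b) := L ⁻¹' (Ω' \ H) with hG
    have hGm : MeasurableSet G := L.continuous.measurable (hΩo.measurableSet.diff hH)
    have hGB : G ⊆ Ω := by
      intro p hp
      obtain ⟨q, hq, hqp⟩ := (hp : L p ∈ Ω' \ H).1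
      have := L.injective hqp
      exact this ▸ hq
    have hLG : L '' G = Ω' \ H := by
      rw [hG, image_preimage_eq _ L.surjective]
    have h3 : PLe 1 (sc ε '' Ω) (sc ε '' G)
        (ε ^ b * ((Per Ω' H).toReal / ε ^ b)) := by
      rw [mul_div_cancel₀ _ hεp.ne', hLs, hLs, hLG]
      exact h2
    have h4 := (b9 _ _ ε hε hBo G hGm hGB _).2 h3
    have hHfin : volume H ≠ ⊤ := measure_ne_top_of_subset hHΩ hΩfin
    have hGv : volume G = volume F := by
      have h5 : volume (L '' G) = volume (L '' F) := by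
        rw [hLG, measure_sdiff hHΩ hH.nullMeasurableSet hHfin, hHv, hEv]
        exact ENNReal.sub_sub_cancel hΩfin (measure_mono hFi)
      rw [hκv, hκv] at h5
      exact (ENNReal.mul_right_inj hκ0 hκt).1 h5
    have h6 := hF.min G _ hGm hGB (by rw [Measure.real, hGv, ← Measure.real, hF.vol]) h4
    have h7 := hEC _ h6
    rw [mul_div_cancel₀ _ hεp.ne'] at h7
    calc Per Ω' E ≤ ENNReal.ofReal (Per Ω' H).toReal :=
          (per_le_iff Ω' E ENNReal.toReal_nonneg).2 h7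
      _ = Per Ω' H := ENNReal.ofReal_toReal htop
  · -- finite perimeter
    have h1 := hEC _ hC₀
    exact lt_of_le_of_lt ((per_le_iff Ω' E (nonneg_of_PLe h1)).2 h1) ENNReal.ofReal_lt_top

theorem assemble {b : ℕ} {S : Set ℂ} {l : Fin b → ℂ → ℝ} (hS : IsOpen S)
    (hl : ∀ i, Continuous (l i)) {R : ℝ}
    (hR : ∀ x ∈ DB S l, ‖x‖ ≤ R ∧ ∀ i, l i x ≤ R) (hR0 : 0 ≤ R)
    (hc : Convex ℝ (BB S l)) (hb : Bornology.IsBounded (BB S l))
    (haff : ∀ i (x y : ℂ) (s t : ℝ), s + t = 1 → l i (s • x + t • y) = s * l i x + t * l i y)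
    (hne : (DB S l).Nonempty)
    {V : Set ℂ} (hVo : IsOpen V) (hV : V ⊆ DB S l) (hhull : DB S l ⊆ convexHull ℝ V)
    {α : ℝ} (hα0 : 0 < α) (hα1 : α < 1) {G₀ : Set ℂ} {C₀ : ℝ} (hG₀ : MeasurableSet G₀)
    (hG₀v : mu (wB S l) G₀ = (1 - α) * mu (wB S l) univ) (hG₀P : PW (wB S l) G₀ C₀)
    (hC₀ : 0 ≤ C₀)
    (hP : ∀ A, ExW (wB S l) ((1 - α) * mu (wB S l) univ) A → volume (A ∩ V) = 0)
    {c : ℝ} (hc0 : 0 < c) (hc1 : c ≤ 1) :
    ∃ Ω E : Set (EuclideanSpace ℝ (Fin (b + 2))), IsOpen Ω ∧ Convex ℝ Ω ∧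
      Bornology.IsBounded Ω ∧ Ω.Nonempty ∧ IsIso Ω E α ∧ Per Ω E < ⊤ ∧
      ENNReal.ofReal (1 - c) * volume Ω < volume (convexHull ℝ (dens1 Ω E)) := by
  have ho : IsOpen (BB S l) := isOpen_BB hS hl
  have hfin : volume (BB S l) ≠ ⊤ := hb.measure_lt_top.ne
  have hBne : (BB S l).Nonempty := by
    obtain ⟨x, hx⟩ := hne
    refine ⟨Pool.Agent.TH959.HU.Sb b (x, 0), ?_, fun i => ?_⟩
    · rw [Pool.Agent.TH959.HU.xc_Sb]
      exact hx.1
    · rw [Pool.Agent.TH959.HU.xc_Sb, Pool.Agent.TH959.HU.yc_Sb]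
      simpa using hx.2 i
  have hvolB : volume.real (BB S l) = 2 ^ b * mu (wB S l) univ := by
    rw [← aB1 hS hl MeasurableSet.univ]
    congr 1
    ext p
    exact ⟨fun h => ⟨h, mem_univ _⟩, fun h => h.1⟩
  set v : ℝ := (1 - α) * mu (wB S l) univ with hv
  have hvv : 2 ^ b * v = (1 - α) * volume.real (BB S l) := by rw [hvolB, hv]; ring
  -- minimizers
  have hex : ∀ k : ℕ, ∃ F : Set (PP b), ExB (1 / ((k : ℝ) + 1)) (BB S l) (2 ^ b * v) F := by
    intro k
    have hk : (0 : ℝ) < (k : ℝ) + 1 := by positivity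
    refine exB_exists ho hc hb (by positivity) ?_ (Pool.Agent.TH340.HU.meas_cylO ho hG₀)
      (fun p hp => hp.1) (by rw [aB1 hS hl hG₀, hG₀v]) (aB2 hS hl _ hG₀ hG₀P)
    rw [div_le_one hk]
    linarith [(Nat.cast_nonneg k : (0 : ℝ) ≤ k)]
  choose F hF using hex
  obtain ⟨A, ψ, hA, hψ, hlim⟩ := exB_limit hS hl hR hR0 hc hb hG₀ hG₀v hG₀P hC₀
    (fun k => 1 / ((k : ℝ) + 1)) F (fun k => by
      have hk : (0 : ℝ) < (k : ℝ) + 1 := by positivity
      refine ⟨by positivity, ?_⟩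
      rw [div_le_one hk]
      linarith [(Nat.cast_nonneg k : (0 : ℝ) ≤ k)])
    tendsto_one_div_add_atTop_nhds_zero_nat hF
  have hAV := hP A hA
  -- the spanning part of the body
  set W : Set (PP b) := {p | p ∈ BB S l ∧ xc p ∈ V} with hW
  have hWo : IsOpen W := ho.inter (hVo.preimage continuous_xc')
  have hWs : W ⊆ BB S l := fun p hp => hp.1
  have hWh : BB S l ⊆ convexHull ℝ W := hull_BB haff hV hhull
  have hcyl0 : volume (cylO (BB S l) A ∩ W) = 0 := by
    have h1 : cylO (BB S l) A ∩ W ⊆ cylO (BB S l) (A ∩ V) := fun p hp =>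
      ⟨hp.1.1, hp.1.2, hp.2.2⟩
    refine measure_mono_null h1 ?_
    have h2 := aB1 hS hl (hA.meas.inter hVo.measurableSet)
    have h3 : mu (wB S l) (A ∩ V) = 0 := by
      unfold mu
      exact setIntegral_measure_zero _ hAV
    rw [h3, mul_zero] at h2
    have h4 : volume (cylO (BB S l) (A ∩ V)) ≠ ⊤ :=
      measure_ne_top_of_subset (fun p hp => hp.1) hfin
    have h5 : (volume (cylO (BB S l) (A ∩ V))).toReal = 0 := h2
    rcases (ENNReal.toReal_eq_zero_iff _).1 h5 with h6 | h6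
    · exact h6
    · exact absurd h6 h4
  have hlimW : Tendsto (fun k => volume (F (ψ k) ∩ W)) atTop (𝓝 0) := by
    refine tendsto_of_tendsto_of_tendsto_of_le_of_le tendsto_const_nhds hlim
      (fun _ => zero_le) (fun k => ?_)
    have h1 : F (ψ k) ∩ W ⊆ symmDiff (F (ψ k)) (cylO (BB S l) A) ∪ (cylO (BB S l) A ∩ W) := by
      rintro p ⟨hp1, hp2⟩
      by_cases hp3 : p ∈ cylO (BB S l) A
      · exact Or.inr ⟨hp3, hp2⟩
      · exact Or.inl (Or.inl ⟨hp1, hp3⟩)
    calc volume (F (ψ k) ∩ W) ≤ volume (symmDiff (F (ψ k)) (cylO (BB S l) A)) +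
          volume (cylO (BB S l) A ∩ W) := (measure_mono h1).trans (measure_union_le _ _)
      _ = _ := by rw [hcyl0, add_zero]
  -- the density points, pulled back
  have hε0 : ∀ k : ℕ, (0 : ℝ) < 1 / ((k : ℝ) + 1) := fun k => by positivity
  set Ωk : ℕ → Set (PP b) := fun k => sc (1 / ((k : ℝ) + 1)) '' BB S l with hΩk
  set Ek : ℕ → Set (PP b) := fun k => Ωk k \ sc (1 / ((k : ℝ) + 1)) '' F k with hEk
  set D : ℕ → Set (PP b) := fun k => sc (1 / ((k : ℝ) + 1)) ⁻¹' dens1 (Ωk k) (Ek k) with hD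
  have hiso : ∀ k, IsIso (Ωk k) (Ek k) α ∧ Per (Ωk k) (Ek k) < ⊤ := by
    intro k
    have h1 : ExB (1 / ((k : ℝ) + 1)) (BB S l) ((1 - α) * volume.real (BB S l)) (F k) := by
      rw [← hvv]
      exact hF k
    refine thin ho hb (hε0 k) hα1 hα0 h1 (C₀ := 2 ^ b * C₀) ?_
    refine (hF k).min (cylO (BB S l) G₀) _ (Pool.Agent.TH340.HU.meas_cylO ho hG₀)
      (fun p hp => hp.1) ?_ (aB2 hS hl _ hG₀ hG₀P)
    rw [aB1 hS hl hG₀, hG₀v]
  have hDnull : ∀ k, volume ((BB S l \ F k) \ D k) = 0 := by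
    intro k
    have hε' : (1 / ((k : ℝ) + 1)) ≠ 0 := (hε0 k).ne'
    set L := scC b (1 / ((k : ℝ) + 1)) hε' with hL
    have h1 := ae_dens1 (hiso k).1.meas (hiso k).1.sub
    have h2 : L '' ((BB S l \ F k) \ D k) ⊆ Ek k \ dens1 (Ωk k) (Ek k) := by
      rintro _ ⟨p, ⟨⟨hp1, hp2⟩, hp3⟩, rfl⟩
      refine ⟨⟨mem_image_of_mem _ hp1, ?_⟩, hp3⟩
      rintro ⟨q, hq, hqp⟩
      have : q = p := L.injective hqp
      exact hp2 (this ▸ hq)
    have h3 := measure_mono_null h2 h1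
    rw [Measure.addHaar_image_continuousLinearEquiv volume L] at h3
    rcases mul_eq_zero.1 h3 with h4 | h4
    · exfalso
      rw [ENNReal.ofReal_eq_zero] at h4
      have h5 : LinearMap.det (L : PP b →L[ℝ] PP b).toLinearMap ≠ 0 :=
        (LinearEquiv.isUnit_det' L.toLinearEquiv).ne_zero
      exact absurd h4 (not_le.2 (abs_pos.2 h5))
    · exact h4
  have hlimH := hull_limit ho hb hWo hWs hWh (F := fun k => F (ψ k)) (D := fun k => D (ψ k))
    hlimW (fun k => hDnull (ψ k))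
  have hpos : 0 < volume (BB S l) := ho.measure_pos volume hBne
  obtain ⟨k, hk⟩ : ∃ k : ℕ, volume (BB S l \ convexHull ℝ (D (ψ k))) <
      ENNReal.ofReal c * volume (BB S l) :=
    ((tendsto_order.1 hlimH).2 _ (by
      have : 0 < ENNReal.ofReal c := ENNReal.ofReal_pos.2 hc0
      exact ENNReal.mul_pos this.ne' hpos.ne')).exists
  set j := ψ k with hj
  have hε' : (1 / ((j : ℝ) + 1)) ≠ 0 := (hε0 j).ne'
  set L := scC b (1 / ((j : ℝ) + 1)) hε' with hL
  set κ : ℝ≥0∞ := ENNReal.ofReal |LinearMap.det (L : PP b →L[ℝ] PP b).toLinearMap| with hκ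
  have hκv : ∀ S : Set (PP b), volume (L '' S) = κ * volume S := fun S =>
    Measure.addHaar_image_continuousLinearEquiv volume L S
  have hdet : LinearMap.det (L : PP b →L[ℝ] PP b).toLinearMap ≠ 0 :=
    (LinearEquiv.isUnit_det' L.toLinearEquiv).ne_zero
  have hκ0 : κ ≠ 0 := by
    rw [hκ, Ne, ENNReal.ofReal_eq_zero, not_le]
    exact abs_pos.2 hdet
  have hκt : κ ≠ ⊤ := ENNReal.ofReal_ne_top
  refine ⟨Ωk j, Ek j, L.toHomeomorph.isOpenMap _ ho,
    hc.linear_image (L : PP b →L[ℝ] PP b).toLinearMap,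
    (L : PP b →L[ℝ] PP b).lipschitz.isBounded_image hb, hBne.image _, (hiso j).1, (hiso j).2, ?_⟩
  have hLD : L '' D j = dens1 (Ωk j) (Ek j) := image_preimage_eq _ L.surjective
  have hLh : convexHull ℝ (dens1 (Ωk j) (Ek j)) = L '' convexHull ℝ (D j) := by
    rw [← hLD]
    exact ((L : PP b →L[ℝ] PP b).toLinearMap.image_convexHull (D j)).symm
  have hΩv : volume (Ωk j) = κ * volume (BB S l) := hκv _
  rw [hLh, hκv, hΩv, mul_left_comm]
  refine ENNReal.mul_lt_mul_right hκ0 hκt ?_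
  -- the inequality of volumes in the fixed body
  have h1 : volume (BB S l) ≤ volume (convexHull ℝ (D j)) +
      volume (BB S l \ convexHull ℝ (D j)) := by
    refine (measure_mono ?_).trans (measure_union_le _ _)
    intro x hx
    by_cases h : x ∈ convexHull ℝ (D j)
    · exact Or.inl h
    · exact Or.inr ⟨hx, h⟩
  by_contra hcon
  rw [not_lt] at hcon
  have h2 : volume (BB S l) < ENNReal.ofReal (1 - c) * volume (BB S l) +
      ENNReal.ofReal c * volume (BB S l) := by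
    refine lt_of_le_of_lt (h1.trans (add_le_add_left hcon _)) ?_
    refine ENNReal.add_lt_add_left ?_ hk
    exact ENNReal.mul_ne_top ENNReal.ofReal_ne_top hfin
  rw [← add_mul, ← ENNReal.ofReal_add (by linarith) hc0.le] at h2
  have h4 : 1 - c + c = 1 := by ring
  rw [h4, ENNReal.ofReal_one, one_mul] at h2
  exact lt_irrefl _ h2

end Pool.Agent.H84.Q2
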