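import Pool.Graph.R_seed8.TH554.HU.A3
import Pool.Graph.R_seed8.TH959.HU.A12
import Pool.Graph.R_seed8.TH340.HU.B8

/-!
# Box bodies over a planar domain, and their cylindrical subsets
-/

set_option autoImplicit false

open MeasureTheory Set Metric Filter Topology
open scoped ENNReal Real

noncomputable section

namespace Pool.Agent.H84.Q2

open Pool.Agent.TH304.MI Pool.Agent.TH703.HU Pool.Agent.TH959.MI Pool.Agent.TH959.HU

/-- The body over `S` whose fibre over `x` is the box `|y i| < l i x`. -/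
def BB {b : ℕ} (S : Set ℂ) (l : Fin b → ℂ → ℝ) : Set (PP b) :=
  {p | xc p ∈ S ∧ ∀ i, |yc p i| < l i (xc p)}

/-- The base of the body. -/
def DB {b : ℕ} (S : Set ℂ) (l : Fin b → ℂ → ℝ) : Set ℂ := {x | x ∈ S ∧ ∀ i, 0 < l i x}

/-- The weight of the body. -/
def wB {b : ℕ} (S : Set ℂ) (l : Fin b → ℂ → ℝ) : ℂ → ℝ :=
  (DB S l).indicator fun x => ∏ i, l i x

/-- The fibre. -/
def FbB {b : ℕ} (S : Set ℂ) (l : Fin b → ℂ → ℝ) (x : ℂ) : Set (Fin b → ℝ) :=
  {y | x ∈ S ∧ ∀ i, |y i| < l i x}

section basics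

variable {b : ℕ} {S : Set ℂ} {l : Fin b → ℂ → ℝ}

theorem wB_pos {x : ℂ} (h : x ∈ DB S l) : 0 < wB S l x := by
  unfold wB
  rw [indicator_of_mem h]
  exact Finset.prod_pos fun i _ => h.2 i

theorem wB_zero {x : ℂ} (h : x ∉ DB S l) : wB S l x = 0 := by
  unfold wB
  rw [indicator_of_notMem h]

theorem wB_nonneg (x : ℂ) : 0 ≤ wB S l x := by
  by_cases h : x ∈ DB S l
  · exact (wB_pos h).le
  · rw [wB_zero h]

theorem wB_supp : {x | 0 < wB S l x} = DB S l := by
  ext x
  constructor
  · intro h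
    by_contra h'
    have h2 : 0 < wB S l x := h
    rw [wB_zero h'] at h2
    exact lt_irrefl _ h2
  · exact fun h => wB_pos h

theorem isOpen_DB (hS : IsOpen S) (hl : ∀ i, Continuous (l i)) : IsOpen (DB S l) := by
  have h : DB S l = S ∩ ⋂ i, {x | 0 < l i x} := by
    ext x
    rw [mem_inter_iff, mem_iInter]
    rfl
  rw [h]
  exact hS.inter (isOpen_iInter_of_finite fun i => isOpen_lt continuous_const (hl i))

theorem continuous_xc' {b : ℕ} : Continuous (xc : PP b → ℂ) :=
  Pool.Agent.TH340.HU.continuous_xc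

theorem continuous_yc' {b : ℕ} (i : Fin b) : Continuous fun p : PP b => yc p i := by
  unfold yc
  fun_prop

theorem isOpen_BB (hS : IsOpen S) (hl : ∀ i, Continuous (l i)) : IsOpen (BB S l) := by
  have h : BB S l = xc ⁻¹' S ∩ ⋂ i, {p | |yc p i| < l i (xc p)} := by
    ext p
    rw [mem_inter_iff, mem_iInter]
    rfl
  rw [h]
  exact (hS.preimage continuous_xc').inter (isOpen_iInter_of_finite fun i =>
    isOpen_lt (continuous_yc' i).abs ((hl i).comp continuous_xc'))

theorem mem_BB_iff (p : PP b) : p ∈ BB S l ↔ yc p ∈ FbB S l (xc p) := Iff.rfl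

theorem DB_of_BB' {p : PP b} (h : p ∈ BB S l) : xc p ∈ DB S l :=
  ⟨h.1, fun i => lt_of_le_of_lt (abs_nonneg _) (h.2 i)⟩

theorem vol_FbB (x : ℂ) : volume (FbB S l x) = ENNReal.ofReal (2 ^ b * wB S l x) := by
  by_cases h : x ∈ DB S l
  · have h1 : FbB S l x = Set.pi univ fun i => Ioo (-l i x) (l i x) := by
      ext y
      rw [mem_univ_pi]
      constructor
      · exact fun hy i => abs_lt.1 (hy.2 i)
      · exact fun hy => ⟨h.1, fun i => abs_lt.2 (hy i)⟩
    rw [h1, Real.volume_pi_Ioo, ← ENNReal.ofReal_prod_of_nonneg]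
    · congr 1
      have h3 : ∀ i : Fin b, l i x - -l i x = 2 * l i x := fun i => by ring
      rw [Finset.prod_congr rfl fun i _ => h3 i, Finset.prod_mul_distrib, Finset.prod_const,
        Finset.card_univ, Fintype.card_fin]
      unfold wB
      rw [indicator_of_mem h]
    · intro i _
      have := h.2 i
      linarith
  · rw [wB_zero h, mul_zero, ENNReal.ofReal_zero]
    have h1 : FbB S l x = ∅ := by
      ext y
      constructor
      · exact fun hy => absurd ⟨hy.1, fun i => lt_of_le_of_lt (abs_nonneg _) (hy.2 i)⟩ h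
      · exact fun hy => absurd hy (notMem_empty _)
    rw [h1, measure_empty]

theorem meas_totB (hS : IsOpen S) (hl : ∀ i, Continuous (l i)) :
    IsOpen {q : ℂ × (Fin b → ℝ) | q.2 ∈ FbB S l q.1} := by
  have h : {q : ℂ × (Fin b → ℝ) | q.2 ∈ FbB S l q.1} =
      Prod.fst ⁻¹' S ∩ ⋂ i : Fin b, {q : ℂ × (Fin b → ℝ) | |q.2 i| < l i q.1} := by
    ext p
    rw [mem_inter_iff, mem_iInter]
    rfl
  rw [h]
  exact (hS.preimage continuous_fst).inter (isOpen_iInter_of_finite fun i =>
    isOpen_lt ((continuous_apply i).comp continuous_snd).abs ((hl i).comp continuous_fst))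

theorem meas_wB (hS : IsOpen S) (hl : ∀ i, Continuous (l i)) : Measurable (wB S l) := by
  unfold wB
  exact (Finset.measurable_fun_prod _ fun i _ => (hl i).measurable).indicator
    (isOpen_DB hS hl).measurableSet

/-- Volumes of cylindrical sets. -/
theorem aB1 (hS : IsOpen S) (hl : ∀ i, Continuous (l i)) {A : Set ℂ} (hA : MeasurableSet A) :
    volume.real (cylO (BB S l) A) = 2 ^ b * mu (wB S l) A := by
  obtain ⟨e, he, hm⟩ := Pool.Agent.TH73.MI.t_fub b
  set U : Set (ℂ × (Fin b → ℝ)) := {q | q.2 ∈ FbB S l q.1} ∩ {q | q.1 ∈ A} with hU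
  have hUm : MeasurableSet U := (meas_totB hS hl).measurableSet.inter (measurable_fst hA)
  have h1 : cylO (BB S l) A = e ⁻¹' U := by
    ext p
    rw [mem_preimage, he p]
    rfl
  rw [Measure.real, h1, hm.measure_preimage hUm.nullMeasurableSet, Measure.volume_eq_prod,
    Measure.prod_apply hUm]
  have h2 : ∀ x : ℂ, volume (Prod.mk x ⁻¹' U) =
      A.indicator (fun x => ENNReal.ofReal (2 ^ b * wB S l x)) x := by
    intro x
    by_cases hx : x ∈ A
    · rw [indicator_of_mem hx, ← vol_FbB]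
      congr 1
      ext y
      exact ⟨fun h => h.1, fun h => ⟨h, hx⟩⟩
    · rw [indicator_of_notMem hx]
      have : Prod.mk x ⁻¹' U = ∅ := by
        ext z
        exact ⟨fun h => absurd h.2 hx, fun h => absurd h (notMem_empty _)⟩
      rw [this, measure_empty]
  rw [lintegral_congr h2, lintegral_indicator hA]
  unfold mu
  rw [← integral_const_mul, integral_eq_lintegral_of_nonneg_ae]
  · exact ae_of_all _ fun x => mul_nonneg (by positivity) (wB_nonneg x)
  · exact ((meas_wB hS hl).const_mul _).aestronglyMeasurable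

/-- The perimeter of a cylindrical set is at most the weighted perimeter of the base. -/
theorem aB2 (hS : IsOpen S) (hl : ∀ i, Continuous (l i)) (ε : ℝ) {A : Set ℂ}
    (hA : MeasurableSet A) {C : ℝ} (hP : PW (wB S l) A C) :
    PLe ε (BB S l) (cylO (BB S l) A) (2 ^ b * C) := by
  intro φ hφ
  have hn : (0 : ℝ) < 2 ^ b := by positivity
  have hF : ContDiff ℝ 1 (Fx φ) := (xL _).contDiff.comp (hφ.cd.comp (Sb _).contDiff)
  have hcF : HasCompactSupport (Fx φ) := (hcs_Sb hφ.cs).comp_left (g := xL _) (map_zero _)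
  have hts : ∀ q ∈ tsupport (Fx φ), Sb _ q ∈ BB S l := by
    intro q hq
    have h1 : tsupport (Fx φ) ⊆ Sb _ ⁻¹' tsupport φ := by
      refine closure_minimal ?_ ((isClosed_tsupport φ).preimage (Sb _).continuous)
      intro q hq
      refine subset_tsupport _ fun h => hq ?_
      unfold Fx
      rw [h, map_zero]
    exact hφ.sub (h1 hq)
  have hz : ∀ x y, y ∉ FbB S l x → Fx φ (x, y) = 0 := by
    intro x y hy
    by_contra h
    exact hy (hts (x, y) (subset_tsupport _ h))
  have hYc : ContDiff ℝ 1 fun x => ((2 : ℝ) ^ b)⁻¹ • ∫ y, Fx φ (x, y) := by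
    have := (Pool.Agent.TH959.HU.contDiff_marg hF hcF).const_smul ((2 : ℝ) ^ b)⁻¹
    exact this
  have hTW : TW (wB S l) fun x => ((2 : ℝ) ^ b)⁻¹ • ∫ y, Fx φ (x, y) := by
    refine ⟨hYc, ?_, ?_, fun x => ?_⟩
    · refine HasCompactSupport.intro (K := Prod.fst '' tsupport (Fx φ))
        (hcF.isCompact.image continuous_fst) fun x hx => ?_
      have : ∀ y, Fx φ (x, y) = 0 := by
        intro y
        by_contra h'
        exact hx ⟨(x, y), subset_tsupport _ h', rfl⟩
      simp [this]
    · have h1 : tsupport (fun x => ((2 : ℝ) ^ b)⁻¹ • ∫ y, Fx φ (x, y)) ⊆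
          Prod.fst '' tsupport (Fx φ) := by
        refine closure_minimal ?_ (hcF.isCompact.image continuous_fst).isClosed
        intro x hx
        by_contra h
        apply hx
        have : ∀ y, Fx φ (x, y) = 0 := by
          intro y
          by_contra h'
          exact h ⟨(x, y), subset_tsupport _ h', rfl⟩
        simp [this]
      refine h1.trans ?_
      rintro x ⟨⟨x', y⟩, hq, rfl⟩
      have h2 := DB_of_BB' (hts _ hq)
      rw [xc_Sb] at h2
      exact wB_pos h2
    · rw [norm_smul, norm_inv, Real.norm_of_nonneg hn.le, inv_mul_le_iff₀ hn]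
      have hfm : MeasurableSet (FbB S l x) :=
        measurable_prodMk_left (meas_totB hS hl).measurableSet
      have h1 : ‖∫ y, Fx φ (x, y)‖ ≤ ∫ y, (FbB S l x).indicator (fun _ => (1 : ℝ)) y := by
        refine norm_integral_le_of_norm_le ?_ (ae_of_all _ fun y => ?_)
        · refine (integrable_indicator_iff hfm).2 (integrableOn_const ?_)
          rw [vol_FbB]
          exact ENNReal.ofReal_ne_top
        · by_cases hy : y ∈ FbB S l x
          · rw [indicator_of_mem hy]
            exact (norm_xc_le ε _).trans (hφ.bd _)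
          · rw [indicator_of_notMem hy, hz x y hy, norm_zero]
      have h2 : ∫ y, (FbB S l x).indicator (fun _ => (1 : ℝ)) y = 2 ^ b * wB S l x := by
        rw [integral_indicator hfm, setIntegral_const, smul_eq_mul, mul_one, Measure.real,
          vol_FbB, ENNReal.toReal_ofReal (mul_nonneg hn.le (wB_nonneg x))]
      exact h1.trans h2.le
  have h1 := hP _ hTW
  have h2 : ∀ x, dv2 (fun x => ((2 : ℝ) ^ b)⁻¹ • ∫ y, Fx φ (x, y)) x =
      ((2 : ℝ) ^ b)⁻¹ * Lam (fderiv ℝ (fun x => ∫ y, Fx φ (x, y)) x) := fun x =>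
    Lam_fderiv (Pool.Agent.TH959.HU.contDiff_marg hF hcF) x
  simp_rw [h2] at h1
  rw [integral_const_mul, inv_mul_le_iff₀ hn] at h1
  rw [Pool.Agent.TH959.HU.integral_cylO hφ.cd hφ.cs hφ.sub hA]
  exact h1

end basics

end Pool.Agent.H84.Q2
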