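import Pool.Agent.H84.Q2.Body

/-!
# Box bodies: fields on the body bound the weighted perimeter of the base
-/

set_option autoImplicit false

open MeasureTheory Set Metric Filter Topology
open scoped ENNReal Real

noncomputable section

namespace Pool.Agent.H84.Q2

open Pool.Agent.TH304.MI Pool.Agent.TH703.HU Pool.Agent.TH959.MI Pool.Agent.TH554.HU

section a3

variable {b : ℕ} {S : Set ℂ} {l : Fin b → ℂ → ℝ}

/-- the body in split coordinates -/
def UB (S : Set ℂ) (l : Fin b → ℂ → ℝ) : Set (ℂ × (Fin b → ℝ)) := {q | q.2 ∈ FbB S l q.1}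

theorem wB_contOn (hl : ∀ i, Continuous (l i)) {K : Set ℂ} (hK : K ⊆ DB S l) :
    ContinuousOn (wB S l) K := by
  have h1 : Continuous fun x => ∏ i, l i x := continuous_finsetProd _ fun i _ => hl i
  refine h1.continuousOn.congr fun x hx => ?_
  unfold wB
  rw [indicator_of_mem (hK hx)]

theorem exists_chiB (hS : IsOpen S) (hl : ∀ i, Continuous (l i)) {R : ℝ}
    (hR : ∀ x ∈ DB S l, ‖x‖ ≤ R ∧ ∀ i, l i x ≤ R) (hR0 : 0 ≤ R) :
    ∃ χ : ℕ → ℂ × (Fin b → ℝ) → ℝ,
    (∀ j, ContDiff ℝ 1 (χ j)) ∧ (∀ j, HasCompactSupport (χ j)) ∧ (∀ j, tsupport (χ j) ⊆ UB S l) ∧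
    (∀ j q, 0 ≤ χ j q) ∧ (∀ j q, χ j q ≤ 1) ∧ (∀ q, Monotone fun j => χ j q) ∧
    ∀ q, Tendsto (fun j => χ j q) atTop (𝓝 ((UB S l).indicator (fun _ => (1 : ℝ)) q)) := by
  have hop : IsOpen (UB S l) := meas_totB hS hl
  obtain ⟨f, hf1, hf2, hf3⟩ := hop.exists_contDiff_support_eq (n := 1)
  have hf0 : ∀ q, 0 ≤ f q := fun q => (hf3 (mem_range_self q)).1
  have hfc : Continuous f := hf2.continuous
  set χ : ℕ → ℂ × (Fin b → ℝ) → ℝ := fun j q =>
    Real.smoothTransition ((j : ℝ) * f q - 1) with hχ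
  have hsup : ∀ j q, χ j q ≠ 0 → 1 ≤ (j : ℝ) * f q := by
    intro j q h
    by_contra hc
    push Not at hc
    exact h (Real.smoothTransition.zero_of_nonpos (by linarith))
  have hcl : ∀ j : ℕ, IsClosed {q | 1 ≤ (j : ℝ) * f q} := fun j =>
    isClosed_le continuous_const (continuous_const.mul hfc)
  have hts : ∀ j, tsupport (χ j) ⊆ {q | 1 ≤ (j : ℝ) * f q} := fun j =>
    closure_minimal (hsup j) (hcl j)
  have hU : ∀ (j : ℕ) q, 1 ≤ (j : ℝ) * f q → q ∈ UB S l := by
    intro j q h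
    rw [← hf1, Function.mem_support]
    intro h0
    rw [h0, mul_zero] at h
    linarith
  have htU : ∀ j, tsupport (χ j) ⊆ UB S l := fun j q hq => hU j q (hts j hq)
  have hK : IsCompact (closedBall (0 : ℂ) R ×ˢ closedBall (0 : Fin b → ℝ) R) :=
    (isCompact_closedBall _ _).prod (isCompact_closedBall _ _)
  have hsubK : UB S l ⊆ closedBall (0 : ℂ) R ×ˢ closedBall (0 : Fin b → ℝ) R := by
    rintro q ⟨h1, h2⟩
    have hD : q.1 ∈ DB S l := ⟨h1, fun i => lt_of_le_of_lt (abs_nonneg _) (h2 i)⟩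
    constructor
    · rw [mem_closedBall_zero_iff]
      exact (hR _ hD).1
    · rw [mem_closedBall_zero_iff, pi_norm_le_iff_of_nonneg hR0]
      intro i
      rw [Real.norm_eq_abs]
      exact (h2 i).le.trans ((hR _ hD).2 i)
  refine ⟨χ, fun j => ?_, fun j => ?_, htU, fun j q => Real.smoothTransition.nonneg _,
    fun j q => Real.smoothTransition.le_one _, fun q => ?_, fun q => ?_⟩
  · exact Real.smoothTransition.contDiff.comp ((contDiff_const.mul hf2).sub contDiff_const)
  · exact hK.of_isClosed_subset (isClosed_tsupport _) ((htU j).trans hsubK)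
  · intro i j hij
    apply Real.smoothTransition.monotone
    have h1 : (i : ℝ) ≤ j := by exact_mod_cast hij
    have := mul_le_mul_of_nonneg_right h1 (hf0 q)
    linarith
  · by_cases hq : q ∈ UB S l
    · rw [indicator_of_mem hq]
      have hpos : 0 < f q := by
        have : f q ≠ 0 := by
          rw [← hf1] at hq
          exact hq
        exact lt_of_le_of_ne (hf0 q) this.symm
      have h1 : Tendsto (fun j : ℕ => (j : ℝ) * f q - 1) atTop atTop :=
        tendsto_atTop_add_const_right _ _ (tendsto_natCast_atTop_atTop.atTop_mul_const hpos)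
      have h2 : (fun j => χ j q) =ᶠ[atTop] fun _ => 1 := by
        filter_upwards [h1.eventually_ge_atTop 1] with j hj
        exact Real.smoothTransition.one_of_one_le hj
      exact tendsto_const_nhds.congr' h2.symm
    · rw [indicator_of_notMem hq]
      have h0 : f q = 0 := by
        rw [← hf1, Function.mem_support, not_not] at hq
        exact hq
      have h1 : (fun j => χ j q) = fun _ => 0 := by
        funext j
        simp only [hχ]
        rw [h0, mul_zero]
        exact Real.smoothTransition.zero_of_nonpos (by norm_num)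
      rw [h1]
      exact tendsto_const_nhds

theorem exists_cutB (hS : IsOpen S) (hl : ∀ i, Continuous (l i)) {R : ℝ}
    (hR : ∀ x ∈ DB S l, ‖x‖ ≤ R ∧ ∀ i, l i x ≤ R) (hR0 : 0 ≤ R)
    {K : Set ℂ} (hK : IsCompact K) (hK0 : ∀ x ∈ K, 0 < wB S l x) {δ : ℝ}
    (hδ : 0 < δ) : ∃ χ : ℂ × (Fin b → ℝ) → ℝ, ContDiff ℝ 1 χ ∧ HasCompactSupport χ ∧
      tsupport χ ⊆ UB S l ∧ (∀ q, 0 ≤ χ q) ∧ (∀ q, χ q ≤ 1) ∧
      ∀ x ∈ K, 2 ^ b * wB S l x / (1 + δ) ≤ ∫ y, χ (x, y) := by
  obtain ⟨χ, h1, h2, h3, h4, h5, h6, h7⟩ := exists_chiB hS hl hR hR0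
  have hcont : ∀ j, Continuous fun x => ∫ y, χ j (x, y) := fun j =>
    continuous_marg (h1 j).continuous (h2 j)
  have hint : ∀ j x, Integrable fun y => χ j (x, y) := fun j x =>
    ((h1 j).continuous.comp (Continuous.prodMk_right x)).integrable_of_hasCompactSupport
      (slice_hcs (h2 j) x)
  have hg0 : ∀ x, 0 ≤ 2 ^ b * wB S l x := fun x => mul_nonneg (by positivity) (wB_nonneg x)
  have hlim : ∀ x, Tendsto (fun j => ∫ y, χ j (x, y)) atTop (𝓝 (2 ^ b * wB S l x)) := by
    intro x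
    have hfm : MeasurableSet (FbB S l x) :=
      measurable_prodMk_left (meas_totB hS hl).measurableSet
    have hvol := vol_FbB (S := S) (l := l) x
    have hlim2 : ∫ y, (FbB S l x).indicator (fun _ => (1 : ℝ)) y = 2 ^ b * wB S l x := by
      rw [integral_indicator hfm, setIntegral_const, smul_eq_mul, mul_one, Measure.real, hvol,
        ENNReal.toReal_ofReal (hg0 x)]
    rw [← hlim2]
    refine tendsto_integral_of_dominated_convergence ((FbB S l x).indicator fun _ => (1 : ℝ))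
      (fun j => (hint j x).aestronglyMeasurable) ?_ ?_ ?_
    · rw [integrable_indicator_iff hfm]
      refine integrableOn_const ?_
      rw [hvol]
      exact ENNReal.ofReal_ne_top
    · intro j
      refine Eventually.of_forall fun y => ?_
      rw [Real.norm_of_nonneg (h4 j _)]
      by_cases hy : y ∈ FbB S l x
      · rw [indicator_of_mem hy]
        exact h5 j _
      · rw [indicator_of_notMem hy]
        have : χ j (x, y) = 0 := by
          by_contra h
          exact hy (h3 j (subset_tsupport _ h))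
        rw [this]
    · refine Eventually.of_forall fun y => ?_
      exact h7 (x, y)
  have hpos : ∀ x ∈ K, 0 < 2 ^ b * wB S l x := fun x hx => mul_pos (by positivity) (hK0 x hx)
  have hKD : K ⊆ DB S l := fun x hx => by
    rw [← wB_supp]
    exact hK0 x hx
  have hdini : TendstoUniformlyOn (fun j x => (∫ y, χ j (x, y)) / (2 ^ b * wB S l x)) (fun _ => 1)
      atTop K := by
    refine Monotone.tendstoUniformlyOn_of_forall_tendsto hK (fun j => ?_) (fun x hx => ?_)
      continuousOn_const (fun x hx => ?_)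
    · refine (hcont j).continuousOn.div (continuousOn_const.mul (wB_contOn hl hKD)) ?_
      intro x hx
      exact (hpos x hx).ne'
    · intro i j hij
      refine div_le_div_of_nonneg_right ?_ (hpos x hx).le
      exact integral_mono (hint i x) (hint j x) fun y => h6 (x, y) hij
    · have := (hlim x).div_const (2 ^ b * wB S l x)
      rwa [div_self (hpos x hx).ne'] at this
  rw [Metric.tendstoUniformlyOn_iff] at hdini
  obtain ⟨j, hj⟩ := (hdini (δ / (1 + δ)) (by positivity)).exists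
  refine ⟨χ j, h1 j, h2 j, h3 j, h4 j, h5 j, fun x hx => ?_⟩
  have h8 := hj x hx
  have hg := hpos x hx
  rw [Real.dist_eq, abs_lt] at h8
  have h9 : 1 / (1 + δ) ≤ (∫ y, χ j (x, y)) / (2 ^ b * wB S l x) := by
    have : 1 / (1 + δ) = 1 - δ / (1 + δ) := by
      field_simp
      ring
    linarith [h8.2]
  rw [le_div_iff₀ hg] at h9
  calc 2 ^ b * wB S l x / (1 + δ) = 1 / (1 + δ) * (2 ^ b * wB S l x) := by ring
    _ ≤ _ := h9

/-! ### The field -/

section field

variable {χ : ℂ × (Fin b → ℝ) → ℝ} {Y : ℂ → ℂ} {δ : ℝ}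

/-- the mass of the fibres -/
def qB (χ : ℂ × (Fin b → ℝ) → ℝ) (x : ℂ) : ℝ := ∫ y, χ (x, y)

/-- the field -/
def FB (χ : ℂ × (Fin b → ℝ) → ℝ) (δ : ℝ) (Y : ℂ → ℂ)
    (q : ℂ × (Fin b → ℝ)) : ℂ := (χ q * (2 ^ b / ((1 + δ) * qB χ q.1))) • Y q.1

theorem tsupport_FB1 : tsupport (FB χ δ Y) ⊆ {q | q.1 ∈ tsupport Y} := by
  refine closure_minimal ?_ ((isClosed_tsupport Y).preimage continuous_fst)
  intro q hq
  refine subset_tsupport _ fun h => hq ?_
  unfold FB
  rw [h, smul_zero]

theorem tsupport_FB2 : tsupport (FB χ δ Y) ⊆ tsupport χ := by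
  refine closure_mono ?_
  intro q hq h
  apply hq
  unfold FB
  rw [h, zero_mul, zero_smul]

theorem qB_pos (hδ : 0 < δ) (hY : TW (wB S l) Y)
    (hq : ∀ x ∈ tsupport Y, 2 ^ b * wB S l x / (1 + δ) ≤ ∫ y, χ (x, y)) {x : ℂ}
    (hx : x ∈ tsupport Y) : 0 < qB χ x := by
  refine lt_of_lt_of_le ?_ (hq x hx)
  have h1 : 0 < wB S l x := hY.sub hx
  positivity

theorem contDiff_FB (h1 : ContDiff ℝ 1 χ) (h2 : HasCompactSupport χ) (hδ : 0 < δ)
    (hY : TW (wB S l) Y)
    (hq : ∀ x ∈ tsupport Y, 2 ^ b * wB S l x / (1 + δ) ≤ ∫ y, χ (x, y)) :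
    ContDiff ℝ 1 (FB χ δ Y) := by
  rw [contDiff_iff_contDiffAt]
  intro q
  by_cases h : q ∈ tsupport (FB χ δ Y)
  · have h3 := tsupport_FB1 h
    have h4 := qB_pos hδ hY hq h3
    have h5 : ContDiff ℝ 1 (qB χ) := Pool.Agent.TH554.HU.contDiff_marg h1 h2
    have h6 : ContDiffAt ℝ 1 (fun q : ℂ × (Fin b → ℝ) => (1 + δ) * qB χ q.1) q :=
      contDiffAt_const.mul (h5.comp contDiff_fst).contDiffAt
    have h7 : (1 + δ) * qB χ q.1 ≠ 0 := by positivity
    unfold FB
    exact (h1.contDiffAt.mul (contDiffAt_const.div h6 h7)).smul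
      (hY.cd.comp contDiff_fst).contDiffAt
  · rw [notMem_tsupport_iff_eventuallyEq] at h
    exact (contDiffAt_const (c := (0 : ℂ))).congr_of_eventuallyEq h

theorem norm_FB_le (h4 : ∀ q, 0 ≤ χ q) (h5 : ∀ q, χ q ≤ 1) (hδ : 0 < δ) (hY : TW (wB S l) Y)
    (hq : ∀ x ∈ tsupport Y, 2 ^ b * wB S l x / (1 + δ) ≤ ∫ y, χ (x, y))
    (q : ℂ × (Fin b → ℝ)) : ‖FB χ δ Y q‖ ≤ 1 := by
  by_cases hz : Y q.1 = 0
  · unfold FB
    rw [hz, smul_zero, norm_zero]
    exact zero_le_one
  · have h1 : q.1 ∈ tsupport Y := subset_tsupport _ hz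
    have h2 := qB_pos hδ hY hq h1
    have h3 := hq _ h1
    have h7 : 0 ≤ 2 ^ b / ((1 + δ) * qB χ q.1) := by positivity
    unfold FB
    rw [norm_smul, Real.norm_of_nonneg (mul_nonneg (h4 q) h7)]
    calc χ q * (2 ^ b / ((1 + δ) * qB χ q.1)) * ‖Y q.1‖
        ≤ 1 * (2 ^ b / ((1 + δ) * qB χ q.1)) * wB S l q.1 := by
          refine mul_le_mul (mul_le_mul_of_nonneg_right (h5 q) h7) (hY.le _) (norm_nonneg _) ?_
          rw [one_mul]
          exact h7
      _ = (2 ^ b * wB S l q.1 / (1 + δ)) / qB χ q.1 := by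
          field_simp
      _ ≤ 1 := by
          rw [div_le_one h2]
          exact h3

theorem integral_FB (hδ : 0 < δ) (hY : TW (wB S l) Y)
    (hq : ∀ x ∈ tsupport Y, 2 ^ b * wB S l x / (1 + δ) ≤ ∫ y, χ (x, y)) (x : ℂ) :
    ∫ y, FB χ δ Y (x, y) = ((2 : ℝ) ^ b / (1 + δ)) • Y x := by
  by_cases hz : Y x = 0
  · simp [FB, hz]
  · have h1 : x ∈ tsupport Y := subset_tsupport _ hz
    have h2 := qB_pos hδ hY hq h1
    simp only [FB]
    rw [integral_smul_const, integral_mul_const]
    congr 1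
    change qB χ x * (2 ^ b / ((1 + δ) * qB χ x)) = _
    field_simp

end field

/-- Fields on the body bound the weighted perimeter of the base. -/
theorem aB3 (hS : IsOpen S) (hl : ∀ i, Continuous (l i)) {R : ℝ}
    (hR : ∀ x ∈ DB S l, ‖x‖ ≤ R ∧ ∀ i, l i x ≤ R) (hR0 : 0 ≤ R) {A : Set ℂ}
    (hA : MeasurableSet A) {C : ℝ}
    (h : ∀ φ : PP b → PP b, Fld 1 (BB S l) φ → (∀ p, yc (φ p) = 0) →
      ∫ p in cylO (BB S l) A, dv φ p ≤ 2 ^ b * C) :
    PW (wB S l) A C := by
  intro Y hY
  have key : ∀ δ : ℝ, 0 < δ → ∫ x in A, dv2 Y x ≤ (1 + δ) * C := by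
    intro δ hδ
    obtain ⟨χ, h1, h2, h3, h4, h5, h6⟩ := exists_cutB hS hl hR hR0 hY.cs.isCompact
      (fun x hx => hY.sub hx) hδ
    have hF := contDiff_FB h1 h2 hδ hY h6
    have hc : HasCompactSupport (FB χ δ Y) :=
      h2.isCompact.of_isClosed_subset (isClosed_tsupport _) tsupport_FB2
    have hinj : Function.Injective (T b) := by
      obtain ⟨e, he, -⟩ := Pool.Agent.TH73.MI.t_fub b
      intro p q hpq
      have : e p = e q := by rw [he, he]; exact hpq
      exact e.injective this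
    have hemb : IsClosedEmbedding (T b) := by
      refine (LinearMap.isClosedEmbedding_of_injective (f := (T b).toLinearMap) ?_)
      rw [LinearMap.ker_eq_bot]
      exact hinj
    have hcomp : HasCompactSupport (fun p => FB χ δ Y (T b p)) :=
      hc.comp_isClosedEmbedding (g := T b) hemb
    have hs : tsupport (fun p => J b (FB χ δ Y (T b p))) ⊆ BB S l := by
      have hcl : IsClosed {p : PP b | T b p ∈ tsupport χ} :=
        (isClosed_tsupport χ).preimage (T b).continuous
      refine (closure_minimal ?_ hcl).trans ?_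
      · intro p hp
        refine tsupport_FB2 (δ := δ) (Y := Y) (subset_tsupport _ fun h0 => hp ?_)
        dsimp only
        rw [h0, map_zero]
      · intro p hp
        exact h3 hp
    have h7 := h (fun p => J b (FB χ δ Y (T b p))) ⟨?_, ?_, hs, ?_⟩ ?_
    · rw [Pool.Agent.TH554.HU.integral_cylO hF hc hs hA] at h7
      have h8 : (fun x => ∫ y, FB χ δ Y (x, y)) = fun x => ((2 : ℝ) ^ b / (1 + δ)) • Y x :=
        funext fun x => integral_FB hδ hY h6 x
      rw [h8] at h7
      simp_rw [Lam_fderiv hY.cd] at h7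
      rw [integral_const_mul] at h7
      have h9 : (0 : ℝ) < 2 ^ b := by positivity
      have h10 : 2 ^ b * (∫ x in A, dv2 Y x) ≤ 2 ^ b * ((1 + δ) * C) := by
        have h11 := mul_le_mul_of_nonneg_left h7 (by positivity : (0 : ℝ) ≤ 1 + δ)
        calc 2 ^ b * (∫ x in A, dv2 Y x) = (1 + δ) * (2 ^ b / (1 + δ) * ∫ x in A, dv2 Y x) := by
              field_simp
          _ ≤ (1 + δ) * (2 ^ b * C) := h11
          _ = _ := by ring
      exact le_of_mul_le_mul_left h10 h9
    · exact (J b).contDiff.comp (hF.comp (T b).contDiff)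
    · exact hcomp.comp_left (g := J b) (map_zero _)
    · intro p
      rw [sc_one, norm_J]
      exact norm_FB_le h4 h5 hδ hY h6 _
    · intro p
      funext i
      exact J_succ _ i
  have hlim : Tendsto (fun n : ℕ => (1 + 1 / ((n : ℝ) + 1)) * C) atTop (𝓝 ((1 + 0) * C)) :=
    (tendsto_one_div_add_atTop_nhds_zero_nat.const_add 1).mul_const C
  rw [add_zero, one_mul] at hlim
  exact ge_of_tendsto' hlim fun n => key _ (by positivity)

end a3

end Pool.Agent.H84.Q2
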