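import Pool.Agent.H84.Q2.Planar
import Pool.Agent.H84.Q2.Assemble

/-!
# The concrete body
-/

set_option autoImplicit false

open MeasureTheory Set Metric Filter Topology
open scoped ENNReal Real

noncomputable section

namespace Pool.Agent.H84.Q2

open Pool.Agent.TH304.MI Pool.Agent.TH703.HU

/-- first coefficients -/
def ca4 : Fin 4 → ℝ := ![1, 1, -1, -1]

/-- second coefficients -/
def cb4 : Fin 4 → ℝ := ![0, 0, -1, 1]

/-- the four factors -/
def fac (q s : ℝ) (j : Fin 4) (x : ℂ) : ℝ := 1 + ca4 j * (q * x.re / s) + cb4 j * (x.im / s)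

/-- the half widths -/
def ll (q s : ℝ) (m : ℕ) (i : Fin (4 * m)) (x : ℂ) : ℝ := fac q s (finProdFinEquiv.symm i).1 x

section facts

variable {q s A : ℝ} {m : ℕ}

lemma fac_cont (j : Fin 4) : Continuous (fac q s j) := by
  unfold fac
  have h1 := Complex.continuous_re
  have h2 := Complex.continuous_im
  fun_prop

lemma ll_cont (i : Fin (4 * m)) : Continuous (ll q s m i) := fac_cont _

lemma fac_affine (j : Fin 4) (x y : ℂ) (a b : ℝ) (h : a + b = 1) :
    fac q s j (a • x + b • y) = a * fac q s j x + b * fac q s j y := by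
  unfold fac
  simp only [Complex.add_re, Complex.add_im, Complex.smul_re, Complex.smul_im, smul_eq_mul]
  obtain rfl : b = 1 - a := by linarith
  ring

lemma ll_affine (i : Fin (4 * m)) (x y : ℂ) (a b : ℝ) (h : a + b = 1) :
    ll q s m i (a • x + b • y) = a * ll q s m i x + b * ll q s m i y := fac_affine _ x y a b h

lemma prod_ll (x : ℂ) : ∏ i, ll q s m i x = gg q s x ^ m := by
  have h1 : ∏ i, ll q s m i x = ∏ p : Fin 4 × Fin m, fac q s p.1 x :=
    Fintype.prod_equiv finProdFinEquiv.symm _ _ fun i => rfl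
  rw [h1, Fintype.prod_prod_type]
  simp only [Finset.prod_const, Finset.card_univ, Fintype.card_fin]
  rw [Finset.prod_pow, Fin.prod_univ_four]
  congr 1
  unfold fac gg
  simp [ca4, cb4]
  ring

lemma mem_DB (hm : 1 ≤ m) {x : ℂ} : x ∈ DB (strip (A / q)) (ll q s m) ↔
    x ∈ strip (A / q) ∧ ∀ j, 0 < fac q s j x := by
  constructor
  · rintro ⟨h1, h2⟩
    refine ⟨h1, fun j => ?_⟩
    have h3 := h2 (finProdFinEquiv (j, ⟨0, hm⟩))
    unfold ll at h3
    rwa [Equiv.symm_apply_apply] at h3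
  · rintro ⟨h1, h2⟩
    exact ⟨h1, fun i => h2 _⟩

lemma fac_0 (x : ℂ) : fac q s 0 x = 1 + q * x.re / s := by
  simp [fac, ca4, cb4]

lemma fac_1 (x : ℂ) : fac q s 1 x = 1 + q * x.re / s := by
  simp [fac, ca4, cb4]

lemma fac_2 (x : ℂ) : fac q s 2 x = 1 - q * x.re / s - x.im / s := by
  simp [fac, ca4, cb4]
  ring

lemma fac_3 (x : ℂ) : fac q s 3 x = 1 - q * x.re / s + x.im / s := by
  simp [fac, ca4, cb4]
  ring

/-- Membership in the base. -/
lemma mem_DB' (h : Good q s A m) {x : ℂ} : x ∈ DB (strip (A / q)) (ll q s m) ↔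
    x ∈ strip (A / q) ∧ |x.im| / s < 1 - q * x.re / s := by
  have hm : 1 ≤ m := le_trans (by norm_num) h.m2
  have hs := h.s0
  rw [mem_DB hm]
  constructor
  · rintro ⟨h1, h2⟩
    refine ⟨h1, ?_⟩
    have a2 := h2 2
    have a3 := h2 3
    rw [fac_2] at a2
    rw [fac_3] at a3
    rw [← abs_of_pos hs, ← abs_div, abs_lt, abs_of_pos hs]
    constructor <;> linarith
  · rintro ⟨h1, h2⟩
    refine ⟨h1, fun j => ?_⟩
    obtain ⟨h3, h4⟩ := h.u_bd h1.1.le h1.2.le
    rw [← abs_of_pos hs, ← abs_div, abs_lt, abs_of_pos hs] at h2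
    fin_cases j
    · show 0 < fac q s 0 x
      rw [fac_0]
      linarith
    · show 0 < fac q s 1 x
      rw [fac_1]
      linarith
    · show 0 < fac q s 2 x
      rw [fac_2]
      linarith [h2.2]
    · show 0 < fac q s 3 x
      rw [fac_3]
      linarith [h2.1]

lemma DB_bd (h : Good q s A m) {x : ℂ} (hx : x ∈ DB (strip (A / q)) (ll q s m)) :
    |x.re| ≤ A / q ∧ |x.im| ≤ 2 * s ∧ ∀ i, ll q s m i x ≤ 4 := by
  have hs := h.s0
  have h1 := (mem_DB' h).1 hx
  obtain ⟨h3, h4⟩ := h.u_bd h1.1.1.le h1.1.2.le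
  have h2 := h1.2
  refine ⟨abs_le.2 ⟨h1.1.1.le, ?_⟩, ?_, ?_⟩
  · have := h.T0
    linarith [h1.1.2]
  · rw [div_lt_iff₀ hs] at h2
    nlinarith
  · intro i
    have h5 : |x.im| / s ≤ 3 / 2 := by linarith
    rw [← abs_of_pos hs, ← abs_div, abs_le] at h5
    unfold ll
    generalize (finProdFinEquiv.symm i).1 = j
    fin_cases j
    · show fac q s 0 x ≤ 4
      rw [fac_0]
      linarith
    · show fac q s 1 x ≤ 4
      rw [fac_1]
      linarith
    · show fac q s 2 x ≤ 4
      rw [fac_2]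
      linarith [h5.1]
    · show fac q s 3 x ≤ 4
      rw [fac_3]
      linarith [h5.2]

/-- The weight of the body is the planar weight. -/
lemma wB_eq (h : Good q s A m) : wB (strip (A / q)) (ll q s m) = ww q s (A / q) m := by
  have hm : 1 ≤ m := le_trans (by norm_num) h.m2
  have hs := h.s0
  funext x
  by_cases hx : x ∈ DB (strip (A / q)) (ll q s m)
  · have h1 := (mem_DB hm).1 hx
    unfold wB
    rw [indicator_of_mem hx, ww_of_mem h1.1, prod_ll]
    have h2 : 0 < gg q s x := by
      have a0 := h1.2 0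
      have a2 := h1.2 2
      have a3 := h1.2 3
      rw [fac_0] at a0
      rw [fac_2] at a2
      rw [fac_3] at a3
      have e : gg q s x = (1 + q * x.re / s) ^ 2 *
          ((1 - q * x.re / s - x.im / s) * (1 - q * x.re / s + x.im / s)) := by
        unfold gg
        ring
      rw [e]
      positivity
    unfold gp
    rw [pm_pos h2]
  · rw [wB_zero hx]
    by_cases hxs : x ∈ strip (A / q)
    · rw [ww_of_mem hxs]
      have h1 : ¬ (|x.im| / s < 1 - q * x.re / s) := fun h2 => hx ((mem_DB' h).2 ⟨hxs, h2⟩)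
      rw [not_lt] at h1
      obtain ⟨h3, h4⟩ := h.u_bd hxs.1.le hxs.2.le
      unfold gp
      rw [pm_zero hm]
      unfold gg
      apply mul_nonpos_of_nonneg_of_nonpos (sq_nonneg _)
      have h5 : (1 - q * x.re / s) ^ 2 ≤ (x.im / s) ^ 2 := by
        rw [← sq_abs (x.im / s), abs_div, abs_of_pos hs]
        exact pow_le_pow_left₀ (by linarith) h1 2
      linarith
    · rw [ww_of_notMem hxs]

lemma strip_convex (T : ℝ) : Convex ℝ (strip T) := by
  intro x hx y hy a b ha hb hab
  have e : (a • x + b • y).re = a * x.re + b * y.re := by simp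
  constructor
  · rw [e]
    rcases ha.eq_or_lt with h | h
    · rw [← h] at hab ⊢
      have : b = 1 := by linarith
      rw [this]
      linarith [hy.1]
    · have h1 := mul_lt_mul_of_pos_left hx.1 h
      have h2 := mul_le_mul_of_nonneg_left hy.1.le hb
      have e2 : -T = a * -T + b * -T := by rw [← add_mul, hab, one_mul]
      linarith
  · rw [e]
    rcases ha.eq_or_lt with h | h
    · rw [← h] at hab ⊢
      have : b = 1 := by linarith
      rw [this]
      linarith [hy.2]
    · have h1 := mul_neg_of_pos_of_neg h hx.2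
      have h2 := mul_nonpos_of_nonneg_of_nonpos hb hy.2.le
      linarith

lemma BB_convex : Convex ℝ (BB (strip (A / q)) (ll q s m)) := by
  intro x hx y hy a b ha hb hab
  have e1 : xc (a • x + b • y) = a • xc x + b • xc y := by
    apply Complex.ext <;> simp [xc]
  have e2 : ∀ i, yc (a • x + b • y) i = a * yc x i + b * yc y i := by
    intro i
    simp [yc]
  refine ⟨?_, fun i => ?_⟩
  · rw [e1]
    exact strip_convex _ hx.1 hy.1 ha hb hab
  · rw [e1, e2, ll_affine _ _ _ _ _ hab]
    have h1 : |a * yc x i + b * yc y i| ≤ a * |yc x i| + b * |yc y i| := by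
      refine (abs_add_le _ _).trans ?_
      rw [abs_mul, abs_mul, abs_of_nonneg ha, abs_of_nonneg hb]
    refine lt_of_le_of_lt h1 ?_
    rcases ha.eq_or_lt with h | h
    · rw [← h] at hab ⊢
      have hb1 : b = 1 := by linarith
      rw [hb1]
      linarith [hy.2 i]
    · have h2 := mul_lt_mul_of_pos_left (hx.2 i) h
      have h3 := mul_le_mul_of_nonneg_left (hy.2 i).le hb
      linarith

lemma BB_bounded (h : Good q s A m) :
    Bornology.IsBounded (BB (strip (A / q)) (ll q s m)) := by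
  have hs := h.s0
  have hT := h.T0
  set C : ℝ := A / q + 2 * s + 4 with hC
  have hC0 : 0 ≤ C := by positivity
  refine (isBounded_iff_forall_norm_le).2 ⟨√(∑ _i : Fin (4 * m + 2), C ^ 2), fun p hp => ?_⟩
  have hx := DB_of_BB' hp
  obtain ⟨h1, h2, h3⟩ := DB_bd h hx
  rw [EuclideanSpace.norm_eq]
  apply Real.sqrt_le_sqrt
  apply Finset.sum_le_sum
  intro i _
  apply pow_le_pow_left₀ (norm_nonneg _)
  rw [Real.norm_eq_abs]
  refine Fin.cases ?_ (fun k => ?_) i
  · have : |p 0| ≤ A / q := h1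
    linarith
  · refine Fin.cases ?_ (fun j => ?_) k
    · have : |p 1| ≤ 2 * s := h2
      show |p 1| ≤ C
      linarith
    · have h4 : |p j.succ.succ| < ll q s m j (xc p) := hp.2 j
      have h5 := h3 j
      linarith

/-- the spanning part of the base -/
def VV (q s A : ℝ) (m : ℕ) : Set ℂ := DB (strip (A / q)) (ll q s m) ∩ {x | s - 1 < |x.im|}

lemma VV_hull (h : Good q s A m) :
    DB (strip (A / q)) (ll q s m) ⊆ convexHull ℝ (VV q s A m) := by
  intro x hx
  have hs1 := h.s1
  have hs := h.s0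
  rcases lt_or_ge (s - 1) |x.im| with h1 | h1
  · exact subset_convexHull ℝ _ ⟨hx, h1⟩
  · have h2 := (mem_DB' h).1 hx
    obtain ⟨h3, h4⟩ := h.u_bd h2.1.1.le h2.1.2.le
    have hy : ∀ y : ℝ, |y| = s - 1 / 2 → (⟨x.re, y⟩ : ℂ) ∈ VV q s A m := by
      intro y hy
      refine ⟨(mem_DB' h).2 ⟨h2.1, ?_⟩, ?_⟩
      · show |y| / s < 1 - q * x.re / s
        have h5 : |y| / s < 1 := by
          rw [div_lt_one hs]
          linarith
        linarith
      · show s - 1 < |y|
        linarith
    have hp := hy (s - 1 / 2) (abs_of_nonneg (by linarith))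
    have hn := hy (-(s - 1 / 2)) (by rw [abs_neg, abs_of_nonneg (by linarith)])
    have hs2 : 0 < 2 * s - 1 := by linarith
    have hb := abs_le.1 h1
    obtain ⟨a, b, ha, hb', hab, hi⟩ : ∃ a b : ℝ, 0 ≤ a ∧ 0 ≤ b ∧ a + b = 1 ∧
        (s - 1 / 2) * (b - a) = x.im := by
      refine ⟨(s - 1 / 2 - x.im) / (2 * s - 1), (s - 1 / 2 + x.im) / (2 * s - 1),
        div_nonneg (by linarith) hs2.le, div_nonneg (by linarith) hs2.le, ?_, ?_⟩
      · rw [← add_div, div_eq_one_iff_eq hs2.ne']
        ring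
      · rw [← sub_div, ← mul_div_assoc, div_eq_iff hs2.ne']
        ring
    have h5 := (convex_convexHull ℝ (VV q s A m)) (subset_convexHull ℝ _ hn)
      (subset_convexHull ℝ _ hp) ha hb' hab
    have e : a • (⟨x.re, -(s - 1 / 2)⟩ : ℂ) + b • (⟨x.re, s - 1 / 2⟩ : ℂ) = x := by
      apply Complex.ext
      · rw [Complex.add_re, Complex.smul_re, Complex.smul_re, smul_eq_mul, smul_eq_mul]
        dsimp only
        rw [← add_mul, hab, one_mul]
      · rw [Complex.add_im, Complex.smul_im, Complex.smul_im, smul_eq_mul, smul_eq_mul]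
        dsimp only
        rw [← hi]
        ring
    rwa [e] at h5

end facts

open Pool.Agent.TH304.MI in
/-- The main construction. -/
theorem main_body {α : ℝ} (hα0 : 0 < α) (hα1 : α < 1 / 2) :
    ∃ n : ℕ, 1 ≤ n ∧ ∀ c : ℝ, 0 < c → c ≤ 1 →
      ∃ Ω E : Set (EuclideanSpace ℝ (Fin n)), IsOpen Ω ∧ Convex ℝ Ω ∧
      Bornology.IsBounded Ω ∧ Ω.Nonempty ∧ IsIso Ω E α ∧ Per Ω E < ⊤ ∧
      ENNReal.ofReal (1 - c) * volume Ω < volume (convexHull ℝ (dens1 Ω E)) := by
  obtain ⟨θ, A, hθ, hA1, q₁, s₁, hq₁, st3⟩ := step3 hα0 hα1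
  -- the parameter
  obtain ⟨N, hN⟩ := exists_nat_ge (max (max (4 * θ) (θ / q₁)) (max (max 6 (2 * A)) s₁))
  have n1 : 4 * θ ≤ N := (le_max_left _ _).trans ((le_max_left _ _).trans hN)
  have n2 : θ / q₁ ≤ N := (le_max_right _ _).trans ((le_max_left _ _).trans hN)
  have n3 : (6 : ℝ) ≤ N :=
    (le_max_left _ _).trans ((le_max_left _ _).trans ((le_max_right _ _).trans hN))
  have n4 : 2 * A ≤ N :=
    (le_max_right _ _).trans ((le_max_left _ _).trans ((le_max_right _ _).trans hN))
  have n5 : s₁ ≤ N := (le_max_right _ _).trans ((le_max_right _ _).trans hN)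
  have hN0 : (0 : ℝ) < N := by linarith
  have hNN : (N : ℝ) ≤ (N : ℝ) ^ 2 := le_self_pow₀ (by linarith) two_ne_zero
  set q : ℝ := θ / N with hq
  set s : ℝ := (N : ℝ) ^ 2 with hs
  set m : ℕ := N ^ 4 with hm
  have hg : Good q s A m := by
    refine ⟨by positivity, ?_, by linarith, ?_, ?_, hA1, by linarith⟩
    · rw [hq, div_le_iff₀ hN0]
      linarith
    · rw [hm, hs]
      push_cast
      ring
    · have h1 : 2 ≤ N := by
        have : (2 : ℝ) ≤ N := by linarith
        exact_mod_cast this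
      rw [hm]
      calc 2 ≤ N := h1
        _ ≤ N ^ 4 := Nat.le_self_pow (by norm_num) N
  have hqq : q ≤ q₁ := by
    rw [hq, div_le_iff₀ hN0]
    rw [div_le_iff₀ hq₁] at n2
    linarith
  have hqs : q ^ 2 * s = θ ^ 2 := by
    rw [hq, hs]
    field_simp
  have hs6 : 6 ≤ s := by linarith
  have hs₁ : s₁ ≤ s := by linarith
  have hs0 := hg.s0
  have hq0 := hg.q0
  have hT0 := hg.T0
  obtain ⟨t₀, ht1, ht0, hlo, hhi, hmass⟩ := quant hg hs6 hα0 hα1
  have hwB := wB_eq hg
  have hm1 : 1 ≤ m := le_trans (by norm_num) hg.m2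
  refine ⟨4 * m + 2, by omega, fun c hc0 hc1 => ?_⟩
  refine assemble (S := strip (A / q)) (l := ll q s m) (isOpen_strip _) ll_cont
    (R := A / q + 2 * s + 4) ?_ (by positivity) BB_convex (BB_bounded hg) ll_affine ?_
    (V := VV q s A m) ?_ inter_subset_left (VV_hull hg) hα0 (by linarith)
    (G₀ := Rh t₀) (C₀ := 4) (meas_Rh t₀) ?_ ?_ (by norm_num) ?_ hc0 hc1
  · -- bounds
    intro x hx
    obtain ⟨h1, h2, h3⟩ := DB_bd hg hx
    refine ⟨?_, fun i => ?_⟩
    · have h4 := Complex.norm_le_abs_re_add_abs_im x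
      linarith
    · have := h3 i
      linarith
  · -- nonempty
    refine ⟨⟨-(A / q) / 2, 0⟩, (mem_DB' hg).2 ⟨⟨?_, ?_⟩, ?_⟩⟩
    · show -(A / q) < -(A / q) / 2
      linarith
    · show -(A / q) / 2 < 0
      linarith
    · show |(0 : ℝ)| / s < 1 - q * (-(A / q) / 2) / s
      rw [abs_zero, zero_div]
      have h1 : q * (-(A / q) / 2) / s ≤ 0 := by
        apply div_nonpos_of_nonpos_of_nonneg _ hs0.le
        apply mul_nonpos_of_nonneg_of_nonpos hq0.le
        linarith
      linarith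
  · -- open
    exact (isOpen_DB (isOpen_strip _) ll_cont).inter
      (isOpen_lt continuous_const (continuous_abs.comp Complex.continuous_im))
  · rw [hwB]
    exact hmass
  · rw [hwB]
    exact PW_mono (PW_half (slice_int hg t₀)) (Wl_le hg t₀)
  · intro F hF
    rw [hwB] at hF
    have hCfg : Cfg α q s A m t₀ F := ⟨hg, ht1, ht0, hlo, hhi, hmass, hF⟩
    have h1 := st3 q s m t₀ F hCfg hqs hqq hs₁
    have hWT := ww_WT hg
    have hVm : MeasurableSet (VV q s A m) := (isOpen_DB (isOpen_strip _) ll_cont).measurableSet.inter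
      (measurableSet_lt measurable_const Complex.measurable_im.abs)
    have h2 : mu (ww q s (A / q) m) (F ∩ VV q s A m) = 0 := by
      apply le_antisymm _ (mu_nonneg hWT _)
      rw [← h1]
      exact mu_mono hWT (inter_subset_inter_right F inter_subset_right)
    have h3 : (ww q s (A / q) m) =ᵐ[volume.restrict (F ∩ VV q s A m)] 0 := by
      rw [← setIntegral_eq_zero_iff_of_nonneg_ae (ae_of_all _ hWT.nn) hWT.int.integrableOn]
      exact h2
    have h4 : ∀ᵐ x ∂(volume.restrict (F ∩ VV q s A m)), False := by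
      filter_upwards [h3, ae_restrict_mem (hF.meas.inter hVm)] with x hx hx2
      have h5 : 0 < ww q s (A / q) m x := by
        rw [← hwB]
        exact wB_pos hx2.2.1
      rw [hx] at h5
      exact lt_irrefl _ h5
    have h5 : volume.restrict (F ∩ VV q s A m) = 0 := by
      rw [← ae_eq_bot, ← Filter.eventually_false_iff_eq_bot]
      exact h4
    exact Measure.restrict_eq_zero.1 h5

end Pool.Agent.H84.Q2
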