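import Pool.Agent.H84.Q2.Slice
import Pool.Graph.R_seed8.TH802.HU.C9

/-!
# Cutting along a level set, and gluing a calibrating field
-/

set_option autoImplicit false

open MeasureTheory Set Metric Filter Topology
open scoped ENNReal Real

noncomputable section

namespace Pool.Agent.H84.Q2

open Pool.Agent.TH304.MI Pool.Agent.TH703.HU Pool.Agent.TH802.HU

/-- superlevel sets -/
def up (ψ : ℂ → ℝ) (c : ℝ) : Set ℂ := {z | c < ψ z}

lemma meas_up {ψ : ℂ → ℝ} (hψ : Continuous ψ) (c : ℝ) : MeasurableSet (up ψ c) :=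
  (isOpen_lt continuous_const hψ).measurableSet

lemma cut_stepS {w : ℂ → ℝ} (hw : WT w) {A : Set ℂ} (hA : MeasurableSet A) {P : ℝ}
    (hP : PW w A P) {ψ : ℂ → ℝ} (hψ : ContDiff ℝ 1 ψ) {K : ℝ} (hK0 : 0 ≤ K)
    (hK : ∀ z, 0 < w z → ‖fderiv ℝ ψ z‖ ≤ K) (c : ℝ) {η : ℝ}
    (hη : 0 < η) {Y1 Y2 : ℂ → ℂ} (h1 : TW w Y1) (h2 : TW w Y2) :
    ∃ χ : ℂ → ℝ, Continuous χ ∧ (∀ z, 0 ≤ χ z ∧ χ z ≤ 1) ∧ (∀ z, ψ z ≤ c → χ z = 0) ∧
      (∀ z, c + η ≤ ψ z → χ z = 1) ∧
      ∫ z in A, (dv2 Y1 z + χ z * (dv2 Y2 z - dv2 Y1 z)) ≤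
        P + 2 * K * ((1 + η) / η * (mu w (A ∩ up ψ c) - mu w (A ∩ up ψ (c + η)))) := by
  obtain ⟨θ, hθ, hθ1, hθ0, hθ01, hθd⟩ := exists_theta c hη
  set χ : ℂ → ℝ := fun z => 1 - θ (ψ z) with hχd
  have hχ : ContDiff ℝ 1 χ := contDiff_const.sub (hθ.comp hψ)
  have h01 : ∀ z, 0 ≤ χ z ∧ χ z ≤ 1 := fun z =>
    ⟨sub_nonneg.2 (hθ01 _).2, sub_le_self _ (hθ01 _).1⟩
  have hχ0 : ∀ z, ψ z ≤ c → χ z = 0 := fun z hz => by
    rw [hχd]; simp only; rw [hθ1 _ hz, sub_self]
  have hχ1 : ∀ z, c + η ≤ ψ z → χ z = 1 := fun z hz => by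
    rw [hχd]; simp only; rw [hθ0 _ hz, sub_zero]
  refine ⟨χ, hχ.continuous, h01, hχ0, hχ1, ?_⟩
  set h : ℝ := (1 + η) / η with hh
  have hh0 : 0 ≤ h := by positivity
  have hfd : ∀ z, HasFDerivAt χ (-(deriv θ (ψ z) • fderiv ℝ ψ z)) z := by
    intro z
    have e1 := (hψ.differentiable (by norm_num) z).hasFDerivAt
    have e2 := (hθ.differentiable (by norm_num) (ψ z)).hasDerivAt
    exact (e2.comp_hasFDerivAt z e1).const_sub 1
  have hd0 : ∀ z, ¬ (c < ψ z ∧ ψ z < c + η) → fderiv ℝ χ z = 0 := by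
    intro z hz
    rw [not_and_or, not_lt, not_lt] at hz
    rcases hz with hz | hz
    · apply IsLocalMin.fderiv_eq_zero
      refine Filter.Eventually.of_forall fun y => ?_
      show χ z ≤ χ y
      rw [hχ0 z hz]
      exact (h01 _).1
    · apply IsLocalMax.fderiv_eq_zero
      refine Filter.Eventually.of_forall fun y => ?_
      show χ y ≤ χ z
      rw [hχ1 z hz]
      exact (h01 _).2
  have hTW := TW_mix h1 h2 hχ h01
  have k1 := hP _ hTW
  have hi : Integrable (dv2 (fun z => Y1 z + χ z • (Y2 z - Y1 z))) := dv2_int hTW.cd hTW.cs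
  have hc2 : Continuous (fun z => dv2 Y1 z + χ z * (dv2 Y2 z - dv2 Y1 z)) :=
    (dv2_cont h1.cd).add (hχ.continuous.mul ((dv2_cont h2.cd).sub (dv2_cont h1.cd)))
  have hs2 : HasCompactSupport (fun z => dv2 Y1 z + χ z * (dv2 Y2 z - dv2 Y1 z)) := by
    have e1 : HasCompactSupport (dv2 Y2 - dv2 Y1) := (dv2_supp h2.cs).sub (dv2_supp h1.cs)
    have e2 : HasCompactSupport (fun z => χ z * (dv2 Y2 - dv2 Y1) z) := by
      refine HasCompactSupport.intro e1 fun z hz => ?_
      rw [image_eq_zero_of_notMem_tsupport hz, mul_zero]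
    exact (dv2_supp h1.cs).add e2
  have hi2 : Integrable (fun z => dv2 Y1 z + χ z * (dv2 Y2 z - dv2 Y1 z)) :=
    hc2.integrable_of_hasCompactSupport hs2
  set N : Set ℂ := up ψ c \ up ψ (c + η) with hN
  have hNm : MeasurableSet N := (meas_up hψ.continuous _).diff (meas_up hψ.continuous _)
  have hpt : ∀ z, dv2 Y1 z + χ z * (dv2 Y2 z - dv2 Y1 z) -
      N.indicator (fun z => h * K * (2 * w z)) z ≤
      dv2 (fun z => Y1 z + χ z • (Y2 z - Y1 z)) z := by
    intro z
    rw [dv2_mix h1.cd h2.cd hχ z]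
    have hnorm : ‖Y2 z - Y1 z‖ ≤ 2 * w z := by
      refine (norm_sub_le _ _).trans ?_
      linarith [h1.le z, h2.le z]
    by_cases hz : c < ψ z ∧ ψ z < c + η
    · have hzN : z ∈ N := ⟨hz.1, not_lt.2 hz.2.le⟩
      rw [indicator_of_mem hzN]
      have e1 : |fderiv ℝ χ z (Y2 z - Y1 z)| ≤ h * K * (2 * w z) := by
        rcases (hw.nn z).eq_or_lt with h0 | h0
        · rw [← h0, mul_zero] at hnorm
          have : Y2 z - Y1 z = 0 := norm_le_zero_iff.1 hnorm
          rw [this, map_zero, abs_zero, ← h0]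
          simp
        · refine ((fderiv ℝ χ z).le_opNorm _).trans ?_
          refine mul_le_mul ?_ hnorm (norm_nonneg _) (by positivity)
          rw [(hfd z).fderiv, norm_neg, norm_smul, Real.norm_eq_abs]
          exact mul_le_mul (hθd _) (hK z h0) (norm_nonneg _) hh0
      have e2 := (abs_le.1 e1).1
      linarith
    · rw [hd0 z hz]
      have e1 : 0 ≤ N.indicator (fun z => h * K * (2 * w z)) z := by
        apply indicator_nonneg
        intro y _
        exact mul_nonneg (by positivity) (mul_nonneg (by norm_num) (hw.nn y))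
      simp only [_root_.zero_apply, add_zero]
      linarith
  have hi3 : Integrable (N.indicator (fun z => h * K * (2 * w z))) :=
    ((hw.int.const_mul 2).const_mul (h * K)).indicator hNm
  have k2 : ∫ z in A, (dv2 Y1 z + χ z * (dv2 Y2 z - dv2 Y1 z) -
      N.indicator (fun z => h * K * (2 * w z)) z) ≤
      ∫ z in A, dv2 (fun z => Y1 z + χ z • (Y2 z - Y1 z)) z := by
    apply setIntegral_mono (hi2.sub hi3).integrableOn hi.integrableOn
    exact hpt
  rw [integral_sub hi2.integrableOn hi3.integrableOn] at k2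
  have k3 : ∫ z in A, N.indicator (fun z => h * K * (2 * w z)) z =
      2 * K * (h * (mu w (A ∩ up ψ c) - mu w (A ∩ up ψ (c + η)))) := by
    rw [setIntegral_indicator hNm, integral_const_mul, integral_const_mul]
    have e1 : ∫ z in A ∩ N, w z = mu w (A ∩ up ψ c) - mu w (A ∩ up ψ (c + η)) := by
      have e2 : A ∩ N = (A ∩ up ψ c) \ (A ∩ up ψ (c + η)) := by
        ext z
        rw [hN]
        simp only [mem_inter_iff, Set.mem_sdiff]
        tauto
      have e3 : A ∩ up ψ (c + η) ⊆ A ∩ up ψ c :=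
        inter_subset_inter_right _ (fun z (hz : c + η < ψ z) => by
          show c < ψ z
          linarith)
      unfold mu
      rw [e2, setIntegral_sdiff (hA.inter (meas_up hψ.continuous _)) hw.int.integrableOn e3]
    rw [e1]
    ring
  rw [k3] at k2
  linarith

/-- Cutting along a level set. -/
theorem cutS {w : ℂ → ℝ} (hw : WT w)
    {A : Set ℂ} (hA : MeasurableSet A) {P : ℝ} (hP : PW w A P) {ψ : ℂ → ℝ}
    (hψ : ContDiff ℝ 1 ψ) {K : ℝ} (hK0 : 0 ≤ K)
    (hK : ∀ z, 0 < w z → ‖fderiv ℝ ψ z‖ ≤ K) {c d : ℝ}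
    (hd : HasDerivAt (fun s : ℝ => mu w (A ∩ up ψ s)) (-d) c)
    {Y1 Y2 : ℂ → ℂ} (h1 : TW w Y1) (h2 : TW w Y2) :
    (∫ z in A \ up ψ c, dv2 Y1 z) + ∫ z in A ∩ up ψ c, dv2 Y2 z ≤ P + 2 * K * d := by
  set η : ℕ → ℝ := fun n => 1 / ((n : ℝ) + 1) with hη
  have hη0 : ∀ n, 0 < η n := fun n => by positivity
  have hηt : Tendsto η atTop (𝓝 0) := tendsto_one_div_add_atTop_nhds_zero_nat
  choose χ hχc h01 hχ0 hχ1 hle using fun n =>
    cut_stepS hw hA hP hψ hK0 hK c (hη0 n) h1 h2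
  -- the limit of the right side
  have hR : Tendsto (fun n => P + 2 * K * ((1 + η n) / η n * (mu w (A ∩ up ψ c) -
      mu w (A ∩ up ψ (c + η n))))) atTop (𝓝 (P + 2 * K * d)) := by
    have e1 : Tendsto (fun n => (η n)⁻¹ • ((fun t : ℝ => mu w (A ∩ up ψ t)) (c + η n) -
        (fun t : ℝ => mu w (A ∩ up ψ t)) c)) atTop (𝓝 (-d)) := by
      refine (hasDerivAt_iff_tendsto_slope_zero.1 hd).comp ?_
      rw [tendsto_nhdsWithin_iff]
      exact ⟨hηt, Eventually.of_forall fun n => (hη0 n).ne'⟩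
    have e2 : Tendsto (fun n => (1 + η n)) atTop (𝓝 1) := by
      simpa using hηt.const_add 1
    have e3 := (e2.mul e1.neg).const_mul (2 * K)
    have e4 := e3.const_add P
    rw [one_mul, neg_neg] at e4
    refine e4.congr fun n => ?_
    simp only [smul_eq_mul]
    ring
  -- the limit of the left side
  set G : ℂ → ℝ := fun z => if c < ψ z then dv2 Y2 z else dv2 Y1 z with hG
  have i1 := dv2_int h1.cd h1.cs
  have i2 := dv2_int h2.cd h2.cs
  have hL : Tendsto (fun n => ∫ z in A, (dv2 Y1 z + χ n z * (dv2 Y2 z - dv2 Y1 z))) atTop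
      (𝓝 (∫ z in A, G z)) := by
    apply tendsto_integral_of_dominated_convergence
      (fun z => ‖dv2 Y1 z‖ + (‖dv2 Y2 z‖ + ‖dv2 Y1 z‖))
    · intro n
      exact ((dv2_cont h1.cd).add ((hχc n).mul ((dv2_cont h2.cd).sub
        (dv2_cont h1.cd)))).aestronglyMeasurable
    · exact (i1.norm.add (i2.norm.add i1.norm)).integrableOn
    · intro n
      refine Eventually.of_forall fun z => ?_
      refine (norm_add_le _ _).trans (add_le_add le_rfl ?_)
      rw [norm_mul, Real.norm_of_nonneg (h01 n z).1]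
      calc χ n z * ‖dv2 Y2 z - dv2 Y1 z‖ ≤ 1 * ‖dv2 Y2 z - dv2 Y1 z‖ :=
            mul_le_mul_of_nonneg_right (h01 n z).2 (norm_nonneg _)
        _ ≤ _ := by rw [one_mul]; exact norm_sub_le _ _
    · refine Eventually.of_forall fun z => ?_
      by_cases hz : c < ψ z
      · have e1 : G z = dv2 Y2 z := by rw [hG]; simp only [if_pos hz]
        rw [e1]
        have hz' : 0 < ψ z - c := by linarith
        have e2 : ∀ᶠ n in atTop, η n < ψ z - c := (hηt.eventually (gt_mem_nhds hz'))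
        refine tendsto_const_nhds.congr' ?_
        filter_upwards [e2] with n hn
        rw [hχ1 n z (by linarith)]
        ring
      · have e1 : G z = dv2 Y1 z := by rw [hG]; simp only [if_neg hz]
        rw [e1]
        refine tendsto_const_nhds.congr fun n => ?_
        rw [hχ0 n z (not_lt.1 hz)]
        ring
  have hlim := le_of_tendsto_of_tendsto' hL hR hle
  have hUm := meas_up hψ.continuous c
  have hGi : Integrable G := by
    have e1 : G = (up ψ c).indicator (dv2 Y2) + (up ψ c)ᶜ.indicator (dv2 Y1) := by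
      funext z
      simp only [hG, Pi.add_apply]
      by_cases hz : c < ψ z
      · have hz1 : z ∈ up ψ c := hz
        rw [if_pos hz, indicator_of_mem hz1, indicator_of_notMem (notMem_compl_iff.2 hz1), add_zero]
      · have hz1 : z ∉ up ψ c := hz
        rw [if_neg hz, indicator_of_notMem hz1, indicator_of_mem (mem_compl hz1), zero_add]
    rw [e1]
    exact (i2.indicator hUm).add (i1.indicator hUm.compl)
  have hsplit : ∫ z in A, G z = (∫ z in A ∩ up ψ c, G z) + ∫ z in A \ up ψ c, G z :=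
    (integral_inter_add_sdiff hUm hGi.integrableOn).symm
  have hin : ∫ z in A ∩ up ψ c, G z = ∫ z in A ∩ up ψ c, dv2 Y2 z := by
    apply setIntegral_congr_fun (hA.inter hUm)
    intro z hz
    have : c < ψ z := hz.2
    simp only [hG, if_pos this]
  have hout : ∫ z in A \ up ψ c, G z = ∫ z in A \ up ψ c, dv2 Y1 z := by
    apply setIntegral_congr_fun (hA.diff hUm)
    intro z hz
    have : ¬ c < ψ z := hz.2
    simp only [hG, if_neg this]
  rw [hsplit, hin, hout] at hlim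
  linarith

/-- The perimeter of the part above a level, for a set which is minimal under removal. -/
theorem cut_perS {w : ℂ → ℝ} (hw : WT w)
    {A : Set ℂ} (hA : MeasurableSet A) {P : ℝ} (hP : PW w A P) {ψ : ℂ → ℝ}
    (hψ : ContDiff ℝ 1 ψ) {K : ℝ} (hK0 : 0 ≤ K)
    (hK : ∀ z, 0 < w z → ‖fderiv ℝ ψ z‖ ≤ K) {c d e : ℝ}
    (hd : HasDerivAt (fun s : ℝ => mu w (A ∩ up ψ s)) (-d) c)
    (hmin : ∀ C : ℝ, PW w (A \ up ψ c) C → PW w A (C + e)) :
    PW w (A ∩ up ψ c) (2 * K * d + e) := by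
  set S : Set ℝ := {p | ∃ Y : ℂ → ℂ, TW w Y ∧ p = ∫ z in A \ up ψ c, dv2 Y z} with hS
  have hSne : S.Nonempty := ⟨_, fun _ => 0, TW_zero hw.nn, rfl⟩
  have hSb : BddAbove S := by
    refine ⟨P + 2 * K * d, ?_⟩
    rintro _ ⟨Y, hY, rfl⟩
    have h1 := cutS hw hA hP hψ hK0 hK hd hY (TW_zero hw.nn)
    simp only [dv2_zero, integral_zero, add_zero] at h1
    exact h1
  set p1 : ℝ := sSup S with hp1
  have hPW1 : PW w (A \ up ψ c) p1 := fun Y hY => le_csSup hSb ⟨Y, hY, rfl⟩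
  have hP1 : PW w A (p1 + e) := hmin p1 hPW1
  intro Y2 hY2
  have h3 : p1 ≤ p1 + e + 2 * K * d - ∫ z in A ∩ up ψ c, dv2 Y2 z := by
    apply csSup_le hSne
    rintro _ ⟨Y, hY, rfl⟩
    have h1 := cutS hw hA hP1 hψ hK0 hK hd hY hY2
    linarith
  linarith

end Pool.Agent.H84.Q2
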