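import Pool.Agent.H84.Q2.BodyA3
import Pool.Graph.R_seed8.TH416.HU.B12
import Pool.Graph.R_seed8.TH359.HU.B3
import Pool.Graph.R_seed8.TH89.HU.B4

/-!
# Minimizers of fixed volume, and their limit as the fibres are rescaled
-/

set_option autoImplicit false

open MeasureTheory Set Metric Filter Topology
open scoped ENNReal Real

noncomputable section

namespace Pool.Agent.H84.Q2

open Pool.Agent.TH304.MI Pool.Agent.TH703.HU

/-- `F` minimizes the `ε`-perimeter among the subsets of `Ω` of volume `v`. -/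
structure ExB {b : ℕ} (ε : ℝ) (Ω : Set (PP b)) (v : ℝ) (F : Set (PP b)) : Prop where
  meas : MeasurableSet F
  sub : F ⊆ Ω
  vol : volume.real F = v
  min : ∀ (G : Set (PP b)) (C : ℝ), MeasurableSet G → G ⊆ Ω → volume.real G = v →
    PLe ε Ω G C → PLe ε Ω F C

/-- `A` minimizes the weighted perimeter among the planar sets of mass `v`. -/
structure ExW (w : ℂ → ℝ) (v : ℝ) (A : Set ℂ) : Prop where
  meas : MeasurableSet A
  mass : mu w A = v
  min : ∀ (F : Set ℂ) (C : ℝ), MeasurableSet F → mu w F = v → PW w F C → PW w A C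

open Pool.Agent.TH359.HU in
theorem exB_exists {b : ℕ} {Ω : Set (PP b)} (hO : IsOpen Ω) (hC : Convex ℝ Ω)
    (hB : Bornology.IsBounded Ω) {ε v : ℝ} (hε : 0 < ε) (hε1 : ε ≤ 1) {G₀ : Set (PP b)}
    (hG₀ : MeasurableSet G₀) (hG₀s : G₀ ⊆ Ω) (hG₀v : volume.real G₀ = v) {C₀ : ℝ}
    (hG₀P : PLe ε Ω G₀ C₀) : ∃ F : Set (PP b), ExB ε Ω v F := by
  have b1 := Pool.Agent.TH416.HU.b1
  have b2 := Pool.Agent.TH416.HU.b2
  have hfin : ∀ G : Set (PP b), G ⊆ Ω → volume G ≠ ∞ := fun G hG =>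
    (hB.subset hG).measure_lt_top.ne
  obtain ⟨S, hS⟩ : ∃ S : Set ℝ, S = {e : ℝ | ∃ G : Set (PP b), MeasurableSet G ∧ G ⊆ Ω ∧
      volume.real G = v ∧ PLe ε Ω G e} := ⟨_, rfl⟩
  have hne : S.Nonempty := by
    rw [hS]
    exact ⟨C₀, G₀, hG₀, hG₀s, hG₀v, hG₀P⟩
  have hbdd : BddBelow S := by
    refine ⟨0, ?_⟩
    rw [hS]
    rintro e ⟨G, -, -, -, hP⟩
    exact PLe.nonneg hP
  obtain ⟨I, hI⟩ : ∃ I, I = sInf S := ⟨_, rfl⟩
  have hex : ∀ k : ℕ, ∃ (G : Set (PP b)) (C : ℝ), MeasurableSet G ∧ G ⊆ Ω ∧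
      volume.real G = v ∧ PLe ε Ω G C ∧ C < I + 1 / ((k : ℝ) + 1) := by
    intro k
    have h1 : sInf S < I + 1 / ((k : ℝ) + 1) := by
      rw [← hI]
      have : (0 : ℝ) < 1 / ((k : ℝ) + 1) := by positivity
      linarith
    obtain ⟨e, he, hlt⟩ := exists_lt_of_csInf_lt hne h1
    rw [hS] at he
    obtain ⟨G, a1, a2, a3, a4⟩ := he
    exact ⟨G, e, a1, a2, a3, a4, hlt⟩
  choose G C hGm hGs hGv hGP hGe using hex
  have hM : ∀ k, PLe 1 Ω (G k) (I + 1) := by
    intro k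
    refine PLe.mono' (PLe.one hε hε1 (hGP k)) ?_
    have h1 := hGe k
    have h2 : 1 / ((k : ℝ) + 1) ≤ 1 := by
      rw [div_le_one (by positivity)]
      have : (0 : ℝ) ≤ k := Nat.cast_nonneg k
      linarith
    linarith
  obtain ⟨F, ψ, hFm, hFs, hψ, hlim⟩ := b1 b Ω hO hC hB G _ hGm hGs hM
  have hlimr : Tendsto (fun k => volume.real (symmDiff (G (ψ k)) F)) atTop (𝓝 0) := by
    have := (ENNReal.tendsto_toReal ENNReal.zero_ne_top).comp hlim
    rw [ENNReal.toReal_zero] at this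
    exact this
  have hvol : Tendsto (fun k => volume.real (G (ψ k))) atTop (𝓝 (volume.real F)) := by
    rw [tendsto_iff_norm_sub_tendsto_zero]
    refine squeeze_zero (fun _ => norm_nonneg _) (fun k => ?_) hlimr
    exact abs_measureReal_sub_le_measureReal_symmDiff' (hGm _).nullMeasurableSet
      hFm.nullMeasurableSet (hfin _ (hGs _)) (hfin _ hFs)
  have hFv : volume.real F = v := by
    refine tendsto_nhds_unique hvol ?_
    refine tendsto_const_nhds.congr fun k => (hGv _).symm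
  have hFP : PLe ε Ω F I := by
    intro φ hφ
    have h1 := b2 b (fun k => G (ψ k)) F (fun k => hGm _) hFm hlim φ hφ.cd hφ.cs
    have h2 : Tendsto (fun k : ℕ => I + 1 / ((ψ k : ℝ) + 1)) atTop (𝓝 (I + 0)) := by
      refine tendsto_const_nhds.add ?_
      exact tendsto_one_div_add_atTop_nhds_zero_nat.comp hψ.tendsto_atTop
    rw [add_zero] at h2
    refine le_of_tendsto_of_tendsto' h1 h2 fun k => ?_
    have h3 := hGP (ψ k) φ hφ
    have h4 := hGe (ψ k)
    linarith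
  refine ⟨F, hFm, hFs, hFv, fun G' C' hG'm hG's hG'v hG'P => ?_⟩
  refine PLe.mono' hFP ?_
  rw [hI]
  refine csInf_le hbdd ?_
  rw [hS]
  exact ⟨G', hG'm, hG's, hG'v, hG'P⟩

open Pool.Agent.TH340.HU in
/-- Passage to the limit. -/
theorem exB_limit {b : ℕ} {S : Set ℂ} {l : Fin b → ℂ → ℝ} (hS : IsOpen S)
    (hl : ∀ i, Continuous (l i)) {R : ℝ}
    (hR : ∀ x ∈ DB S l, ‖x‖ ≤ R ∧ ∀ i, l i x ≤ R) (hR0 : 0 ≤ R)
    (hc : Convex ℝ (BB S l)) (hb : Bornology.IsBounded (BB S l))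
    {v C₀ : ℝ} {G₀ : Set ℂ} (hG₀ : MeasurableSet G₀) (hG₀v : mu (wB S l) G₀ = v)
    (hG₀P : PW (wB S l) G₀ C₀) (hC₀ : 0 ≤ C₀)
    (ε : ℕ → ℝ) (F : ℕ → Set (PP b)) (hε : ∀ k, 0 < ε k ∧ ε k ≤ 1)
    (hlim : Tendsto ε atTop (𝓝 0)) (hmin : ∀ k, ExB (ε k) (BB S l) (2 ^ b * v) (F k)) :
    ∃ (A : Set ℂ) (ψ : ℕ → ℕ), ExW (wB S l) v A ∧ StrictMono ψ ∧
      Tendsto (fun k => volume (symmDiff (F (ψ k)) (cylO (BB S l) A))) atTop (𝓝 0) := by
  have b1 := Pool.Agent.TH416.HU.b1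
  have b2 := Pool.Agent.TH416.HU.b2
  have b4 := Pool.Agent.TH89.HU.b4
  have ho : IsOpen (BB S l) := isOpen_BB hS hl
  have hNN : (0 : ℝ) < 2 ^ b := by positivity
  -- the uniform perimeter bound
  set P : ℝ := 2 ^ b * C₀ with hP
  have hPk : ∀ k, PLe (ε k) (BB S l) (F k) P := by
    intro k
    refine (hmin k).min (cylO (BB S l) G₀) _ (meas_cylO ho hG₀) (fun p hp => hp.1) ?_
      (aB2 hS hl _ hG₀ hG₀P)
    rw [aB1 hS hl hG₀, hG₀v]
  have hP0 : 0 ≤ P := by positivity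
  -- compactness
  obtain ⟨F0, ψ, hF0m, hF0s, hψ, hψl⟩ := b1 _ (BB S l) ho hc hb F P (fun k => (hmin k).meas)
    (fun k => (hmin k).sub) (fun k => PLe.one (hε k).1.le (hε k).2 (hPk k))
  -- the limit has zero y-divergence
  have hdiv : ∀ φ : PP b → PP b, ContDiff ℝ 1 φ → HasCompactSupport φ →
      tsupport φ ⊆ BB S l → (∀ p, xc (φ p) = 0) → ∫ x in F0, dv φ x = 0 := by
    have key : ∀ φ : PP b → PP b, ContDiff ℝ 1 φ → HasCompactSupport φ →
      tsupport φ ⊆ BB S l → (∀ p, xc (φ p) = 0) → ∫ x in F0, dv φ x ≤ 0 := by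
      intro φ hφ hcs hsub hx
      obtain ⟨M, hM⟩ : ∃ M : ℝ, ∀ p, ‖φ p‖ ≤ M := hφ.continuous.bounded_above_of_compact_support hcs
      have hM1 : (0 : ℝ) < max M 1 := lt_of_lt_of_le one_pos (le_max_right _ _)
      have hM2 : ∀ p, ‖φ p‖ ≤ max M 1 := fun p => (hM p).trans (le_max_left _ _)
      set M' := max M 1
      have hk : ∀ k, ∫ x in F k, dv φ x ≤ ε k * M' * P := by
        intro k
        have he := (hε k).1
        have hpos : 0 < ε k * M' := mul_pos he hM1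
        have hfld : Fld (ε k) (BB S l) (fun p => (ε k * M')⁻¹ • φ p) := by
          refine ⟨cd_smul _ hφ, cs_smul _ hcs, (sub_smul' _).trans hsub, ?_⟩
          intro p
          have h1 : xc ((ε k * M')⁻¹ • φ p) = 0 := xc_smul _ (hx p)
          rw [norm_sc_of_xc he.le _ h1, norm_smul, Real.norm_of_nonneg (inv_nonneg.2 hpos.le)]
          calc ε k * ((ε k * M')⁻¹ * ‖φ p‖) ≤ ε k * ((ε k * M')⁻¹ * M') := by
                gcongr
                exact hM2 p
            _ = 1 := by field_simp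
        have h3 := hPk k _ hfld
        rw [int_dv_smul _ hφ] at h3
        rwa [inv_mul_le_iff₀ hpos] at h3
      have hlim2 : Tendsto (fun k => ε (ψ k) * M' * P) atTop (𝓝 0) := by
        have := ((hlim.comp hψ.tendsto_atTop).mul_const M').mul_const P
        simpa [Function.comp_def] using this
      exact le_of_tendsto_of_tendsto' (b2 _ (fun k => F (ψ k)) F0 (fun k => (hmin _).meas) hF0m hψl
        φ hφ hcs) hlim2 (fun k => hk (ψ k))
    intro φ hφ hcs hsub hx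
    apply le_antisymm (key φ hφ hcs hsub hx)
    have h1 := key (fun p => (-1 : ℝ) • φ p) (cd_smul _ hφ) (cs_smul _ hcs)
      ((sub_smul' _).trans hsub) (fun p => xc_smul _ (hx p))
    rw [int_dv_smul _ hφ] at h1
    linarith
  obtain ⟨A, hAm, hA⟩ := b4 _ (BB S l) ho hc hb F0 hF0m hF0s hdiv
  have hcm : MeasurableSet (cylO (BB S l) A) := meas_cylO ho hAm
  have hcs : cylO (BB S l) A ⊆ BB S l := fun p hp => hp.1
  have hT : Tendsto (fun k => volume (symmDiff (F (ψ k)) (cylO (BB S l) A))) atTop (𝓝 0) :=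
    tendsto_of_tendsto_of_tendsto_of_le_of_le tendsto_const_nhds hψl (fun _ => zero_le)
      (fun k => symm_mono hA)
  have hV := real_tendsto hb (fun k => (hmin (ψ k)).sub) hcs (fun k => (hmin (ψ k)).meas) hcm hT
  have hVA := aB1 hS hl hAm
  refine ⟨A, ψ, ⟨hAm, ?_, ?_⟩, hψ, hT⟩
  · have h1 : volume.real (cylO (BB S l) A) = 2 ^ b * v :=
      tendsto_nhds_unique hV (tendsto_const_nhds.congr fun k => (hmin (ψ k)).vol.symm)
    rw [hVA] at h1
    exact mul_left_cancel₀ hNN.ne' h1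
  · intro G C hG hGv hGP
    have hGs : cylO (BB S l) G ⊆ BB S l := fun p hp => hp.1
    have hVG := aB1 hS hl hG
    refine aB3 hS hl hR hR0 hAm ?_
    intro φ hφ hy
    have hk : ∀ k, ∫ x in F (ψ k), dv φ x ≤ 2 ^ b * C := by
      intro k
      exact (hmin (ψ k)).min (cylO (BB S l) G) (2 ^ b * C) (meas_cylO ho hG) hGs
        (by rw [hVG, hGv])
        (aB2 hS hl _ hG hGP) φ
        ⟨hφ.cd, hφ.cs, hφ.sub, fun x => by
          have h2 := hφ.bd x
          rw [sc_of_yc _ _ (hy x)] at h2 ⊢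
          exact h2⟩
    exact le_of_tendsto' (b2 _ (fun k => F (ψ k)) (cylO (BB S l) A)
      (fun k => (hmin _).meas) hcm hT φ hφ.cd hφ.cs) hk

end Pool.Agent.H84.Q2
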