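import Pool.Agent.H84.Q2.Half
import Pool.Agent.H84.Q2.Lim

/-!
# Dilations
-/

set_option autoImplicit false

open MeasureTheory Set Metric Filter Topology
open scoped ENNReal Real

noncomputable section

namespace Pool.Agent.H84.Q2

open Pool.Agent.TH304.MI Pool.Agent.TH703.HU

/-- the dilate -/
def dl (k : ℝ) (F : Set ℂ) : Set ℂ := {x | k⁻¹ • x ∈ F}

lemma meas_dl {F : Set ℂ} (hF : MeasurableSet F) (k : ℝ) : MeasurableSet (dl k F) :=
  (measurable_const_smul (k⁻¹ : ℝ)) hF

lemma smul_mem_dl {k : ℝ} (hk : k ≠ 0) {F : Set ℂ} {x : ℂ} : k • x ∈ dl k F ↔ x ∈ F := by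
  unfold dl
  rw [mem_ofPred_eq, smul_smul, inv_mul_cancel₀ hk, one_smul]

lemma int_dl {k : ℝ} (hk : 0 < k) (F : Set ℂ) (hF : MeasurableSet F) (f : ℂ → ℝ) :
    ∫ x in dl k F, f x = k ^ 2 * ∫ x in F, f (k • x) := by
  rw [← integral_indicator (meas_dl hF k), ← integral_indicator hF]
  have h1 := Measure.integral_comp_smul (volume : Measure ℂ) ((dl k F).indicator f) k
  rw [Complex.finrank_real_complex, abs_of_pos (by positivity)] at h1
  have h2 : (fun x => (dl k F).indicator f (k • x)) = F.indicator fun x => f (k • x) := by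
    funext x
    by_cases hx : x ∈ F
    · rw [indicator_of_mem hx, indicator_of_mem ((smul_mem_dl hk.ne').2 hx)]
    · rw [indicator_of_notMem hx, indicator_of_notMem (fun h => hx ((smul_mem_dl hk.ne').1 h))]
  rw [h2] at h1
  rw [h1, smul_eq_mul, ← mul_assoc, mul_inv_cancel₀ (by positivity), one_mul]

lemma aux_u {u : ℝ} (h1 : -(1 / 2) ≤ u) (h2 : u ≤ 0) :
    0 ≤ 1 - u ^ 2 ∧ 1 - u ^ 2 ≤ 1 ∧ (1 + u) ^ 2 ≤ 1 := by
  refine ⟨?_, ?_, ?_⟩ <;> nlinarith

lemma aux_dil {k u : ℝ} (hk : 1 ≤ k) (h5 : -(1 / 2) ≤ k * u) (hu0 : u ≤ 0) :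
    k * u ≤ u ∧ (k * u) ^ 2 ≤ 1 / 4 ∧ u ^ 2 ≤ (k * u) ^ 2 ∧ 0 ≤ 1 + u ∧
      1 + u ≤ k * (1 + k * u) := by
  have h7 : k * u ≤ u := by nlinarith
  have h11 : 0 ≤ 1 + u := by linarith
  have h12 : k * u ≤ 0 := mul_nonpos_of_nonneg_of_nonpos (by linarith) hu0
  refine ⟨h7, by nlinarith, by nlinarith, h11, ?_⟩
  have h13 : 0 ≤ (k - 1) * (1 + (u + k * u)) := mul_nonneg (by linarith) (by linarith)
  nlinarith

section dil

variable {q s A : ℝ} {m : ℕ}

lemma gg_dil (h : Good q s A m) {k : ℝ} (hk : 1 ≤ k) {x : ℂ} (h1 : -(A / q) ≤ k * x.re)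
    (h2 : x.re ≤ 0) : gg q s (k • x) ≤ gg q s x := by
  have hs := h.s0
  have hk0 : 0 ≤ k := by linarith
  have h3 : -(A / q) ≤ (k • x).re := by simpa using h1
  have h4 : (k • x).re ≤ 0 := by
    simp only [Complex.real_smul, Complex.mul_re, Complex.ofReal_re, Complex.ofReal_im, zero_mul,
      sub_zero]
    exact mul_nonpos_of_nonneg_of_nonpos hk0 h2
  obtain ⟨h5, h6⟩ := h.u_bd h3 h4
  rw [Good.gg_eq, Good.gg_eq]
  have e1 : q * (k • x).re / s = k * (q * x.re / s) := by
    simp
    ring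
  have e2 : (k • x).im / s = k * (x.im / s) := by
    simp
    ring
  rw [e1] at h5 h6
  rw [e1, e2]
  set u := q * x.re / s with hu
  have hu0 : u ≤ 0 := by
    rw [hu]
    exact div_nonpos_of_nonpos_of_nonneg (mul_nonpos_of_nonneg_of_nonpos h.q0.le h2) hs.le
  obtain ⟨h7, h8, h9, h11, h12⟩ := aux_dil hk h5 hu0
  have h10 : (1 - (k * u) ^ 2) ^ 2 ≤ (1 - u ^ 2) ^ 2 := by
    apply pow_le_pow_left₀ (by linarith)
    linarith
  have h13 : (1 + u) ^ 2 ≤ (k * (1 + k * u)) ^ 2 := pow_le_pow_left₀ h11 h12 2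
  have h14 : (x.im / s) ^ 2 * (1 + u) ^ 2 ≤ (x.im / s) ^ 2 * (k * (1 + k * u)) ^ 2 :=
    mul_le_mul_of_nonneg_left h13 (sq_nonneg _)
  have h15 : (k * (x.im / s)) ^ 2 * (1 + k * u) ^ 2 = (x.im / s) ^ 2 * (k * (1 + k * u)) ^ 2 := by
    ring
  rw [h15]
  linarith

lemma strip_dil {T k : ℝ} (hk : 1 ≤ k) {x : ℂ} (h : k • x ∈ strip T) :
    x ∈ strip T := by
  have h1 : -T < k * x.re := by simpa using h.1
  have h2 : k * x.re < 0 := by simpa using h.2
  have h3 : x.re < 0 := by
    by_contra h4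
    have := mul_nonneg (by linarith : (0 : ℝ) ≤ k) (not_lt.1 h4)
    linarith
  refine ⟨?_, h3⟩
  nlinarith

lemma ww_dil (h : Good q s A m) {k : ℝ} (hk : 1 ≤ k) (x : ℂ) :
    ww q s (A / q) m (k • x) ≤ ww q s (A / q) m x := by
  by_cases hx : k • x ∈ strip (A / q)
  · have hx' := strip_dil hk hx
    rw [ww_of_mem hx, ww_of_mem hx']
    apply pm_mono
    apply gg_dil h hk _ hx'.2.le
    have := hx.1
    simp at this
    linarith
  · rw [ww_of_notMem hx]
    exact ww_nonneg x

lemma PW_dil (h : Good q s A m) {k : ℝ} (hk : 1 ≤ k) {F : Set ℂ} (hF : MeasurableSet F) {C : ℝ}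
    (hP : PW (ww q s (A / q) m) F C) : PW (ww q s (A / q) m) (dl k F) (k * C) := by
  intro Y hY
  have hk0 : 0 < k := by linarith
  have hcd : ContDiff ℝ 1 fun x : ℂ => Y (k • x) := hY.cd.comp (contDiff_const_smul k)
  have hT : TW (ww q s (A / q) m) fun x => Y (k • x) := by
    refine ⟨hcd, ?_, ?_, ?_⟩
    · exact hY.cs.comp_homeomorph (Homeomorph.smulOfNeZero k hk0.ne')
    · intro x hx
      have h1 : k • x ∈ tsupport Y := by
        have h2 : tsupport (fun x : ℂ => Y (k • x)) ⊆ (fun x : ℂ => k • x) ⁻¹' tsupport Y := by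
          apply closure_minimal
          · intro y hy
            exact subset_tsupport Y hy
          · exact (isClosed_tsupport Y).preimage (continuous_const_smul k)
        exact h2 hx
      exact lt_of_lt_of_le (hY.sub h1) (ww_dil h hk x)
    · intro x
      exact (hY.le _).trans (ww_dil h hk x)
  have h1 := hP _ hT
  have h2 : ∀ x, dv2 (fun x => Y (k • x)) x = k * dv2 Y (k • x) := by
    intro x
    have h3 : HasFDerivAt (fun x : ℂ => Y (k • x)) ((fderiv ℝ Y (k • x)).comp
        (k • ContinuousLinearMap.id ℝ ℂ)) x := by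
      have h4 : HasFDerivAt (fun x : ℂ => k • x) (k • ContinuousLinearMap.id ℝ ℂ) x :=
        (hasFDerivAt_id x).const_smul k
      exact ((hY.cd.differentiable (by norm_num) (k • x)).hasFDerivAt).comp x h4
    unfold dv2
    rw [h3.fderiv]
    have e5 : ∀ v : ℂ, ((fderiv ℝ Y (k • x)).comp (k • ContinuousLinearMap.id ℝ ℂ)) v =
        k • (fderiv ℝ Y (k • x) v) := fun v => by
      rw [ContinuousLinearMap.comp_apply]
      exact (fderiv ℝ Y (k • x)).map_smul k v
    rw [e5, e5, Complex.smul_re, Complex.smul_im, smul_eq_mul, smul_eq_mul]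
    ring
  simp only [h2] at h1
  rw [integral_const_mul] at h1
  rw [int_dl hk0 F hF]
  nlinarith

lemma mu_dl {k : ℝ} (hk : 0 < k) {F : Set ℂ} (hF : MeasurableSet F) (w : ℂ → ℝ) :
    mu w (dl k F) = k ^ 2 * ∫ x in F, w (k • x) := int_dl hk F hF w

lemma ww_ne_cont {T : ℝ} {x : ℂ} (h1 : x.re ≠ -T) (h2 : x.re ≠ 0) : ContinuousAt (ww q s T m) x := by
  by_cases hx : x ∈ strip T
  · have : ww q s T m =ᶠ[𝓝 x] gp q s m := by
      filter_upwards [(isOpen_strip T).mem_nhds hx] with y hy
      exact ww_of_mem hy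
    exact ((gp_cont q s m).continuousAt).congr this.symm
  · have hc : IsClosed {y : ℂ | -T ≤ y.re ∧ y.re ≤ 0} :=
      (isClosed_le continuous_const Complex.continuous_re).inter
        (isClosed_le Complex.continuous_re continuous_const)
    have hx2 : x ∈ {y : ℂ | -T ≤ y.re ∧ y.re ≤ 0}ᶜ := by
      intro h3
      exact hx ⟨lt_of_le_of_ne h3.1 (Ne.symm h1), lt_of_le_of_ne h3.2 h2⟩
    have : ww q s T m =ᶠ[𝓝 x] fun _ => 0 := by
      filter_upwards [hc.isOpen_compl.mem_nhds hx2] with y hy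
      apply ww_of_notMem
      intro h3
      exact hy ⟨h3.1.le, h3.2.le⟩
    exact continuousAt_const.congr this.symm

lemma vol_line (c : ℝ) : volume {x : ℂ | x.re = c} = 0 := by
  have hm : MeasurableSet {x : ℂ | x.re = c} := measurableSet_eq_fun Complex.measurable_re
    measurable_const
  rw [vol_hs hm]
  have : ∀ b, volume (hs {x : ℂ | x.re = c} b) = 0 := by
    intro b
    have : hs {x : ℂ | x.re = c} b = {c} := by
      ext t
      simp [hs]
    rw [this, Real.volume_singleton]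
  simp [this]

lemma mu_dl_cont (h : Good q s A m) {F : Set ℂ} (hF : MeasurableSet F) :
    ContinuousOn (fun k : ℝ => mu (ww q s (A / q) m) (dl k F)) (Ici 1) := by
  have hWT := ww_WT h
  have h1 : ContinuousOn (fun k : ℝ => k ^ 2 * ∫ x in F, ww q s (A / q) m (k • x)) (Ici 1) := by
    apply (continuous_pow 2).continuousOn.mul
    intro k hk
    have hk1 : (1 : ℝ) ≤ k := hk
    have hk0 : 0 < k := by linarith
    apply continuousWithinAt_of_dominated (bound := ww q s (A / q) m)
    · filter_upwards with k'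
      exact (hWT.meas.comp (measurable_const_smul k')).aestronglyMeasurable
    · filter_upwards [self_mem_nhdsWithin] with k' hk'
      apply ae_of_all _ fun x => ?_
      rw [Real.norm_of_nonneg (ww_nonneg _)]
      exact ww_dil h hk' x
    · exact hWT.int.integrableOn
    · have h2 : ∀ᵐ x : ℂ, x.re ≠ -(A / q) / k ∧ x.re ≠ 0 := by
        have e1 : ∀ᵐ x : ℂ, x.re ≠ -(A / q) / k := by
          rw [ae_iff]
          simpa using vol_line (-(A / q) / k)
        have e2 : ∀ᵐ x : ℂ, x.re ≠ 0 := by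
          rw [ae_iff]
          simpa using vol_line 0
        filter_upwards [e1, e2] with x a b using ⟨a, b⟩
      apply ae_restrict_of_ae
      filter_upwards [h2] with x hx
      have h3 : ContinuousAt (ww q s (A / q) m) (k • x) := by
        apply ww_ne_cont
        · simp only [Complex.real_smul, Complex.mul_re, Complex.ofReal_re, Complex.ofReal_im,
            zero_mul, sub_zero]
          intro h4
          apply hx.1
          rw [eq_div_iff hk0.ne']
          linarith
        · simp only [Complex.real_smul, Complex.mul_re, Complex.ofReal_re, Complex.ofReal_im,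
            zero_mul, sub_zero]
          exact mul_ne_zero hk0.ne' hx.2
      have h4 : ContinuousAt (fun k' : ℝ => ww q s (A / q) m (k' • x)) k :=
        ContinuousAt.comp (f := fun k' : ℝ => k' • x) h3 (by fun_prop)
      exact h4.continuousWithinAt
  refine h1.congr fun k hk => ?_
  have hk1 : (1 : ℝ) ≤ k := hk
  exact mu_dl (by linarith) hF _

lemma dl_one (F : Set ℂ) : dl 1 F = F := by
  ext x
  simp [dl]

/-- The loss along rays. -/
lemma ww_ray (h : Good q s A m) {k : ℝ} (hk : 1 ≤ k) (hk2 : k ≤ 2) {x : ℂ}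
    (h1 : -(A / q) < k * x.re) (h2 : x.re < 0) :
    ww q s (A / q) m x - ww q s (A / q) m (k • x) ≤ (k - 1) * (4 * A ^ 2 * Hb x.im) := by
  rcases hk.eq_or_lt with hk' | hk'
  · rw [← hk', one_smul]
    simp
  have hs := h.s0
  have hq := h.q0
  have hA : 1 ≤ A := h.A0
  have hkx : k • x ∈ strip (A / q) := by
    constructor
    · simpa using h1
    · simp only [Complex.real_smul, Complex.mul_re, Complex.ofReal_re, Complex.ofReal_im, zero_mul,
        sub_zero]
      exact mul_neg_of_pos_of_neg (by linarith) h2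
  have hx := strip_dil hk hkx
  rw [ww_of_mem hkx, ww_of_mem hx]
  have hder : ∀ y : ℝ, HasDerivAt (fun k : ℝ => gp q s m (k • x))
      ((m * pm (m - 1) (gg q s (y • x))) * (gt q s (y • x) * x.re + gb q s (y • x) * x.im)) y := by
    intro y
    have e1 : HasDerivAt (fun k : ℝ => k • x) x y := by
      simpa using (hasDerivAt_id y).smul_const x
    have e2 := (gp_hasFDerivAt q s h.m2 (y • x)).comp_hasDerivAt y e1
    refine e2.congr_deriv ?_
    simp
    ring
  obtain ⟨y, hy, hslope⟩ := exists_hasDerivAt_eq_slope (fun k : ℝ => gp q s m (k • x)) _ hk'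
    (fun y _ => (hder y).continuousAt.continuousWithinAt) (fun y _ => hder y)
  rw [one_smul] at hslope
  have hk1 : 0 < k - 1 := by linarith
  rw [eq_div_iff hk1.ne'] at hslope
  have hy1 : 1 ≤ y := hy.1.le
  have hy0 : 0 < y := by linarith
  have hyT : -(A / q) ≤ (y • x).re := by
    simp only [Complex.real_smul, Complex.mul_re, Complex.ofReal_re, Complex.ofReal_im, zero_mul,
      sub_zero]
    have := mul_le_mul_of_nonpos_right hy.2.le h2.le
    linarith
  have hyn : (y • x).re ≤ 0 := by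
    simp only [Complex.real_smul, Complex.mul_re, Complex.ofReal_re, Complex.ofReal_im, zero_mul,
      sub_zero]
    exact mul_nonpos_of_nonneg_of_nonpos hy0.le h2.le
  obtain ⟨hu1, hu2⟩ := h.u_bd hyT hyn
  have hp1 := h.pm1_le hyT hyn
  have hp0 := pm_nonneg (m - 1) (gg q s (y • x))
  have eim : (y • x).im = y * x.im := by simp
  have ere : (y • x).re = y * x.re := by simp
  -- the exponential
  have hexp : Real.exp (-((y • x).im ^ 2 / 8)) ≤ Real.exp (-(x.im ^ 2 / 8)) := by
    apply Real.exp_le_exp.2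
    rw [eim]
    have : x.im ^ 2 ≤ (y * x.im) ^ 2 := by
      rw [mul_pow]
      exact le_mul_of_one_le_left (sq_nonneg _) (one_le_pow₀ hy1)
    linarith
  have hfac : -(4 * A ^ 2 * (1 + x.im ^ 2)) ≤
      (m : ℝ) * (gt q s (y • x) * x.re + gb q s (y • x) * x.im) := by
    have e3 : (m : ℝ) * (gt q s (y • x) * x.re + gb q s (y • x) * x.im) =
        (m * gt q s (y • x)) * x.re + (m * gb q s (y • x)) * x.im := by ring
    rw [e3, h.m_gt, h.m_gb]
    set u := q * (y • x).re / s with hu
    rw [ere, eim]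
    rw [ere] at hu
    have hux : u * s = q * (y * x.re) := by
      rw [hu]
      field_simp
    have hxr : x.re ≤ 0 := h2.le
    have hqA : -A ≤ q * (y * x.re) := by
      rw [ere] at hyT
      have := mul_le_mul_of_nonneg_left hyT hq.le
      have e5 := h.qT
      linarith
    have hqx : q * (y * x.re) ≤ 0 := by
      rw [← ere]
      exact mul_nonpos_of_nonneg_of_nonpos hq.le hyn
    -- first term
    have f1 : -(4 * A ^ 2) ≤
        q * (1 + u) * (-(4 * (q * (y * x.re))) * (1 - u)) * x.re := by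
      have g1 : q * (1 + u) * (-(4 * (q * (y * x.re))) * (1 - u)) * x.re =
          -(4 * (q * x.re) * (q * (y * x.re)) * (1 - u ^ 2)) := by ring
      rw [g1]
      have g2 : -A ≤ q * x.re := by
        have : q * (y * x.re) ≤ q * x.re := by
          have : y * x.re ≤ 1 * x.re := mul_le_mul_of_nonpos_right hy1 hxr
          rw [one_mul] at this
          exact mul_le_mul_of_nonneg_left this hq.le
        linarith
      have g3 : q * x.re ≤ 0 := mul_nonpos_of_nonneg_of_nonpos hq.le hxr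
      have g4 : (q * x.re) * (q * (y * x.re)) ≤ A * A := by
        rw [← neg_mul_neg]
        exact mul_le_mul (by linarith) (by linarith) (by linarith) (by linarith)
      have g5 : 0 ≤ (q * x.re) * (q * (y * x.re)) := mul_nonneg_of_nonpos_of_nonpos g3 hqx
      obtain ⟨g6, g7, -⟩ := aux_u hu1 hu2
      have g8 : (q * x.re) * (q * (y * x.re)) * (1 - u ^ 2) ≤ A * A * 1 :=
        mul_le_mul g4 g7 g6 (by positivity)
      have g9 : 4 * (q * x.re) * (q * (y * x.re)) * (1 - u ^ 2) =
        4 * ((q * x.re) * (q * (y * x.re)) * (1 - u ^ 2)) := by ring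
      rw [g9]
      have g10 : A * A * 1 = A ^ 2 := by ring
      linarith
    -- second term
    have f2 : 0 ≤ q * (1 + u) * (-(2 * (y * x.im) ^ 2 / s)) * x.re := by
      have g1 : 0 ≤ 2 * (y * x.im) ^ 2 / s := by positivity
      have g2 : 0 ≤ 1 + u := by linarith
      have g3 : 0 ≤ q * (1 + u) := mul_nonneg hq.le g2
      have g4 : q * (1 + u) * (-(2 * (y * x.im) ^ 2 / s)) ≤ 0 := by
        rw [mul_neg]
        exact neg_nonpos.2 (mul_nonneg g3 g1)
      exact mul_nonneg_of_nonpos_of_nonpos g4 hxr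
    -- third term
    have f3 : -(4 * x.im ^ 2) ≤ -(2 * (y * x.im)) * (1 + u) ^ 2 * x.im := by
      obtain ⟨-, -, g1⟩ := aux_u hu1 hu2
      have g2 : y ≤ 2 := by linarith [hy.2]
      have g3 : y * (1 + u) ^ 2 ≤ 2 := by
        calc y * (1 + u) ^ 2 ≤ 2 * 1 := mul_le_mul g2 g1 (sq_nonneg _) (by norm_num)
          _ = 2 := by norm_num
      have g4 := mul_le_mul_of_nonneg_right g3 (sq_nonneg x.im)
      have g5 : -(2 * (y * x.im)) * (1 + u) ^ 2 * x.im = -(2 * (y * (1 + u) ^ 2 * x.im ^ 2)) := by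
        ring
      rw [g5]
      linarith
    have f4 : x.im ^ 2 ≤ A ^ 2 * x.im ^ 2 :=
      le_mul_of_one_le_left (sq_nonneg _) (one_le_pow₀ hA)
    have f5 : q * (1 + u) * (-(4 * (q * (y * x.re))) * (1 - u) - 2 * (y * x.im) ^ 2 / s) * x.re =
        q * (1 + u) * (-(4 * (q * (y * x.re))) * (1 - u)) * x.re +
        q * (1 + u) * (-(2 * (y * x.im) ^ 2 / s)) * x.re := by ring
    rw [f5]
    linarith
  have hdl : -(4 * A ^ 2 * Hb x.im) ≤
      (m * pm (m - 1) (gg q s (y • x))) * (gt q s (y • x) * x.re + gb q s (y • x) * x.im) := by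
    have e4 : (m * pm (m - 1) (gg q s (y • x))) *
        (gt q s (y • x) * x.re + gb q s (y • x) * x.im) = pm (m - 1) (gg q s (y • x)) *
        ((m : ℝ) * (gt q s (y • x) * x.re + gb q s (y • x) * x.im)) := by ring
    rw [e4]
    have e5 : pm (m - 1) (gg q s (y • x)) * (-(4 * A ^ 2 * (1 + x.im ^ 2))) ≤
        pm (m - 1) (gg q s (y • x)) *
        ((m : ℝ) * (gt q s (y • x) * x.re + gb q s (y • x) * x.im)) :=
      mul_le_mul_of_nonneg_left hfac hp0
    have e6 : pm (m - 1) (gg q s (y • x)) * (4 * A ^ 2 * (1 + x.im ^ 2)) ≤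
        Real.exp (-(x.im ^ 2 / 8)) * (4 * A ^ 2 * (1 + x.im ^ 2)) :=
      mul_le_mul_of_nonneg_right (hp1.trans hexp) (by positivity)
    unfold Hb
    linarith
  have hfin := mul_le_mul_of_nonneg_right hdl hk1.le
  linarith

end dil

end Pool.Agent.H84.Q2
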