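import Pool.Agent.H84.Q2.Mass2

/-!
# Half planes
-/

set_option autoImplicit false

open MeasureTheory Set Metric Filter Topology
open scoped ENNReal Real

noncomputable section

namespace Pool.Agent.H84.Q2

open Pool.Agent.TH304.MI Pool.Agent.TH703.HU

/-- the integral over a vertical line -/
def Wl (w : ℂ → ℝ) (t : ℝ) : ℝ := ∫ b : ℝ, w ⟨t, b⟩

/-- the half plane -/
def Rh (t₀ : ℝ) : Set ℂ := {x | t₀ < x.re}

lemma meas_Rh (t₀ : ℝ) : MeasurableSet (Rh t₀) :=
  measurableSet_lt measurable_const Complex.measurable_re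

lemma PW_half {w : ℂ → ℝ} {t₀ : ℝ} (hi : Integrable fun b : ℝ => w ⟨t₀, b⟩) :
    PW w (Rh t₀) (Wl w t₀) := by
  intro Y hY
  have hYc := hY.cd.continuous
  have hfc : Continuous (fderiv ℝ Y) := hY.cd.continuous_fderiv (by norm_num)
  have hfs : HasCompactSupport (fderiv ℝ Y) := hY.cs.fderiv ℝ
  have hfd : ∀ x, HasFDerivAt Y (fderiv ℝ Y x) x := fun x =>
    (hY.cd.differentiable (by norm_num) x).hasFDerivAt
  set p : ℂ → ℝ := fun x => (fderiv ℝ Y x 1).re with hp
  set r : ℂ → ℝ := fun x => (fderiv ℝ Y x Complex.I).im with hr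
  have hpc : Continuous p := Complex.continuous_re.comp (hfc.clm_apply continuous_const)
  have hrc : Continuous r := Complex.continuous_im.comp (hfc.clm_apply continuous_const)
  have hps : HasCompactSupport p := hfs.comp_left (g := fun L : ℂ →L[ℝ] ℂ => (L 1).re) (by simp)
  have hrs : HasCompactSupport r :=
    hfs.comp_left (g := fun L : ℂ →L[ℝ] ℂ => (L Complex.I).im) (by simp)
  have ip := hpc.integrable_of_hasCompactSupport hps (μ := volume)
  have ir := hrc.integrable_of_hasCompactSupport hrs (μ := volume)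
  have hm := meas_Rh t₀
  have e1 : ∫ x in Rh t₀, dv2 Y x = (∫ x in Rh t₀, p x) + ∫ x in Rh t₀, r x :=
    integral_add ip.integrableOn ir.integrableOn
  -- closed embeddings of the slices
  have hcs1 : ∀ b : ℝ, HasCompactSupport fun t : ℝ => Y ⟨t, b⟩ := by
    intro b
    refine hY.cs.comp_isClosedEmbedding (g := fun t : ℝ => (⟨t, b⟩ : ℂ)) ?_
    have hi2 : Isometry fun t : ℝ => (⟨t, b⟩ : ℂ) := by
      apply Isometry.of_dist_eq
      intro x y
      rw [Complex.dist_eq, Real.dist_eq]
      have : (⟨x, b⟩ : ℂ) - ⟨y, b⟩ = ((x - y : ℝ) : ℂ) := by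
        apply Complex.ext <;> simp
      rw [this, Complex.norm_real, Real.norm_eq_abs]
    exact hi2.isClosedEmbedding
  have hcs2 : ∀ t : ℝ, HasCompactSupport fun b : ℝ => Y ⟨t, b⟩ := by
    intro t
    refine hY.cs.comp_isClosedEmbedding (g := fun b : ℝ => (⟨t, b⟩ : ℂ)) ?_
    have hi2 : Isometry fun b : ℝ => (⟨t, b⟩ : ℂ) := by
      apply Isometry.of_dist_eq
      intro x y
      rw [Complex.dist_eq, Real.dist_eq]
      have : (⟨t, x⟩ : ℂ) - ⟨t, y⟩ = ((x - y : ℝ) : ℂ) * Complex.I := by
        apply Complex.ext <;> simp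
      rw [this, norm_mul, Complex.norm_I, mul_one, Complex.norm_real, Real.norm_eq_abs]
    exact hi2.isClosedEmbedding
  have hd1 : ∀ b t : ℝ, HasDerivAt (fun t : ℝ => (Y ⟨t, b⟩).re) (p ⟨t, b⟩) t := by
    intro b t
    have h1 : HasDerivAt (fun t : ℝ => (⟨t, b⟩ : ℂ)) 1 t := by
      have e : (fun t : ℝ => (⟨t, b⟩ : ℂ)) = fun t : ℝ => (t : ℂ) + (b : ℂ) * Complex.I := by
        funext t
        exact Complex.mk_eq_add_mul_I t b
      rw [e]
      exact (Complex.ofRealCLM.hasDerivAt (x := t)).add_const _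
    have h2 := (hfd ⟨t, b⟩).comp_hasDerivAt t h1
    exact Complex.reCLM.hasFDerivAt.comp_hasDerivAt t h2
  have hd2 : ∀ t b : ℝ, HasDerivAt (fun b : ℝ => (Y ⟨t, b⟩).im) (r ⟨t, b⟩) b := by
    intro t b
    have h1 : HasDerivAt (fun b : ℝ => (⟨t, b⟩ : ℂ)) Complex.I b := by
      have e : (fun b : ℝ => (⟨t, b⟩ : ℂ)) = fun b : ℝ => (t : ℂ) + (b : ℂ) * Complex.I := by
        funext b
        exact Complex.mk_eq_add_mul_I t b
      rw [e]
      have := ((Complex.ofRealCLM.hasDerivAt (x := b)).mul_const Complex.I).const_add (t : ℂ)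
      simpa using this
    have h2 := (hfd ⟨t, b⟩).comp_hasDerivAt b h1
    exact Complex.imCLM.hasFDerivAt.comp_hasDerivAt b h2
  -- the second part vanishes
  have e2 : ∫ x in Rh t₀, r x = 0 := by
    rw [← integral_indicator hm, fubR2 (ir.indicator hm)]
    apply integral_eq_zero_of_ae (ae_of_all _ fun t => ?_)
    have h1 : (fun b : ℝ => (Rh t₀).indicator r ⟨t, b⟩) =
        fun b : ℝ => (Ioi t₀).indicator (fun _ => (1 : ℝ)) t * r ⟨t, b⟩ := by
      funext b
      by_cases ht : t ∈ Ioi t₀
      · have h3 : (⟨t, b⟩ : ℂ) ∈ Rh t₀ := ht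
        rw [indicator_of_mem ht, indicator_of_mem h3, one_mul]
      · have h3 : (⟨t, b⟩ : ℂ) ∉ Rh t₀ := ht
        rw [indicator_of_notMem ht, indicator_of_notMem h3, zero_mul]
    simp only [Pi.zero_apply]
    rw [h1, integral_const_mul]
    have hc2 : HasCompactSupport fun b : ℝ => (Y ⟨t, b⟩).im :=
      (hcs2 t).comp_left (g := fun z : ℂ => z.im) rfl
    have hcont : Continuous fun b : ℝ => (Y ⟨t, b⟩).im :=
      Complex.continuous_im.comp (hYc.comp (mk_cont_im t))
    have hder : deriv (fun b : ℝ => (Y ⟨t, b⟩).im) = fun b => r ⟨t, b⟩ :=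
      funext fun b => (hd2 t b).deriv
    have hc3 : HasCompactSupport fun b : ℝ => r ⟨t, b⟩ := by
      rw [← hder]
      exact hc2.deriv
    have h2 := integral_eq_zero_of_hasDerivAt_of_integrable (hd2 t)
      ((hrc.comp (mk_cont_im t)).integrable_of_hasCompactSupport hc3)
      (hcont.integrable_of_hasCompactSupport hc2)
    rw [h2, mul_zero]
  -- the first part
  have e3 : ∫ x in Rh t₀, p x = ∫ b : ℝ, -(Y ⟨t₀, b⟩).re := by
    rw [← integral_indicator hm, fubR1 (ip.indicator hm)]
    apply integral_congr_ae (ae_of_all _ fun b => ?_)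
    have h1 : (fun t : ℝ => (Rh t₀).indicator p ⟨t, b⟩) =
        (Ioi t₀).indicator fun t => p ⟨t, b⟩ := by
      funext t
      rfl
    rw [h1, integral_indicator measurableSet_Ioi]
    have hc2 : HasCompactSupport fun t : ℝ => (Y ⟨t, b⟩).re :=
      (hcs1 b).comp_left (g := fun z : ℂ => z.re) rfl
    have hder : deriv (fun t : ℝ => (Y ⟨t, b⟩).re) = fun t => p ⟨t, b⟩ :=
      funext fun t => (hd1 b t).deriv
    have hcd : ContDiff ℝ 1 fun t : ℝ => (Y ⟨t, b⟩).re := by
      rw [contDiff_one_iff_deriv, hder]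
      exact ⟨fun t => (hd1 b t).differentiableAt, hpc.comp (mk_cont_re b)⟩
    have h2 := hc2.integral_Ioi_deriv_eq hcd t₀
    rw [hder] at h2
    exact h2
  rw [e1, e2, e3, add_zero]
  have hci : Continuous fun b : ℝ => -(Y ⟨t₀, b⟩).re :=
    (Complex.continuous_re.comp (hYc.comp (mk_cont_im t₀))).neg
  have hcc : HasCompactSupport fun b : ℝ => -(Y ⟨t₀, b⟩).re :=
    (hcs2 t₀).comp_left (g := fun z : ℂ => -z.re) (by simp)
  refine integral_mono (hci.integrable_of_hasCompactSupport hcc) hi fun b => ?_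
  have h5 := hY.le ⟨t₀, b⟩
  have h6 := Complex.abs_re_le_norm (Y ⟨t₀, b⟩)
  have h7 := neg_abs_le (Y ⟨t₀, b⟩).re
  dsimp only
  linarith

section slice

variable {q s A : ℝ} {m : ℕ}

lemma slice_int (h : Good q s A m) (t : ℝ) :
    Integrable fun b : ℝ => ww q s (A / q) m ⟨t, b⟩ := by
  refine ga_int.mono' (ww_meas.comp (mk_cont_im t).measurable).aestronglyMeasurable
    (ae_of_all _ fun b => ?_)
  rw [Real.norm_of_nonneg (ww_nonneg _)]
  exact ww_le_ga h _

lemma Wl_le (h : Good q s A m) (t : ℝ) : Wl (ww q s (A / q) m) t ≤ 4 :=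
  (integral_mono (slice_int h t) ga_int fun b => ww_le_ga h ⟨t, b⟩).trans ga_le

lemma Wl_nonneg (t : ℝ) : 0 ≤ Wl (ww q s (A / q) m) t := integral_nonneg fun _ => ww_nonneg _

/-- The quantile. -/
lemma exists_quantile (h : Good q s A m) {v : ℝ} (hv0 : 0 ≤ v)
    (hv : v ≤ mu (ww q s (A / q) m) univ) :
    ∃ t₀ : ℝ, -(A / q) ≤ t₀ ∧ t₀ ≤ 0 ∧ mu (ww q s (A / q) m) (Rh t₀) = v := by
  set w := ww q s (A / q) m with hw
  have hT := h.T0
  have hWT := ww_WT h
  have hlip : ∀ t t' : ℝ, t ≤ t' → mu w (Rh t) ≤ mu w (Rh t') + 4 * (t' - t) := by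
    intro t t' htt
    have h1 : Rh t ⊆ Rh t' ∪ {x | t ≤ x.re ∧ x.re ≤ t'} := by
      intro x hx
      rcases lt_or_ge t' x.re with h2 | h2
      · exact Or.inl h2
      · exact Or.inr ⟨le_of_lt hx, h2⟩
    have hm : MeasurableSet {x : ℂ | t ≤ x.re ∧ x.re ≤ t'} :=
      (measurableSet_le measurable_const Complex.measurable_re).inter
        (measurableSet_le Complex.measurable_re measurable_const)
    refine (mu_mono hWT h1).trans ((mu_union_le hWT hm).trans ?_)
    have := mu_slab_Ioo h htt hm fun x hx => hx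
    linarith
  have hmono : ∀ t t' : ℝ, t ≤ t' → mu w (Rh t') ≤ mu w (Rh t) := fun t t' htt =>
    mu_mono hWT fun x hx => lt_of_le_of_lt htt hx
  have hc : Continuous fun t : ℝ => mu w (Rh t) := by
    have : LipschitzWith 4 fun t : ℝ => mu w (Rh t) := by
      apply LipschitzWith.of_dist_le_mul
      intro x y
      rw [Real.dist_eq, Real.dist_eq]
      simp only [NNReal.coe_ofNat]
      rcases le_total x y with hxy | hxy
      · have h1 := hlip x y hxy
        have h2 := hmono x y hxy
        rw [abs_of_nonneg (by linarith), abs_of_nonpos (by linarith)]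
        linarith
      · have h1 := hlip y x hxy
        have h2 := hmono y x hxy
        rw [abs_of_nonpos (by linarith), abs_of_nonneg (by linarith)]
        linarith
    exact this.continuous
  have h0 : mu w (Rh 0) = 0 := by
    apply setIntegral_eq_zero_of_forall_eq_zero
    intro x hx
    apply ww_of_notMem
    intro h1
    exact absurd h1.2 (not_lt.2 (le_of_lt hx))
  have h1 : mu w (Rh (-(A / q))) = mu w univ := by
    apply le_antisymm (mu_mono hWT (subset_univ _))
    have h2 : mu w univ = mu w (univ ∩ Rh (-(A / q))) + mu w (univ \ Rh (-(A / q))) :=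
      (mu_add_diff hWT (meas_Rh _)).symm
    have h3 : mu w (univ \ Rh (-(A / q))) = 0 := by
      apply setIntegral_eq_zero_of_forall_eq_zero
      intro x hx
      apply ww_of_notMem
      intro h4
      exact hx.2 h4.1
    rw [h2, h3, add_zero, univ_inter]
  have := intermediate_value_Icc' (by linarith : -(A / q) ≤ (0 : ℝ)) hc.continuousOn
  obtain ⟨t, ht, hte⟩ := this (show v ∈ Icc (mu w (Rh 0)) (mu w (Rh (-(A / q)))) by
    rw [h0, h1]
    exact ⟨hv0, hv⟩)
  exact ⟨t, ht.1, ht.2, hte⟩

/-- The mass between two levels of a function `-t + S b`. -/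
lemma mu_band (h : Good q s A m) {S : ℝ → ℝ} {c c' : ℝ} (hcc : c ≤ c')
    {G : Set ℂ} (hG : MeasurableSet G)
    (hsub : ∀ x ∈ G, c ≤ -x.re + S x.im ∧ -x.re + S x.im ≤ c') :
    mu (ww q s (A / q) m) G ≤ 4 * (c' - c) := by
  have hWT := ww_WT h
  have h1 : ENNReal.ofReal (mu (ww q s (A / q) m) G) ≤ ENNReal.ofReal (4 * (c' - c)) := by
    rw [mu, ofReal_integral_eq_lintegral_ofReal hWT.int.integrableOn (ae_of_all _ hWT.nn),
      ← lintegral_indicator hG]
    have hm : Measurable (G.indicator fun x => ENNReal.ofReal (ww q s (A / q) m x)) :=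
      (hWT.meas.ennreal_ofReal).indicator hG
    rw [Pool.Agent.TH742.HU.fub1 hm]
    calc ∫⁻ b : ℝ, ∫⁻ t : ℝ, G.indicator (fun x => ENNReal.ofReal (ww q s (A / q) m x)) ⟨t, b⟩ ≤
          ∫⁻ b : ℝ, ENNReal.ofReal (ga b) * ENNReal.ofReal (c' - c) := by
          apply lintegral_mono fun b => ?_
          calc ∫⁻ t : ℝ, G.indicator (fun x => ENNReal.ofReal (ww q s (A / q) m x)) ⟨t, b⟩ ≤
                ∫⁻ t : ℝ, (Icc (S b - c') (S b - c)).indicator
                  (fun _ => ENNReal.ofReal (ga b)) t := by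
                apply lintegral_mono fun t => ?_
                by_cases hx : (⟨t, b⟩ : ℂ) ∈ G
                · rw [indicator_of_mem hx]
                  have h2 := hsub _ hx
                  have h3 : t ∈ Icc (S b - c') (S b - c) := by
                    constructor
                    · have := h2.2
                      dsimp at this
                      linarith
                    · have := h2.1
                      dsimp at this
                      linarith
                  rw [indicator_of_mem h3]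
                  exact ENNReal.ofReal_le_ofReal (ww_le_ga h _)
                · rw [indicator_of_notMem hx]
                  exact zero_le
            _ = ENNReal.ofReal (ga b) * ENNReal.ofReal (c' - c) := by
                rw [lintegral_indicator measurableSet_Icc, setLIntegral_const, Real.volume_Icc]
                congr 2
                ring
      _ = ENNReal.ofReal (∫ b, ga b) * ENNReal.ofReal (c' - c) := by
          rw [lintegral_mul_const' _ _ ENNReal.ofReal_ne_top,
            ofReal_integral_eq_lintegral_ofReal ga_int (ae_of_all _ fun b => (ga_pos b).le)]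
      _ ≤ ENNReal.ofReal 4 * ENNReal.ofReal (c' - c) :=
          mul_le_mul_left (ENNReal.ofReal_le_ofReal ga_le) _
      _ = _ := (ENNReal.ofReal_mul (by norm_num)).symm
  exact (ENNReal.ofReal_le_ofReal_iff (by linarith)).1 h1

end slice

end Pool.Agent.H84.Q2
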