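import Pool.Agent.H84.Q2.Tail
import Pool.Agent.H84.Q2.Half
import Pool.Graph.R_seed8.TH28.HU.Ode

/-!
# Extinction
-/

set_option autoImplicit false

open MeasureTheory Set Metric Filter Topology
open scoped ENNReal Real

noncomputable section

namespace Pool.Agent.H84.Q2

open Pool.Agent.TH304.MI Pool.Agent.TH703.HU Pool.Agent.TH802.HU

section ext

variable {q s A c₀ : ℝ} {m : ℕ}

/-- The isoperimetric inequality for the bulk. -/
theorem iso_mass (h : Good q s A m) {G : Set ℂ} (hG : MeasurableSet G) {P κ B : ℝ}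
    (hP : PW (ww q s (A / q) m) G P) (hκ : 0 < κ) (hB : 1 ≤ B)
    (hκw : ∀ x ∈ strip (A / q), |x.im| ≤ B + 1 → κ ≤ ww q s (A / q) m x)
    (hp : P / κ < 2 * B)
    (hsm : mu (ww q s (A / q) m) G / κ < 2 * B * (A / q - 4 - 2 * B)) :
    mu (ww q s (A / q) m) (G \ tr B) ≤ (P / κ) ^ 2 := by
  have hWT := ww_WT h
  set w := ww q s (A / q) m with hw
  set T := A / q with hT
  have hP0 : 0 ≤ P := PW_nonneg hWT.nn hP
  have hp0 : 0 ≤ P / κ := div_nonneg hP0 hκ.le
  have hT4 : 4 + 2 * B < T := by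
    by_contra hcon
    have h1 : 2 * B * (T - 4 - 2 * B) ≤ 0 :=
      mul_nonpos_of_nonneg_of_nonpos (by linarith) (by linarith)
    have h2 : 0 ≤ mu w G / κ := div_nonneg (mu_nonneg hWT G) hκ.le
    linarith
  have key : ∀ r : ℝ, 0 < r → r ≤ 1 → mu w (G \ tr B) ≤ (P / κ) ^ 2 + 16 * r := by
    intro r hr hr1
    set t₁ : ℝ := -T + 2 * r with ht₁
    set t₂ : ℝ := -(2 * r) with ht₂
    have h12 : t₁ < t₂ := by linarith
    have hcd : -B < B := by linarith
    have hk : ∀ t b, t₁ - r ≤ t → t ≤ t₂ + r → -B - r ≤ b → b ≤ B + r → κ ≤ w ⟨t, b⟩ := by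
      intro t b a1 a2 a3 a4
      apply hκw
      · constructor
        · show -T < t
          linarith
        · show t < 0
          linarith
      · exact abs_le.2 ⟨by show -(B + 1) ≤ b; linarith, by show b ≤ B + 1; linarith⟩
    have hNV := NV_le hWT hG hP hcd hr hκ hk
    have hNH := NH_le hWT hG hP h12 hr hκ hk
    have hv : volume (G ∩ rect t₁ t₂ (-B) B) ≤ ENNReal.ofReal (mu w G / κ) := by
      refine (vol_le_mu hWT (hG.inter (meas_rect _ _ _ _)) hκ ?_).trans
        (ENNReal.ofReal_le_ofReal ?_)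
      · intro x hx
        obtain ⟨⟨a1, a2⟩, a3, a4⟩ := hx.2
        have := hk x.re x.im (by linarith) (by linarith) (by linarith) (by linarith)
        exact this
      · exact div_le_div_of_nonneg_right (mu_mono hWT inter_subset_left) hκ.le
    have hsm2 : volume (G ∩ rect t₁ t₂ (-B) B) <
        ENNReal.ofReal ((B - -B) * ((t₂ - t₁) - P / κ)) := by
      refine lt_of_le_of_lt hv ?_
      have e1 : 2 * B * (T - 4 - 2 * B) ≤ (B - -B) * ((t₂ - t₁) - P / κ) := by
        have e2 : B - -B = 2 * B := by ring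
        rw [e2]
        apply mul_le_mul_of_nonneg_left _ (by linarith)
        rw [ht₁, ht₂]
        linarith
      have e3 : 0 ≤ mu w G / κ := div_nonneg (mu_nonneg hWT G) hκ.le
      exact (ENNReal.ofReal_lt_ofReal_iff (by linarith)).2 (by linarith)
    have hiso := iso_rect hG h12 hcd hp0 hNV hNH (by linarith) hsm2
    have h3 := mu_le_vol hWT (hG.inter (meas_rect _ _ _ _)) (ww_le_one h) (sq_nonneg _) hiso
    -- covering
    set P₁ : Set ℂ := {x | -T ≤ x.re ∧ x.re ≤ t₁} with hP₁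
    set P₂ : Set ℂ := {x | t₂ ≤ x.re ∧ x.re ≤ 0} with hP₂
    set P₄ : Set ℂ := {x | x ∉ strip T} with hP₄
    have m1 : MeasurableSet P₁ := (measurableSet_le measurable_const Complex.measurable_re).inter
      (measurableSet_le Complex.measurable_re measurable_const)
    have m2 : MeasurableSet P₂ := (measurableSet_le measurable_const Complex.measurable_re).inter
      (measurableSet_le Complex.measurable_re measurable_const)
    have m4 : MeasurableSet P₄ := (isOpen_strip T).measurableSet.compl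
    have hsub : G \ tr B ⊆ (((G ∩ rect t₁ t₂ (-B) B) ∪ P₁) ∪ P₂) ∪ P₄ := by
      intro x hx
      have hxB : |x.im| < B := not_le.1 hx.2
      by_cases hxs : x ∈ strip T
      · rcases le_or_gt x.re t₁ with a1 | a1
        · exact Or.inl (Or.inl (Or.inr ⟨hxs.1.le, a1⟩))
        · rcases le_or_gt t₂ x.re with a4 | a4
          · exact Or.inl (Or.inr ⟨a4, hxs.2.le⟩)
          · exact Or.inl (Or.inl (Or.inl ⟨hx.1, ⟨a1, a4⟩, (abs_lt.1 hxB).1, (abs_lt.1 hxB).2⟩))
      · exact Or.inr hxs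
    have b1 := mu_slab_Ioo h (by linarith : -T ≤ t₁) m1 fun x hx => hx
    have b2 := mu_slab_Ioo h (by linarith : t₂ ≤ 0) m2 fun x hx => hx
    have b4 : mu w P₄ = 0 := by
      apply setIntegral_eq_zero_of_forall_eq_zero
      intro x hx
      exact ww_of_notMem hx
    rw [← hw] at b1 b2
    have c1 := mu_mono hWT hsub
    have c2 := mu_union_le hWT (G := (((G ∩ rect t₁ t₂ (-B) B) ∪ P₁) ∪ P₂)) m4
    have c4 := mu_union_le hWT (G := ((G ∩ rect t₁ t₂ (-B) B) ∪ P₁)) m2
    have c5 := mu_union_le hWT (G := (G ∩ rect t₁ t₂ (-B) B)) m1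
    rw [ht₁] at b1
    rw [ht₂] at b2
    linarith
  by_contra hcon
  rw [not_le] at hcon
  set d := mu w (G \ tr B) - (P / κ) ^ 2 with hd
  have hd0 : 0 < d := by linarith
  have h1 := key (min 1 (d / 32)) (lt_min one_pos (by linarith)) (min_le_left _ _)
  have h2 : min 1 (d / 32) ≤ d / 32 := min_le_right _ _
  linarith

/-- The mass above a level. -/
lemma lip_up (h : Good q s A m) {F : Set ℂ} {c c' : ℝ} (hcc : c ≤ c') :
    mu (ww q s (A / q) m) (F ∩ up (psi q s c₀) c) ≤
      mu (ww q s (A / q) m) (F ∩ up (psi q s c₀) c') + 4 * (c' - c) := by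
  have hWT := ww_WT h
  have hψ := (psi_contDiff q s c₀).continuous
  have hm : MeasurableSet {x : ℂ | c ≤ psi q s c₀ x ∧ psi q s c₀ x ≤ c'} :=
    (measurableSet_le measurable_const hψ.measurable).inter
      (measurableSet_le hψ.measurable measurable_const)
  have h1 : F ∩ up (psi q s c₀) c ⊆ (F ∩ up (psi q s c₀) c') ∪
      {x : ℂ | c ≤ psi q s c₀ x ∧ psi q s c₀ x ≤ c'} := by
    intro x hx
    rcases lt_or_ge c' (psi q s c₀ x) with h2 | h2
    · exact Or.inl ⟨hx.1, h2⟩
    · exact Or.inr ⟨le_of_lt hx.2, h2⟩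
  have h2 := mu_band h hcc (S := Sf q s c₀) hm fun x hx => hx
  exact (mu_mono hWT h1).trans ((mu_union_le hWT hm).trans (by linarith))

theorem extinct (h : Good q s A m) (hc0 : 0 < c₀) (hc1 : c₀ ≤ 1 / 8) {F : Set ℂ}
    (hF : MeasurableSet F) {P : ℝ} (hP : PW (ww q s (A / q) m) F P) {Λ : ℝ} (hΛ : 0 ≤ Λ)
    {ca : ℝ}
    (hone : ∀ c C : ℝ, ca ≤ c → PW (ww q s (A / q) m) (F \ up (psi q s c₀) c) C →
      PW (ww q s (A / q) m) F (C + Λ * mu (ww q s (A / q) m) (F ∩ up (psi q s c₀) c)))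
    {κ B K : ℝ} (hκ : 0 < κ) (hB : 1 ≤ B)
    (hκw : ∀ x ∈ strip (A / q), |x.im| ≤ B + 1 → κ ≤ ww q s (A / q) m x) (hK : 1 ≤ K)
    (htb : ∀ c, ca ≤ c → c ≤ ca + 1 / q →
      mu (ww q s (A / q) m) (F ∩ up (psi q s c₀) c) ≤
      K * mu (ww q s (A / q) m) ((F ∩ up (psi q s c₀) c) \ tr B))
    {E : ℝ} (hE : 1 ≤ E) (hFE : mu (ww q s (A / q) m) (F ∩ up (psi q s c₀) ca) ≤ E)
    (hE0 : E / κ < 2 * B * (A / q - 4 - 2 * B))
    (hE1 : Λ * E ≤ κ / (2 * √K)) (hE2 : 16 * E * q < κ / √K) :
    mu (ww q s (A / q) m) (F ∩ up (psi q s c₀) (ca + 1 / q)) = 0 := by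
  have hWT := ww_WT h
  have hq := h.q0
  have hm2 := h.m2
  have hψ := (psi_contDiff q s c₀).continuous
  set w := ww q s (A / q) m with hw
  set μ : ℝ → ℝ := fun c => mu w (F ∩ up (psi q s c₀) c) with hμ
  set g : ℝ → ℝ := fun t => μ (ca + (ca + 1 / q) - t) with hg
  have hqi : 0 < 1 / q := by positivity
  have hanti : ∀ c c', c ≤ c' → μ c' ≤ μ c := fun c c' hcc =>
    mu_mono hWT (inter_subset_inter_right F fun x (hx : c' < _) => lt_of_le_of_lt hcc hx)
  have hlip : ∀ c c', c ≤ c' → μ c ≤ μ c' + 4 * (c' - c) := fun c c' hcc => lip_up h hcc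
  have hgr : g ca = μ (ca + 1 / q) := by
    rw [hg]
    dsimp only
    congr 1
    ring
  have hgR : g (ca + 1 / q) = μ ca := by
    rw [hg]
    dsimp only
    congr 1
    ring
  have hsK : 1 ≤ √K := Real.one_le_sqrt.2 hK
  have hsK0 : 0 < √K := lt_of_lt_of_le one_pos hsK
  have hsE : 1 ≤ √E := Real.one_le_sqrt.2 hE
  have hsE0 : 0 < √E := lt_of_lt_of_le one_pos hsE
  have hEE : √E * √E = E := Real.mul_self_sqrt (by linarith)
  set c₁ : ℝ := κ / (√K * √E) with hc₁
  have hc₁0 : 0 < c₁ := by positivity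
  have hmain := Pool.Agent.TH28.HU.c10 g ca (ca + 1 / q) (c₁ / 2) (1 / 2) (Λ / 2) 4
    (by linarith) ?_ ?_ ?_ (by positivity) (by norm_num) (by norm_num) (by linarith) ?_ ?_ ?_
  · rw [hgr] at hmain
    exact hmain
  · -- monotone
    intro t _ t' _ htt
    exact hanti _ _ (by linarith)
  · -- Lipschitz
    intro t _ t' _
    rcases le_total t t' with htt | htt
    · have h1 := hlip (ca + (ca + 1 / q) - t') (ca + (ca + 1 / q) - t) (by linarith)
      have h2 := hanti (ca + (ca + 1 / q) - t') (ca + (ca + 1 / q) - t) (by linarith)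
      rw [abs_sub_comm, abs_of_nonneg (by rw [hg]; dsimp only; linarith),
        abs_of_nonpos (by linarith)]
      rw [hg]
      dsimp only
      linarith
    · have h1 := hlip (ca + (ca + 1 / q) - t) (ca + (ca + 1 / q) - t') (by linarith)
      have h2 := hanti (ca + (ca + 1 / q) - t) (ca + (ca + 1 / q) - t') (by linarith)
      rw [abs_of_nonneg (by rw [hg]; dsimp only; linarith), abs_of_nonneg (by linarith)]
      rw [hg]
      dsimp only
      linarith
  · intro t _
    exact mu_nonneg hWT _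
  · -- the differential inequality
    intro t ht d hd
    set c : ℝ := ca + (ca + 1 / q) - t with hc
    have hca : ca ≤ c := by linarith [ht.2]
    have hcb : c ≤ ca + 1 / q := by linarith [ht.1]
    have hdμ : HasDerivAt μ (-d) c := by
      have h1 : HasDerivAt (fun x : ℝ => ca + (ca + 1 / q) - x) (-1) c := by
        simpa using (hasDerivAt_id c).const_sub (ca + (ca + 1 / q))
      have h2 : ca + (ca + 1 / q) - c = t := by rw [hc]; ring
      have h3 : HasDerivAt g d (ca + (ca + 1 / q) - c) := by rw [h2]; exact hd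
      have h4 := h3.comp c h1
      have h5 : g ∘ (fun x : ℝ => ca + (ca + 1 / q) - x) = μ := by
        funext x
        rw [hg]
        simp only [Function.comp_apply]
        congr 1
        ring
      rw [h5] at h4
      refine h4.congr_deriv ?_
      ring
    have hPW : PW w (F ∩ up (psi q s c₀) c) (2 * 2 * d + Λ * μ c) := by
      apply cut_perS hWT hF hP (psi_contDiff q s c₀) (K := 2) (by norm_num) ?_ hdμ
      · intro C hC
        exact hone c C hca hC
      · intro z hz
        rw [(psi_hasFDerivAt q s c₀ z).fderiv]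
        have hz' := hz
        rw [hw, ww_pos_iff (by omega)] at hz'
        exact (dpsi_norm _ _ _ _).trans
          (nn_le h hc0 hc1 (im_le h hz'.1.1.le hz'.1.2.le hz'.2))
    set P' : ℝ := 2 * 2 * d + Λ * μ c with hP'
    have hP'0 : 0 ≤ P' := PW_nonneg hWT.nn hPW
    have hμc : g t = μ c := rfl
    have hμ0 : 0 ≤ μ c := mu_nonneg hWT _
    have hμE : μ c ≤ E := (hanti _ _ hca).trans hFE
    have hGm : MeasurableSet (F ∩ up (psi q s c₀) c) := hF.inter (meas_up hψ c)
    have key : c₁ * √(μ c) ≤ P' := by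
      rcases lt_or_ge (P' / κ) (2 * B) with hp | hp
      · have h1 := iso_mass h hGm hPW hκ hB hκw hp (lt_of_le_of_lt
          (div_le_div_of_nonneg_right hμE hκ.le) hE0)
        have h2 := htb c hca hcb
        have h3 : μ c ≤ K * (P' / κ) ^ 2 := h2.trans (mul_le_mul_of_nonneg_left h1 (by linarith))
        have h4 : √(μ c) ≤ √K * (P' / κ) := by
          calc √(μ c) ≤ √(K * (P' / κ) ^ 2) := Real.sqrt_le_sqrt h3
            _ = √K * (P' / κ) := by
                rw [Real.sqrt_mul (by linarith), Real.sqrt_sq (div_nonneg hP'0 hκ.le)]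
        have h5 : c₁ * √(μ c) ≤ c₁ * (√K * (P' / κ)) := mul_le_mul_of_nonneg_left h4 hc₁0.le
        have h6 : c₁ * (√K * (P' / κ)) = P' / √E := by
          rw [hc₁]
          field_simp
        rw [h6] at h5
        exact h5.trans (div_le_self hP'0 hsE)
      · have h1 : √(μ c) ≤ √E := Real.sqrt_le_sqrt hμE
        have h2 : c₁ * √(μ c) ≤ c₁ * √E := mul_le_mul_of_nonneg_left h1 hc₁0.le
        have h3 : c₁ * √E = κ / √K := by
          rw [hc₁]
          field_simp
        have h4 : κ / √K ≤ κ := div_le_self hκ.le hsK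
        rw [le_div_iff₀ hκ] at hp
        have h5 : κ ≤ 2 * B * κ := le_mul_of_one_le_left hκ.le (by linarith)
        linarith
    rw [hμc, ← Real.sqrt_eq_rpow]
    linarith
  · -- first smallness
    rw [hgR]
    have h1 : (μ ca) ^ (1 - 1 / 2 : ℝ) ≤ √E := by
      have e : (1 - 1 / 2 : ℝ) = 1 / 2 := by norm_num
      rw [e, ← Real.sqrt_eq_rpow]
      exact Real.sqrt_le_sqrt hFE
    have h2 : Λ / 2 * (μ ca) ^ (1 - 1 / 2 : ℝ) ≤ Λ / 2 * √E :=
      mul_le_mul_of_nonneg_left h1 (by linarith)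
    refine h2.trans ?_
    have h3 : Λ * √E * √E ≤ κ / (2 * √K) := by rw [mul_assoc, hEE]; exact hE1
    have h4 : Λ * √E ≤ κ / (2 * √K) / √E := by
      rw [le_div_iff₀ hsE0]
      exact h3
    have h5 : κ / (2 * √K) / √E = c₁ / 2 := by
      rw [hc₁]
      field_simp
    rw [h5] at h4
    linarith
  · -- second smallness
    rw [hgR]
    have h1 : (μ ca) ^ (1 - 1 / 2 : ℝ) ≤ √E := by
      have e : (1 - 1 / 2 : ℝ) = 1 / 2 := by norm_num
      rw [e, ← Real.sqrt_eq_rpow]
      exact Real.sqrt_le_sqrt hFE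
    refine lt_of_le_of_lt h1 ?_
    have e1 : (1 - 1 / 2 : ℝ) * (c₁ / 2) * (ca + 1 / q - ca) / 4 = c₁ / (16 * q) := by
      field_simp
      ring
    rw [e1, lt_div_iff₀ (by positivity), hc₁, lt_div_iff₀ (by positivity)]
    rw [lt_div_iff₀ hsK0] at hE2
    have h5 : √E * (16 * q) * (√K * √E) = 16 * (√E * √E) * q * √K := by ring
    rw [h5, hEE]
    exact hE2

end ext

end Pool.Agent.H84.Q2
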