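import Pool.Agent.H84.Q2.Cut

/-!
# Gluing a calibrating field
-/

set_option autoImplicit false

open MeasureTheory Set Metric Filter Topology
open scoped ENNReal Real

noncomputable section

namespace Pool.Agent.H84.Q2

open Pool.Agent.TH304.MI Pool.Agent.TH703.HU Pool.Agent.TH802.HU

lemma dS_left {t : ℝ} (ht : t ≤ 0) : deriv Real.smoothTransition t = 0 := by
  apply IsLocalMin.deriv_eq_zero
  refine Eventually.of_forall fun y => ?_
  rw [Real.smoothTransition.zero_of_nonpos ht]
  exact Real.smoothTransition.nonneg _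

lemma dS_right {t : ℝ} (ht : 1 ≤ t) : deriv Real.smoothTransition t = 0 := by
  apply IsLocalMax.deriv_eq_zero
  refine Eventually.of_forall fun y => ?_
  rw [Real.smoothTransition.one_of_one_le ht]
  exact Real.smoothTransition.le_one _

lemma dS_nonneg (t : ℝ) : 0 ≤ deriv Real.smoothTransition t :=
  Real.smoothTransition.monotone.deriv_nonneg

lemma dS_cont : Continuous (deriv Real.smoothTransition) :=
  (Real.smoothTransition.contDiff (n := 1)).continuous_deriv (by norm_num)

lemma dS_bound : ∃ M : ℝ, 0 ≤ M ∧ ∀ t, deriv Real.smoothTransition t ≤ M := by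
  obtain ⟨M, hM⟩ := (isCompact_Icc (a := (0 : ℝ)) (b := 1)).exists_bound_of_continuousOn
    dS_cont.continuousOn
  have h0 : 0 ≤ M := (norm_nonneg _).trans (hM 0 ⟨le_rfl, zero_le_one⟩)
  refine ⟨M, h0, fun t => ?_⟩
  by_cases h1 : t ≤ 0
  · rw [dS_left h1]; exact h0
  · by_cases h2 : 1 ≤ t
    · rw [dS_right h2]; exact h0
    · have h3 := hM t ⟨(not_le.1 h1).le, (not_le.1 h2).le⟩
      exact (le_abs_self _).trans h3

lemma dS_has (t : ℝ) : HasDerivAt Real.smoothTransition (deriv Real.smoothTransition t) t :=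
  ((Real.smoothTransition.contDiff (n := 1)).differentiable (by norm_num) _).hasDerivAt

theorem glueS {w : ℂ → ℝ} (hw : WT w) {A : Set ℂ} (hA : MeasurableSet A) {P : ℝ}
    (hP : PW w A P) {ψ : ℂ → ℝ} (hψ : ContDiff ℝ 1 ψ) {K : ℝ} (hK0 : 0 ≤ K)
    (hK : ∀ z, 0 < w z → ‖fderiv ℝ ψ z‖ ≤ K) {c : ℝ} {v : ℂ → ℂ} (hv : ContDiff ℝ 1 v)
    (hv1 : ∀ x, 0 < w x → ‖v x‖ ≤ 1) {r₀ : ℝ} (hr₀ : 0 < r₀)
    (hν : ∀ x, 0 < w x → c < ψ x → ψ x < c + r₀ → ‖fderiv ℝ ψ x‖ ≤ fderiv ℝ ψ x (v x))
    {W : ℕ → ℂ → ℝ} (hWc : ∀ n, ContDiff ℝ 1 (W n)) (hWs : ∀ n, HasCompactSupport (W n))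
    (hWt : ∀ n, tsupport (W n) ⊆ {x | 0 < w x}) (hW0 : ∀ n x, 0 ≤ W n x)
    (hW1 : ∀ n x, W n x ≤ w x) (hWl : ∀ x, Tendsto (fun n => W n x) atTop (𝓝 (w x)))
    {Φ : ℕ → ℂ → ℝ} {Φ₀ B : ℂ → ℝ} (hBi : Integrable B)
    (hΦm : ∀ n, AEStronglyMeasurable (Φ n) volume)
    (hΦ : ∀ n x, c < ψ x → Φ n x ≤ dv2 (fun z => W n z • v z) x)
    (hΦl : ∀ x, Tendsto (fun n => Φ n x) atTop (𝓝 (Φ₀ x))) (hΦb : ∀ n x, |Φ n x| ≤ B x)
    {Y : ℂ → ℂ} (hY : TW w Y) :
    (∫ x in A \ up ψ c, dv2 Y x) + ∫ x in A ∩ up ψ c, Φ₀ x ≤ P := by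
  obtain ⟨M, hM0, hM⟩ := dS_bound
  have hΦ₀b : ∀ x, |Φ₀ x| ≤ B x := fun x =>
    le_of_tendsto' (hΦl x).abs fun n => hΦb n x
  have hΦ₀m : AEStronglyMeasurable Φ₀ volume :=
    aestronglyMeasurable_of_tendsto_ae atTop hΦm (ae_of_all _ hΦl)
  have hΦi : ∀ n, Integrable (Φ n) := fun n =>
    hBi.mono' (hΦm n) (ae_of_all _ fun x => by rw [Real.norm_eq_abs]; exact hΦb n x)
  have hΦ₀i : Integrable Φ₀ :=
    hBi.mono' hΦ₀m (ae_of_all _ fun x => by rw [Real.norm_eq_abs]; exact hΦ₀b x)
  have hB0 : ∀ x, 0 ≤ B x := fun x => (abs_nonneg _).trans (hΦ₀b x)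
  have iY := dv2_int hY.cd hY.cs
  have hYW : ∀ n, TW w (fun z => W n z • v z) := by
    intro n
    refine ⟨(hWc n).smul hv, ?_, ?_, ?_⟩
    · exact (hWs n).smul_right
    · refine (closure_mono ?_).trans (hWt n)
      intro x hx h0
      apply hx
      dsimp only
      rw [h0, zero_smul]
    · intro x
      rw [norm_smul, Real.norm_of_nonneg (hW0 n x)]
      rcases (hw.nn x).eq_or_lt with h0 | h0
      · have h1 : W n x = 0 := le_antisymm (by rw [h0]; exact hW1 n x) (hW0 n x)
        rw [h1, zero_mul]
        exact hw.nn x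
      · calc W n x * ‖v x‖ ≤ W n x * 1 := mul_le_mul_of_nonneg_left (hv1 x h0) (hW0 n x)
          _ ≤ w x := by rw [mul_one]; exact hW1 n x
  -- first step: fixed cutoff
  have step1 : ∀ k : ℝ, 0 < k → 1 < k * r₀ →
      ∫ x in A, (dv2 Y x + Real.smoothTransition (k * (ψ x - c)) * (Φ₀ x - dv2 Y x)) ≤ P := by
    intro k hk hkr
    set χ : ℂ → ℝ := fun x => Real.smoothTransition (k * (ψ x - c)) with hχd
    set s : ℂ → ℝ := fun x => deriv Real.smoothTransition (k * (ψ x - c)) * k with hs
    have hχ : ContDiff ℝ 1 χ := Real.smoothTransition.contDiff.comp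
      (contDiff_const.mul (hψ.sub contDiff_const))
    have h01 : ∀ z, 0 ≤ χ z ∧ χ z ≤ 1 := fun z =>
      ⟨Real.smoothTransition.nonneg _, Real.smoothTransition.le_one _⟩
    have hs0 : ∀ x, 0 ≤ s x := fun x => mul_nonneg (dS_nonneg _) hk.le
    have hsM : ∀ x, s x ≤ M * k := fun x => mul_le_mul_of_nonneg_right (hM _) hk.le
    have hsc : Continuous s := by
      have h1 := hψ.continuous
      have h2 : Continuous fun x => k * (ψ x - c) := by fun_prop
      exact (dS_cont.comp h2).mul continuous_const
    have hfd : ∀ z, HasFDerivAt χ (s z • fderiv ℝ ψ z) z := by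
      intro z
      have e1 := (hψ.differentiable (by norm_num) z).hasFDerivAt
      have e2 : HasFDerivAt (fun z => k * (ψ z - c)) (k • fderiv ℝ ψ z) z :=
        (e1.sub_const c).const_mul k
      have e3 := (dS_has (k * (ψ z - c))).comp_hasFDerivAt z e2
      rw [smul_smul] at e3
      exact e3
    have key : ∀ n, ∫ x in A, (dv2 Y x + χ x * (Φ n x - dv2 Y x) - s x * (K * (w x - W n x))) ≤
        P := by
      intro n
      have hTW := TW_mix hY (hYW n) hχ h01
      have k1 := hP _ hTW
      refine le_trans ?_ k1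
      have i1 : Integrable (fun x => dv2 Y x + χ x * (Φ n x - dv2 Y x) -
          s x * (K * (w x - W n x))) := by
        refine (iY.add ?_).sub ?_
        · exact ((hΦi n).sub iY).bdd_mul (c := 1) hχ.continuous.aestronglyMeasurable
            (ae_of_all _ fun x => by
              rw [Real.norm_of_nonneg (h01 x).1]; exact (h01 x).2)
        · have hWi : Integrable (W n) := (hWc n).continuous.integrable_of_hasCompactSupport (hWs n)
          exact ((hw.int.sub hWi).const_mul K).bdd_mul (c := M * k) hsc.aestronglyMeasurable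
            (ae_of_all _ fun x => by rw [Real.norm_of_nonneg (hs0 x)]; exact hsM x)
      refine setIntegral_mono i1.integrableOn (dv2_int hTW.cd hTW.cs).integrableOn ?_
      intro x
      simp only
      rw [dv2_mix hY.cd (hYW n).cd hχ x, (hfd x).fderiv]
      have hwW : 0 ≤ w x - W n x := sub_nonneg.2 (hW1 n x)
      by_cases hx : c < ψ x
      · have a1 := hΦ n x hx
        have a2 : χ x * (Φ n x - dv2 Y x) ≤
            χ x * (dv2 (fun z => W n z • v z) x - dv2 Y x) :=
          mul_le_mul_of_nonneg_left (by linarith) (h01 x).1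
        have a3 : -(s x * (K * (w x - W n x))) ≤
            (s x • fderiv ℝ ψ x) (W n x • v x - Y x) := by
          by_cases hx2 : ψ x < c + r₀
          · rw [_root_.smul_apply, smul_eq_mul, ← mul_neg]
            refine mul_le_mul_of_nonneg_left ?_ (hs0 x)
            rw [map_sub, map_smul, smul_eq_mul]
            rcases (hw.nn x).eq_or_lt with h0 | h0
            · have h1 : W n x = 0 := le_antisymm (by rw [h0]; exact hW1 n x) (hW0 n x)
              have h2 : Y x = 0 := norm_le_zero_iff.1 (by rw [h0]; exact hY.le x)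
              rw [h1, h2, map_zero, ← h0]
              simp
            · have b1 := hν x h0 hx hx2
              have b2 : fderiv ℝ ψ x (Y x) ≤ ‖fderiv ℝ ψ x‖ * w x := by
                refine (le_abs_self _).trans (((fderiv ℝ ψ x).le_opNorm _).trans ?_)
                exact mul_le_mul_of_nonneg_left (hY.le x) (norm_nonneg _)
              have b3 : W n x * ‖fderiv ℝ ψ x‖ ≤ W n x * fderiv ℝ ψ x (v x) :=
                mul_le_mul_of_nonneg_left b1 (hW0 n x)
              have b4 : ‖fderiv ℝ ψ x‖ * (w x - W n x) ≤ K * (w x - W n x) :=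
                mul_le_mul_of_nonneg_right (hK x h0) hwW
              nlinarith
          · have h1 : s x = 0 := by
              rw [hs]
              simp only
              rw [dS_right, zero_mul]
              have : k * r₀ ≤ k * (ψ x - c) := mul_le_mul_of_nonneg_left (by linarith) hk.le
              linarith
            rw [h1]
            simp
        linarith
      · have h0 : k * (ψ x - c) ≤ 0 := mul_nonpos_of_nonneg_of_nonpos hk.le (by linarith)
        have h1 : s x = 0 := by
          rw [hs]
          simp only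
          rw [dS_left h0, zero_mul]
        have h2 : χ x = 0 := by
          rw [hχd]
          simp only
          exact Real.smoothTransition.zero_of_nonpos h0
        rw [h1, h2]
        simp
    have hlim : Tendsto (fun n => ∫ x in A, (dv2 Y x + χ x * (Φ n x - dv2 Y x) -
        s x * (K * (w x - W n x)))) atTop
        (𝓝 (∫ x in A, (dv2 Y x + χ x * (Φ₀ x - dv2 Y x)))) := by
      refine tendsto_integral_of_dominated_convergence
        (fun x => |dv2 Y x| + (B x + |dv2 Y x|) + M * k * (K * w x)) ?_ ?_ ?_ ?_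
      · intro n
        have m1 : AEStronglyMeasurable (fun x => dv2 Y x + χ x * (Φ n x - dv2 Y x) -
            s x * (K * (w x - W n x))) volume := by
          refine (iY.aestronglyMeasurable.add (hχ.continuous.aestronglyMeasurable.mul
            ((hΦm n).sub iY.aestronglyMeasurable))).sub (hsc.aestronglyMeasurable.mul
            (aestronglyMeasurable_const.mul (hw.int.aestronglyMeasurable.sub
              (hWc n).continuous.aestronglyMeasurable)))
        exact m1.restrict
      · exact ((iY.abs.add (hBi.add iY.abs)).add ((hw.int.const_mul K).const_mul (M * k))).integrableOn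
      · intro n
        refine Eventually.of_forall fun x => ?_
        rw [Real.norm_eq_abs]
        have hwW : 0 ≤ w x - W n x := sub_nonneg.2 (hW1 n x)
        refine (abs_sub _ _).trans (add_le_add ((abs_add_le _ _).trans (add_le_add le_rfl ?_)) ?_)
        · rw [abs_mul, abs_of_nonneg (h01 x).1]
          calc χ x * |Φ n x - dv2 Y x| ≤ 1 * |Φ n x - dv2 Y x| :=
                mul_le_mul_of_nonneg_right (h01 x).2 (abs_nonneg _)
            _ ≤ B x + |dv2 Y x| := by
                rw [one_mul]
                exact (abs_sub _ _).trans (add_le_add (hΦb n x) le_rfl)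
        · rw [abs_of_nonneg (mul_nonneg (hs0 x) (mul_nonneg hK0 hwW))]
          refine mul_le_mul (hsM x) ?_ (mul_nonneg hK0 hwW) (by positivity)
          exact mul_le_mul_of_nonneg_left (by linarith [hW0 n x]) hK0
      · refine Eventually.of_forall fun x => ?_
        have t1 : Tendsto (fun n => dv2 Y x + χ x * (Φ n x - dv2 Y x) -
            s x * (K * (w x - W n x))) atTop
            (𝓝 (dv2 Y x + χ x * (Φ₀ x - dv2 Y x) - s x * (K * (w x - w x)))) :=
          (((hΦl x).sub_const _).const_mul _).const_add _ |>.sub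
            ((((hWl x).const_sub (w x)).const_mul K).const_mul (s x))
        simpa using t1
    exact le_of_tendsto' hlim key
  -- second step: the cutoff converges to the indicator
  set G : ℂ → ℝ := fun z => if c < ψ z then Φ₀ z else dv2 Y z with hG
  have hL : Tendsto (fun n : ℕ => ∫ x in A, (dv2 Y x +
      Real.smoothTransition (((n : ℝ) + 1 + 1 / r₀) * (ψ x - c)) * (Φ₀ x - dv2 Y x))) atTop
      (𝓝 (∫ x in A, G x)) := by
    refine tendsto_integral_of_dominated_convergence
        (fun x => |dv2 Y x| + (B x + |dv2 Y x|)) ?_ ?_ ?_ ?_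
    · intro n
      have hc1 : Continuous fun x => Real.smoothTransition (((n : ℝ) + 1 + 1 / r₀) * (ψ x - c)) := by
        have h1 := hψ.continuous
        have h2 : Continuous fun x => ((n : ℝ) + 1 + 1 / r₀) * (ψ x - c) := by fun_prop
        exact Real.smoothTransition.continuous.comp h2
      have m1 : AEStronglyMeasurable (fun x => dv2 Y x +
          Real.smoothTransition (((n : ℝ) + 1 + 1 / r₀) * (ψ x - c)) * (Φ₀ x - dv2 Y x)) volume :=
        iY.aestronglyMeasurable.add (hc1.aestronglyMeasurable.mul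
            (hΦ₀m.sub iY.aestronglyMeasurable))
      exact m1.restrict
    · exact (iY.abs.add (hBi.add iY.abs)).integrableOn
    · intro n
      refine Eventually.of_forall fun x => ?_
      rw [Real.norm_eq_abs]
      refine (abs_add_le _ _).trans (add_le_add le_rfl ?_)
      rw [abs_mul, abs_of_nonneg (Real.smoothTransition.nonneg _)]
      calc Real.smoothTransition (((n : ℝ) + 1 + 1 / r₀) * (ψ x - c)) * |Φ₀ x - dv2 Y x| ≤
            1 * |Φ₀ x - dv2 Y x| :=
            mul_le_mul_of_nonneg_right (Real.smoothTransition.le_one _) (abs_nonneg _)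
        _ ≤ B x + |dv2 Y x| := by
            rw [one_mul]
            exact (abs_sub _ _).trans (add_le_add (hΦ₀b x) le_rfl)
    · refine Eventually.of_forall fun x => ?_
      by_cases hx : c < ψ x
      · have e1 : G x = Φ₀ x := by rw [hG]; simp only [if_pos hx]
        rw [e1]
        have h1 : Tendsto (fun n : ℕ => ((n : ℝ) + 1 + 1 / r₀) * (ψ x - c)) atTop atTop := by
          refine Tendsto.atTop_mul_const (sub_pos.2 hx) ?_
          exact tendsto_atTop_add_const_right _ _ (tendsto_atTop_add_const_right _ _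
            tendsto_natCast_atTop_atTop)
        refine tendsto_const_nhds.congr' ?_
        filter_upwards [h1.eventually_ge_atTop 1] with n hn
        rw [Real.smoothTransition.one_of_one_le hn]
        ring
      · have e1 : G x = dv2 Y x := by rw [hG]; simp only [if_neg hx]
        rw [e1]
        refine tendsto_const_nhds.congr fun n => ?_
        rw [Real.smoothTransition.zero_of_nonpos]
        · ring
        · exact mul_nonpos_of_nonneg_of_nonpos (by positivity) (by linarith)
  have hlim := le_of_tendsto' hL fun n => step1 ((n : ℝ) + 1 + 1 / r₀) (by positivity) (by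
    have e1 : ((n : ℝ) + 1 + 1 / r₀) * r₀ = ((n : ℝ) + 1) * r₀ + 1 := by field_simp
    rw [e1]
    have : 0 < ((n : ℝ) + 1) * r₀ := by positivity
    linarith)
  have hUm := meas_up hψ.continuous c
  have hGi : Integrable G := by
    have e1 : G = (up ψ c).indicator Φ₀ + (up ψ c)ᶜ.indicator (dv2 Y) := by
      funext z
      simp only [hG, Pi.add_apply]
      by_cases hz : c < ψ z
      · have hz1 : z ∈ up ψ c := hz
        rw [if_pos hz, indicator_of_mem hz1, indicator_of_notMem (notMem_compl_iff.2 hz1), add_zero]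
      · have hz1 : z ∉ up ψ c := hz
        rw [if_neg hz, indicator_of_notMem hz1, indicator_of_mem (mem_compl hz1), zero_add]
    rw [e1]
    exact (hΦ₀i.indicator hUm).add (iY.indicator hUm.compl)
  have hsplit : ∫ z in A, G z = (∫ z in A ∩ up ψ c, G z) + ∫ z in A \ up ψ c, G z :=
    (integral_inter_add_sdiff hUm hGi.integrableOn).symm
  have hin : ∫ z in A ∩ up ψ c, G z = ∫ z in A ∩ up ψ c, Φ₀ z := by
    apply setIntegral_congr_fun (hA.inter hUm)
    intro z hz
    have : c < ψ z := hz.2
    simp only [hG, if_pos this]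
  have hout : ∫ z in A \ up ψ c, G z = ∫ z in A \ up ψ c, dv2 Y z := by
    apply setIntegral_congr_fun (hA.diff hUm)
    intro z hz
    have : ¬ c < ψ z := hz.2
    simp only [hG, if_neg this]
  rw [hsplit, hin, hout] at hlim
  linarith

end Pool.Agent.H84.Q2
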