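import Pool.Agent.H84.Q2.Weight
import Pool.Agent.H84.Q2.Glue
import Pool.Graph.R_seed8.TH584.HU.Wt

/-!
# The calibrating field
-/

set_option autoImplicit false

open MeasureTheory Set Metric Filter Topology
open scoped ENNReal Real

noncomputable section

namespace Pool.Agent.H84.Q2

open Pool.Agent.TH304.MI Pool.Agent.TH703.HU

/-! ### The root -/

/-- the smooth absolute value -/
def rt (b : ℝ) : ℝ := √(1 + b ^ 2)

lemma rt_sq (b : ℝ) : rt b ^ 2 = 1 + b ^ 2 := Real.sq_sqrt (by positivity)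

lemma rt_one (b : ℝ) : 1 ≤ rt b := by
  unfold rt
  rw [Real.one_le_sqrt]
  nlinarith [sq_nonneg b]

lemma rt_pos (b : ℝ) : 0 < rt b := lt_of_lt_of_le one_pos (rt_one b)

lemma rt_le (b : ℝ) : rt b ≤ 1 + |b| := by
  apply Real.sqrt_le_iff.2
  constructor
  · positivity
  · nlinarith [abs_nonneg b, sq_abs b]

lemma abs_le_rt (b : ℝ) : |b| ≤ rt b := by
  apply Real.le_sqrt_of_sq_le
  rw [sq_abs]
  linarith

lemma rt_hasDerivAt (b : ℝ) : HasDerivAt rt (b / rt b) b := by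
  have h1 : HasDerivAt (fun b : ℝ => 1 + b ^ 2) (2 * b) b := by
    simpa using (hasDerivAt_pow 2 b).const_add 1
  have h2 := h1.sqrt (by positivity)
  refine h2.congr_deriv ?_
  unfold rt
  rw [mul_div_mul_left _ _ (by norm_num)]

/-- its derivative -/
def si (b : ℝ) : ℝ := b / rt b

lemma si_abs (b : ℝ) : |si b| ≤ 1 := by
  unfold si
  rw [abs_div, abs_of_pos (rt_pos b), div_le_one (rt_pos b)]
  exact abs_le_rt b

lemma si_hasDerivAt (b : ℝ) : HasDerivAt si (1 / rt b ^ 3) b := by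
  have h1 := (hasDerivAt_id b).div (rt_hasDerivAt b) (rt_pos b).ne'
  refine h1.congr_deriv ?_
  have h2 := rt_pos b
  have h3 := rt_sq b
  simp only [id]
  rw [div_eq_div_iff (by positivity) (by positivity)]
  field_simp
  nlinarith

lemma b_si_nonneg (b : ℝ) : 0 ≤ b * si b := by
  unfold si
  rw [← mul_div_assoc]
  exact div_nonneg (mul_self_nonneg b) (rt_pos b).le

lemma b_si_ge {b : ℝ} (hb : 1 ≤ |b|) : |b| / 2 ≤ b * si b := by
  unfold si
  rw [← mul_div_assoc, le_div_iff₀ (rt_pos b)]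
  have h1 : rt b ≤ 2 * |b| := (rt_le b).trans (by linarith)
  have h2 : b * b = |b| * |b| := (abs_mul_abs_self b).symm
  rw [h2]
  nlinarith [abs_nonneg b]

section fld

variable (q s c₀ : ℝ)

/-- the profile of the level curves -/
def Sf (b : ℝ) : ℝ := q * (b ^ 2 / (4 * s) - c₀ * rt b)

/-- its derivative -/
def S1 (b : ℝ) : ℝ := q * (b / (2 * s) - c₀ * si b)

/-- its second derivative -/
def S2 (b : ℝ) : ℝ := q * (1 / (2 * s) - c₀ * (1 / rt b ^ 3))

lemma Sf_hasDerivAt (b : ℝ) : HasDerivAt (Sf q s c₀) (S1 q s c₀ b) b := by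
  have h1 : HasDerivAt (fun b : ℝ => b ^ 2 / (4 * s)) (2 * b / (4 * s)) b := by
    simpa using (hasDerivAt_pow 2 b).div_const (4 * s)
  have h2 := (h1.sub ((rt_hasDerivAt b).const_mul c₀)).const_mul q
  refine h2.congr_deriv ?_
  unfold S1 si
  congr 2
  rw [show (4 : ℝ) * s = 2 * (2 * s) by ring, mul_div_mul_left _ _ (by norm_num)]

lemma S1_hasDerivAt (b : ℝ) : HasDerivAt (S1 q s c₀) (S2 q s c₀ b) b := by
  have h1 : HasDerivAt (fun b : ℝ => b / (2 * s)) (1 / (2 * s)) b :=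
    (hasDerivAt_id b).div_const (2 * s)
  exact (h1.sub ((si_hasDerivAt b).const_mul c₀)).const_mul q

/-- the length of the gradient -/
def nn (b : ℝ) : ℝ := √(1 + S1 q s c₀ b ^ 2)

lemma nn_sq (b : ℝ) : nn q s c₀ b ^ 2 = 1 + S1 q s c₀ b ^ 2 := Real.sq_sqrt (by positivity)

lemma nn_one (b : ℝ) : 1 ≤ nn q s c₀ b := by
  unfold nn
  rw [Real.one_le_sqrt]
  nlinarith [sq_nonneg (S1 q s c₀ b)]

lemma nn_pos (b : ℝ) : 0 < nn q s c₀ b := lt_of_lt_of_le one_pos (nn_one q s c₀ b)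

lemma nn_hasDerivAt (b : ℝ) :
    HasDerivAt (nn q s c₀) (S1 q s c₀ b * S2 q s c₀ b / nn q s c₀ b) b := by
  have h1 : HasDerivAt (fun b : ℝ => 1 + S1 q s c₀ b ^ 2)
      (2 * (S1 q s c₀ b * S2 q s c₀ b)) b := by
    refine (((S1_hasDerivAt q s c₀ b).pow 2).const_add 1).congr_deriv ?_
    simp
    ring
  have h2 := h1.sqrt (by positivity)
  refine h2.congr_deriv ?_
  unfold nn
  rw [mul_div_mul_left _ _ (by norm_num)]

/-- the reciprocal -/
def ni (b : ℝ) : ℝ := (nn q s c₀ b)⁻¹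

lemma ni_hasDerivAt (b : ℝ) :
    HasDerivAt (ni q s c₀) (-(S1 q s c₀ b * S2 q s c₀ b * ni q s c₀ b ^ 3)) b := by
  have h1 := (nn_hasDerivAt q s c₀ b).inv (nn_pos q s c₀ b).ne'
  refine h1.congr_deriv ?_
  have := nn_pos q s c₀ b
  unfold ni
  field_simp

lemma ni_pos (b : ℝ) : 0 < ni q s c₀ b := inv_pos.2 (nn_pos q s c₀ b)

lemma ni_le (b : ℝ) : ni q s c₀ b ≤ 1 := inv_le_one_of_one_le₀ (nn_one q s c₀ b)

lemma ni_sq (b : ℝ) : ni q s c₀ b ^ 2 * (1 + S1 q s c₀ b ^ 2) = 1 := by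
  have := nn_pos q s c₀ b
  rw [← nn_sq]
  unfold ni
  field_simp

/-- the horizontal component of the unit normal, second coordinate -/
lemma h_hasDerivAt (b : ℝ) : HasDerivAt (fun b => S1 q s c₀ b * ni q s c₀ b)
    (S2 q s c₀ b * ni q s c₀ b ^ 3) b := by
  refine ((S1_hasDerivAt q s c₀ b).mul (ni_hasDerivAt q s c₀ b)).congr_deriv ?_
  have h1 := ni_sq q s c₀ b
  have h2 : S2 q s c₀ b * ni q s c₀ b = S2 q s c₀ b * ni q s c₀ b *
      (ni q s c₀ b ^ 2 * (1 + S1 q s c₀ b ^ 2)) := by rw [h1, mul_one]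
  rw [h2]
  ring

lemma rt_contDiff : ContDiff ℝ 2 rt := by
  unfold rt
  apply ContDiff.sqrt
  · fun_prop
  · intro x
    positivity

lemma si_contDiff : ContDiff ℝ 2 si := by
  unfold si
  exact contDiff_id.div rt_contDiff fun x => (rt_pos x).ne'

lemma Sf_contDiff : ContDiff ℝ 2 (Sf q s c₀) := by
  unfold Sf
  have := rt_contDiff
  fun_prop

lemma S1_contDiff : ContDiff ℝ 1 (S1 q s c₀) := by
  unfold S1
  have : ContDiff ℝ 1 si := si_contDiff.of_le (by norm_num)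
  fun_prop

lemma ni_contDiff : ContDiff ℝ 1 (ni q s c₀) := by
  unfold ni
  apply ContDiff.inv
  · unfold nn
    apply ContDiff.sqrt
    · exact contDiff_const.add ((S1_contDiff q s c₀).pow 2)
    · intro x
      positivity
  · intro x
    exact (nn_pos q s c₀ x).ne'

/-- the level function -/
def psi (x : ℂ) : ℝ := -x.re + Sf q s c₀ x.im

/-- the covector -/
def dpsi (x : ℂ) : ℂ →L[ℝ] ℝ := -Complex.reCLM + S1 q s c₀ x.im • Complex.imCLM

lemma psi_hasFDerivAt (x : ℂ) : HasFDerivAt (psi q s c₀) (dpsi q s c₀ x) x := by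
  have h1 : HasFDerivAt (fun x : ℂ => Sf q s c₀ x.im) (S1 q s c₀ x.im • Complex.imCLM) x :=
    (Sf_hasDerivAt q s c₀ x.im).comp_hasFDerivAt x Complex.imCLM.hasFDerivAt
  have h2 : HasFDerivAt (fun x : ℂ => -x.re) (-Complex.reCLM) x := Complex.reCLM.hasFDerivAt.neg
  exact h2.add h1

lemma psi_contDiff : ContDiff ℝ 1 (psi q s c₀) := by
  unfold psi
  have h1 : ContDiff ℝ 1 fun x : ℂ => Sf q s c₀ x.im :=
    ((Sf_contDiff q s c₀).of_le (by norm_num)).comp Complex.imCLM.contDiff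
  exact (Complex.reCLM.contDiff.neg).add h1

lemma dpsi_norm (x : ℂ) : ‖dpsi q s c₀ x‖ ≤ nn q s c₀ x.im := by
  apply ContinuousLinearMap.opNorm_le_bound _ (nn_pos _ _ _ _).le
  intro z
  have h1 : dpsi q s c₀ x z = -z.re + S1 q s c₀ x.im * z.im := by
    simp [dpsi]
  rw [h1, Real.norm_eq_abs]
  apply abs_le_of_sq_le_sq _ (mul_nonneg (nn_pos _ _ _ _).le (norm_nonneg _))
  rw [mul_pow, nn_sq, Complex.sq_norm, Complex.normSq_apply]
  nlinarith [sq_nonneg (S1 q s c₀ x.im * z.re + z.im)]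

variable (c : ℝ)

/-- the interpolation -/
def be (x : ℂ) : ℝ := Real.smoothTransition (q * (psi q s c₀ x - c - 1))

/-- its derivative factor -/
def db (x : ℂ) : ℝ := deriv Real.smoothTransition (q * (psi q s c₀ x - c - 1)) * q

lemma be_hasFDerivAt (x : ℂ) :
    HasFDerivAt (be q s c₀ c) (db q s c₀ c x • dpsi q s c₀ x) x := by
  have h1 : HasFDerivAt (fun x => q * (psi q s c₀ x - c - 1)) (q • dpsi q s c₀ x) x :=
    (((psi_hasFDerivAt q s c₀ x).sub_const c).sub_const 1).const_mul q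
  have h2 := (dS_has (q * (psi q s c₀ x - c - 1))).comp_hasFDerivAt x h1
  refine h2.congr_fderiv ?_
  rw [smul_smul]
  rfl

lemma be_contDiff : ContDiff ℝ 1 (be q s c₀ c) :=
  Real.smoothTransition.contDiff.comp
    (contDiff_const.mul (((psi_contDiff q s c₀).sub contDiff_const).sub contDiff_const))

lemma be_nonneg (x : ℂ) : 0 ≤ be q s c₀ c x := Real.smoothTransition.nonneg _

lemma be_le (x : ℂ) : be q s c₀ c x ≤ 1 := Real.smoothTransition.le_one _

/-- first component of the field -/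
def vr (x : ℂ) : ℝ := -((1 - be q s c₀ c x) * ni q s c₀ x.im)

/-- second component of the field -/
def vi (x : ℂ) : ℝ := (1 - be q s c₀ c x) * (S1 q s c₀ x.im * ni q s c₀ x.im) -
  be q s c₀ c x * (c₀ * q * si x.im)

/-- the field -/
def vv (x : ℂ) : ℂ := ⟨vr q s c₀ c x, vi q s c₀ c x⟩

lemma vr_hasFDerivAt (x : ℂ) : HasFDerivAt (vr q s c₀ c)
    ((db q s c₀ c x * ni q s c₀ x.im) • dpsi q s c₀ x +
      ((1 - be q s c₀ c x) * (S1 q s c₀ x.im * S2 q s c₀ x.im * ni q s c₀ x.im ^ 3)) •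
        Complex.imCLM) x := by
  have h1 : HasFDerivAt (fun x : ℂ => ni q s c₀ x.im)
      ((-(S1 q s c₀ x.im * S2 q s c₀ x.im * ni q s c₀ x.im ^ 3)) • Complex.imCLM) x :=
    (ni_hasDerivAt q s c₀ x.im).comp_hasFDerivAt x Complex.imCLM.hasFDerivAt
  have h2 := (((be_hasFDerivAt q s c₀ c x).const_sub 1).mul h1).neg
  refine h2.congr_fderiv (ContinuousLinearMap.ext fun v => ?_)
  simp
  ring

lemma vi_hasFDerivAt (x : ℂ) : HasFDerivAt (vi q s c₀ c)
    (-((db q s c₀ c x * (S1 q s c₀ x.im * ni q s c₀ x.im + c₀ * q * si x.im)) • dpsi q s c₀ x) +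
      ((1 - be q s c₀ c x) * (S2 q s c₀ x.im * ni q s c₀ x.im ^ 3) -
        be q s c₀ c x * (c₀ * q * (1 / rt x.im ^ 3))) • Complex.imCLM) x := by
  have h1 : HasFDerivAt (fun x : ℂ => S1 q s c₀ x.im * ni q s c₀ x.im)
      ((S2 q s c₀ x.im * ni q s c₀ x.im ^ 3) • Complex.imCLM) x :=
    (h_hasDerivAt q s c₀ x.im).comp_hasFDerivAt x Complex.imCLM.hasFDerivAt
  have h2 : HasFDerivAt (fun x : ℂ => c₀ * q * si x.im)
      ((c₀ * q * (1 / rt x.im ^ 3)) • Complex.imCLM) x :=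
    ((si_hasDerivAt x.im).const_mul (c₀ * q)).comp_hasFDerivAt x Complex.imCLM.hasFDerivAt
  have hb := be_hasFDerivAt q s c₀ c x
  have h3 := ((hb.const_sub 1).mul h1).sub (hb.mul h2)
  refine h3.congr_fderiv (ContinuousLinearMap.ext fun v => ?_)
  simp
  ring

lemma vv_eq : vv q s c₀ c = fun x => vr q s c₀ c x • (1 : ℂ) + vi q s c₀ c x • Complex.I := by
  funext x
  apply Complex.ext <;> simp [vv]

lemma vr_contDiff : ContDiff ℝ 1 (vr q s c₀ c) := by
  unfold vr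
  have h1 : ContDiff ℝ 1 fun x : ℂ => ni q s c₀ x.im :=
    (ni_contDiff q s c₀).comp Complex.imCLM.contDiff
  exact ((contDiff_const.sub (be_contDiff q s c₀ c)).mul h1).neg

lemma vi_contDiff : ContDiff ℝ 1 (vi q s c₀ c) := by
  unfold vi
  have h1 : ContDiff ℝ 1 fun x : ℂ => ni q s c₀ x.im :=
    (ni_contDiff q s c₀).comp Complex.imCLM.contDiff
  have h2 : ContDiff ℝ 1 fun x : ℂ => S1 q s c₀ x.im :=
    (S1_contDiff q s c₀).comp Complex.imCLM.contDiff
  have h3 : ContDiff ℝ 1 fun x : ℂ => si x.im :=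
    (si_contDiff.of_le (by norm_num)).comp Complex.imCLM.contDiff
  exact ((contDiff_const.sub (be_contDiff q s c₀ c)).mul (h2.mul h1)).sub
    ((be_contDiff q s c₀ c).mul (contDiff_const.mul h3))

lemma vv_contDiff : ContDiff ℝ 1 (vv q s c₀ c) := by
  rw [vv_eq]
  exact ((vr_contDiff q s c₀ c).smul contDiff_const).add
    ((vi_contDiff q s c₀ c).smul contDiff_const)

lemma dv2_of {L₁ L₂ : ℂ →L[ℝ] ℝ} {f g : ℂ → ℝ} {x : ℂ} (h1 : HasFDerivAt f L₁ x)
    (h2 : HasFDerivAt g L₂ x) :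
    dv2 (fun x => f x • (1 : ℂ) + g x • Complex.I) x = L₁ 1 + L₂ Complex.I := by
  have h3 := (h1.smul_const (1 : ℂ)).add (h2.smul_const Complex.I)
  have e3 : (fun x => f x • (1 : ℂ)) + (fun x => g x • Complex.I) =
      fun x => f x • (1 : ℂ) + g x • Complex.I := rfl
  rw [e3] at h3
  unfold dv2
  rw [h3.fderiv]
  simp

/-- The divergence. -/
lemma dv2_vv (x : ℂ) : dv2 (vv q s c₀ c) x =
    -(db q s c₀ c x * (nn q s c₀ x.im + c₀ * q * si x.im * S1 q s c₀ x.im)) +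
      ((1 - be q s c₀ c x) * (S2 q s c₀ x.im * ni q s c₀ x.im ^ 3) -
        be q s c₀ c x * (c₀ * q * (1 / rt x.im ^ 3))) := by
  rw [vv_eq, dv2_of (vr_hasFDerivAt q s c₀ c x) (vi_hasFDerivAt q s c₀ c x)]
  have e : nn q s c₀ x.im = ni q s c₀ x.im * (1 + S1 q s c₀ x.im ^ 2) := by
    rw [← nn_sq]
    have := nn_pos q s c₀ x.im
    unfold ni
    field_simp
  rw [e]
  simp [dpsi]
  ring

end fld

end Pool.Agent.H84.Q2
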