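import Pool.Agent.H84.Q2.Field

/-!
# Bounds for the calibrating field
-/

set_option autoImplicit false

open MeasureTheory Set Metric Filter Topology
open scoped ENNReal Real

noncomputable section

namespace Pool.Agent.H84.Q2

open Pool.Agent.TH304.MI Pool.Agent.TH703.HU

section bounds

variable {q s A c₀ : ℝ} {m : ℕ}

lemma S1_abs (h : Good q s A m) (hc0 : 0 < c₀) (hc1 : c₀ ≤ 1 / 8) {b : ℝ} (hb : |b| ≤ 2 * s) :
    |S1 q s c₀ b| ≤ 1 / 2 := by
  have hs := h.s0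
  have hq := h.q0
  have hq1 := h.q1
  unfold S1
  rw [abs_mul, abs_of_pos hq]
  have h1 : |b / (2 * s)| ≤ 1 := by
    rw [abs_div, abs_of_pos (by positivity : (0 : ℝ) < 2 * s), div_le_one (by positivity)]
    exact hb
  have h2 : |c₀ * si b| ≤ 1 / 8 := by
    rw [abs_mul, abs_of_pos hc0]
    calc c₀ * |si b| ≤ c₀ * 1 := mul_le_mul_of_nonneg_left (si_abs b) hc0.le
      _ ≤ 1 / 8 := by linarith
  have h3 : |b / (2 * s) - c₀ * si b| ≤ 9 / 8 := (abs_sub _ _).trans (by linarith)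
  calc q * |b / (2 * s) - c₀ * si b| ≤ 1 / 4 * (9 / 8) :=
        mul_le_mul hq1 h3 (abs_nonneg _) (by norm_num)
    _ ≤ 1 / 2 := by norm_num

lemma S2_abs (h : Good q s A m) (hc0 : 0 < c₀) (hc1 : c₀ ≤ 1 / 8) (b : ℝ) :
    |S2 q s c₀ b| ≤ q := by
  have hs := h.s1
  have hq := h.q0
  unfold S2
  rw [abs_mul, abs_of_pos hq]
  have hr := rt_one b
  have hr3 : 1 ≤ rt b ^ 3 := one_le_pow₀ hr
  have h1 : |1 / (2 * s)| ≤ 1 / 2 := by
    rw [abs_of_pos (by positivity)]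
    apply one_div_le_one_div_of_le (by norm_num)
    linarith
  have h2 : |c₀ * (1 / rt b ^ 3)| ≤ 1 / 8 := by
    have h4 : 1 / rt b ^ 3 ≤ 1 := by
      rw [div_le_one (by positivity)]
      exact hr3
    have h5 : 0 < 1 / rt b ^ 3 := by positivity
    rw [abs_of_pos (by positivity)]
    calc c₀ * (1 / rt b ^ 3) ≤ c₀ * 1 := mul_le_mul_of_nonneg_left h4 hc0.le
      _ ≤ 1 / 8 := by linarith
  have h3 : |1 / (2 * s) - c₀ * (1 / rt b ^ 3)| ≤ 1 := (abs_sub _ _).trans (by linarith)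
  calc q * |1 / (2 * s) - c₀ * (1 / rt b ^ 3)| ≤ q * 1 := mul_le_mul_of_nonneg_left h3 hq.le
    _ = q := mul_one q

lemma nn_le (h : Good q s A m) (hc0 : 0 < c₀) (hc1 : c₀ ≤ 1 / 8) {b : ℝ} (hb : |b| ≤ 2 * s) :
    nn q s c₀ b ≤ 2 := by
  unfold nn
  apply Real.sqrt_le_iff.2
  have h1 := S1_abs h hc0 hc1 hb
  have h2 := abs_le.1 h1
  constructor
  · norm_num
  · nlinarith

lemma ni_ge (h : Good q s A m) (hc0 : 0 < c₀) (hc1 : c₀ ≤ 1 / 8) {b : ℝ} (hb : |b| ≤ 2 * s) :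
    1 / 2 ≤ ni q s c₀ b := by
  unfold ni
  rw [← one_div]
  exact one_div_le_one_div_of_le (nn_pos _ _ _ _) (nn_le h hc0 hc1 hb)

/-- Lower bound of the divergence of the field. -/
lemma div_lower (h : Good q s A m) (hc0 : 0 < c₀) (hc1 : c₀ ≤ 1 / 8) {M : ℝ}
    (hM : ∀ t, deriv Real.smoothTransition t ≤ M) (c : ℝ) {x : ℂ} (hb : |x.im| ≤ 2 * s) :
    -(q * (3 * M + 2)) ≤ dv2 (vv q s c₀ c) x := by
  have hq := h.q0
  have hq1 := h.q1
  rw [dv2_vv]
  have hn0 := nn_pos q s c₀ x.im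
  have hn2 := nn_le h hc0 hc1 hb
  have hi0 := ni_pos q s c₀ x.im
  have hi1 := ni_le q s c₀ x.im
  have hs1 := S1_abs h hc0 hc1 hb
  have hs2 := S2_abs h hc0 hc1 x.im
  have hsi := si_abs x.im
  have hb0 := be_nonneg q s c₀ c x
  have hb1 := be_le q s c₀ c x
  have hd0 : 0 ≤ db q s c₀ c x := mul_nonneg (dS_nonneg _) hq.le
  have hd1 : db q s c₀ c x ≤ M * q := mul_le_mul_of_nonneg_right (hM _) hq.le
  -- the bracket
  have h1 : |c₀ * q * si x.im * S1 q s c₀ x.im| ≤ 1 := by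
    rw [abs_mul, abs_mul, abs_mul, abs_of_pos hc0, abs_of_pos hq]
    have e1 : c₀ * q ≤ 1 := by nlinarith
    have e2 : c₀ * q * |si x.im| ≤ 1 := mul_le_one₀ e1 (abs_nonneg _) hsi
    exact mul_le_one₀ e2 (abs_nonneg _) (by linarith)
  have h2 : nn q s c₀ x.im + c₀ * q * si x.im * S1 q s c₀ x.im ≤ 3 := by
    linarith [(abs_le.1 h1).2]
  have h2' : 0 ≤ nn q s c₀ x.im + c₀ * q * si x.im * S1 q s c₀ x.im := by
    linarith [(abs_le.1 h1).1, nn_one q s c₀ x.im]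
  have h3 : db q s c₀ c x * (nn q s c₀ x.im + c₀ * q * si x.im * S1 q s c₀ x.im) ≤ M * q * 3 :=
    mul_le_mul hd1 h2 h2' (hd0.trans hd1)
  -- the second term
  have h4 : -q ≤ (1 - be q s c₀ c x) * (S2 q s c₀ x.im * ni q s c₀ x.im ^ 3) := by
    have e1 : |(1 - be q s c₀ c x) * (S2 q s c₀ x.im * ni q s c₀ x.im ^ 3)| ≤ q := by
      rw [abs_mul, abs_mul, abs_of_nonneg (by linarith : 0 ≤ 1 - be q s c₀ c x),
        abs_of_pos (pow_pos hi0 3)]
      have e2 : ni q s c₀ x.im ^ 3 ≤ 1 := pow_le_one₀ hi0.le hi1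
      have e3 : |S2 q s c₀ x.im| * ni q s c₀ x.im ^ 3 ≤ q * 1 :=
        mul_le_mul hs2 e2 (pow_nonneg hi0.le 3) hq.le
      have e4 : 0 ≤ |S2 q s c₀ x.im| * ni q s c₀ x.im ^ 3 := by positivity
      nlinarith
    exact (abs_le.1 e1).1
  have h5 : be q s c₀ c x * (c₀ * q * (1 / rt x.im ^ 3)) ≤ q := by
    have hr := rt_one x.im
    have hr3 : 1 ≤ rt x.im ^ 3 := one_le_pow₀ hr
    have e1 : 1 / rt x.im ^ 3 ≤ 1 := by
      rw [div_le_one (by positivity)]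
      exact hr3
    have e2 : 0 < 1 / rt x.im ^ 3 := by positivity
    have e3 : c₀ * q * (1 / rt x.im ^ 3) ≤ q := by
      have : c₀ * q ≤ q := by nlinarith
      calc c₀ * q * (1 / rt x.im ^ 3) ≤ q * 1 := mul_le_mul this e1 e2.le hq.le
        _ = q := mul_one q
    have e4 : 0 ≤ c₀ * q * (1 / rt x.im ^ 3) := by positivity
    calc be q s c₀ c x * (c₀ * q * (1 / rt x.im ^ 3)) ≤ 1 * (c₀ * q * (1 / rt x.im ^ 3)) :=
          mul_le_mul_of_nonneg_right hb1 e4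
      _ ≤ q := by rw [one_mul]; exact e3
  linarith

lemma vv_norm (h : Good q s A m) (hc0 : 0 < c₀) (hc1 : c₀ ≤ 1 / 8) (c : ℝ) {x : ℂ}
    (hb : |x.im| ≤ 2 * s) : ‖vv q s c₀ c x‖ ≤ 1 := by
  have hq := h.q0
  have hq1 := h.q1
  rw [← sq_le_one_iff₀ (norm_nonneg _), Complex.sq_norm, Complex.normSq_apply]
  show vr q s c₀ c x * vr q s c₀ c x + vi q s c₀ c x * vi q s c₀ c x ≤ 1
  unfold vr vi
  have hi0 := ni_pos q s c₀ x.im
  have hi1 := ni_le q s c₀ x.im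
  have hs1 := S1_abs h hc0 hc1 hb
  have hsi := si_abs x.im
  have hb0 := be_nonneg q s c₀ c x
  have hb1 := be_le q s c₀ c x
  have hsq := ni_sq q s c₀ x.im
  set B := be q s c₀ c x
  set N := ni q s c₀ x.im
  set S := S1 q s c₀ x.im
  set Z := c₀ * q * si x.im with hZ
  have hZ1 : |Z| ≤ 1 := by
    rw [hZ, abs_mul, abs_mul, abs_of_pos hc0, abs_of_pos hq]
    exact mul_le_one₀ (by nlinarith) (abs_nonneg _) hsi
  have hSN : |S * N| ≤ 1 := by
    rw [abs_mul, abs_of_pos hi0]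
    exact mul_le_one₀ (by linarith) hi0.le hi1
  have e1 : -((1 - B) * N) * -((1 - B) * N) + ((1 - B) * (S * N) - B * Z) *
      ((1 - B) * (S * N) - B * Z) = (1 - B) ^ 2 * (N ^ 2 * (1 + S ^ 2)) -
      2 * ((1 - B) * B) * (S * N * Z) + B ^ 2 * Z ^ 2 := by ring
  rw [e1, hsq]
  have e2 : |S * N * Z| ≤ 1 := by
    rw [abs_mul]
    exact mul_le_one₀ hSN (abs_nonneg _) hZ1
  have e3 : Z ^ 2 ≤ 1 := by
    rw [← sq_abs]
    exact pow_le_one₀ (abs_nonneg _) hZ1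
  have e4 : 0 ≤ (1 - B) * B := mul_nonneg (by linarith) hb0
  have e5 : -((1 - B) * B) * (S * N * Z) ≤ (1 - B) * B := by
    have := mul_le_mul_of_nonneg_left (abs_le.1 e2).1 e4
    linarith
  have e6 : B ^ 2 * Z ^ 2 ≤ B ^ 2 * 1 := mul_le_mul_of_nonneg_left e3 (sq_nonneg _)
  nlinarith

/-- The exact form of the gradient term. -/
lemma grad_eq (h : Good q s A m) (c : ℝ) (x : ℂ) :
    (m : ℝ) * (gt q s x * vr q s c₀ c x + gb q s x * vi q s c₀ c x) =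
      q * ((1 - be q s c₀ c x) * ni q s c₀ x.im *
        (4 * (q * x.re) * (1 - (q * x.re / s) ^ 2) +
          x.im ^ 2 / s * (1 - (q * x.re / s) ^ 2)) +
        2 * c₀ * (x.im * si x.im) * (1 + q * x.re / s) ^ 2 *
          ((1 - be q s c₀ c x) * ni q s c₀ x.im + be q s c₀ c x)) := by
  have hs := h.s0
  have e : (m : ℝ) * (gt q s x * vr q s c₀ c x + gb q s x * vi q s c₀ c x) =
      (m * gt q s x) * vr q s c₀ c x + (m * gb q s x) * vi q s c₀ c x := by ring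
  rw [e, h.m_gt, h.m_gb]
  unfold vr vi S1
  generalize be q s c₀ c x = B
  generalize ni q s c₀ x.im = N
  generalize si x.im = Z
  field_simp
  ring

lemma grad_lower (h : Good q s A m) (hc0 : 0 < c₀) (hc1 : c₀ ≤ 1 / 8) (c : ℝ) {x : ℂ}
    (hb : |x.im| ≤ 2 * s) (h1 : -(A / q) ≤ x.re) (h2 : x.re ≤ 0) :
    q * (c₀ * (x.im * si x.im) / 4 - 4 * A) ≤
      (m : ℝ) * (gt q s x * vr q s c₀ c x + gb q s x * vi q s c₀ c x) := by
  have hs := h.s0
  have hq := h.q0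
  rw [grad_eq h]
  apply mul_le_mul_of_nonneg_left _ hq.le
  obtain ⟨h3, h4⟩ := h.u_bd h1 h2
  have hi0 := ni_pos q s c₀ x.im
  have hi1 := ni_le q s c₀ x.im
  have hi2 := ni_ge h hc0 hc1 hb
  have hb0 := be_nonneg q s c₀ c x
  have hb1 := be_le q s c₀ c x
  have hbs := b_si_nonneg x.im
  have hqA : -A ≤ q * x.re := by
    have := mul_le_mul_of_nonneg_left h1 hq.le
    have e5 := h.qT
    linarith
  have hqx : q * x.re ≤ 0 := mul_nonpos_of_nonneg_of_nonpos hq.le h2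
  set B := be q s c₀ c x
  set N := ni q s c₀ x.im
  set u := q * x.re / s
  set Z := x.im * si x.im
  set a := q * x.re
  have g1 : 0 ≤ (1 - B) * N := mul_nonneg (by linarith) hi0.le
  have g2 : (1 - B) * N ≤ 1 := mul_le_one₀ (by linarith) hi0.le hi1
  have g3 : 0 ≤ 1 - u ^ 2 := by nlinarith
  have g4 : 1 - u ^ 2 ≤ 1 := by nlinarith [sq_nonneg u]
  have g5 : -(4 * A) ≤ (1 - B) * N * (4 * a * (1 - u ^ 2)) := by
    have e1 : 0 ≤ (1 - B) * N * (1 - u ^ 2) := mul_nonneg g1 g3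
    have e2 : (1 - B) * N * (1 - u ^ 2) ≤ 1 := mul_le_one₀ g2 g3 g4
    have e3 : (1 - B) * N * (4 * a * (1 - u ^ 2)) = 4 * (a * ((1 - B) * N * (1 - u ^ 2))) := by
      ring
    rw [e3]
    nlinarith
  have g6 : 0 ≤ (1 - B) * N * (x.im ^ 2 / s * (1 - u ^ 2)) :=
    mul_nonneg g1 (mul_nonneg (by positivity) g3)
  have g7 : 1 / 2 ≤ (1 - B) * N + B := by nlinarith
  have g8 : 1 / 4 ≤ (1 + u) ^ 2 := by nlinarith
  have g9 : c₀ * Z / 4 ≤ 2 * c₀ * Z * (1 + u) ^ 2 * ((1 - B) * N + B) := by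
    have e1 : 1 / 4 * (1 / 2) ≤ (1 + u) ^ 2 * ((1 - B) * N + B) :=
      mul_le_mul g8 g7 (by norm_num) (sq_nonneg _)
    have e2 : 0 ≤ 2 * c₀ * Z := by positivity
    have e3 := mul_le_mul_of_nonneg_left e1 e2
    have e4 : 2 * c₀ * Z * (1 + u) ^ 2 * ((1 - B) * N + B) =
        2 * c₀ * Z * ((1 + u) ^ 2 * ((1 - B) * N + B)) := by ring
    rw [e4]
    linarith
  have e5 : (1 - B) * N * (4 * a * (1 - u ^ 2) + x.im ^ 2 / s * (1 - u ^ 2)) =
      (1 - B) * N * (4 * a * (1 - u ^ 2)) + (1 - B) * N * (x.im ^ 2 / s * (1 - u ^ 2)) := by ring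
  rw [e5]
  linarith

/-- If the base function is positive then the second coordinate is bounded. -/
lemma im_le (h : Good q s A m) {x : ℂ} (h1 : -(A / q) ≤ x.re) (h2 : x.re ≤ 0)
    (h3 : 0 < gg q s x) : |x.im| ≤ 2 * s := by
  have hs := h.s0
  have h4 := h.gg_le_one h1 h2
  have h5 : (x.im / s) ^ 2 < 4 := by linarith
  have h6 : |x.im / s| ≤ 2 := by
    rw [← sq_abs] at h5
    nlinarith [abs_nonneg (x.im / s)]
  rw [abs_div, abs_of_pos hs, div_le_iff₀ hs] at h6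
  exact h6

/-- the limiting density -/
def Ph (q s A c₀ c : ℝ) (m : ℕ) : ℂ → ℝ := (strip (A / q)).indicator fun x =>
  pm m (gg q s x) * dv2 (vv q s c₀ c) x +
    (m * pm (m - 1) (gg q s x)) * (gt q s x * vr q s c₀ c x + gb q s x * vi q s c₀ c x)

/-- The lower bound of the limiting density. -/
lemma Ph_lower (h : Good q s A m) (hc0 : 0 < c₀) (hc1 : c₀ ≤ 1 / 8) {M : ℝ} (hM0 : 0 ≤ M)
    (hM : ∀ t, deriv Real.smoothTransition t ≤ M) (c : ℝ) {x : ℂ} (hx : x ∈ strip (A / q)) :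
    pm (m - 1) (gg q s x) * (q * (c₀ * (x.im * si x.im) / 4 - 4 * A - (3 * M + 2))) ≤
      Ph q s A c₀ c m x := by
  unfold Ph
  rw [indicator_of_mem hx]
  have hq := h.q0
  have hm2 := h.m2
  rcases le_or_gt (gg q s x) 0 with h0 | h0
  · rw [pm_zero (by omega) h0, pm_zero (by omega) h0]
    simp
  have hb := im_le h hx.1.le hx.2.le h0
  have h1 := div_lower h hc0 hc1 hM c hb
  have h2 := grad_lower h hc0 hc1 c hb hx.1.le hx.2.le
  have hg1 := h.gg_le_one' hx.1.le hx.2.le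
  have hp := pm_nonneg (m - 1) (gg q s x)
  rw [pm_succ (by omega : 1 ≤ m), max_eq_left h0.le]
  have e1 : -(q * (3 * M + 2)) ≤ gg q s x * dv2 (vv q s c₀ c) x := by
    have e2 : gg q s x * -(q * (3 * M + 2)) ≤ gg q s x * dv2 (vv q s c₀ c) x :=
      mul_le_mul_of_nonneg_left h1 h0.le
    have e3 : 0 ≤ q * (3 * M + 2) := by positivity
    nlinarith
  have e4 : pm (m - 1) (gg q s x) * gg q s x * dv2 (vv q s c₀ c) x +
      (m * pm (m - 1) (gg q s x)) * (gt q s x * vr q s c₀ c x + gb q s x * vi q s c₀ c x) =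
      pm (m - 1) (gg q s x) * (gg q s x * dv2 (vv q s c₀ c) x +
      (m : ℝ) * (gt q s x * vr q s c₀ c x + gb q s x * vi q s c₀ c x)) := by ring
  rw [e4]
  apply mul_le_mul_of_nonneg_left _ hp
  nlinarith

end bounds

end Pool.Agent.H84.Q2
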