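import Pool.Agent.H84.Q2.Slice

/-!
# Slices of a set in a rectangle
-/

set_option autoImplicit false

open MeasureTheory Set Metric Filter Topology
open scoped ENNReal Real

noncomputable section

namespace Pool.Agent.H84.Q2

open Pool.Agent.TH304.MI Pool.Agent.TH703.HU Pool.Agent.TH742.HU

/-- vertical slice -/
def vs (G : Set ℂ) (t : ℝ) : Set ℝ := {b | (⟨t, b⟩ : ℂ) ∈ G}

/-- horizontal slice -/
def hs (G : Set ℂ) (b : ℝ) : Set ℝ := {t | (⟨t, b⟩ : ℂ) ∈ G}

/-- the rectangle -/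
def rect (t₁ t₂ c d : ℝ) : Set ℂ := {x | x.re ∈ Ioo t₁ t₂ ∧ x.im ∈ Ioo c d}

/-- abscissas with a nontrivial vertical slice -/
def NV (G : Set ℂ) (t₁ t₂ c d : ℝ) : Set ℝ :=
  {t | t ∈ Ioo t₁ t₂ ∧ 0 < volume (vs G t ∩ Ioo c d) ∧ 0 < volume (Ioo c d \ vs G t)}

/-- ordinates with a nontrivial horizontal slice -/
def NH (G : Set ℂ) (t₁ t₂ c d : ℝ) : Set ℝ :=
  {b | b ∈ Ioo c d ∧ 0 < volume (hs G b ∩ Ioo t₁ t₂) ∧ 0 < volume (Ioo t₁ t₂ \ hs G b)}

lemma mk_cont_im (t : ℝ) : Continuous fun b : ℝ => (⟨t, b⟩ : ℂ) := by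
  have : (fun b : ℝ => (⟨t, b⟩ : ℂ)) = fun b : ℝ => (t : ℂ) + (b : ℂ) * Complex.I := by
    funext b
    exact Complex.mk_eq_add_mul_I t b
  rw [this]
  fun_prop

lemma mk_cont_re (b : ℝ) : Continuous fun t : ℝ => (⟨t, b⟩ : ℂ) := by
  have : (fun t : ℝ => (⟨t, b⟩ : ℂ)) = fun t : ℝ => (t : ℂ) + (b : ℂ) * Complex.I := by
    funext t
    exact Complex.mk_eq_add_mul_I t b
  rw [this]
  fun_prop

lemma meas_vs {G : Set ℂ} (hG : MeasurableSet G) (t : ℝ) : MeasurableSet (vs G t) :=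
  (mk_meas.comp measurable_prodMk_left) hG

lemma meas_hs {G : Set ℂ} (hG : MeasurableSet G) (b : ℝ) : MeasurableSet (hs G b) :=
  (mk_meas.comp measurable_prodMk_right) hG

lemma meas_rect (t₁ t₂ c d : ℝ) : MeasurableSet (rect t₁ t₂ c d) :=
  (Complex.measurable_re measurableSet_Ioo).inter (Complex.measurable_im measurableSet_Ioo)

lemma measurable_vs {G : Set ℂ} (hG : MeasurableSet G) {I : Set ℝ} (hI : MeasurableSet I) :
    Measurable fun t => volume (vs G t ∩ I) := by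
  have h : MeasurableSet ((fun p : ℝ × ℝ => (⟨p.1, p.2⟩ : ℂ)) ⁻¹' G ∩ (univ ×ˢ I)) :=
    (mk_meas hG).inter (MeasurableSet.univ.prod hI)
  have h2 := measurable_measure_prodMk_left (ν := (volume : Measure ℝ)) h
  have e : (fun t => volume (vs G t ∩ I)) = fun t => volume (Prod.mk t ⁻¹'
      ((fun p : ℝ × ℝ => (⟨p.1, p.2⟩ : ℂ)) ⁻¹' G ∩ (univ ×ˢ I))) := by
    funext t
    congr 1
    ext b
    simp [vs]
  rw [e]
  exact h2

lemma measurable_hs {G : Set ℂ} (hG : MeasurableSet G) {I : Set ℝ} (hI : MeasurableSet I) :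
    Measurable fun t => volume (hs G t ∩ I) := by
  have h : MeasurableSet ((fun p : ℝ × ℝ => (⟨p.1, p.2⟩ : ℂ)) ⁻¹' G ∩ (I ×ˢ univ)) :=
    (mk_meas hG).inter (hI.prod MeasurableSet.univ)
  have h2 := measurable_measure_prodMk_right (μ := (volume : Measure ℝ)) h
  have e : (fun t => volume (hs G t ∩ I)) = fun t => volume ((fun x => (x, t)) ⁻¹'
      ((fun p : ℝ × ℝ => (⟨p.1, p.2⟩ : ℂ)) ⁻¹' G ∩ (I ×ˢ univ))) := by
    funext t
    congr 1
    ext b
    simp [hs]
  rw [e]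
  exact h2

lemma sdiff_vs (G : Set ℂ) (t : ℝ) (I : Set ℝ) : I \ vs G t = vs Gᶜ t ∩ I := by
  ext b
  simp only [vs, Set.mem_sdiff, mem_inter_iff, mem_ofPred_eq, mem_compl_iff]
  tauto

lemma sdiff_hs (G : Set ℂ) (t : ℝ) (I : Set ℝ) : I \ hs G t = hs Gᶜ t ∩ I := by
  ext b
  simp only [hs, Set.mem_sdiff, mem_inter_iff, mem_ofPred_eq, mem_compl_iff]
  tauto

lemma meas_NV {G : Set ℂ} (hG : MeasurableSet G) (t₁ t₂ c d : ℝ) :
    MeasurableSet (NV G t₁ t₂ c d) := by
  have h1 := measurable_vs hG (I := Ioo c d) measurableSet_Ioo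
  have h2 := measurable_vs hG.compl (I := Ioo c d) measurableSet_Ioo
  have e : NV G t₁ t₂ c d = Ioo t₁ t₂ ∩ ({t | 0 < volume (vs G t ∩ Ioo c d)} ∩
      {t | 0 < volume (vs Gᶜ t ∩ Ioo c d)}) := by
    ext t
    simp only [NV, mem_ofPred_eq, mem_inter_iff, sdiff_vs]
  rw [e]
  exact measurableSet_Ioo.inter ((measurableSet_lt measurable_const h1).inter
    (measurableSet_lt measurable_const h2))

lemma meas_NH {G : Set ℂ} (hG : MeasurableSet G) (t₁ t₂ c d : ℝ) :
    MeasurableSet (NH G t₁ t₂ c d) := by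
  have h1 := measurable_hs hG (I := Ioo t₁ t₂) measurableSet_Ioo
  have h2 := measurable_hs hG.compl (I := Ioo t₁ t₂) measurableSet_Ioo
  have e : NH G t₁ t₂ c d = Ioo c d ∩ ({t | 0 < volume (hs G t ∩ Ioo t₁ t₂)} ∩
      {t | 0 < volume (hs Gᶜ t ∩ Ioo t₁ t₂)}) := by
    ext t
    simp only [NH, mem_ofPred_eq, mem_inter_iff, sdiff_hs]
  rw [e]
  exact measurableSet_Ioo.inter ((measurableSet_lt measurable_const h1).inter
    (measurableSet_lt measurable_const h2))

lemma NV_compl (G : Set ℂ) (t₁ t₂ c d : ℝ) : NV Gᶜ t₁ t₂ c d = NV G t₁ t₂ c d := by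
  ext t
  simp only [NV, mem_ofPred_eq, sdiff_vs, compl_compl]
  tauto

lemma vol_vs {G : Set ℂ} (hG : MeasurableSet G) : volume G = ∫⁻ t : ℝ, volume (vs G t) := by
  have h1 : volume G = ∫⁻ x, G.indicator (fun _ => (1 : ℝ≥0∞)) x := by
    rw [lintegral_indicator hG, setLIntegral_one]
  rw [h1, fub2 (measurable_const.indicator hG)]
  refine lintegral_congr fun t => ?_
  have h2 : (fun b : ℝ => G.indicator (fun _ => (1 : ℝ≥0∞)) (⟨t, b⟩ : ℂ)) =
      (vs G t).indicator fun _ => 1 := by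
    funext b
    rfl
  rw [h2, lintegral_indicator (meas_vs hG t), setLIntegral_one]

lemma vol_hs {G : Set ℂ} (hG : MeasurableSet G) : volume G = ∫⁻ b : ℝ, volume (hs G b) := by
  have h1 : volume G = ∫⁻ x, G.indicator (fun _ => (1 : ℝ≥0∞)) x := by
    rw [lintegral_indicator hG, setLIntegral_one]
  rw [h1, fub1 (measurable_const.indicator hG)]
  refine lintegral_congr fun t => ?_
  have h2 : (fun b : ℝ => G.indicator (fun _ => (1 : ℝ≥0∞)) (⟨b, t⟩ : ℂ)) =
      (hs G t).indicator fun _ => 1 := by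
    funext b
    rfl
  rw [h2, lintegral_indicator (meas_hs hG t), setLIntegral_one]

lemma vol_rect_vs {G : Set ℂ} (hG : MeasurableSet G) (t₁ t₂ c d : ℝ) :
    volume (G ∩ rect t₁ t₂ c d) = ∫⁻ t in Ioo t₁ t₂, volume (vs G t ∩ Ioo c d) := by
  rw [vol_vs (hG.inter (meas_rect _ _ _ _)), ← lintegral_indicator measurableSet_Ioo]
  refine lintegral_congr fun t => ?_
  by_cases ht : t ∈ Ioo t₁ t₂
  · rw [indicator_of_mem ht]
    congr 1
    ext b
    simp only [vs, rect, mem_inter_iff, mem_ofPred_eq]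
    tauto
  · rw [indicator_of_notMem ht]
    have : vs (G ∩ rect t₁ t₂ c d) t = ∅ := by
      ext b
      simp only [vs, rect, mem_inter_iff, mem_ofPred_eq, mem_empty_iff_false, iff_false]
      tauto
    rw [this, measure_empty]

/-- If many horizontal slices are full then almost all vertical slices are nonnull. -/
theorem full_case {G : Set ℂ} (hG : MeasurableSet G) {t₁ t₂ c d : ℝ}
    (hfull : 0 < volume {b | b ∈ Ioo c d ∧ volume (Ioo t₁ t₂ \ hs G b) = 0}) :
    ∀ᵐ t : ℝ, t ∈ Ioo t₁ t₂ → 0 < volume (vs G t ∩ Ioo c d) := by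
  set B : Set ℝ := {b | b ∈ Ioo c d ∧ volume (Ioo t₁ t₂ \ hs G b) = 0} with hB
  have hBm : MeasurableSet B := by
    have h2 := measurable_hs hG.compl (I := Ioo t₁ t₂) measurableSet_Ioo
    have e : B = Ioo c d ∩ {b | volume (hs Gᶜ b ∩ Ioo t₁ t₂) = 0} := by
      ext b
      simp only [hB, mem_ofPred_eq, mem_inter_iff, sdiff_hs]
    rw [e]
    exact measurableSet_Ioo.inter (h2 (measurableSet_singleton 0))
  set N : Set ℂ := Gᶜ ∩ {x | x.re ∈ Ioo t₁ t₂ ∧ x.im ∈ B} with hN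
  have hNm : MeasurableSet N := hG.compl.inter
    ((Complex.measurable_re measurableSet_Ioo).inter (Complex.measurable_im hBm))
  have h0 : volume N = 0 := by
    rw [vol_hs hNm, lintegral_eq_zero_iff (by
      have := measurable_hs hNm (I := univ) MeasurableSet.univ
      simpa using this)]
    refine Eventually.of_forall fun b => ?_
    show volume (hs N b) = 0
    by_cases hb : b ∈ B
    · refine measure_mono_null ?_ hb.2
      intro t ht
      exact ⟨ht.2.1, ht.1⟩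
    · have : hs N b = ∅ := by
        ext t
        simp only [hs, hN, mem_inter_iff, mem_ofPred_eq, mem_empty_iff_false, iff_false]
        tauto
      rw [this, measure_empty]
  rw [vol_vs hNm, lintegral_eq_zero_iff (by
      have := measurable_vs hNm (I := univ) MeasurableSet.univ
      simpa using this)] at h0
  filter_upwards [h0] with t ht ht2
  have h1 : volume (vs N t) = 0 := ht
  by_contra hcon
  rw [not_lt, nonpos_iff_eq_zero] at hcon
  have h2 : B ⊆ vs N t ∪ (vs G t ∩ Ioo c d) := by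
    intro b hb
    by_cases hbG : b ∈ vs G t
    · exact Or.inr ⟨hbG, hb.1⟩
    · exact Or.inl ⟨hbG, ht2, hb⟩
  have h3 : volume B = 0 := measure_mono_null h2 (measure_union_null h1 hcon)
  exact absurd hfull (not_lt.2 h3.le)

/-- If many horizontal slices are full then the complement is small. -/
theorem compl_small {G : Set ℂ} (hG : MeasurableSet G) {t₁ t₂ c d : ℝ} {p : ℝ≥0∞}
    (hfull : 0 < volume {b | b ∈ Ioo c d ∧ volume (Ioo t₁ t₂ \ hs G b) = 0})
    (hNV : volume (NV G t₁ t₂ c d) ≤ p) :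
    volume (Gᶜ ∩ rect t₁ t₂ c d) ≤ volume (Ioo c d) * p := by
  rw [vol_rect_vs hG.compl]
  have h1 := full_case hG hfull
  have h2 : ∀ᵐ t ∂(volume.restrict (Ioo t₁ t₂)), volume (vs Gᶜ t ∩ Ioo c d) ≤
      (NV G t₁ t₂ c d).indicator (fun _ => volume (Ioo c d)) t := by
    rw [ae_restrict_iff' measurableSet_Ioo]
    filter_upwards [h1] with t ht ht2
    have h3 := ht ht2
    by_cases h4 : t ∈ NV G t₁ t₂ c d
    · rw [indicator_of_mem h4]
      exact measure_mono inter_subset_right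
    · rw [indicator_of_notMem h4]
      by_contra h5
      exact h4 ⟨ht2, h3, by rw [sdiff_vs]; exact not_le.1 h5⟩
  calc ∫⁻ t in Ioo t₁ t₂, volume (vs Gᶜ t ∩ Ioo c d) ≤
        ∫⁻ t in Ioo t₁ t₂, (NV G t₁ t₂ c d).indicator (fun _ => volume (Ioo c d)) t :=
        lintegral_mono_ae h2
    _ ≤ ∫⁻ t, (NV G t₁ t₂ c d).indicator (fun _ => volume (Ioo c d)) t :=
        setLIntegral_le_lintegral _ _
    _ = volume (Ioo c d) * volume (NV G t₁ t₂ c d) := by
        rw [lintegral_indicator (meas_NV hG _ _ _ _), setLIntegral_const]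
    _ ≤ _ := by gcongr

/-- Relative isoperimetric inequality through slices. -/
theorem iso_rect {G : Set ℂ} (hG : MeasurableSet G) {t₁ t₂ c d p : ℝ} (_h12 : t₁ < t₂)
    (hcd : c < d) (hp : 0 ≤ p)
    (hNV : volume (NV G t₁ t₂ c d) ≤ ENNReal.ofReal p)
    (hNH : volume (NH G t₁ t₂ c d) ≤ ENNReal.ofReal p) (hpd : p < d - c)
    (hsmall : volume (G ∩ rect t₁ t₂ c d) < ENNReal.ofReal ((d - c) * ((t₂ - t₁) - p))) :
    volume (G ∩ rect t₁ t₂ c d) ≤ ENNReal.ofReal (p ^ 2) := by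
  have hrect : volume (rect t₁ t₂ c d) = ENNReal.ofReal ((d - c) * (t₂ - t₁)) := by
    have h := vol_rect_vs (G := univ) MeasurableSet.univ t₁ t₂ c d
    have e : ∀ t, vs univ t ∩ Ioo c d = Ioo c d := fun t => by ext b; simp [vs]
    simp only [univ_inter, e, Real.volume_Ioo, setLIntegral_const] at h
    rw [h, ENNReal.ofReal_mul (by linarith)]
  -- no full slices
  have hfull : volume {b | b ∈ Ioo c d ∧ volume (Ioo t₁ t₂ \ hs G b) = 0} = 0 := by
    by_contra hne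
    have h1 := compl_small hG (pos_iff_ne_zero.2 hne) hNV
    rw [Real.volume_Ioo, ← ENNReal.ofReal_mul (by linarith)] at h1
    have h2 : volume (rect t₁ t₂ c d) ≤ volume (G ∩ rect t₁ t₂ c d) +
        volume (Gᶜ ∩ rect t₁ t₂ c d) := by
      refine (measure_mono ?_).trans (measure_union_le _ _)
      intro x hx
      by_cases h : x ∈ G
      · exact Or.inl ⟨h, hx⟩
      · exact Or.inr ⟨h, hx⟩
    have h3 : volume (rect t₁ t₂ c d) < ENNReal.ofReal ((d - c) * ((t₂ - t₁) - p)) +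
        ENNReal.ofReal ((d - c) * p) := by
      refine lt_of_le_of_lt (h2.trans (add_le_add_right h1 _)) ?_
      exact ENNReal.add_lt_add_right ENNReal.ofReal_ne_top hsmall
    have h4 : 0 < (d - c) * ((t₂ - t₁) - p) := by
      by_contra hcon
      rw [ENNReal.ofReal_of_nonpos (not_lt.1 hcon)] at hsmall
      exact absurd hsmall (by simp)
    rw [hrect, ← ENNReal.ofReal_add h4.le (mul_nonneg (by linarith) hp)] at h3
    have h5 : (d - c) * ((t₂ - t₁) - p) + (d - c) * p = (d - c) * (t₂ - t₁) := by ring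
    rw [h5] at h3
    exact lt_irrefl _ h3
  -- almost all slices outside `NH` are null
  have hnull : ∀ᵐ t : ℝ, t ∈ Ioo t₁ t₂ →
      volume ((vs G t ∩ Ioo c d) \ NH G t₁ t₂ c d) = 0 := by
    set N : Set ℂ := G ∩ {x | x.re ∈ Ioo t₁ t₂ ∧ x.im ∈ Ioo c d \ NH G t₁ t₂ c d} with hN
    have hNm : MeasurableSet N := hG.inter
      ((Complex.measurable_re measurableSet_Ioo).inter
        (Complex.measurable_im (measurableSet_Ioo.diff (meas_NH hG _ _ _ _))))
    have h0 : volume N = 0 := by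
      rw [vol_hs hNm, lintegral_eq_zero_iff (by
        have := measurable_hs hNm (I := univ) MeasurableSet.univ
        simpa using this)]
      have h1 : ∀ᵐ b : ℝ, b ∉ {b | b ∈ Ioo c d ∧ volume (Ioo t₁ t₂ \ hs G b) = 0} :=
        measure_eq_zero_iff_ae_notMem.1 hfull
      filter_upwards [h1] with b hb
      show volume (hs N b) = 0
      by_cases hb2 : b ∈ Ioo c d \ NH G t₁ t₂ c d
      · by_contra hne
        apply hb2.2
        refine ⟨hb2.1, ?_, ?_⟩
        · refine lt_of_lt_of_le (pos_iff_ne_zero.2 hne) (measure_mono ?_)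
          intro t ht
          exact ⟨ht.1, ht.2.1⟩
        · rw [pos_iff_ne_zero]
          intro h2
          exact hb ⟨hb2.1, h2⟩
      · have : hs N b = ∅ := by
          ext t
          simp only [hs, hN, mem_inter_iff, mem_ofPred_eq, mem_empty_iff_false, iff_false]
          tauto
        rw [this, measure_empty]
    rw [vol_vs hNm, lintegral_eq_zero_iff (by
        have := measurable_vs hNm (I := univ) MeasurableSet.univ
        simpa using this)] at h0
    filter_upwards [h0] with t ht ht2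
    refine measure_mono_null ?_ ht
    intro b hb
    exact ⟨hb.1.1, ht2, hb.1.2, hb.2⟩
  rw [vol_rect_vs hG]
  have h2 : ∀ᵐ t ∂(volume.restrict (Ioo t₁ t₂)), volume (vs G t ∩ Ioo c d) ≤
      (NV G t₁ t₂ c d).indicator (fun _ => ENNReal.ofReal p) t := by
    rw [ae_restrict_iff' measurableSet_Ioo]
    filter_upwards [hnull] with t ht ht2
    have h3 : volume (vs G t ∩ Ioo c d) ≤ ENNReal.ofReal p := by
      have h4 : vs G t ∩ Ioo c d ⊆ ((vs G t ∩ Ioo c d) \ NH G t₁ t₂ c d) ∪ NH G t₁ t₂ c d := by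
        intro b hb
        by_cases h : b ∈ NH G t₁ t₂ c d
        · exact Or.inr h
        · exact Or.inl ⟨hb, h⟩
      calc volume (vs G t ∩ Ioo c d) ≤ volume ((vs G t ∩ Ioo c d) \ NH G t₁ t₂ c d) +
            volume (NH G t₁ t₂ c d) := (measure_mono h4).trans (measure_union_le _ _)
        _ = volume (NH G t₁ t₂ c d) := by rw [ht ht2, zero_add]
        _ ≤ _ := hNH
    by_cases h4 : t ∈ NV G t₁ t₂ c d
    · rw [indicator_of_mem h4]
      exact h3
    · rw [indicator_of_notMem h4]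
      by_contra h5
      rw [not_le] at h5
      apply h4
      refine ⟨ht2, h5, ?_⟩
      rw [pos_iff_ne_zero]
      intro h6
      have h7 : volume (Ioo c d) ≤ volume (vs G t ∩ Ioo c d) + volume (Ioo c d \ vs G t) := by
        refine (measure_mono ?_).trans (measure_union_le _ _)
        intro b hb
        by_cases h : b ∈ vs G t
        · exact Or.inl ⟨h, hb⟩
        · exact Or.inr ⟨hb, h⟩
      rw [h6, add_zero, Real.volume_Ioo] at h7
      have h8 := (ENNReal.ofReal_le_ofReal_iff hp).1 (h7.trans h3)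
      linarith
  calc ∫⁻ t in Ioo t₁ t₂, volume (vs G t ∩ Ioo c d) ≤
        ∫⁻ t in Ioo t₁ t₂, (NV G t₁ t₂ c d).indicator (fun _ => ENNReal.ofReal p) t :=
        lintegral_mono_ae h2
    _ ≤ ∫⁻ t, (NV G t₁ t₂ c d).indicator (fun _ => ENNReal.ofReal p) t :=
        setLIntegral_le_lintegral _ _
    _ = ENNReal.ofReal p * volume (NV G t₁ t₂ c d) := by
        rw [lintegral_indicator (meas_NV hG _ _ _ _), setLIntegral_const]
    _ ≤ ENNReal.ofReal p * ENNReal.ofReal p := by gcongr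
    _ = ENNReal.ofReal (p ^ 2) := by rw [← ENNReal.ofReal_mul hp, sq]

/-! ### Trapezoids -/

/-- a trapezoid function -/
def tz (a b r s : ℝ) : ℝ := max 0 (min 1 (min (s - (a - r)) (b + r - s) / r))

lemma tz_cont (a b r : ℝ) : Continuous (tz a b r) := by
  unfold tz
  fun_prop

lemma tz_nonneg (a b r s : ℝ) : 0 ≤ tz a b r s := le_max_left _ _

lemma tz_le_one (a b r s : ℝ) : tz a b r s ≤ 1 := max_le zero_le_one (min_le_left _ _)

lemma tz_one {a b r s : ℝ} (hr : 0 < r) (h1 : a ≤ s) (h2 : s ≤ b) : tz a b r s = 1 := by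
  unfold tz
  have h3 : 1 ≤ min (s - (a - r)) (b + r - s) / r := by
    rw [le_div_iff₀ hr, one_mul]
    exact le_min (by linarith) (by linarith)
  rw [min_eq_left h3]
  simp

lemma tz_zero {a b r s : ℝ} (hr : 0 < r) (h : s ∉ Icc (a - r) (b + r)) : tz a b r s = 0 := by
  unfold tz
  apply max_eq_left
  refine (min_le_right _ _).trans (div_nonpos_of_nonpos_of_nonneg ?_ hr.le)
  rw [mem_Icc, not_and_or, not_le, not_le] at h
  rcases h with h | h
  · exact (min_le_left _ _).trans (by linarith)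
  · exact (min_le_right _ _).trans (by linarith)

/-- the test weight -/
def uu (k : ℝ → ℝ) (t₁ t₂ c d r : ℝ) (x : ℂ) : ℝ :=
  k x.im * (tz t₁ t₂ r x.re * tz c d r x.im)

section uu

variable {k : ℝ → ℝ} {t₁ t₂ c d r : ℝ}

lemma uu_cont (hk : Continuous k) : Continuous (uu k t₁ t₂ c d r) := by
  unfold uu
  exact (hk.comp Complex.continuous_im).mul (((tz_cont _ _ _).comp Complex.continuous_re).mul
    ((tz_cont _ _ _).comp Complex.continuous_im))

lemma uu_nonneg (hk : ∀ b, 0 ≤ k b) (x : ℂ) : 0 ≤ uu k t₁ t₂ c d r x :=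
  mul_nonneg (hk _) (mul_nonneg (tz_nonneg _ _ _ _) (tz_nonneg _ _ _ _))

lemma uu_le (hk : ∀ b, 0 ≤ k b) (x : ℂ) : uu k t₁ t₂ c d r x ≤ k x.im := by
  unfold uu
  refine mul_le_of_le_one_right (hk _) (mul_le_one₀ (tz_le_one _ _ _ _) (tz_nonneg _ _ _ _)
    (tz_le_one _ _ _ _))

lemma uu_tsupp (hr : 0 < r) : tsupport (uu k t₁ t₂ c d r) ⊆
    Icc (t₁ - r) (t₂ + r) ×ℂ Icc (c - r) (d + r) := by
  refine closure_minimal ?_ (isClosed_Icc.reProdIm isClosed_Icc)
  intro x hx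
  by_contra h
  apply hx
  unfold uu
  rw [Complex.mem_reProdIm, not_and_or] at h
  rcases h with h | h
  · rw [tz_zero hr h, zero_mul, mul_zero]
  · rw [tz_zero hr h, mul_zero, mul_zero]

lemma uu_hcs (hr : 0 < r) : HasCompactSupport (uu k t₁ t₂ c d r) :=
  (isCompact_Icc.reProdIm isCompact_Icc).of_isClosed_subset (isClosed_tsupport _) (uu_tsupp hr)

end uu

theorem NV_le {w : ℂ → ℝ} {A : Set ℂ} {P : ℝ} (hw : WT w) (hA : MeasurableSet A) (hP : PW w A P)
    {t₁ t₂ c d r κ : ℝ} (hcd : c < d) (hr : 0 < r) (hκ : 0 < κ)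
    (hk : ∀ t b, t₁ - r ≤ t → t ≤ t₂ + r → c - r ≤ b → b ≤ d + r → κ ≤ w ⟨t, b⟩) :
    volume (NV A t₁ t₂ c d) ≤ ENNReal.ofReal (P / κ) := by
  have hsub : tsupport (uu (fun _ => κ) t₁ t₂ c d r) ⊆ {x | 0 < w x} := by
    intro x hx
    have h1 := uu_tsupp hr hx
    rw [Complex.mem_reProdIm] at h1
    exact lt_of_lt_of_le hκ (hk x.re x.im h1.1.1 h1.1.2 h1.2.1 h1.2.2)
  have huw : ∀ x, uu (fun _ => κ) t₁ t₂ c d r x ≤ w x := by
    intro x
    by_cases hx : x ∈ Icc (t₁ - r) (t₂ + r) ×ℂ Icc (c - r) (d + r)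
    · rw [Complex.mem_reProdIm] at hx
      exact (uu_le (k := fun _ => κ) (fun _ => hκ.le) x).trans
        (hk x.re x.im hx.1.1 hx.1.2 hx.2.1 hx.2.2)
    · have : uu (fun _ => κ) t₁ t₂ c d r x = 0 :=
        image_eq_zero_of_notMem_tsupport fun h => hx (uu_tsupp hr h)
      rw [this]
      exact hw.nn x
  have h1 := sliceV hw (uu_cont (k := fun _ => κ) continuous_const) (uu_hcs hr) hsub
    (uu_nonneg fun _ => hκ.le) huw hA hP
  have h2 : ∀ t, (NV A t₁ t₂ c d).indicator (fun _ => ENNReal.ofReal κ) t ≤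
      ev (fun b => uu (fun _ => κ) t₁ t₂ c d r ⟨t, b⟩) {b | (⟨t, b⟩ : ℂ) ∈ A} := by
    intro t
    by_cases ht : t ∈ NV A t₁ t₂ c d
    · rw [indicator_of_mem ht]
      refine (Pool.Agent.TH663.HU.c3 (fun b => uu (fun _ => κ) t₁ t₂ c d r ⟨t, b⟩) (vs A t) ?_ ?_
        (meas_vs hA t)).1 c d κ hcd hκ.le ?_ ht.2.1 ht.2.2
      · exact (uu_cont (k := fun _ => κ) continuous_const).comp (mk_cont_im t)
      · exact fun b => uu_nonneg (fun _ => hκ.le) _
      · intro b hb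
        unfold uu
        rw [tz_one hr ht.1.1.le ht.1.2.le, tz_one hr hb.1.le hb.2.le]
        simp
    · rw [indicator_of_notMem ht]
      exact zero_le
  have h3 : ENNReal.ofReal κ * volume (NV A t₁ t₂ c d) ≤ ENNReal.ofReal P := by
    calc ENNReal.ofReal κ * volume (NV A t₁ t₂ c d) =
          ∫⁻ t, (NV A t₁ t₂ c d).indicator (fun _ => ENNReal.ofReal κ) t := by
          rw [lintegral_indicator (meas_NV hA _ _ _ _), setLIntegral_const]
      _ ≤ _ := lintegral_mono h2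
      _ ≤ _ := h1
  rw [ENNReal.ofReal_div_of_pos hκ, ENNReal.le_div_iff_mul_le]
  · rw [mul_comm]
    exact h3
  · left
    exact (ENNReal.ofReal_pos.2 hκ).ne'
  · left
    exact ENNReal.ofReal_ne_top

theorem NH_le_gen {w : ℂ → ℝ} {A : Set ℂ} {P : ℝ} (hw : WT w) (hA : MeasurableSet A)
    (hP : PW w A P) {k : ℝ → ℝ} (hkc : Continuous k) (hk0 : ∀ b, 0 ≤ k b)
    {t₁ t₂ c d r : ℝ} (h12 : t₁ < t₂) (hr : 0 < r)
    (hk : ∀ t b, t₁ - r ≤ t → t ≤ t₂ + r → c - r ≤ b → b ≤ d + r →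
      0 < w ⟨t, b⟩ ∧ k b ≤ w ⟨t, b⟩) :
    ∫⁻ b in NH A t₁ t₂ c d, ENNReal.ofReal (k b) ≤ ENNReal.ofReal P := by
  have hsub : tsupport (uu k t₁ t₂ c d r) ⊆ {x | 0 < w x} := by
    intro x hx
    have h1 := uu_tsupp hr hx
    rw [Complex.mem_reProdIm] at h1
    exact (hk x.re x.im h1.1.1 h1.1.2 h1.2.1 h1.2.2).1
  have huw : ∀ x, uu k t₁ t₂ c d r x ≤ w x := by
    intro x
    by_cases hx : x ∈ Icc (t₁ - r) (t₂ + r) ×ℂ Icc (c - r) (d + r)
    · rw [Complex.mem_reProdIm] at hx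
      exact (uu_le (k := k) hk0 x).trans (hk x.re x.im hx.1.1 hx.1.2 hx.2.1 hx.2.2).2
    · have : uu k t₁ t₂ c d r x = 0 :=
        image_eq_zero_of_notMem_tsupport fun h => hx (uu_tsupp hr h)
      rw [this]
      exact hw.nn x
  have h1 := sliceH hw (uu_cont hkc) (uu_hcs hr) hsub (uu_nonneg hk0) huw hA hP
  have h2 : ∀ b, (NH A t₁ t₂ c d).indicator (fun b => ENNReal.ofReal (k b)) b ≤
      ev (fun t => uu k t₁ t₂ c d r ⟨t, b⟩) {t | (⟨t, b⟩ : ℂ) ∈ A} := by
    intro b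
    by_cases hb : b ∈ NH A t₁ t₂ c d
    · rw [indicator_of_mem hb]
      refine (Pool.Agent.TH663.HU.c3 (fun t => uu k t₁ t₂ c d r ⟨t, b⟩) (hs A b) ?_ ?_
        (meas_hs hA b)).1 t₁ t₂ (k b) h12 (hk0 b) ?_ hb.2.1 hb.2.2
      · exact (uu_cont hkc).comp (mk_cont_re b)
      · exact fun b => uu_nonneg hk0 _
      · intro t ht
        unfold uu
        rw [tz_one hr ht.1.le ht.2.le, tz_one hr hb.1.1.le hb.1.2.le]
        simp
    · rw [indicator_of_notMem hb]
      exact zero_le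
  calc ∫⁻ b in NH A t₁ t₂ c d, ENNReal.ofReal (k b) =
        ∫⁻ b, (NH A t₁ t₂ c d).indicator (fun b => ENNReal.ofReal (k b)) b := by
        rw [lintegral_indicator (meas_NH hA _ _ _ _)]
    _ ≤ _ := lintegral_mono h2
    _ ≤ _ := h1

theorem NH_le {w : ℂ → ℝ} {A : Set ℂ} {P : ℝ} (hw : WT w) (hA : MeasurableSet A)
    (hP : PW w A P) {t₁ t₂ c d r κ : ℝ} (h12 : t₁ < t₂) (hr : 0 < r) (hκ : 0 < κ)
    (hk : ∀ t b, t₁ - r ≤ t → t ≤ t₂ + r → c - r ≤ b → b ≤ d + r → κ ≤ w ⟨t, b⟩) :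
    volume (NH A t₁ t₂ c d) ≤ ENNReal.ofReal (P / κ) := by
  have h1 := NH_le_gen hw hA hP (k := fun _ => κ) continuous_const (fun _ => hκ.le) h12 hr
    (t₁ := t₁) (t₂ := t₂) (c := c) (d := d) (fun t b a1 a2 a3 a4 =>
      ⟨lt_of_lt_of_le hκ (hk t b a1 a2 a3 a4), hk t b a1 a2 a3 a4⟩)
  rw [setLIntegral_const] at h1
  rw [ENNReal.ofReal_div_of_pos hκ, ENNReal.le_div_iff_mul_le]
  · rw [mul_comm]
    exact h1
  · left
    exact (ENNReal.ofReal_pos.2 hκ).ne'
  · left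
    exact ENNReal.ofReal_ne_top

end Pool.Agent.H84.Q2
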