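import Pool.Agent.H84.Q2.Weight
import Pool.Agent.H84.Q2.Rect

/-!
# Masses
-/

set_option autoImplicit false

open MeasureTheory Set Metric Filter Topology
open scoped ENNReal Real

noncomputable section

namespace Pool.Agent.H84.Q2

open Pool.Agent.TH304.MI Pool.Agent.TH703.HU

/-! ### Fubini -/

lemma fubR1 {f : ℂ → ℝ} (hf : Integrable f) : ∫ x, f x = ∫ b : ℝ, ∫ t : ℝ, f ⟨t, b⟩ := by
  have e := Complex.volume_preserving_equiv_real_prod.symm
  rw [← e.integral_comp (Complex.measurableEquivRealProd.symm.measurableEmbedding) f]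
  rw [Measure.volume_eq_prod, integral_prod_symm]
  · rfl
  · have := e.integrable_comp_of_integrable hf
    rw [Measure.volume_eq_prod] at this
    exact this

lemma fubR2 {f : ℂ → ℝ} (hf : Integrable f) : ∫ x, f x = ∫ t : ℝ, ∫ b : ℝ, f ⟨t, b⟩ := by
  have e := Complex.volume_preserving_equiv_real_prod.symm
  rw [← e.integral_comp (Complex.measurableEquivRealProd.symm.measurableEmbedding) f]
  rw [Measure.volume_eq_prod, integral_prod]
  · rfl
  · have := e.integrable_comp_of_integrable hf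
    rw [Measure.volume_eq_prod] at this
    exact this

lemma int_mul (f g : ℝ → ℝ) : ∫ x : ℂ, f x.re * g x.im = (∫ t, f t) * ∫ b, g b := by
  have e := Complex.volume_preserving_equiv_real_prod.symm
  rw [← e.integral_comp (Complex.measurableEquivRealProd.symm.measurableEmbedding)]
  rw [Measure.volume_eq_prod, ← integral_prod_mul]
  rfl

lemma integrable_mul' {f g : ℝ → ℝ} (hf : Integrable f) (hg : Integrable g) :
    Integrable fun x : ℂ => f x.re * g x.im := by
  have e := Complex.volume_preserving_equiv_real_prod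
  have h := hf.mul_prod hg
  rw [← Measure.volume_eq_prod] at h
  exact e.integrable_comp_of_integrable h

/-! ### The Gaussian profile -/

/-- the Gaussian profile -/
def ga (b : ℝ) : ℝ := Real.exp (-(b ^ 2 / 4))

lemma ga_pos (b : ℝ) : 0 < ga b := Real.exp_pos _

lemma ga_eq : ga = fun b => Real.exp (-(1 / 4) * b ^ 2) := by
  funext b
  unfold ga
  congr 1
  ring

lemma ga_int : Integrable ga := by
  rw [ga_eq]
  exact integrable_exp_neg_mul_sq (by norm_num)

lemma ga_le : ∫ b, ga b ≤ 4 := by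
  rw [ga_eq, integral_gaussian]
  rw [Real.sqrt_le_left (by norm_num)]
  have := Real.pi_le_four
  norm_num
  linarith

/-- the heavier profile -/
def Hb (b : ℝ) : ℝ := (1 + b ^ 2) * Real.exp (-(b ^ 2 / 8))

lemma Hb_pos (b : ℝ) : 0 < Hb b := by
  unfold Hb
  positivity

lemma Hb_int : Integrable Hb := by
  have h1 : Integrable fun b : ℝ => Real.exp (-(1 / 8) * b ^ 2) :=
    integrable_exp_neg_mul_sq (by norm_num)
  have h2 : Integrable fun b : ℝ => b ^ 2 * Real.exp (-(1 / 8) * b ^ 2) := by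
    have := integrable_rpow_mul_exp_neg_mul_sq (b := 1 / 8) (by norm_num) (s := 2) (by norm_num)
    simpa using this
  have e : Hb = fun b => Real.exp (-(1 / 8) * b ^ 2) + b ^ 2 * Real.exp (-(1 / 8) * b ^ 2) := by
    funext b
    unfold Hb
    have : -(b ^ 2 / 8) = -(1 / 8) * b ^ 2 := by ring
    rw [this]
    ring
  rw [e]
  exact h1.add h2

lemma ga_le_Hb (b : ℝ) : ga b ≤ Hb b := by
  unfold ga Hb
  have h1 : Real.exp (-(b ^ 2 / 4)) ≤ Real.exp (-(b ^ 2 / 8)) := by
    apply Real.exp_le_exp.2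
    nlinarith [sq_nonneg b]
  nlinarith [sq_nonneg b, Real.exp_pos (-(b ^ 2 / 8))]

/-- the tail of the heavier profile -/
def tl (B : ℝ) : ℝ := ∫ b in {b : ℝ | B ≤ |b|}, Hb b

lemma tl_nonneg (B : ℝ) : 0 ≤ tl B := integral_nonneg fun b => (Hb_pos b).le

lemma meas_abs (B : ℝ) : MeasurableSet {b : ℝ | B ≤ |b|} :=
  measurableSet_le measurable_const measurable_norm

lemma tl_anti {B B' : ℝ} (h : B ≤ B') : tl B' ≤ tl B := by
  unfold tl
  apply setIntegral_mono_set Hb_int.integrableOn (ae_of_all _ fun b => (Hb_pos b).le)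
  apply LE.le.eventuallyLE
  intro b hb
  exact h.trans hb

lemma tl_small {ε : ℝ} (hε : 0 < ε) : ∃ B₀ : ℝ, 1 ≤ B₀ ∧ ∀ B, B₀ ≤ B → tl B ≤ ε := by
  have h1 : Tendsto (fun n : ℕ => ∫ b in {b : ℝ | (n : ℝ) ≤ |b|}, Hb b) atTop
      (𝓝 (∫ b in ⋂ n : ℕ, {b : ℝ | (n : ℝ) ≤ |b|}, Hb b)) := by
    apply tendsto_setIntegral_of_antitone (fun n => meas_abs _)
    · intro n m hnm b hb
      have : (n : ℝ) ≤ m := by exact_mod_cast hnm
      exact this.trans hb
    · exact ⟨0, Hb_int.integrableOn⟩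
  have h2 : ⋂ n : ℕ, {b : ℝ | (n : ℝ) ≤ |b|} = ∅ := by
    ext b
    simp only [mem_iInter, mem_ofPred_eq, mem_empty_iff_false, iff_false, not_forall, not_le]
    exact exists_nat_gt |b|
  rw [h2] at h1
  simp only [Measure.restrict_empty, integral_zero_measure] at h1
  obtain ⟨n, hn⟩ := (h1.eventually (gt_mem_nhds hε)).exists
  refine ⟨max 1 n, le_max_left _ _, fun B hB => ?_⟩
  exact (tl_anti ((le_max_right _ _).trans hB)).trans hn.le

/-! ### The weight -/

section weight

variable {q s A T : ℝ} {m : ℕ}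

lemma ww_of_mem {x : ℂ} (h : x ∈ strip T) : ww q s T m x = gp q s m x := by
  unfold ww
  rw [indicator_of_mem h]

lemma ww_of_notMem {x : ℂ} (h : x ∉ strip T) : ww q s T m x = 0 := by
  unfold ww
  rw [indicator_of_notMem h]

lemma ww_nonneg (x : ℂ) : 0 ≤ ww q s T m x := by
  by_cases h : x ∈ strip T
  · rw [ww_of_mem h]
    exact gp_nonneg _ _ _ _
  · rw [ww_of_notMem h]

lemma ww_pos_iff (hm : 1 ≤ m) {x : ℂ} : 0 < ww q s T m x ↔ x ∈ strip T ∧ 0 < gg q s x := by
  constructor
  · intro h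
    by_cases h1 : x ∈ strip T
    · refine ⟨h1, ?_⟩
      rw [ww_of_mem h1] at h
      by_contra h2
      unfold gp at h
      rw [pm_zero hm (not_lt.1 h2)] at h
      exact lt_irrefl _ h
    · rw [ww_of_notMem h1] at h
      exact absurd h (lt_irrefl _)
  · rintro ⟨h1, h2⟩
    rw [ww_of_mem h1]
    unfold gp
    rw [pm_pos h2]
    exact pow_pos h2 m

lemma ww_meas : Measurable (ww q s T m) :=
  (gp_cont q s m).measurable.indicator (isOpen_strip T).measurableSet

/-- The pointwise bound by a product of profiles. -/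
lemma ww_le (h : Good q s A m) (x : ℂ) : ww q s (A / q) m x ≤
    (Ioo (-(A / q)) 0).indicator (fun t => Real.exp (-(2 * (q * t) ^ 2))) x.re * ga x.im := by
  by_cases hx : x ∈ strip (A / q)
  · rw [ww_of_mem hx]
    have h1 : x.re ∈ Ioo (-(A / q)) 0 := ⟨hx.1, hx.2⟩
    rw [indicator_of_mem h1]
    refine (h.gp_le hx.1.le hx.2.le).trans_eq ?_
    unfold ga
    rw [← Real.exp_add]
    congr 1
  · rw [ww_of_notMem hx]
    exact mul_nonneg (indicator_nonneg (fun _ _ => (Real.exp_pos _).le) _) (ga_pos _).le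

lemma dom_int : Integrable (fun t : ℝ => (Ioo (-T) 0).indicator
    (fun t => Real.exp (-(2 * (q * t) ^ 2))) t) := by
  have hc : Continuous fun t : ℝ => Real.exp (-(2 * (q * t) ^ 2)) := by fun_prop
  rw [integrable_indicator_iff measurableSet_Ioo]
  exact (hc.integrableOn_Icc (a := -T) (b := 0)).mono_set Ioo_subset_Icc_self

lemma ww_int (h : Good q s A m) : Integrable (ww q s (A / q) m) := by
  refine (integrable_mul' (dom_int (q := q) (T := A / q)) ga_int).mono'
    ww_meas.aestronglyMeasurable (ae_of_all _ fun x => ?_)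
  rw [Real.norm_of_nonneg (ww_nonneg x)]
  exact ww_le h x

lemma ww_WT (h : Good q s A m) : WT (ww q s (A / q) m) := by
  have hm : 1 ≤ m := le_trans (by norm_num) h.m2
  have e : {x | 0 < ww q s (A / q) m x} = strip (A / q) ∩ {x | 0 < gg q s x} := by
    ext x
    exact ww_pos_iff hm
  refine ⟨ww_nonneg, ?_, ?_, ww_meas, ww_int h⟩
  · rw [e]
    exact (isOpen_strip _).inter (isOpen_lt continuous_const (gg_cont q s))
  · rw [e]
    refine (gp_cont q s m).continuousOn.congr ?_
    intro x hx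
    exact ww_of_mem hx.1

lemma ww_le_one (h : Good q s A m) (x : ℂ) : ww q s (A / q) m x ≤ 1 := by
  refine (ww_le h x).trans ?_
  have h1 : (Ioo (-(A / q)) 0).indicator (fun t => Real.exp (-(2 * (q * t) ^ 2))) x.re ≤ 1 := by
    apply indicator_apply_le'
    · intro _
      rw [Real.exp_le_one_iff]
      nlinarith [sq_nonneg (q * x.re)]
    · intro _
      norm_num
  have h2 : ga x.im ≤ 1 := by
    unfold ga
    rw [Real.exp_le_one_iff]
    nlinarith [sq_nonneg x.im]
  exact mul_le_one₀ h1 (ga_pos _).le h2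

lemma ww_le_ga (h : Good q s A m) (x : ℂ) : ww q s (A / q) m x ≤ ga x.im := by
  refine (ww_le h x).trans ?_
  have h1 : (Ioo (-(A / q)) 0).indicator (fun t => Real.exp (-(2 * (q * t) ^ 2))) x.re ≤ 1 := by
    apply indicator_apply_le'
    · intro _
      rw [Real.exp_le_one_iff]
      nlinarith [sq_nonneg (q * x.re)]
    · intro _
      norm_num
  calc _ ≤ 1 * ga x.im := mul_le_mul_of_nonneg_right h1 (ga_pos _).le
    _ = _ := one_mul _

end weight

/-! ### General facts on masses -/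

section general

variable {w : ℂ → ℝ}

lemma mu_mono (hw : WT w) {G H : Set ℂ} (h : G ⊆ H) : mu w G ≤ mu w H :=
  setIntegral_mono_set hw.int.integrableOn (ae_of_all _ hw.nn) h.eventuallyLE

lemma mu_nonneg (hw : WT w) (G : Set ℂ) : 0 ≤ mu w G := integral_nonneg hw.nn

lemma mu_union_le (hw : WT w) {G H : Set ℂ} (hH : MeasurableSet H) :
    mu w (G ∪ H) ≤ mu w G + mu w H := by
  have h1 : G ∪ H = (G \ H) ∪ H := by simp
  have h2 : mu w (G ∪ H) = mu w (G \ H) + mu w H := by
    rw [h1]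
    exact setIntegral_union disjoint_sdiff_left hH hw.int.integrableOn hw.int.integrableOn
  rw [h2]
  have := mu_mono hw (sdiff_subset : G \ H ⊆ G)
  linarith

lemma mu_add_diff (hw : WT w) {G H : Set ℂ} (hH : MeasurableSet H) :
    mu w (G ∩ H) + mu w (G \ H) = mu w G :=
  integral_inter_add_sdiff hH hw.int.integrableOn

lemma mu_le_of_le (hw : WT w) {G : Set ℂ} (hG : MeasurableSet G) {f : ℂ → ℝ} (hf : Integrable f)
    (hf0 : ∀ x, 0 ≤ f x) (h : ∀ x ∈ G, w x ≤ f x) : mu w G ≤ ∫ x, f x := by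
  calc mu w G ≤ ∫ x in G, f x :=
        setIntegral_mono_on hw.int.integrableOn hf.integrableOn hG h
    _ ≤ ∫ x, f x := setIntegral_le_integral hf (ae_of_all _ hf0)

lemma le_mu_of_le (hw : WT w) {f : ℂ → ℝ} (hf : Integrable f) {G : Set ℂ} (hG : MeasurableSet G)
    (h0 : ∀ x ∉ G, f x ≤ 0) (h : ∀ x ∈ G, f x ≤ w x) : ∫ x, f x ≤ mu w G := by
  have h1 : ∫ x in G, f x ≤ mu w G :=
    setIntegral_mono_on hf.integrableOn hw.int.integrableOn hG h
  have h2 : ∫ x in Gᶜ, f x ≤ 0 := setIntegral_nonpos hG.compl fun x hx => h0 x hx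
  have h3 := integral_add_compl hG hf
  linarith

/-- mass controls volume where the weight is bounded below -/
lemma vol_le_mu (hw : WT w) {G : Set ℂ} (hG : MeasurableSet G) {κ : ℝ} (hκ : 0 < κ)
    (h : ∀ x ∈ G, κ ≤ w x) : volume G ≤ ENNReal.ofReal (mu w G / κ) := by
  have h1 : ENNReal.ofReal κ * volume G ≤ ENNReal.ofReal (mu w G) := by
    rw [← setLIntegral_const, mu, ofReal_integral_eq_lintegral_ofReal hw.int.integrableOn
      (ae_of_all _ hw.nn)]
    exact setLIntegral_mono' hG fun x hx => ENNReal.ofReal_le_ofReal (h x hx)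
  rw [ENNReal.ofReal_div_of_pos hκ, ENNReal.le_div_iff_mul_le]
  · rw [mul_comm]
    exact h1
  · left
    exact (ENNReal.ofReal_pos.2 hκ).ne'
  · left
    exact ENNReal.ofReal_ne_top

/-- volume controls mass when the weight is at most one -/
lemma mu_le_vol (hw : WT w) {G : Set ℂ} (hG : MeasurableSet G) (h1 : ∀ x, w x ≤ 1) {p : ℝ}
    (hp : 0 ≤ p) (h : volume G ≤ ENNReal.ofReal p) : mu w G ≤ p := by
  have h2 : ENNReal.ofReal (mu w G) ≤ ENNReal.ofReal p := by
    rw [mu, ofReal_integral_eq_lintegral_ofReal hw.int.integrableOn (ae_of_all _ hw.nn)]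
    calc ∫⁻ x in G, ENNReal.ofReal (w x) ≤ ∫⁻ x in G, 1 :=
          setLIntegral_mono' hG fun x _ => by
            rw [← ENNReal.ofReal_one]
            exact ENNReal.ofReal_le_ofReal (h1 x)
      _ = volume G := setLIntegral_one G
      _ ≤ _ := h
  exact (ENNReal.ofReal_le_ofReal_iff hp).1 h2

end general

end Pool.Agent.H84.Q2
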