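import Pool.Agent.H84.Q2.FieldB
import Pool.Agent.H84.Q2.Mass

/-!
# The calibration estimate
-/

set_option autoImplicit false

open MeasureTheory Set Metric Filter Topology
open scoped ENNReal Real

noncomputable section

namespace Pool.Agent.H84.Q2

open Pool.Agent.TH304.MI Pool.Agent.TH703.HU Pool.Agent.TH802.HU

/-! ### The cutoff in the first variable -/

/-- the cutoff -/
def kn (T : ℝ) (n : ℕ) (t : ℝ) : ℝ := Real.smoothTransition ((t + T) * (n + 2) - 1) *
  Real.smoothTransition (-t * (n + 2) - 1)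

lemma kn_nonneg (T : ℝ) (n : ℕ) (t : ℝ) : 0 ≤ kn T n t :=
  mul_nonneg (Real.smoothTransition.nonneg _) (Real.smoothTransition.nonneg _)

lemma kn_le (T : ℝ) (n : ℕ) (t : ℝ) : kn T n t ≤ 1 :=
  mul_le_one₀ (Real.smoothTransition.le_one _) (Real.smoothTransition.nonneg _)
    (Real.smoothTransition.le_one _)

lemma kn_contDiff (T : ℝ) (n : ℕ) : ContDiff ℝ 1 (kn T n) := by
  unfold kn
  exact (Real.smoothTransition.contDiff.comp (by fun_prop)).mul
    (Real.smoothTransition.contDiff.comp (by fun_prop))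

lemma kn_pos {T : ℝ} {n : ℕ} {t : ℝ} (h : kn T n t ≠ 0) :
    -T + 1 / ((n : ℝ) + 2) ≤ t ∧ t ≤ -(1 / ((n : ℝ) + 2)) := by
  have hn : (0 : ℝ) < (n : ℝ) + 2 := by positivity
  unfold kn at h
  have h1 := left_ne_zero_of_mul h
  have h2 := right_ne_zero_of_mul h
  constructor
  · by_contra h3
    apply h1
    apply Real.smoothTransition.zero_of_nonpos
    have h4 : t + T < 1 / ((n : ℝ) + 2) := by linarith
    rw [lt_div_iff₀ hn] at h4
    linarith
  · by_contra h3
    apply h2
    apply Real.smoothTransition.zero_of_nonpos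
    have h4 : -t < 1 / ((n : ℝ) + 2) := by linarith
    rw [lt_div_iff₀ hn] at h4
    linarith

/-- the derivative of the cutoff -/
def dk (T : ℝ) (n : ℕ) (t : ℝ) : ℝ :=
  deriv Real.smoothTransition ((t + T) * (n + 2) - 1) * (n + 2) *
    Real.smoothTransition (-t * (n + 2) - 1) -
  Real.smoothTransition ((t + T) * (n + 2) - 1) *
    (deriv Real.smoothTransition (-t * (n + 2) - 1) * (n + 2))

lemma kn_hasDerivAt (T : ℝ) (n : ℕ) (t : ℝ) : HasDerivAt (kn T n) (dk T n t) t := by
  have h1 : HasDerivAt (fun t : ℝ => (t + T) * ((n : ℝ) + 2) - 1) ((n : ℝ) + 2) t := by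
    simpa using (((hasDerivAt_id t).add_const T).mul_const ((n : ℝ) + 2)).sub_const 1
  have h2 : HasDerivAt (fun t : ℝ => -t * ((n : ℝ) + 2) - 1) (-((n : ℝ) + 2)) t := by
    simpa using (((hasDerivAt_id t).neg).mul_const ((n : ℝ) + 2)).sub_const 1
  have h3 := ((dS_has _).comp t h1).mul ((dS_has _).comp t h2)
  refine h3.congr_deriv ?_
  unfold dk
  simp only [Function.comp_apply]
  ring

/-- Right of the left end the derivative is nonpositive. -/
lemma dk_nonpos {T : ℝ} {n : ℕ} {t : ℝ} (h : -T + 1 ≤ t) : dk T n t ≤ 0 := by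
  have hn : (0 : ℝ) ≤ (n : ℝ) := Nat.cast_nonneg n
  have h1 : deriv Real.smoothTransition ((t + T) * ((n : ℝ) + 2) - 1) = 0 := by
    apply dS_right
    nlinarith
  unfold dk
  rw [h1, zero_mul, zero_mul, zero_sub, neg_nonpos]
  exact mul_nonneg (Real.smoothTransition.nonneg _) (mul_nonneg (dS_nonneg _) (by positivity))

lemma kn_lim {T t : ℝ} (h1 : -T < t) (h2 : t < 0) : ∀ᶠ n : ℕ in atTop, kn T n t = 1 := by
  have e1 : ∀ᶠ n : ℕ in atTop, 2 / (t + T) ≤ (n : ℝ) := by
    exact tendsto_natCast_atTop_atTop.eventually_ge_atTop _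
  have e2 : ∀ᶠ n : ℕ in atTop, 2 / (-t) ≤ (n : ℝ) := by
    exact tendsto_natCast_atTop_atTop.eventually_ge_atTop _
  filter_upwards [e1, e2] with n a1 a2
  have b1 : 0 < t + T := by linarith
  have b2 : 0 < -t := by linarith
  rw [div_le_iff₀ b1] at a1
  rw [div_le_iff₀ b2] at a2
  unfold kn
  rw [Real.smoothTransition.one_of_one_le, Real.smoothTransition.one_of_one_le, mul_one]
  · nlinarith
  · nlinarith

section calib

variable (q s A c₀ c : ℝ) (m : ℕ)

/-- the approximating weights -/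
def Wn (n : ℕ) (x : ℂ) : ℝ := kn (A / q) n x.re * pm m (gg q s x - 1 / ((n : ℝ) + 2))

/-- the approximating densities -/
def Pn (n : ℕ) (x : ℂ) : ℝ := kn (A / q) n x.re *
  (pm m (gg q s x - 1 / ((n : ℝ) + 2)) * dv2 (vv q s c₀ c) x +
    (m * pm (m - 1) (gg q s x - 1 / ((n : ℝ) + 2))) *
      (gt q s x * vr q s c₀ c x + gb q s x * vi q s c₀ c x))

variable {q s A c₀ c m}

lemma Wn_contDiff (hm : 2 ≤ m) (n : ℕ) : ContDiff ℝ 1 (Wn q s A m n) := by
  unfold Wn
  exact ((kn_contDiff _ n).comp Complex.reCLM.contDiff).mul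
    ((pm_contDiff hm).comp ((gg_contDiff q s).sub contDiff_const))

lemma Wn_hasFDerivAt (hm : 2 ≤ m) (n : ℕ) (x : ℂ) : HasFDerivAt (Wn q s A m n)
    ((dk (A / q) n x.re * pm m (gg q s x - 1 / ((n : ℝ) + 2))) • Complex.reCLM +
      (kn (A / q) n x.re * (m * pm (m - 1) (gg q s x - 1 / ((n : ℝ) + 2)))) •
        (gt q s x • Complex.reCLM + gb q s x • Complex.imCLM)) x := by
  have h1 : HasFDerivAt (fun x : ℂ => kn (A / q) n x.re) (dk (A / q) n x.re • Complex.reCLM) x :=
    (kn_hasDerivAt (A / q) n x.re).comp_hasFDerivAt x Complex.reCLM.hasFDerivAt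
  have h2 : HasFDerivAt (fun x : ℂ => pm m (gg q s x - 1 / ((n : ℝ) + 2)))
      ((m * pm (m - 1) (gg q s x - 1 / ((n : ℝ) + 2))) •
        (gt q s x • Complex.reCLM + gb q s x • Complex.imCLM)) x :=
    (pm_hasDerivAt hm _).comp_hasFDerivAt x ((gg_hasFDerivAt q s x).sub_const _)
  refine (h1.mul h2).congr_fderiv (ContinuousLinearMap.ext fun v => ?_)
  simp
  ring

/-- where the approximating weight is nonzero -/
lemma Wn_ne (hm : 2 ≤ m) {n : ℕ} {x : ℂ} (h : kn (A / q) n x.re ≠ 0)
    (h2 : 0 < gg q s x - 1 / ((n : ℝ) + 2)) : 0 < ww q s (A / q) m x := by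
  have hn : (0 : ℝ) < 1 / ((n : ℝ) + 2) := by positivity
  obtain ⟨a1, a2⟩ := kn_pos h
  rw [ww_pos_iff (by omega)]
  exact ⟨⟨by linarith, by linarith⟩, by linarith⟩

/-- the closed set containing the supports -/
def Kn (q s A : ℝ) (n : ℕ) : Set ℂ := {x | -(A / q) + 1 / ((n : ℝ) + 2) ≤ x.re ∧
  x.re ≤ -(1 / ((n : ℝ) + 2)) ∧ 1 / ((n : ℝ) + 2) ≤ gg q s x}

lemma Kn_closed (n : ℕ) : IsClosed (Kn q s A n) :=
  (isClosed_le continuous_const Complex.continuous_re).inter
    ((isClosed_le Complex.continuous_re continuous_const).inter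
      (isClosed_le continuous_const (gg_cont q s)))

lemma Kn_sub (hm : 2 ≤ m) (n : ℕ) : Kn q s A n ⊆ {x | 0 < ww q s (A / q) m x} := by
  intro x hx
  have hn : (0 : ℝ) < 1 / ((n : ℝ) + 2) := by positivity
  rw [mem_ofPred_eq, ww_pos_iff (by omega)]
  exact ⟨⟨by linarith [hx.1], by linarith [hx.2.1]⟩, by linarith [hx.2.2]⟩

/-- the big rectangle -/
def KK (q s A : ℝ) : Set ℂ := Icc (-(A / q)) 0 ×ℂ Icc (-(2 * s)) (2 * s)

lemma KK_compact : IsCompact (KK q s A) := isCompact_Icc.reProdIm isCompact_Icc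

lemma Kn_sub_KK (h : Good q s A m) (n : ℕ) : Kn q s A n ⊆ KK q s A := by
  intro x hx
  have hn : (0 : ℝ) < 1 / ((n : ℝ) + 2) := by positivity
  have h1 : -(A / q) ≤ x.re := by linarith [hx.1]
  have h2 : x.re ≤ 0 := by linarith [hx.2.1]
  have h3 := im_le h h1 h2 (by linarith [hx.2.2])
  have h4 := abs_le.1 h3
  exact ⟨⟨h1, h2⟩, h4⟩

lemma supp_sub (hm : 2 ≤ m) {n : ℕ} {x : ℂ} (hx : x ∉ Kn q s A n) :
    kn (A / q) n x.re = 0 ∨ (pm m (gg q s x - 1 / ((n : ℝ) + 2)) = 0 ∧
      pm (m - 1) (gg q s x - 1 / ((n : ℝ) + 2)) = 0) := by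
  by_cases h : kn (A / q) n x.re = 0
  · exact Or.inl h
  · right
    obtain ⟨a1, a2⟩ := kn_pos h
    have h3 : gg q s x - 1 / ((n : ℝ) + 2) ≤ 0 := by
      by_contra h4
      apply hx
      exact ⟨a1, a2, by linarith⟩
    exact ⟨pm_zero (by omega) h3, pm_zero (by omega) h3⟩

lemma Wn_tsupport (hm : 2 ≤ m) (n : ℕ) : tsupport (Wn q s A m n) ⊆ Kn q s A n := by
  apply closure_minimal _ (Kn_closed n)
  intro x hx
  by_contra h
  apply hx
  unfold Wn
  rcases supp_sub hm h with h1 | h1
  · rw [h1, zero_mul]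
  · rw [h1.1, mul_zero]

lemma Wn_nonneg (n : ℕ) (x : ℂ) : 0 ≤ Wn q s A m n x :=
  mul_nonneg (kn_nonneg _ _ _) (pm_nonneg _ _)

lemma Wn_le (hm : 2 ≤ m) (n : ℕ) (x : ℂ) : Wn q s A m n x ≤ ww q s (A / q) m x := by
  by_cases hx : x ∈ strip (A / q)
  · rw [ww_of_mem hx]
    unfold Wn gp
    have hn : (0 : ℝ) < 1 / ((n : ℝ) + 2) := by positivity
    have h1 : pm m (gg q s x - 1 / ((n : ℝ) + 2)) ≤ pm m (gg q s x) := pm_mono m (by linarith)
    calc kn (A / q) n x.re * pm m (gg q s x - 1 / ((n : ℝ) + 2)) ≤ 1 * pm m (gg q s x) :=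
          mul_le_mul (kn_le _ _ _) h1 (pm_nonneg _ _) zero_le_one
      _ = _ := one_mul _
  · rw [ww_of_notMem hx]
    have h1 : x ∉ Kn q s A n := by
      intro h2
      have h3 := Kn_sub (m := m) hm n h2
      rw [mem_ofPred_eq, ww_of_notMem hx] at h3
      exact lt_irrefl _ h3
    unfold Wn
    rcases supp_sub hm h1 with h2 | h2
    · rw [h2, zero_mul]
    · rw [h2.1, mul_zero]

lemma en_lim : Tendsto (fun n : ℕ => 1 / ((n : ℝ) + 2)) atTop (𝓝 0) := by
  have h1 : Tendsto (fun n : ℕ => (n : ℝ) + 2) atTop atTop :=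
    tendsto_atTop_add_const_right _ _ tendsto_natCast_atTop_atTop
  exact h1.const_div_atTop 1

lemma Wn_lim (hm : 2 ≤ m) (x : ℂ) :
    Tendsto (fun n => Wn q s A m n x) atTop (𝓝 (ww q s (A / q) m x)) := by
  by_cases hx : x ∈ strip (A / q)
  · rw [ww_of_mem hx]
    have h1 : Tendsto (fun n : ℕ => pm m (gg q s x - 1 / ((n : ℝ) + 2))) atTop
        (𝓝 (pm m (gg q s x))) := by
      have h2 : Tendsto (fun n : ℕ => gg q s x - 1 / ((n : ℝ) + 2)) atTop (𝓝 (gg q s x)) := by
        simpa using en_lim.const_sub (gg q s x)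
      exact ((pm_cont m).tendsto _).comp h2
    refine h1.congr' ?_
    filter_upwards [kn_lim hx.1 hx.2] with n hn
    unfold Wn
    rw [hn, one_mul]
  · have h1 : ∀ n, Wn q s A m n x = 0 := fun n => by
      apply le_antisymm _ (Wn_nonneg n x)
      have := Wn_le (q := q) (s := s) (A := A) hm n x
      rwa [ww_of_notMem hx] at this
    simp only [h1]
    rw [ww_of_notMem hx]
    exact tendsto_const_nhds

lemma Pn_lim (x : ℂ) (hm : 2 ≤ m) :
    Tendsto (fun n => Pn q s A c₀ c m n x) atTop (𝓝 (Ph q s A c₀ c m x)) := by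
  by_cases hx : x ∈ strip (A / q)
  · unfold Ph
    rw [indicator_of_mem hx]
    have h2 : Tendsto (fun n : ℕ => gg q s x - 1 / ((n : ℝ) + 2)) atTop (𝓝 (gg q s x)) := by
      simpa using en_lim.const_sub (gg q s x)
    have h1 : Tendsto (fun n : ℕ => pm m (gg q s x - 1 / ((n : ℝ) + 2))) atTop
        (𝓝 (pm m (gg q s x))) := ((pm_cont m).tendsto _).comp h2
    have h3 : Tendsto (fun n : ℕ => pm (m - 1) (gg q s x - 1 / ((n : ℝ) + 2))) atTop
        (𝓝 (pm (m - 1) (gg q s x))) := ((pm_cont (m - 1)).tendsto _).comp h2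
    have h4 := (h1.mul_const (dv2 (vv q s c₀ c) x)).add
      ((h3.const_mul (m : ℝ)).mul_const (gt q s x * vr q s c₀ c x + gb q s x * vi q s c₀ c x))
    refine h4.congr' ?_
    filter_upwards [kn_lim hx.1 hx.2] with n hn
    unfold Pn
    rw [hn, one_mul]
  · have h1 : ∀ n, Pn q s A c₀ c m n x = 0 := fun n => by
      have h1 : x ∉ Kn q s A n := by
        intro h2
        have h3 := Kn_sub (m := m) hm n h2
        rw [mem_ofPred_eq, ww_of_notMem hx] at h3
        exact lt_irrefl _ h3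
      unfold Pn
      rcases supp_sub hm h1 with h2 | h2
      · rw [h2, zero_mul]
      · rw [h2.1, h2.2]
        simp
    simp only [h1]
    unfold Ph
    rw [indicator_of_notMem hx]
    exact tendsto_const_nhds

lemma gt_cont : Continuous (gt q s) := by
  unfold gt
  have h1 := Complex.continuous_re
  have h2 := Complex.continuous_im
  fun_prop

lemma gb_cont : Continuous (gb q s) := by
  unfold gb
  have h1 := Complex.continuous_re
  have h2 := Complex.continuous_im
  fun_prop

/-- the uniform bound -/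
lemma exists_bound (q s A c₀ c : ℝ) : ∃ C : ℝ, 0 ≤ C ∧ ∀ x ∈ KK q s A,
    |dv2 (vv q s c₀ c) x| ≤ C ∧ |gt q s x * vr q s c₀ c x + gb q s x * vi q s c₀ c x| ≤ C := by
  have h1 : Continuous (dv2 (vv q s c₀ c)) := dv2_cont (vv_contDiff q s c₀ c)
  have h2 : Continuous fun x => gt q s x * vr q s c₀ c x + gb q s x * vi q s c₀ c x :=
    (gt_cont.mul (vr_contDiff q s c₀ c).continuous).add
      (gb_cont.mul (vi_contDiff q s c₀ c).continuous)
  obtain ⟨C1, hC1⟩ := (KK_compact (q := q) (s := s) (A := A)).exists_bound_of_continuousOn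
    h1.continuousOn
  obtain ⟨C2, hC2⟩ := (KK_compact (q := q) (s := s) (A := A)).exists_bound_of_continuousOn
    h2.continuousOn
  refine ⟨max 0 (max C1 C2), le_max_left _ _, fun x hx => ⟨?_, ?_⟩⟩
  · exact (hC1 x hx).trans ((le_max_left _ _).trans (le_max_right _ _))
  · exact (hC2 x hx).trans ((le_max_right _ _).trans (le_max_right _ _))

/-- The calibration estimate. -/
theorem calib (h : Good q s A m) (hc0 : 0 < c₀) (hc1 : c₀ ≤ 1 / 8)
    (hleft : ∀ x : ℂ, x.re ≤ -(A / q) + 1 → c + 1 + 1 / q ≤ psi q s c₀ x)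
    {F : Set ℂ} (hF : MeasurableSet F) {P : ℝ} (hP : PW (ww q s (A / q) m) F P)
    {Y : ℂ → ℂ} (hY : TW (ww q s (A / q) m) Y) :
    (∫ x in F \ up (psi q s c₀) c, dv2 Y x) + ∫ x in F ∩ up (psi q s c₀) c, Ph q s A c₀ c m x ≤
      P := by
  have hm := h.m2
  have hq := h.q0
  obtain ⟨C, hC0, hC⟩ := exists_bound q s A c₀ c
  have hpos : ∀ x, 0 < ww q s (A / q) m x →
      -(A / q) < x.re ∧ x.re < 0 ∧ |x.im| ≤ 2 * s := by
    intro x hx
    rw [ww_pos_iff (by omega)] at hx
    exact ⟨hx.1.1, hx.1.2, im_le h hx.1.1.le hx.1.2.le hx.2⟩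
  have hgrad : ∀ x, fderiv ℝ (psi q s c₀) x = dpsi q s c₀ x := fun x =>
    (psi_hasFDerivAt q s c₀ x).fderiv
  have hcontP : ∀ n, Continuous (Pn q s A c₀ c m n) := by
    intro n
    unfold Pn
    have h1 : Continuous (dv2 (vv q s c₀ c)) := dv2_cont (vv_contDiff q s c₀ c)
    have h2 : Continuous fun x => gt q s x * vr q s c₀ c x + gb q s x * vi q s c₀ c x :=
      (gt_cont.mul (vr_contDiff q s c₀ c).continuous).add
        (gb_cont.mul (vi_contDiff q s c₀ c).continuous)
    have h3 : Continuous fun x : ℂ => kn (A / q) n x.re :=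
      (kn_contDiff _ n).continuous.comp Complex.continuous_re
    have h4 : Continuous fun x => pm m (gg q s x - 1 / ((n : ℝ) + 2)) :=
      (pm_cont m).comp ((gg_cont q s).sub continuous_const)
    have h5 : Continuous fun x => pm (m - 1) (gg q s x - 1 / ((n : ℝ) + 2)) :=
      (pm_cont (m - 1)).comp ((gg_cont q s).sub continuous_const)
    exact h3.mul ((h4.mul h1).add ((continuous_const.mul h5).mul h2))
  refine glueS (ww_WT h) hF hP (psi_contDiff q s c₀) (K := 2) (by norm_num) ?_
    (vv_contDiff q s c₀ c) ?_ (r₀ := 1) one_pos ?_ (W := Wn q s A m) (Wn_contDiff hm) ?_ ?_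
    Wn_nonneg (Wn_le hm) (Wn_lim hm) (Φ := Pn q s A c₀ c m)
    (B := (KK q s A).indicator fun _ => C + m * C) ?_ ?_ ?_ (fun x => Pn_lim x hm) ?_ hY
  · -- gradient bound
    intro z hz
    rw [hgrad]
    exact (dpsi_norm _ _ _ _).trans (nn_le h hc0 hc1 (hpos z hz).2.2)
  · -- norm of the field
    intro x hx
    exact vv_norm h hc0 hc1 c (hpos x hx).2.2
  · -- the field is normal
    intro x _ h1 h2
    rw [hgrad]
    refine (dpsi_norm _ _ _ _).trans ?_
    have hb : be q s c₀ c x = 0 := by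
      apply Real.smoothTransition.zero_of_nonpos
      apply mul_nonpos_of_nonneg_of_nonpos hq.le
      linarith
    have h3 : dpsi q s c₀ x (vv q s c₀ c x) =
        -vr q s c₀ c x + S1 q s c₀ x.im * vi q s c₀ c x := by
      simp [dpsi, vv]
    rw [h3]
    unfold vr vi
    rw [hb]
    have e : nn q s c₀ x.im = ni q s c₀ x.im * (1 + S1 q s c₀ x.im ^ 2) := by
      rw [← nn_sq]
      have := nn_pos q s c₀ x.im
      unfold ni
      field_simp
    rw [e]
    apply le_of_eq
    ring
  · -- compact support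
    intro n
    exact KK_compact.of_isClosed_subset (isClosed_tsupport _)
      ((Wn_tsupport hm n).trans (Kn_sub_KK h n))
  · -- supports
    intro n
    exact (Wn_tsupport hm n).trans (Kn_sub hm n)
  · -- integrability of the bound
    rw [integrable_indicator_iff KK_compact.measurableSet]
    exact integrableOn_const KK_compact.measure_ne_top
  · intro n
    exact (hcontP n).aestronglyMeasurable
  · -- the pointwise comparison
    intro n x hx
    rw [Pool.Agent.TH584.HU.dv2_smul (Wn_hasFDerivAt hm n x)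
      ((vv_contDiff q s c₀ c).differentiable (by norm_num) x)]
    have e1 : (((dk (A / q) n x.re * pm m (gg q s x - 1 / ((n : ℝ) + 2))) • Complex.reCLM +
      (kn (A / q) n x.re * (m * pm (m - 1) (gg q s x - 1 / ((n : ℝ) + 2)))) •
        (gt q s x • Complex.reCLM + gb q s x • Complex.imCLM)) : ℂ →L[ℝ] ℝ) 1 =
        dk (A / q) n x.re * pm m (gg q s x - 1 / ((n : ℝ) + 2)) +
        (kn (A / q) n x.re * (m * pm (m - 1) (gg q s x - 1 / ((n : ℝ) + 2)))) * gt q s x := by
      simp
    have e2 : (((dk (A / q) n x.re * pm m (gg q s x - 1 / ((n : ℝ) + 2))) • Complex.reCLM +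
      (kn (A / q) n x.re * (m * pm (m - 1) (gg q s x - 1 / ((n : ℝ) + 2)))) •
        (gt q s x • Complex.reCLM + gb q s x • Complex.imCLM)) : ℂ →L[ℝ] ℝ) Complex.I =
        (kn (A / q) n x.re * (m * pm (m - 1) (gg q s x - 1 / ((n : ℝ) + 2)))) * gb q s x := by
      simp
    rw [e1, e2]
    have e3 : (vv q s c₀ c x).re = vr q s c₀ c x := rfl
    have e4 : (vv q s c₀ c x).im = vi q s c₀ c x := rfl
    rw [e3, e4]
    have hp := pm_nonneg m (gg q s x - 1 / ((n : ℝ) + 2))
    have key : 0 ≤ dk (A / q) n x.re * vr q s c₀ c x := by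
      rcases le_or_gt (-(A / q) + 1) x.re with h1 | h1
      · apply mul_nonneg_of_nonpos_of_nonpos (dk_nonpos h1)
        unfold vr
        rw [neg_nonpos]
        exact mul_nonneg (by linarith [be_le q s c₀ c x]) (ni_pos _ _ _ _).le
      · have h2 := hleft x h1.le
        have h3 : be q s c₀ c x = 1 := by
          apply Real.smoothTransition.one_of_one_le
          have h4 : 1 / q ≤ psi q s c₀ x - c - 1 := by linarith
          rw [div_le_iff₀ hq] at h4
          linarith
        unfold vr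
        rw [h3]
        simp
    have e5 := mul_nonneg hp key
    unfold Pn Wn
    nlinarith
  · -- the uniform bound
    intro n x
    by_cases hx : x ∈ Kn q s A n
    · have hxK := Kn_sub_KK h n hx
      rw [indicator_of_mem hxK]
      obtain ⟨g1, g2⟩ := hC x hxK
      have hn : (0 : ℝ) < 1 / ((n : ℝ) + 2) := by positivity
      have hle : gg q s x - 1 / ((n : ℝ) + 2) ≤ 1 := by
        have := h.gg_le_one' hxK.1.1 hxK.1.2
        linarith
      have hp1 : ∀ j, pm j (gg q s x - 1 / ((n : ℝ) + 2)) ≤ 1 := fun j =>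
        pow_le_one₀ (le_max_right _ _) (max_le hle zero_le_one)
      have a0 := kn_nonneg (A / q) n x.re
      have a1 := kn_le (A / q) n x.re
      unfold Pn
      rw [abs_mul, abs_of_nonneg a0]
      have b1 : |pm m (gg q s x - 1 / ((n : ℝ) + 2)) * dv2 (vv q s c₀ c) x +
          (m * pm (m - 1) (gg q s x - 1 / ((n : ℝ) + 2))) *
          (gt q s x * vr q s c₀ c x + gb q s x * vi q s c₀ c x)| ≤ C + m * C := by
        refine (abs_add_le _ _).trans (add_le_add ?_ ?_)
        · rw [abs_mul, abs_of_nonneg (pm_nonneg _ _)]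
          calc pm m (gg q s x - 1 / ((n : ℝ) + 2)) * |dv2 (vv q s c₀ c) x| ≤ 1 * C :=
                mul_le_mul (hp1 m) g1 (abs_nonneg _) zero_le_one
            _ = C := one_mul C
        · rw [abs_mul, abs_of_nonneg (mul_nonneg (Nat.cast_nonneg m) (pm_nonneg _ _))]
          apply mul_le_mul _ g2 (abs_nonneg _) (Nat.cast_nonneg m)
          calc (m : ℝ) * pm (m - 1) (gg q s x - 1 / ((n : ℝ) + 2)) ≤ m * 1 :=
                mul_le_mul_of_nonneg_left (hp1 _) (Nat.cast_nonneg m)
            _ = m := mul_one _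
      calc kn (A / q) n x.re * _ ≤ 1 * (C + m * C) :=
            mul_le_mul a1 b1 (abs_nonneg _) zero_le_one
        _ = _ := one_mul _
    · have h1 : Pn q s A c₀ c m n x = 0 := by
        unfold Pn
        rcases supp_sub hm hx with h2 | h2
        · rw [h2, zero_mul]
        · rw [h2.1, h2.2]
          simp
      rw [h1, abs_zero]
      exact indicator_nonneg (fun _ _ => by positivity) x

lemma Ph_int (h : Good q s A m) : Integrable (Ph q s A c₀ c m) := by
  obtain ⟨C, hC0, hC⟩ := exists_bound q s A c₀ c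
  have hm := h.m2
  have h1 : Continuous (dv2 (vv q s c₀ c)) := dv2_cont (vv_contDiff q s c₀ c)
  have h2 : Continuous fun x => gt q s x * vr q s c₀ c x + gb q s x * vi q s c₀ c x :=
    (gt_cont.mul (vr_contDiff q s c₀ c).continuous).add
      (gb_cont.mul (vi_contDiff q s c₀ c).continuous)
  have h4 : Continuous fun x => pm m (gg q s x) := (pm_cont m).comp (gg_cont q s)
  have h5 : Continuous fun x => pm (m - 1) (gg q s x) := (pm_cont (m - 1)).comp (gg_cont q s)
  have hmeas : Measurable (Ph q s A c₀ c m) := by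
    unfold Ph
    exact ((h4.mul h1).add ((continuous_const.mul h5).mul h2)).measurable.indicator
      (isOpen_strip _).measurableSet
  have hK : Integrable ((KK q s A).indicator fun _ : ℂ => C + m * C) := by
    rw [integrable_indicator_iff KK_compact.measurableSet]
    exact integrableOn_const KK_compact.measure_ne_top
  refine hK.mono' hmeas.aestronglyMeasurable (ae_of_all _ fun x => ?_)
  rw [Real.norm_eq_abs]
  by_cases hx : x ∈ strip (A / q)
  · rcases le_or_gt (gg q s x) 0 with h0 | h0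
    · have e : Ph q s A c₀ c m x = 0 := by
        unfold Ph
        rw [indicator_of_mem hx, pm_zero (by omega) h0, pm_zero (by omega) h0]
        simp
      rw [e, abs_zero]
      exact indicator_nonneg (fun _ _ => by positivity) x
    · have hb := im_le h hx.1.le hx.2.le h0
      have hxK : x ∈ KK q s A := ⟨⟨hx.1.le, hx.2.le⟩, abs_le.1 hb⟩
      rw [indicator_of_mem hxK]
      unfold Ph
      rw [indicator_of_mem hx]
      obtain ⟨g1, g2⟩ := hC x hxK
      have hle := h.gg_le_one' hx.1.le hx.2.le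
      have hp1 : ∀ j, pm j (gg q s x) ≤ 1 := fun j =>
        pow_le_one₀ (le_max_right _ _) (max_le hle zero_le_one)
      refine (abs_add_le _ _).trans (add_le_add ?_ ?_)
      · rw [abs_mul, abs_of_nonneg (pm_nonneg _ _)]
        calc pm m (gg q s x) * |dv2 (vv q s c₀ c) x| ≤ 1 * C :=
              mul_le_mul (hp1 m) g1 (abs_nonneg _) zero_le_one
          _ = C := one_mul C
      · rw [abs_mul, abs_of_nonneg (mul_nonneg (Nat.cast_nonneg m) (pm_nonneg _ _))]
        apply mul_le_mul _ g2 (abs_nonneg _) (Nat.cast_nonneg m)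
        calc (m : ℝ) * pm (m - 1) (gg q s x) ≤ m * 1 :=
              mul_le_mul_of_nonneg_left (hp1 _) (Nat.cast_nonneg m)
          _ = m := mul_one _
  · have e : Ph q s A c₀ c m x = 0 := by
      unfold Ph
      rw [indicator_of_notMem hx]
    rw [e, abs_zero]
    exact indicator_nonneg (fun _ _ => by positivity) x

end calib

end Pool.Agent.H84.Q2
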