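import Pool.Agent.H84.Q2.Dil

/-!
# Restoring the mass by a dilation
-/

set_option autoImplicit false

open MeasureTheory Set Metric Filter Topology
open scoped ENNReal Real

noncomputable section

namespace Pool.Agent.H84.Q2

open Pool.Agent.TH304.MI Pool.Agent.TH703.HU

lemma Hb_le (b : ℝ) : Hb b ≤ 8 := by
  unfold Hb
  have h1 := Real.add_one_le_exp (b ^ 2 / 8)
  have h2 : Real.exp (b ^ 2 / 8) * Real.exp (-(b ^ 2 / 8)) = 1 := by
    rw [← Real.exp_add]
    simp
  have h3 := Real.exp_pos (-(b ^ 2 / 8))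
  have h4 : 1 + b ^ 2 ≤ 8 * Real.exp (b ^ 2 / 8) := by linarith
  calc (1 + b ^ 2) * Real.exp (-(b ^ 2 / 8)) ≤
        8 * Real.exp (b ^ 2 / 8) * Real.exp (-(b ^ 2 / 8)) :=
        mul_le_mul_of_nonneg_right h4 h3.le
    _ = 8 * (Real.exp (b ^ 2 / 8) * Real.exp (-(b ^ 2 / 8))) := by ring
    _ = 8 := by rw [h2, mul_one]

lemma PW_mono {w : ℂ → ℝ} {A : Set ℂ} {C C' : ℝ} (h : PW w A C) (hC : C ≤ C') : PW w A C' :=
  fun Y hY => (h Y hY).trans hC

section gain

variable {q s A : ℝ} {m : ℕ}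

lemma dl_Rh {k : ℝ} (hk : 0 < k) (t₀ : ℝ) : dl k (Rh t₀) = Rh (k * t₀) := by
  ext x
  simp only [dl, Rh, mem_ofPred_eq, Complex.smul_re, smul_eq_mul]
  rw [← div_eq_inv_mul, lt_div_iff₀ hk, mul_comm]

lemma int_comp (h : Good q s A m) {k : ℝ} (hk : 1 ≤ k) :
    Integrable fun x : ℂ => ww q s (A / q) m (k • x) := by
  refine (ww_int h).mono' ((ww_WT h).meas.comp (measurable_const_smul k)).aestronglyMeasurable
    (ae_of_all _ fun x => ?_)
  rw [Real.norm_of_nonneg (ww_nonneg _)]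
  exact ww_dil h hk x

/-- The loss of mass in a dilation of a small set. -/
lemma loss (h : Good q s A m) {k : ℝ} (hk1 : 1 ≤ k) (hk2 : k ≤ 2) {H : Set ℂ}
    (hH : MeasurableSet H) {κ B : ℝ} (hκ : 0 < κ)
    (hκw : ∀ x ∈ strip (A / q), |x.im| ≤ B → κ ≤ ww q s (A / q) m x) :
    mu (ww q s (A / q) m) H - (k - 1) * (4 * A ^ 2 * (8 * mu (ww q s (A / q) m) H / κ +
      A / q * tl B) + 4 * Real.exp (-(A ^ 2 / 2)) * (A / q)) ≤
      mu (ww q s (A / q) m) (dl k H) := by
  have hWT := ww_WT h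
  have hk0 : 0 < k := by linarith
  have hq := h.q0
  have hA0 : 0 < A := lt_of_lt_of_le one_pos h.A0
  have hT := h.T0
  set w := ww q s (A / q) m with hw
  set T := A / q with hTd
  have hic : Integrable fun x : ℂ => w (k • x) := int_comp h hk1
  -- the three functions
  set S₁ : Set ℂ := H ∩ (strip T ∩ {x | |x.im| ≤ B}) with hS₁
  have hS₁m : MeasurableSet S₁ := hH.inter ((isOpen_strip T).measurableSet.inter
    (measurableSet_le (Complex.measurable_im.abs) measurable_const))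
  have hv1 := vol_le_mu hWT (G := S₁) hS₁m hκ fun x hx => hκw x hx.2.1 hx.2.2
  have hv2 : volume S₁ ≤ ENNReal.ofReal (mu w H / κ) := by
    refine hv1.trans (ENNReal.ofReal_le_ofReal ?_)
    apply div_le_div_of_nonneg_right _ hκ.le
    exact mu_mono hWT inter_subset_left
  have hf1 : Integrable (S₁.indicator fun _ => (8 : ℝ)) := by
    rw [integrable_indicator_iff hS₁m]
    exact integrableOn_const (ne_top_of_le_ne_top ENNReal.ofReal_ne_top hv2)
  have hI1 : ∫ x, S₁.indicator (fun _ => (8 : ℝ)) x ≤ 8 * mu w H / κ := by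
    rw [integral_indicator hS₁m, setIntegral_const, smul_eq_mul]
    have h1 : volume.real S₁ ≤ mu w H / κ :=
      ENNReal.toReal_le_of_le_ofReal (div_nonneg (mu_nonneg hWT _) hκ.le) hv2
    calc volume.real S₁ * 8 ≤ mu w H / κ * 8 := mul_le_mul_of_nonneg_right h1 (by norm_num)
      _ = _ := by ring
  have i1 : Integrable ((Ioo (-T) 0).indicator fun _ : ℝ => (1 : ℝ)) := by
    rw [integrable_indicator_iff measurableSet_Ioo]
    exact integrableOn_const (by simp)
  have i2 : Integrable (({b : ℝ | B ≤ |b|}).indicator Hb) := Hb_int.indicator (meas_abs B)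
  have hf2 := integrable_mul' i1 i2
  have hI2 : ∫ x : ℂ, (Ioo (-T) 0).indicator (fun _ : ℝ => (1 : ℝ)) x.re *
      ({b : ℝ | B ≤ |b|}).indicator Hb x.im = T * tl B := by
    rw [int_mul, integral_indicator measurableSet_Ioo, setIntegral_const,
      integral_indicator (meas_abs B), smul_eq_mul, mul_one,
      Real.volume_real_Ioo_of_le (by linarith)]
    unfold tl
    ring
  set L : Set ℂ := {x | -T ≤ x.re ∧ x.re ≤ -T / k} with hL
  have hLm : MeasurableSet L := (measurableSet_le measurable_const Complex.measurable_re).inter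
    (measurableSet_le Complex.measurable_re measurable_const)
  have hf3 : Integrable (L.indicator w) := hWT.int.indicator hLm
  have hTk : -T ≤ -T / k := by
    rw [le_div_iff₀ hk0]
    nlinarith
  have hI3 : ∫ x, L.indicator w x ≤ (k - 1) * (4 * Real.exp (-(A ^ 2 / 2)) * T) := by
    rw [integral_indicator hLm]
    have h1 : mu w L ≤ 4 * Real.exp (-(A ^ 2 / 2)) * (-T / k - -T) := by
      refine mu_slab_gauss h hTk (Real.exp_pos _).le ?_ hLm fun x hx => hx
      intro t _ ht2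
      apply Real.exp_le_exp.2
      have h2 : q * t ≤ -(A / 2) := by
        have h3 : q * t ≤ q * (-T / k) := mul_le_mul_of_nonneg_left ht2 hq.le
        have h4 : q * (-T / k) = -(A / k) := by
          have : q * T = A := h.qT
          rw [neg_div, mul_neg, ← mul_div_assoc, this]
        have h5 : A / 2 ≤ A / k := div_le_div_of_nonneg_left hA0.le hk0 hk2
        linarith
      nlinarith
    refine le_trans h1 ?_
    have h2 : -T / k - -T ≤ (k - 1) * T := by
      have h3 : -T / k - -T = (k - 1) * T / k := by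
        field_simp
        ring
      rw [h3, div_le_iff₀ hk0]
      have : 0 ≤ (k - 1) * T := mul_nonneg (by linarith) hT.le
      nlinarith
    have h3 : 0 ≤ 4 * Real.exp (-(A ^ 2 / 2)) := by positivity
    nlinarith [mul_le_mul_of_nonneg_left h2 h3]
  -- the pointwise bound
  have hpt : ∀ x ∈ H, w x - w (k • x) ≤ (k - 1) * (4 * A ^ 2) * (S₁.indicator (fun _ => (8 : ℝ)) x +
      (Ioo (-T) 0).indicator (fun _ : ℝ => (1 : ℝ)) x.re *
      ({b : ℝ | B ≤ |b|}).indicator Hb x.im) + L.indicator w x := by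
    intro x hx
    have n1 : 0 ≤ S₁.indicator (fun _ => (8 : ℝ)) x :=
      indicator_nonneg (fun _ _ => by norm_num) x
    have n2 : 0 ≤ (Ioo (-T) 0).indicator (fun _ : ℝ => (1 : ℝ)) x.re *
        ({b : ℝ | B ≤ |b|}).indicator Hb x.im :=
      mul_nonneg (indicator_nonneg (fun _ _ => zero_le_one) _)
        (indicator_nonneg (fun _ _ => (Hb_pos _).le) _)
    have n3 : 0 ≤ L.indicator w x := indicator_nonneg (fun _ _ => ww_nonneg _) x
    have n4 : 0 ≤ (k - 1) * (4 * A ^ 2) := mul_nonneg (by linarith) (by positivity)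
    by_cases hxs : x ∈ strip T
    · rcases le_or_gt (k * x.re) (-T) with hl | hl
      · have hxL : x ∈ L := by
          refine ⟨hxs.1.le, ?_⟩
          rw [le_div_iff₀ hk0]
          linarith
        rw [indicator_of_mem hxL]
        have : 0 ≤ w (k • x) := ww_nonneg _
        have := mul_nonneg n4 (add_nonneg n1 n2)
        linarith
      · have h1 := ww_ray h hk1 hk2 (x := x) (by rw [← hTd]; exact hl) hxs.2
        have h2 : Hb x.im ≤ S₁.indicator (fun _ => (8 : ℝ)) x +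
            (Ioo (-T) 0).indicator (fun _ : ℝ => (1 : ℝ)) x.re *
            ({b : ℝ | B ≤ |b|}).indicator Hb x.im := by
          rcases le_or_gt B |x.im| with hB | hB
          · have h3 : x.im ∈ {b : ℝ | B ≤ |b|} := hB
            have h4 : x.re ∈ Ioo (-T) 0 := ⟨hxs.1, hxs.2⟩
            rw [indicator_of_mem h3, indicator_of_mem h4, one_mul]
            linarith
          · have h3 : x ∈ S₁ := ⟨hx, hxs, hB.le⟩
            rw [indicator_of_mem h3]
            have := Hb_le x.im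
            linarith
        have h3 : (k - 1) * (4 * A ^ 2 * Hb x.im) ≤ (k - 1) * (4 * A ^ 2) *
            (S₁.indicator (fun _ => (8 : ℝ)) x +
            (Ioo (-T) 0).indicator (fun _ : ℝ => (1 : ℝ)) x.re *
            ({b : ℝ | B ≤ |b|}).indicator Hb x.im) := by
          rw [← mul_assoc]
          exact mul_le_mul_of_nonneg_left h2 n4
        linarith
    · have h1 : w x = 0 := ww_of_notMem hxs
      rw [h1]
      have : 0 ≤ w (k • x) := ww_nonneg _
      have := mul_nonneg n4 (add_nonneg n1 n2)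
      linarith
  have hint : (∫ x in H, (w x - w (k • x))) ≤ (k - 1) * (4 * A ^ 2) * (8 * mu w H / κ + T * tl B) +
      (k - 1) * (4 * Real.exp (-(A ^ 2 / 2)) * T) := by
    have g1 : Integrable fun x => (k - 1) * (4 * A ^ 2) * (S₁.indicator (fun _ => (8 : ℝ)) x +
        (Ioo (-T) 0).indicator (fun _ : ℝ => (1 : ℝ)) x.re *
        ({b : ℝ | B ≤ |b|}).indicator Hb x.im) + L.indicator w x :=
      ((hf1.add hf2).const_mul _).add hf3
    have g2 : ∀ x, 0 ≤ (k - 1) * (4 * A ^ 2) * (S₁.indicator (fun _ => (8 : ℝ)) x +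
        (Ioo (-T) 0).indicator (fun _ : ℝ => (1 : ℝ)) x.re *
        ({b : ℝ | B ≤ |b|}).indicator Hb x.im) + L.indicator w x := by
      intro x
      have n1 : 0 ≤ S₁.indicator (fun _ => (8 : ℝ)) x :=
        indicator_nonneg (fun _ _ => by norm_num) x
      have n2 : 0 ≤ (Ioo (-T) 0).indicator (fun _ : ℝ => (1 : ℝ)) x.re *
          ({b : ℝ | B ≤ |b|}).indicator Hb x.im :=
        mul_nonneg (indicator_nonneg (fun _ _ => zero_le_one) _)
          (indicator_nonneg (fun _ _ => (Hb_pos _).le) _)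
      have n3 : 0 ≤ L.indicator w x := indicator_nonneg (fun _ _ => ww_nonneg _) x
      have n4 : 0 ≤ (k - 1) * (4 * A ^ 2) := mul_nonneg (by linarith) (by positivity)
      exact add_nonneg (mul_nonneg n4 (add_nonneg n1 n2)) n3
    calc (∫ x in H, (w x - w (k • x))) ≤ ∫ x in H, ((k - 1) * (4 * A ^ 2) *
          (S₁.indicator (fun _ => (8 : ℝ)) x +
          (Ioo (-T) 0).indicator (fun _ : ℝ => (1 : ℝ)) x.re *
          ({b : ℝ | B ≤ |b|}).indicator Hb x.im) + L.indicator w x) :=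
          setIntegral_mono_on (hWT.int.sub hic).integrableOn g1.integrableOn hH hpt
      _ ≤ ∫ x, ((k - 1) * (4 * A ^ 2) *
          (S₁.indicator (fun _ => (8 : ℝ)) x +
          (Ioo (-T) 0).indicator (fun _ : ℝ => (1 : ℝ)) x.re *
          ({b : ℝ | B ≤ |b|}).indicator Hb x.im) + L.indicator w x) :=
          setIntegral_le_integral g1 (ae_of_all _ g2)
      _ = (k - 1) * (4 * A ^ 2) * ((∫ x, S₁.indicator (fun _ => (8 : ℝ)) x) + T * tl B) +
          ∫ x, L.indicator w x := by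
          have hadd : Integrable fun x => S₁.indicator (fun _ => (8 : ℝ)) x +
              (Ioo (-T) 0).indicator (fun _ : ℝ => (1 : ℝ)) x.re *
              ({b : ℝ | B ≤ |b|}).indicator Hb x.im := hf1.add hf2
          rw [integral_add (hadd.const_mul _) hf3, integral_const_mul,
            integral_add hf1 hf2, hI2]
      _ ≤ _ := by
          have n4 : 0 ≤ (k - 1) * (4 * A ^ 2) := mul_nonneg (by linarith) (by positivity)
          have := mul_le_mul_of_nonneg_left (add_le_add_left hI1 (T * tl B)) n4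
          exact add_le_add this hI3
  rw [integral_sub hWT.int.integrableOn hic.integrableOn] at hint
  rw [mu_dl hk0 hH]
  have h5 : 0 ≤ ∫ x in H, w (k • x) := integral_nonneg fun x => ww_nonneg _
  have h6 : ∫ x in H, w (k • x) ≤ k ^ 2 * ∫ x in H, w (k • x) :=
    le_mul_of_one_le_left h5 (one_le_pow₀ hk1)
  have h7 : mu w H = ∫ x in H, w x := rfl
  rw [← h7] at hint
  nlinarith

theorem gain (h : Good q s A m) {k : ℝ} (hk1 : 1 ≤ k) (hk2 : k ≤ 2) {F : Set ℂ}
    (hF : MeasurableSet F) {t₀ : ℝ} (ht : t₀ < 0) {e κ B : ℝ}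
    (he : ∀ x : ℂ, 2 * t₀ < x.re → x.re < t₀ → |x.im| ≤ 1 → e ≤ ww q s (A / q) m x) (hκ : 0 < κ)
    (hκw : ∀ x ∈ strip (A / q), |x.im| ≤ B → κ ≤ ww q s (A / q) m x) :
    mu (ww q s (A / q) m) F + (k - 1) * (2 * e * (-t₀) - 3 * mu (ww q s (A / q) m) (Rh t₀ \ F) -
      4 * A ^ 2 * (8 * mu (ww q s (A / q) m) (F \ Rh t₀) / κ + A / q * tl B) -
      4 * Real.exp (-(A ^ 2 / 2)) * (A / q)) ≤ mu (ww q s (A / q) m) (dl k F) := by
  have hWT := ww_WT h
  have hk0 : 0 < k := by linarith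
  set w := ww q s (A / q) m with hw
  have hR := meas_Rh t₀
  have hdR := meas_dl hR k
  have hdF := meas_dl hF k
  -- decompositions
  have a1 : mu w (F ∩ Rh t₀) + mu w (F \ Rh t₀) = mu w F := mu_add_diff hWT hR
  have a2 : mu w (Rh t₀ ∩ F) + mu w (Rh t₀ \ F) = mu w (Rh t₀) := mu_add_diff hWT hF
  have a3 : mu w (dl k (F ∩ Rh t₀)) + mu w (dl k (F \ Rh t₀)) = mu w (dl k F) :=
    mu_add_diff (G := dl k F) hWT hdR
  have a4 : mu w (dl k (Rh t₀ ∩ F)) + mu w (dl k (Rh t₀ \ F)) = mu w (dl k (Rh t₀)) :=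
    mu_add_diff (G := dl k (Rh t₀)) hWT hdF
  rw [inter_comm] at a2 a4
  -- the half plane
  have b1 : mu w (Rh t₀) + 2 * e * (t₀ - k * t₀) ≤ mu w (dl k (Rh t₀)) := by
    rw [dl_Rh hk0]
    have h1 : mu w (Rh (k * t₀) ∩ Rh t₀) + mu w (Rh (k * t₀) \ Rh t₀) = mu w (Rh (k * t₀)) :=
      mu_add_diff hWT hR
    have h2 : k * t₀ ≤ t₀ := by nlinarith
    have h3 : Rh (k * t₀) ∩ Rh t₀ = Rh t₀ := by
      apply inter_eq_self_of_subset_right
      intro x hx
      exact lt_of_le_of_lt h2 hx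
    have h4 := le_mu_slab h h2 (e := e) (fun x hx1 hx2 hx3 => he x (by nlinarith) hx2 hx3)
      (G := Rh (k * t₀) \ Rh t₀) ((meas_Rh _).diff hR)
      (fun x hx1 hx2 => ⟨hx1, fun hx3 => absurd hx2 (not_lt.2 (le_of_lt hx3))⟩)
    rw [h3] at h1
    linarith
  -- the missing part
  have b2 : mu w (dl k (Rh t₀ \ F)) ≤ mu w (Rh t₀ \ F) + (k - 1) * (3 * mu w (Rh t₀ \ F)) := by
    rw [mu_dl hk0 (hR.diff hF)]
    have h1 : ∫ x in Rh t₀ \ F, w (k • x) ≤ mu w (Rh t₀ \ F) :=
      setIntegral_mono (int_comp h hk1).integrableOn hWT.int.integrableOn fun x => ww_dil h hk1 x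
    have h2 : k ^ 2 ≤ 1 + 3 * (k - 1) := by nlinarith
    have h3 := mu_nonneg hWT (Rh t₀ \ F)
    calc k ^ 2 * ∫ x in Rh t₀ \ F, w (k • x) ≤ k ^ 2 * mu w (Rh t₀ \ F) :=
          mul_le_mul_of_nonneg_left h1 (sq_nonneg _)
      _ ≤ (1 + 3 * (k - 1)) * mu w (Rh t₀ \ F) := mul_le_mul_of_nonneg_right h2 h3
      _ = _ := by ring
  have b3 := loss h hk1 hk2 (hF.diff hR) hκ hκw
  rw [← hw] at b3
  nlinarith

/-- One-sided minimality. -/
theorem oneSided (h : Good q s A m) {F : Set ℂ} {v : ℝ} (hF : ExW (ww q s (A / q) m) v F)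
    {t₀ : ℝ} (ht : t₀ < 0) (hv : mu (ww q s (A / q) m) (Rh t₀) = v) {e κ B : ℝ}
    (he : ∀ x : ℂ, 2 * t₀ < x.re → x.re < t₀ → |x.im| ≤ 1 → e ≤ ww q s (A / q) m x) (hκ : 0 < κ)
    (hκw : ∀ x ∈ strip (A / q), |x.im| ≤ B → κ ≤ ww q s (A / q) m x) {γ g₀ : ℝ} (hγ : 0 < γ)
    (hg : g₀ ≤ γ)
    (hgain : γ ≤ 2 * e * (-t₀) - 3 * (mu (ww q s (A / q) m) (Rh t₀ \ F) + g₀) -
      4 * A ^ 2 * (8 * mu (ww q s (A / q) m) (F \ Rh t₀) / κ + A / q * tl B) -
      4 * Real.exp (-(A ^ 2 / 2)) * (A / q))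
    {G : Set ℂ} (hG : MeasurableSet G) (hGm : mu (ww q s (A / q) m) (F ∩ G) ≤ g₀) {C : ℝ}
    (hC : PW (ww q s (A / q) m) (F \ G) C) :
    PW (ww q s (A / q) m) F (C + 4 / γ * mu (ww q s (A / q) m) (F ∩ G)) := by
  have hWT := ww_WT h
  have hA0 : 0 < A := lt_of_lt_of_le one_pos h.A0
  set w := ww q s (A / q) m with hw
  have hP4 : PW w F 4 := by
    have h1 : PW w (Rh t₀) 4 := PW_mono (PW_half (slice_int h t₀)) (Wl_le h t₀)
    exact hF.min _ _ (meas_Rh t₀) hv h1
  have hg0 := mu_nonneg hWT (F ∩ G)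
  have hF'm : MeasurableSet (F \ G) := hF.meas.diff hG
  set g := mu w (F ∩ G) with hgd
  set k₁ : ℝ := 1 + g / γ with hk₁
  have hgγ : g / γ ≤ 1 := by
    rw [div_le_one hγ]
    linarith
  have hgγ0 : 0 ≤ g / γ := div_nonneg hg0 hγ.le
  have hk1 : 1 ≤ k₁ := by linarith
  have hk2 : k₁ ≤ 2 := by linarith
  have e1 : g + mu w (F \ G) = v := by
    rw [hgd, mu_add_diff hWT hG, hF.mass]
  have h1 := gain h hk1 hk2 hF'm ht he hκ hκw
  rw [← hw] at h1
  have h2 : mu w (Rh t₀ \ (F \ G)) ≤ mu w (Rh t₀ \ F) + g₀ := by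
    have h3 : Rh t₀ \ (F \ G) ⊆ (Rh t₀ \ F) ∪ (F ∩ G) := by
      intro x hx
      by_cases hxF : x ∈ F
      · right
        refine ⟨hxF, ?_⟩
        by_contra hxG
        exact hx.2 ⟨hxF, hxG⟩
      · exact Or.inl ⟨hx.1, hxF⟩
    refine (mu_mono hWT h3).trans ((mu_union_le hWT (hF.meas.inter hG)).trans ?_)
    linarith
  have h3 : mu w ((F \ G) \ Rh t₀) ≤ mu w (F \ Rh t₀) :=
    mu_mono hWT (sdiff_subset_sdiff_left sdiff_subset)
  have h4 : γ ≤ 2 * e * (-t₀) - 3 * mu w (Rh t₀ \ (F \ G)) -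
      4 * A ^ 2 * (8 * mu w ((F \ G) \ Rh t₀) / κ + A / q * tl B) -
      4 * Real.exp (-(A ^ 2 / 2)) * (A / q) := by
    have h5 : 8 * mu w ((F \ G) \ Rh t₀) / κ ≤ 8 * mu w (F \ Rh t₀) / κ :=
      div_le_div_of_nonneg_right (by linarith) hκ.le
    have h6 : 4 * A ^ 2 * (8 * mu w ((F \ G) \ Rh t₀) / κ + A / q * tl B) ≤
        4 * A ^ 2 * (8 * mu w (F \ Rh t₀) / κ + A / q * tl B) := by
      apply mul_le_mul_of_nonneg_left _ (by positivity)
      linarith
    linarith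
  have h5 : v ≤ mu w (dl k₁ (F \ G)) := by
    have h6 : (k₁ - 1) * γ ≤ (k₁ - 1) * (2 * e * (-t₀) - 3 * mu w (Rh t₀ \ (F \ G)) -
      4 * A ^ 2 * (8 * mu w ((F \ G) \ Rh t₀) / κ + A / q * tl B) -
      4 * Real.exp (-(A ^ 2 / 2)) * (A / q)) := mul_le_mul_of_nonneg_left h4 (by linarith)
    have h7 : (k₁ - 1) * γ = g := by
      rw [hk₁]
      field_simp
      ring
    linarith
  have h6 : mu w (dl 1 (F \ G)) ≤ v := by
    rw [dl_one]
    linarith
  have hcont : ContinuousOn (fun k : ℝ => mu w (dl k (F \ G))) (Icc 1 k₁) :=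
    (mu_dl_cont h hF'm).mono Icc_subset_Ici_self
  obtain ⟨k, hk, hkv⟩ := intermediate_value_Icc hk1 hcont ⟨h6, h5⟩
  have h7 : PW w F (k * C) :=
    hF.min _ _ (meas_dl hF'm k) hkv (PW_dil h hk.1 hF'm hC)
  rcases le_or_gt 4 C with hC4 | hC4
  · apply PW_mono hP4
    have : 0 ≤ 4 / γ * g := by positivity
    linarith
  · apply PW_mono h7
    have h8 : k - 1 ≤ g / γ := by linarith [hk.2]
    have h9 : 0 ≤ k - 1 := by linarith [hk.1]
    have h10 : (k - 1) * C ≤ g / γ * 4 := by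
      rcases le_or_gt 0 C with hC0 | hC0
      · exact mul_le_mul h8 hC4.le hC0 hgγ0
      · have : (k - 1) * C ≤ 0 := mul_nonpos_of_nonneg_of_nonpos h9 hC0.le
        have : 0 ≤ g / γ * 4 := by positivity
        linarith
    have h11 : 4 / γ * g = g / γ * 4 := by ring
    rw [h11]
    linarith

end gain

end Pool.Agent.H84.Q2
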