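import Pool.Agent.H84.Q2.Mass

/-!
# Estimates of masses
-/

set_option autoImplicit false

open MeasureTheory Set Metric Filter Topology
open scoped ENNReal Real

noncomputable section

namespace Pool.Agent.H84.Q2

open Pool.Agent.TH304.MI Pool.Agent.TH703.HU

section slabs

variable {q s A : ℝ} {m : ℕ}

lemma mu_slab (h : Good q s A m) {I : Set ℝ} (hI : MeasurableSet I) (hf : volume I ≠ ∞)
    {G : Set ℂ} (hG : MeasurableSet G) (hsub : ∀ x ∈ G, x.re ∈ I) :
    mu (ww q s (A / q) m) G ≤ 4 * volume.real I := by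
  have h1 : Integrable (I.indicator fun _ : ℝ => (1 : ℝ)) := by
    rw [integrable_indicator_iff hI]
    exact integrableOn_const hf
  have h2 := mu_le_of_le (ww_WT h) hG (integrable_mul' h1 ga_int)
    (fun x => mul_nonneg (indicator_nonneg (fun _ _ => zero_le_one) _) (ga_pos _).le)
    (fun x hx => by
      rw [indicator_of_mem (hsub x hx), one_mul]
      exact ww_le_ga h x)
  rw [int_mul, integral_indicator hI, setIntegral_const] at h2
  refine h2.trans ?_
  rw [smul_eq_mul, mul_one, mul_comm]
  exact mul_le_mul_of_nonneg_right ga_le measureReal_nonneg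

lemma mu_slab_Ioo (h : Good q s A m) {t₁ t₂ : ℝ} (h12 : t₁ ≤ t₂) {G : Set ℂ}
    (hG : MeasurableSet G) (hsub : ∀ x ∈ G, t₁ ≤ x.re ∧ x.re ≤ t₂) :
    mu (ww q s (A / q) m) G ≤ 4 * (t₂ - t₁) := by
  refine (mu_slab h (I := Icc t₁ t₂) measurableSet_Icc (by simp) hG fun x hx => hsub x hx).trans ?_
  rw [Real.volume_real_Icc_of_le h12]

lemma mu_tail (h : Good q s A m) {B : ℝ} {G : Set ℂ} (hG : MeasurableSet G)
    (hsub : ∀ x ∈ G, B ≤ |x.im|) : mu (ww q s (A / q) m) G ≤ A / q * tl B := by
  have h1 : Integrable ((Ioo (-(A / q)) 0).indicator fun _ : ℝ => (1 : ℝ)) := by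
    rw [integrable_indicator_iff measurableSet_Ioo]
    exact integrableOn_const (by simp)
  have h3 : Integrable (({b : ℝ | B ≤ |b|}).indicator Hb) := Hb_int.indicator (meas_abs B)
  have h2 := mu_le_of_le (ww_WT h) hG (integrable_mul' h1 h3)
    (fun x => mul_nonneg (indicator_nonneg (fun _ _ => zero_le_one) _)
      (indicator_nonneg (fun _ _ => (Hb_pos _).le) _))
    (fun x hx => by
      have h4 : x.im ∈ {b : ℝ | B ≤ |b|} := hsub x hx
      rw [indicator_of_mem h4]
      by_cases h5 : x ∈ strip (A / q)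
      · have h6 : x.re ∈ Ioo (-(A / q)) 0 := ⟨h5.1, h5.2⟩
        rw [indicator_of_mem h6, one_mul]
        exact (ww_le_ga h x).trans (ga_le_Hb _)
      · rw [ww_of_notMem h5]
        exact mul_nonneg (indicator_nonneg (fun _ _ => zero_le_one) _) (Hb_pos _).le)
  rw [int_mul, integral_indicator measurableSet_Ioo, setIntegral_const,
    integral_indicator (meas_abs B)] at h2
  refine h2.trans_eq ?_
  rw [smul_eq_mul, mul_one, Real.volume_real_Ioo_of_le (by linarith [h.T0])]
  unfold tl
  ring

/-- The Gaussian decay in the first variable, in a slab. -/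
lemma mu_slab_gauss (h : Good q s A m) {t₁ t₂ e : ℝ} (h12 : t₁ ≤ t₂) (he : 0 ≤ e)
    (hexp : ∀ t, t₁ ≤ t → t ≤ t₂ → Real.exp (-(2 * (q * t) ^ 2)) ≤ e) {G : Set ℂ}
    (hG : MeasurableSet G) (hsub : ∀ x ∈ G, t₁ ≤ x.re ∧ x.re ≤ t₂) :
    mu (ww q s (A / q) m) G ≤ 4 * e * (t₂ - t₁) := by
  have h1 : Integrable ((Icc t₁ t₂).indicator fun _ : ℝ => e) := by
    rw [integrable_indicator_iff measurableSet_Icc]
    exact integrableOn_const (by simp)
  have h2 := mu_le_of_le (ww_WT h) hG (integrable_mul' h1 ga_int)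
    (fun x => mul_nonneg (indicator_nonneg (fun _ _ => he) _) (ga_pos _).le)
    (fun x hx => by
      have h4 : x.re ∈ Icc t₁ t₂ := hsub x hx
      rw [indicator_of_mem h4]
      refine (ww_le h x).trans (mul_le_mul_of_nonneg_right ?_ (ga_pos _).le)
      apply indicator_apply_le'
      · intro _
        exact hexp _ h4.1 h4.2
      · intro _
        exact he)
  rw [int_mul, integral_indicator measurableSet_Icc, setIntegral_const] at h2
  refine h2.trans ?_
  rw [Real.volume_real_Icc_of_le h12, smul_eq_mul]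
  calc (t₂ - t₁) * e * ∫ b, ga b ≤ (t₂ - t₁) * e * 4 :=
        mul_le_mul_of_nonneg_left ga_le (mul_nonneg (by linarith) he)
    _ = _ := by ring

/-- Mass to the left of `t`. -/
lemma mu_left (h : Good q s A m) {t : ℝ} (ht : t < 0) {G : Set ℂ} (hG : MeasurableSet G)
    (hsub : ∀ x ∈ G, x.re ≤ t) : mu (ww q s (A / q) m) G ≤ 2 / (q * (q * -t)) := by
  have hq := h.q0
  rcases le_or_gt t (-(A / q)) with hT | hT
  · have h0 : mu (ww q s (A / q) m) G = 0 := by
      apply setIntegral_eq_zero_of_forall_eq_zero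
      intro x hx
      apply ww_of_notMem
      intro h1
      have := h1.1
      linarith [hsub x hx]
    rw [h0]
    have : 0 < -t := by linarith
    positivity
  set f : ℝ → ℝ := fun t => 1 / (2 * (q * t) ^ 2) with hf
  have hle : -(A / q) ≤ t := hT.le
  have hI : ∫ t in (-(A / q))..t, f t = 1 / (2 * q * (q * -t)) - 1 / (2 * q * A) := by
    have hd : ∀ x ∈ uIcc (-(A / q)) t, HasDerivAt (fun x : ℝ => 1 / (2 * q * (q * -x))) (f x) x := by
      intro x hx
      rw [uIcc_of_le hle] at hx
      have hx0 : x < 0 := lt_of_le_of_lt hx.2 ht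
      have h1 : HasDerivAt (fun x : ℝ => 2 * q * (q * -x)) (2 * q * (q * -1)) x :=
        ((hasDerivAt_id x).neg.const_mul q).const_mul (2 * q)
      have hne : 2 * q * (q * -x) ≠ 0 := by
        have : 0 < -x := by linarith
        positivity
      have h2 := h1.inv hne
      have e : (fun x : ℝ => 1 / (2 * q * (q * -x))) = (fun x : ℝ => 2 * q * (q * -x))⁻¹ := by
        funext y
        simp
      rw [e]
      refine h2.congr_deriv ?_
      rw [hf]
      have : x ≠ 0 := hx0.ne
      have hq' := hq.ne'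
      field_simp
    rw [intervalIntegral.integral_eq_sub_of_hasDerivAt hd]
    · have hq' := hq.ne'
      congr 2
      field_simp
    · apply ContinuousOn.intervalIntegrable
      intro x hx
      rw [uIcc_of_le hle] at hx
      have hx0 : x < 0 := lt_of_le_of_lt hx.2 ht
      apply ContinuousAt.continuousWithinAt
      have : (2 : ℝ) * (q * x) ^ 2 ≠ 0 := by
        have hx1 : x ≠ 0 := hx0.ne
        positivity
      rw [hf]
      fun_prop (disch := assumption)
  have hint : IntegrableOn f (Icc (-(A / q)) t) := by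
    apply ContinuousOn.integrableOn_Icc
    intro x hx
    have hx0 : x < 0 := lt_of_le_of_lt hx.2 ht
    apply ContinuousAt.continuousWithinAt
    have : (2 : ℝ) * (q * x) ^ 2 ≠ 0 := by
      have hx1 : x ≠ 0 := hx0.ne
      positivity
    rw [hf]
    fun_prop (disch := assumption)
  have h1 : Integrable ((Icc (-(A / q)) t).indicator f) := by
    rw [integrable_indicator_iff measurableSet_Icc]
    exact hint
  have hf0 : ∀ t, 0 ≤ f t := fun t => by
    rw [hf]
    positivity
  have h2 := mu_le_of_le (ww_WT h) hG (integrable_mul' h1 ga_int)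
    (fun x => mul_nonneg (indicator_nonneg (fun _ _ => hf0 _) _) (ga_pos _).le)
    (fun x hx => by
      by_cases h5 : x ∈ strip (A / q)
      · have h4 : x.re ∈ Icc (-(A / q)) t := ⟨h5.1.le, hsub x hx⟩
        rw [indicator_of_mem h4]
        refine (ww_le h x).trans (mul_le_mul_of_nonneg_right ?_ (ga_pos _).le)
        apply indicator_apply_le'
        · intro _
          rw [hf]
          dsimp only
          have hx0 : x.re < 0 := h5.2
          have hp : 0 < 2 * (q * x.re) ^ 2 := by
            have hx1 : x.re ≠ 0 := hx0.ne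
            positivity
          rw [Real.exp_neg, ← one_div]
          apply one_div_le_one_div_of_le hp
          have := Real.add_one_le_exp (2 * (q * x.re) ^ 2)
          linarith
        · intro _
          exact hf0 _
      · rw [ww_of_notMem h5]
        exact mul_nonneg (indicator_nonneg (fun _ _ => hf0 _) _) (ga_pos _).le)
  rw [int_mul, integral_indicator measurableSet_Icc, integral_Icc_eq_integral_Ioc,
    ← intervalIntegral.integral_of_le hle, hI] at h2
  refine h2.trans ?_
  have ht' : 0 < -t := by linarith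
  have hA : 0 < A := lt_of_lt_of_le one_pos h.A0
  have h6 : 0 ≤ 1 / (2 * q * A) := by positivity
  have h7 : 0 ≤ ∫ b, ga b := integral_nonneg fun b => (ga_pos b).le
  calc (1 / (2 * q * (q * -t)) - 1 / (2 * q * A)) * ∫ b, ga b ≤
        1 / (2 * q * (q * -t)) * ∫ b, ga b := by
        apply mul_le_mul_of_nonneg_right _ h7
        linarith
    _ ≤ 1 / (2 * q * (q * -t)) * 4 := mul_le_mul_of_nonneg_left ga_le (by positivity)
    _ = _ := by
      field_simp
      ring

/-- Lower bound of the mass of a slab. -/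
lemma le_mu_slab (h : Good q s A m) {t₁ t₂ e : ℝ} (h12 : t₁ ≤ t₂)
    (hlow : ∀ x : ℂ, t₁ < x.re → x.re < t₂ → |x.im| ≤ 1 → e ≤ ww q s (A / q) m x)
    {G : Set ℂ} (hG : MeasurableSet G) (hsub : ∀ x : ℂ, t₁ < x.re → x.re < t₂ → x ∈ G) :
    2 * e * (t₂ - t₁) ≤ mu (ww q s (A / q) m) G := by
  have h1 : Integrable ((Ioo t₁ t₂).indicator fun _ : ℝ => e) := by
    rw [integrable_indicator_iff measurableSet_Ioo]
    exact integrableOn_const (by simp)
  have h3 : Integrable ((Icc (-1 : ℝ) 1).indicator fun _ : ℝ => (1 : ℝ)) := by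
    rw [integrable_indicator_iff measurableSet_Icc]
    exact integrableOn_const (by simp)
  have h2 := le_mu_of_le (ww_WT h) (integrable_mul' h1 h3) hG
    (fun x hx => by
      have : x.re ∉ Ioo t₁ t₂ := fun h4 => hx (hsub x h4.1 h4.2)
      rw [indicator_of_notMem this, zero_mul])
    (fun x hx => by
      by_cases h4 : x.re ∈ Ioo t₁ t₂
      · rw [indicator_of_mem h4]
        by_cases h5 : x.im ∈ Icc (-1 : ℝ) 1
        · rw [indicator_of_mem h5, mul_one]
          exact hlow x h4.1 h4.2 (abs_le.2 h5)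
        · rw [indicator_of_notMem h5, mul_zero]
          exact ww_nonneg _
      · rw [indicator_of_notMem h4, zero_mul]
        exact ww_nonneg _)
  rw [int_mul, integral_indicator measurableSet_Ioo, setIntegral_const,
    integral_indicator measurableSet_Icc, setIntegral_const,
    Real.volume_real_Ioo_of_le h12, Real.volume_real_Icc_of_le (by norm_num)] at h2
  simp only [smul_eq_mul] at h2
  linarith

/-- pointwise lower bound of the weight -/
lemma ww_ge (h : Good q s A m) {x : ℂ} {a b : ℝ} (h1 : -(A / q) < x.re) (h2 : x.re < 0)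
    (ha : |q * x.re| ≤ a) (hb : |x.im| ≤ b) (hs : 2 * (2 * a ^ 2 + b ^ 2) ≤ s ^ 2) :
    Real.exp (-(2 * (2 * a ^ 2 + b ^ 2))) ≤ ww q s (A / q) m x := by
  have e1 : (q * x.re) ^ 2 ≤ a ^ 2 := sq_le_sq' (abs_le.1 ha).1 (abs_le.1 ha).2
  have e2 : x.im ^ 2 ≤ b ^ 2 := sq_le_sq' (abs_le.1 hb).1 (abs_le.1 hb).2
  rw [ww_of_mem ⟨h1, h2⟩]
  refine le_trans ?_ (h.gp_ge h1.le h2.le (by linarith)).1
  apply Real.exp_le_exp.2
  linarith

end slabs

end Pool.Agent.H84.Q2
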