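import Pool.Agent.H84.Q2.Gain

/-!
# The minimizer is close to the half plane
-/

set_option autoImplicit false

open MeasureTheory Set Metric Filter Topology
open scoped ENNReal Real

noncomputable section

namespace Pool.Agent.H84.Q2

open Pool.Agent.TH304.MI Pool.Agent.TH703.HU

section near

variable {q s A : ℝ} {m : ℕ}

/-- The derivative in the first variable. -/
lemma gp_hasDerivAt_re (hm : 2 ≤ m) (t b : ℝ) : HasDerivAt (fun t : ℝ => gp q s m ⟨t, b⟩)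
    (pm (m - 1) (gg q s ⟨t, b⟩) * (m * gt q s ⟨t, b⟩)) t := by
  have h1 : HasDerivAt (fun t : ℝ => (⟨t, b⟩ : ℂ)) 1 t := by
    have e : (fun t : ℝ => (⟨t, b⟩ : ℂ)) = fun t : ℝ => (t : ℂ) + (b : ℂ) * Complex.I := by
      funext t
      exact Complex.mk_eq_add_mul_I t b
    rw [e]
    exact (Complex.ofRealCLM.hasDerivAt (x := t)).add_const _
  have h2 := (gp_hasFDerivAt q s hm ⟨t, b⟩).comp_hasDerivAt t h1
  refine h2.congr_deriv ?_
  simp
  ring

lemma dt_lower (h : Good q s A m) {δ B : ℝ} (hBs : B ^ 2 ≤ δ * s) {t b : ℝ}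
    (ht : -(A / q) ≤ t) (htδ : δ ≤ -(q * t)) (hb : |b| ≤ B) (hδ : 0 < δ) :
    gp q s m ⟨t, b⟩ * (q * -(q * t)) ≤ pm (m - 1) (gg q s ⟨t, b⟩) * (m * gt q s ⟨t, b⟩) := by
  have hs := h.s0
  have hq := h.q0
  have ht0 : t ≤ 0 := by
    by_contra h1
    have := mul_pos hq (not_le.1 h1)
    linarith
  obtain ⟨h3, h4⟩ := h.u_bd (x := ⟨t, b⟩) ht ht0
  have hgl := h.gg_le_one' (x := ⟨t, b⟩) ht ht0
  have hm1 : 1 ≤ m := le_trans (by norm_num) h.m2
  rw [h.m_gt]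
  set u := q * t / s with hu
  have hb2 : b ^ 2 ≤ B ^ 2 := sq_le_sq' (abs_le.1 hb).1 (abs_le.1 hb).2
  have hbs : b ^ 2 / s ≤ δ := by
    rw [div_le_iff₀ hs]
    linarith
  have h5 : q * -(q * t) ≤ q * (1 + u) * (-(4 * (q * t)) * (1 - u) - 2 * b ^ 2 / s) := by
    have h6 : 2 * b ^ 2 / s = 2 * (b ^ 2 / s) := by ring
    rw [h6, mul_assoc]
    apply mul_le_mul_of_nonneg_left _ hq.le
    have h7 : 2 * -(q * t) ≤ -(4 * (q * t)) * (1 - u) - 2 * (b ^ 2 / s) := by nlinarith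
    have h8 : 1 / 2 ≤ 1 + u := by
      have : -(1 / 2) ≤ u := h3
      linarith
    nlinarith
  have h9 : gp q s m ⟨t, b⟩ ≤ pm (m - 1) (gg q s ⟨t, b⟩) := pm_le_pred hm1 hgl
  have h10 : 0 ≤ q * -(q * t) := mul_nonneg hq.le (by linarith)
  calc gp q s m ⟨t, b⟩ * (q * -(q * t)) ≤ pm (m - 1) (gg q s ⟨t, b⟩) * (q * -(q * t)) :=
        mul_le_mul_of_nonneg_right h9 h10
    _ ≤ _ := mul_le_mul_of_nonneg_left h5 (pm_nonneg _ _)

/-- Growth to the right of the quantile. -/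
lemma grow (h : Good q s A m) {δ B t₀ : ℝ} (hδ : 0 < δ) (hBs : B ^ 2 ≤ δ * s)
    (ht₀ : -(A / q) ≤ t₀) (h4 : 4 * δ < -(q * t₀)) {t b : ℝ} (ht1 : t₀ + δ / q ≤ t)
    (ht2 : t ≤ -(δ / q)) (hb : |b| ≤ B) :
    (1 + δ * -(q * t₀) / 2) * gp q s m ⟨t₀, b⟩ ≤ gp q s m ⟨t, b⟩ := by
  have hq := h.q0
  have hδq : 0 < δ / q := div_pos hδ hq
  have hqδ : q * (δ / q) = δ := mul_div_cancel₀ _ hq.ne'
  have hmono : MonotoneOn (fun t : ℝ => gp q s m ⟨t, b⟩) (Icc t₀ (-(δ / q))) := by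
    apply monotoneOn_of_deriv_nonneg (convex_Icc _ _)
    · exact ((gp_cont q s m).comp (mk_cont_re b)).continuousOn
    · intro x _
      exact (gp_hasDerivAt_re h.m2 x b).differentiableAt.differentiableWithinAt
    · intro x hx
      rw [interior_Icc] at hx
      rw [(gp_hasDerivAt_re h.m2 x b).deriv]
      have hx1 : δ ≤ -(q * x) := by
        have := mul_le_mul_of_nonneg_left hx.2.le hq.le
        linarith
      refine le_trans ?_ (dt_lower h hBs (ht₀.trans hx.1.le) hx1 hb hδ)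
      exact mul_nonneg (gp_nonneg _ _ _ _) (mul_nonneg hq.le (by linarith))
  have hle1 : t₀ + δ / q ≤ -(δ / q) := ht1.trans ht2
  obtain ⟨y, hy, hslope⟩ := exists_hasDerivAt_eq_slope (fun t : ℝ => gp q s m ⟨t, b⟩) _
    (show t₀ < t₀ + δ / q by linarith)
    ((gp_cont q s m).comp (mk_cont_re b)).continuousOn
    (fun y _ => gp_hasDerivAt_re h.m2 y b)
  have e1 : t₀ + δ / q - t₀ = δ / q := by ring
  rw [e1, eq_div_iff hδq.ne'] at hslope
  have hy1 : -(q * t₀) / 2 ≤ -(q * y) := by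
    have := mul_le_mul_of_nonneg_left hy.2.le hq.le
    have e2 : q * (t₀ + δ / q) = q * t₀ + δ := by rw [mul_add, hqδ]
    linarith
  have h5 := dt_lower h hBs (ht₀.trans hy.1.le) (by linarith) hb hδ (t := y)
  have h6 : gp q s m ⟨t₀, b⟩ ≤ gp q s m ⟨y, b⟩ :=
    hmono ⟨le_rfl, by linarith⟩ ⟨hy.1.le, by linarith [hy.2]⟩ hy.1.le
  have h7 : gp q s m ⟨t₀ + δ / q, b⟩ ≤ gp q s m ⟨t, b⟩ :=
    hmono ⟨by linarith, hle1⟩ ⟨by linarith, ht2⟩ ht1
  have h8 : gp q s m ⟨t₀, b⟩ * (q * (-(q * t₀) / 2)) ≤ gp q s m ⟨y, b⟩ * (q * -(q * y)) := by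
    apply mul_le_mul h6 (mul_le_mul_of_nonneg_left hy1 hq.le) _ (gp_nonneg _ _ _ _)
    exact mul_nonneg hq.le (by linarith)
  have h9 : gp q s m ⟨t₀, b⟩ * (q * (-(q * t₀) / 2)) * (δ / q) ≤
      gp q s m ⟨t₀ + δ / q, b⟩ - gp q s m ⟨t₀, b⟩ := by
    rw [← hslope]
    exact mul_le_mul_of_nonneg_right (h8.trans h5) hδq.le
  have h10 : gp q s m ⟨t₀, b⟩ * (q * (-(q * t₀) / 2)) * (δ / q) =
      δ * -(q * t₀) / 2 * gp q s m ⟨t₀, b⟩ := by
    field_simp
  rw [h10] at h9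
  linarith

/-- Part of the set right of `t₀` is covered by the rectangle and three small pieces. -/
lemma right_small (h : Good q s A m) {G : Set ℂ} {t₀ t₁ t₂ B X₀ : ℝ}
    (h01 : t₀ ≤ t₁) (h20 : t₂ ≤ 0)
    (hX₀ : mu (ww q s (A / q) m) (G ∩ rect t₁ t₂ (-B) B) ≤ X₀) :
    mu (ww q s (A / q) m) (Rh t₀ ∩ G) ≤ X₀ + 4 * (t₁ - t₀) + 4 * (0 - t₂) + A / q * tl B := by
  have hWT := ww_WT h
  set w := ww q s (A / q) m with hw
  set P₁ : Set ℂ := {x | t₀ ≤ x.re ∧ x.re ≤ t₁} with hP₁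
  set P₂ : Set ℂ := {x | t₂ ≤ x.re ∧ x.re ≤ 0} with hP₂
  set P₃ : Set ℂ := {x | B ≤ |x.im|} with hP₃
  set P₄ : Set ℂ := {x | 0 < x.re} with hP₄
  have m1 : MeasurableSet P₁ := (measurableSet_le measurable_const Complex.measurable_re).inter
    (measurableSet_le Complex.measurable_re measurable_const)
  have m2 : MeasurableSet P₂ := (measurableSet_le measurable_const Complex.measurable_re).inter
    (measurableSet_le Complex.measurable_re measurable_const)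
  have m3 : MeasurableSet P₃ := measurableSet_le measurable_const Complex.measurable_im.abs
  have m4 : MeasurableSet P₄ := measurableSet_lt measurable_const Complex.measurable_re
  have hsub : Rh t₀ ∩ G ⊆ (((G ∩ rect t₁ t₂ (-B) B) ∪ P₁) ∪ P₂) ∪ P₃ ∪ P₄ := by
    intro x hx
    have hx1 : t₀ < x.re := hx.1
    rcases le_or_gt x.re t₁ with a1 | a1
    · exact Or.inl (Or.inl (Or.inl (Or.inr ⟨hx1.le, a1⟩)))
    rcases le_or_gt B |x.im| with a2 | a2
    · exact Or.inl (Or.inr a2)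
    rcases lt_or_ge 0 x.re with a3 | a3
    · exact Or.inr a3
    rcases le_or_gt t₂ x.re with a4 | a4
    · exact Or.inl (Or.inl (Or.inr ⟨a4, a3⟩))
    · exact Or.inl (Or.inl (Or.inl (Or.inl ⟨hx.2, ⟨a1, a4⟩, (abs_lt.1 a2).1, (abs_lt.1 a2).2⟩)))
  have b1 := mu_slab_Ioo h h01 m1 fun x hx => hx
  have b2 := mu_slab_Ioo h h20 m2 fun x hx => hx
  have b3 := mu_tail h m3 fun x hx => hx
  have b4 : mu w P₄ = 0 := by
    apply setIntegral_eq_zero_of_forall_eq_zero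
    intro x hx
    apply ww_of_notMem
    intro h1
    exact absurd h1.2 (not_lt.2 (le_of_lt hx))
  rw [← hw] at b1 b2 b3
  have c1 := mu_mono hWT hsub
  have c2 := mu_union_le hWT (G := ((((G ∩ rect t₁ t₂ (-B) B) ∪ P₁) ∪ P₂) ∪ P₃)) m4
  have c3 := mu_union_le hWT (G := (((G ∩ rect t₁ t₂ (-B) B) ∪ P₁) ∪ P₂)) m3
  have c4 := mu_union_le hWT (G := ((G ∩ rect t₁ t₂ (-B) B) ∪ P₁)) m2
  have c5 := mu_union_le hWT (G := (G ∩ rect t₁ t₂ (-B) B)) m1
  linarith

theorem near (h : Good q s A m) {F : Set ℂ} {v : ℝ} (hF : ExW (ww q s (A / q) m) v F)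
    {t₀ : ℝ} (ht₀ : -(A / q) < t₀) (ht0 : t₀ < 0) (hv : mu (ww q s (A / q) m) (Rh t₀) = v)
    {δ B e κ : ℝ} (hδ : 0 < δ) (hqδ : q ≤ δ) (h4 : 4 * δ < -(q * t₀)) (hB : 1 ≤ B)
    (hBs : (B + 1) ^ 2 ≤ δ * s)
    (he : ∀ b : ℝ, |b| ≤ 1 → e ≤ gp q s m ⟨t₀, b⟩) (hκ : 0 < κ)
    (hκw : ∀ x ∈ strip (A / q), |x.im| ≤ B + 1 → κ ≤ ww q s (A / q) m x)
    (hsmall : tl B < δ * -(q * t₀) * e)
    (hX : 8 * B / κ + 16 * δ / q + A / q * tl B < 2 * v - mu (ww q s (A / q) m) univ) :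
    mu (ww q s (A / q) m) (Rh t₀ \ F) ≤ 8 * B / κ + 16 * δ / q + A / q * tl B := by
  have hWT := ww_WT h
  have hq := h.q0
  set w := ww q s (A / q) m with hw
  have hδq : 0 < δ / q := div_pos hδ hq
  have hqδ' : q * (δ / q) = δ := mul_div_cancel₀ _ hq.ne'
  have h1δ : 1 ≤ δ / q := by rwa [one_le_div hq]
  set t₁ : ℝ := t₀ + 2 * (δ / q) with ht₁
  set t₂ : ℝ := -(2 * (δ / q)) with ht₂
  have h12 : t₁ < t₂ := by
    have h5 : 4 * (δ / q) < -t₀ := by
      have h6 : q * (4 * (δ / q)) < q * -t₀ := by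
        have e1 : q * (4 * (δ / q)) = 4 * (q * (δ / q)) := by ring
        rw [hqδ'] at e1
        linarith
      exact lt_of_mul_lt_mul_left h6 hq.le
    rw [ht₁, ht₂]
    linarith
  have hP : PW w F (Wl w t₀) := hF.min _ _ (meas_Rh t₀) hv (PW_half (slice_int h t₀))
  have hW4 : Wl w t₀ ≤ 4 := Wl_le h t₀
  have hP4 : PW w F 4 := PW_mono hP hW4
  -- bounds on the large rectangle
  have hbig : ∀ t b : ℝ, t₁ - 1 ≤ t → t ≤ t₂ + 1 → -B - 1 ≤ b → b ≤ B + 1 →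
      κ ≤ w ⟨t, b⟩ ∧ (1 + δ * -(q * t₀) / 2) * gp q s m ⟨t₀, b⟩ ≤ w ⟨t, b⟩ := by
    intro t b a1 a2 a3 a4
    have hb : |b| ≤ B + 1 := abs_le.2 ⟨by linarith, a4⟩
    have b1 : t₀ + δ / q ≤ t := by linarith
    have b2 : t ≤ -(δ / q) := by linarith
    have hst : (⟨t, b⟩ : ℂ) ∈ strip (A / q) := ⟨by
      show -(A / q) < t
      linarith, by
      show t < 0
      linarith⟩
    refine ⟨hκw _ hst hb, ?_⟩
    rw [hw, ww_of_mem hst]
    exact grow h hδ hBs ht₀.le h4 b1 b2 hb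
  have hcd : -B < B := by linarith
  -- horizontal slices
  set k : ℝ → ℝ := fun b => (1 + δ * -(q * t₀) / 2) * gp q s m ⟨t₀, b⟩ with hk
  have hkc : Continuous k := continuous_const.mul ((gp_cont q s m).comp (mk_cont_im t₀))
  have hc0 : 0 < δ * -(q * t₀) / 2 := by
    have : 0 < -(q * t₀) := by linarith
    positivity
  have hk0 : ∀ b, 0 ≤ k b := fun b => mul_nonneg (by linarith) (gp_nonneg _ _ _ _)
  have hNH := NH_le_gen hWT hF.meas hP hkc hk0 (t₁ := t₁) (t₂ := t₂) (c := -B) (d := B) (r := 1)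
    h12 one_pos (fun t b a1 a2 a3 a4 =>
      ⟨lt_of_lt_of_le hκ (hbig t b a1 a2 a3 a4).1, (hbig t b a1 a2 a3 a4).2⟩)
  -- vertical slices
  have hNV := NV_le hWT hF.meas hP4 (t₁ := t₁) (t₂ := t₂) (c := -B) (d := B) (r := 1) (κ := κ)
    hcd one_pos hκ (fun t b a1 a2 a3 a4 => (hbig t b a1 a2 a3 a4).1)
  have hNV' : volume (NV Fᶜ t₁ t₂ (-B) B) ≤ ENNReal.ofReal (4 / κ) := by
    rw [NV_compl]
    exact hNV
  -- many trivial slices
  have htriv : 0 < volume {b | b ∈ Ioo (-B) B ∧ volume (Ioo t₁ t₂ \ hs F b) = 0} ∨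
      0 < volume {b | b ∈ Ioo (-B) B ∧ volume (Ioo t₁ t₂ \ hs Fᶜ b) = 0} := by
    by_contra hcon
    rw [not_or, not_lt, not_lt, nonpos_iff_eq_zero, nonpos_iff_eq_zero] at hcon
    have e1 : Ioo (-B) B =ᵐ[volume] NH F t₁ t₂ (-B) B := by
      have h5 : NH F t₁ t₂ (-B) B ⊆ Ioo (-B) B := fun b hb => hb.1
      have h6 : Ioo (-B) B \ NH F t₁ t₂ (-B) B ⊆
          {b | b ∈ Ioo (-B) B ∧ volume (Ioo t₁ t₂ \ hs F b) = 0} ∪
          {b | b ∈ Ioo (-B) B ∧ volume (Ioo t₁ t₂ \ hs Fᶜ b) = 0} := by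
        intro b hb
        by_cases h7 : volume (Ioo t₁ t₂ \ hs F b) = 0
        · exact Or.inl ⟨hb.1, h7⟩
        · right
          refine ⟨hb.1, ?_⟩
          rw [sdiff_hs, compl_compl]
          by_contra h8
          exact hb.2 ⟨hb.1, pos_iff_ne_zero.2 h8, pos_iff_ne_zero.2 h7⟩
      have h7 : volume (Ioo (-B) B \ NH F t₁ t₂ (-B) B) = 0 :=
        measure_mono_null h6 (measure_union_null hcon.1 hcon.2)
      apply Filter.EventuallyEq.symm
      exact (ae_eq_set.2 ⟨by rw [sdiff_eq_empty.2 h5, measure_empty], h7⟩)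
    rw [← setLIntegral_congr e1] at hNH
    have hki : IntegrableOn k (Ioo (-B) B) :=
      (hkc.integrableOn_Icc (a := -B) (b := B)).mono_set Ioo_subset_Icc_self
    rw [← ofReal_integral_eq_lintegral_ofReal hki (ae_of_all _ hk0),
      ENNReal.ofReal_le_ofReal_iff (Wl_nonneg t₀)] at hNH
    rw [hk, integral_const_mul] at hNH
    set I : ℝ := ∫ b in Ioo (-B) B, gp q s m ⟨t₀, b⟩ with hI
    have hWI : Wl w t₀ ≤ I + tl B := by
      have hsi := slice_int h t₀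
      rw [← hw] at hsi
      have h5 : Wl w t₀ = (∫ b in Ioo (-B) B, w ⟨t₀, b⟩) + ∫ b in (Ioo (-B) B)ᶜ, w ⟨t₀, b⟩ :=
        (integral_add_compl measurableSet_Ioo hsi).symm
      have hst : ∀ b : ℝ, (⟨t₀, b⟩ : ℂ) ∈ strip (A / q) := fun b => ⟨ht₀, ht0⟩
      have h6 : ∫ b in Ioo (-B) B, w ⟨t₀, b⟩ = I := by
        rw [hI]
        apply integral_congr_ae (ae_of_all _ fun b => ?_)
        exact ww_of_mem (hst b)
      have h7 : ∫ b in (Ioo (-B) B)ᶜ, w ⟨t₀, b⟩ ≤ tl B := by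
        have h8 : (Ioo (-B) B)ᶜ = {b : ℝ | B ≤ |b|} := by
          ext b
          simp only [mem_compl_iff, mem_Ioo, not_and_or, not_lt, mem_ofPred_eq, le_abs]
          constructor
          · rintro (h9 | h9)
            · right; linarith
            · left; linarith
          · rintro (h9 | h9)
            · right; linarith
            · left; linarith
        rw [h8]
        exact setIntegral_mono_on hsi.integrableOn Hb_int.integrableOn (meas_abs B)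
          fun b _ => (ww_le_ga h _).trans (ga_le_Hb b)
      rw [h5, h6]
      linarith
    have hIe : 2 * e ≤ I := by
      have hgi : IntegrableOn (fun b : ℝ => gp q s m ⟨t₀, b⟩) (Ioo (-B) B) :=
        (((gp_cont q s m).comp (mk_cont_im t₀)).integrableOn_Icc (a := -B) (b := B)).mono_set
          Ioo_subset_Icc_self
      calc 2 * e = ∫ b in Ioo (-1 : ℝ) 1, e := by
            rw [setIntegral_const, Real.volume_real_Ioo_of_le (by norm_num), smul_eq_mul]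
            ring
        _ ≤ ∫ b in Ioo (-1 : ℝ) 1, gp q s m ⟨t₀, b⟩ :=
            setIntegral_mono_on (integrableOn_const (by simp))
              (hgi.mono_set (Ioo_subset_Ioo (by linarith) hB)) measurableSet_Ioo
              fun b hb => he b (abs_le.2 ⟨hb.1.le, hb.2.le⟩)
        _ ≤ I := setIntegral_mono_set hgi (ae_of_all _ fun b => gp_nonneg _ _ _ _)
              (LE.le.eventuallyLE (Ioo_subset_Ioo (by linarith) hB))
    nlinarith
  -- volumes
  have hvolB : volume (Ioo (-B) B) * ENNReal.ofReal (4 / κ) = ENNReal.ofReal (8 * B / κ) := by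
    rw [Real.volume_Ioo, ← ENNReal.ofReal_mul (by linarith)]
    congr 1
    field_simp
    ring
  have e1 : 4 * (t₁ - t₀) + 4 * (0 - t₂) = 16 * δ / q := by
    rw [ht₁, ht₂]
    ring
  have hrm : MeasurableSet (rect t₁ t₂ (-B) B) := meas_rect _ _ _ _
  have h01 : t₀ ≤ t₁ := by linarith
  have h20 : t₂ ≤ 0 := by linarith
  have h8B : 0 ≤ 8 * B / κ := by positivity
  rcases htriv with hc | hc
  · -- full slices
    have h5 := compl_small hF.meas hc hNV
    rw [hvolB] at h5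
    have h6 := mu_le_vol hWT (hF.meas.compl.inter hrm) (ww_le_one h) h8B h5
    have h7 := right_small h h01 h20 h6
    have h8 : Rh t₀ \ F = Rh t₀ ∩ Fᶜ := rfl
    rw [h8]
    rw [← hw] at h7
    linarith
  · -- empty slices
    exfalso
    have h5 := compl_small hF.meas.compl hc hNV'
    rw [hvolB, compl_compl] at h5
    have h6 := mu_le_vol hWT (hF.meas.inter hrm) (ww_le_one h) h8B h5
    have h7 := right_small h h01 h20 h6
    rw [← hw] at h7
    have h8 : mu w (F ∩ Rh t₀) + mu w (F \ Rh t₀) = mu w F := mu_add_diff hWT (meas_Rh t₀)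
    have h9 : mu w (univ ∩ Rh t₀) + mu w (univ \ Rh t₀) = mu w univ :=
      mu_add_diff hWT (meas_Rh t₀)
    have h10 : mu w (F \ Rh t₀) ≤ mu w (univ \ Rh t₀) :=
      mu_mono hWT (sdiff_subset_sdiff_left (subset_univ F))
    rw [univ_inter, hv] at h9
    rw [hF.mass, inter_comm] at h8
    linarith

end near

end Pool.Agent.H84.Q2
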