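import Pool.Agent.H84.Q2.Step2
import Pool.Agent.H84.Q2.Ext

/-!
# The planar theorem
-/

set_option autoImplicit false

open MeasureTheory Set Metric Filter Topology
open scoped ENNReal Real

noncomputable section

namespace Pool.Agent.H84.Q2

open Pool.Agent.TH304.MI Pool.Agent.TH703.HU

lemma Sf_le {q s c₀ : ℝ} (hq : 0 < q) (hc0 : 0 < c₀) (b : ℝ) :
    Sf q s c₀ b ≤ q * b ^ 2 / (4 * s) := by
  unfold Sf
  have h1 : 0 ≤ c₀ * rt b := mul_nonneg hc0.le (rt_pos b).le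
  have h2 : q * b ^ 2 / (4 * s) = q * (b ^ 2 / (4 * s)) := by ring
  rw [h2]
  exact mul_le_mul_of_nonneg_left (by linarith) hq.le

lemma Sf_ge {q s c₀ : ℝ} (hq : 0 < q) (hs : 0 < s) (hc0 : 0 < c₀) (b : ℝ) :
    -(q * c₀) - q * (c₀ ^ 2 * s) ≤ Sf q s c₀ b := by
  unfold Sf
  have h1 : c₀ * rt b ≤ c₀ * (1 + |b|) := mul_le_mul_of_nonneg_left (rt_le b) hc0.le
  have h2 : 0 ≤ (|b| - 2 * c₀ * s) ^ 2 / (4 * s) := by positivity
  have h3 : (|b| - 2 * c₀ * s) ^ 2 / (4 * s) = b ^ 2 / (4 * s) - c₀ * |b| + c₀ ^ 2 * s := by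
    rw [← sq_abs b]
    field_simp
    ring
  have h4 : -c₀ - c₀ ^ 2 * s ≤ b ^ 2 / (4 * s) - c₀ * rt b := by linarith
  have h5 := mul_le_mul_of_nonneg_left h4 hq.le
  linarith

lemma Sf_ge_far {q s c₀ : ℝ} (hq : 0 < q) (hs : 6 ≤ s) (hc0 : 0 < c₀) (hc1 : c₀ ≤ 1 / 8) {b : ℝ}
    (hb : s - 1 < |b|) : q * (s / 8 - 1 / 2) ≤ Sf q s c₀ b := by
  unfold Sf
  apply mul_le_mul_of_nonneg_left _ hq.le
  have h1 : c₀ * rt b ≤ 1 / 8 * (1 + |b|) :=
    mul_le_mul hc1 (rt_le b) (rt_pos b).le (by norm_num)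
  have h2 : 1 / 8 * (1 + |b|) + (s / 8 - 1 / 2) ≤ b ^ 2 / (4 * s) := by
    rw [le_div_iff₀ (by linarith), ← sq_abs b]
    nlinarith
  linarith

lemma exists_A {c a : ℝ} (hc : 0 < c) (ha : 0 < a) : ∃ A : ℝ, 1 ≤ A ∧ 2 * a ≤ A ∧ a + 10 ≤ A ∧
    4 * A * Real.exp (-(A ^ 2 / 2)) ≤ c / 8 := by
  refine ⟨2 * a + 10 + 64 / c, ?_, ?_, ?_, ?_⟩
  · have : 0 < 64 / c := by positivity
    linarith
  · have : 0 < 64 / c := by positivity
    linarith
  · have : 0 < 64 / c := by positivity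
    linarith
  · set A := 2 * a + 10 + 64 / c with hA
    have h64 : 64 / c ≤ A := by linarith
    have hA0 : 0 < A := by
      have : 0 < 64 / c := by positivity
      linarith
    have h1 := Real.add_one_le_exp (A ^ 2 / 2)
    have h2 : Real.exp (A ^ 2 / 2) * Real.exp (-(A ^ 2 / 2)) = 1 := by
      rw [← Real.exp_add]
      simp
    have h3 := Real.exp_pos (-(A ^ 2 / 2))
    have h4 : A ^ 2 / 2 * Real.exp (-(A ^ 2 / 2)) ≤ 1 := by
      rw [← h2]
      exact mul_le_mul_of_nonneg_right (by linarith) h3.le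
    have h5 : A * Real.exp (-(A ^ 2 / 2)) ≤ 2 / A := by
      rw [le_div_iff₀ hA0]
      nlinarith
    have h6 : 8 / A ≤ c / 8 := by
      rw [div_le_iff₀ hA0]
      rw [div_le_iff₀ hc] at h64
      linarith
    have h7 : 4 * (2 / A) = 8 / A := by ring
    nlinarith

/-- **Third step.** -/
theorem step3 {α : ℝ} (hα0 : 0 < α) (hα1 : α < 1 / 2) : ∃ θ A : ℝ, 0 < θ ∧ 1 ≤ A ∧
    ∃ q₁ s₁ : ℝ, 0 < q₁ ∧ ∀ (q s : ℝ) (m : ℕ) (t₀ : ℝ) (F : Set ℂ), Cfg α q s A m t₀ F →
      q ^ 2 * s = θ ^ 2 → q ≤ q₁ → s₁ ≤ s →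
      mu (ww q s (A / q) m) (F ∩ {x | s - 1 < |x.im|}) = 0 := by
  have hcM := cM_pos
  have halo := alo_pos
  have hc3 := c3_pos α
  have hahi : 0 < ahi α := by
    unfold ahi
    positivity
  obtain ⟨A, hA1, hA2, hA10, hAe⟩ := exists_A hc3 hahi
  have hA0 : 0 < A := lt_of_lt_of_le one_pos hA1
  obtain ⟨M, hM0, hM⟩ := dS_bound
  set θ : ℝ := √(8 * (ahi α + 5)) with hθ
  have hθ2 : θ ^ 2 = 8 * (ahi α + 5) := Real.sq_sqrt (by positivity)
  have hθ0 : 0 < θ := Real.sqrt_pos.2 (by positivity)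
  set c₀ : ℝ := min (1 / 8) (1 / θ) with hc₀
  have hc0 : 0 < c₀ := lt_min (by norm_num) (by positivity)
  have hc1 : c₀ ≤ 1 / 8 := min_le_left _ _
  have hcθ : c₀ ^ 2 * θ ^ 2 ≤ 1 := by
    have h1 : c₀ * θ ≤ 1 := by
      have h2 : c₀ ≤ 1 / θ := min_le_right _ _
      rwa [le_div_iff₀ hθ0] at h2
    rw [← mul_pow]
    exact pow_le_one₀ (by positivity) h1
  -- the tail threshold
  set B₀ : ℝ := max 1 (8 * (4 * A + (3 * M + 2) + 16 / c3 α) / c₀) with hB₀
  have hB1 : 1 ≤ B₀ := le_max_left _ _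
  have hBc : 4 * A + (3 * M + 2) + 16 / c3 α ≤ c₀ * B₀ / 8 := by
    have h1 : 8 * (4 * A + (3 * M + 2) + 16 / c3 α) / c₀ ≤ B₀ := le_max_right _ _
    rw [div_le_iff₀ hc0] at h1
    linarith
  set κ : ℝ := Real.exp (-(2 * (2 * A ^ 2 + (B₀ + 1) ^ 2))) with hκ
  have hκ0 : 0 < κ := Real.exp_pos _
  set K : ℝ := 2 + (4 * A + (3 * M + 2)) * c3 α / 4 with hK
  have hK1 : 1 ≤ K := by
    have : 0 ≤ (4 * A + (3 * M + 2)) * c3 α / 4 := by positivity
    linarith
  have hsK : 1 ≤ √K := Real.one_le_sqrt.2 hK1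
  have hsK0 : 0 < √K := lt_of_lt_of_le one_pos hsK
  set ε : ℝ := min (c3 α / 48) (min (κ * c3 α / (16 * √K)) (min (κ / (32 * √K))
    (κ * B₀ * A / 2))) with hε
  have hε0 : 0 < ε := lt_min (by positivity) (lt_min (by positivity)
    (lt_min (by positivity) (by positivity)))
  have hε1 : ε ≤ c3 α / 48 := min_le_left _ _
  have hε2 : ε ≤ κ * c3 α / (16 * √K) := (min_le_right _ _).trans (min_le_left _ _)
  have hε3 : ε ≤ κ / (32 * √K) :=
    (min_le_right _ _).trans ((min_le_right _ _).trans (min_le_left _ _))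
  have hε4 : ε ≤ κ * B₀ * A / 2 :=
    (min_le_right _ _).trans ((min_le_right _ _).trans (min_le_right _ _))
  obtain ⟨B₃, hB₃, hBt₃⟩ := tl_small (ε := ε / (2 * A)) (by positivity)
  have hBt := hBt₃ B₃ le_rfl
  set ε₂ : ℝ := min (ε / 2) ((1 - 2 * α) * cM / 2) with hε₂
  have hε₂0 : 0 < ε₂ := by
    refine lt_min (by positivity) ?_
    have : 0 < 1 - 2 * α := by linarith
    positivity
  have hε₂1 : ε₂ ≤ ε / 2 := min_le_left _ _
  have hε₂2 : ε₂ ≤ (1 - 2 * α) * cM / 2 := min_le_right _ _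
  obtain ⟨q₁, s₁, hq₁, st1⟩ := step1 hα1 hA1 hε₂0 hε₂2
  obtain ⟨q₂, s₂, hq₂, st2⟩ := step2 hα0 hα1 hA1 hA2 hAe hε0 hε1
  refine ⟨θ, A, hθ0, hA1, min (min q₁ q₂) (min ε (A / (2 * (4 + 2 * B₀)))),
    max (max s₁ s₂) (max (max 6 (B₃ ^ 2)) (2 * (2 * A ^ 2 + (B₀ + 1) ^ 2))),
    lt_min (lt_min hq₁ hq₂) (lt_min hε0 (by positivity)), ?_⟩
  intro q s m t₀ F hC hqs hq hs
  have hg := hC.good
  have hq0 := hg.q0
  have hq14 := hg.q1
  have hWT := ww_WT hg
  have hqa : q ≤ q₁ := hq.trans ((min_le_left _ _).trans (min_le_left _ _))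
  have hqb : q ≤ q₂ := hq.trans ((min_le_left _ _).trans (min_le_right _ _))
  have hqε : q ≤ ε := hq.trans ((min_le_right _ _).trans (min_le_left _ _))
  have hqB : q ≤ A / (2 * (4 + 2 * B₀)) := hq.trans ((min_le_right _ _).trans (min_le_right _ _))
  have hsa : s₁ ≤ s := (le_max_left _ _).trans ((le_max_left _ _).trans hs)
  have hsb : s₂ ≤ s := (le_max_right _ _).trans ((le_max_left _ _).trans hs)
  have hs6 : 6 ≤ s :=
    (le_max_left _ _).trans ((le_max_left _ _).trans ((le_max_right _ _).trans hs))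
  have hsB₃ : B₃ ^ 2 ≤ s :=
    (le_max_right _ _).trans ((le_max_left _ _).trans ((le_max_right _ _).trans hs))
  have hsκ : 2 * (2 * A ^ 2 + (B₀ + 1) ^ 2) ≤ s :=
    (le_max_right _ _).trans ((le_max_right _ _).trans hs)
  have hs0 : 0 < s := by linarith
  have hss : s ≤ s ^ 2 := le_self_pow₀ (by linarith) two_ne_zero
  obtain ⟨g1, g2⟩ := st1 q s m t₀ F hC hqa hsa
  have hstep2 := st2 q s m t₀ F hC hqb hsb
  have hgt0 : 0 < -(q * t₀) := lt_of_lt_of_le halo hC.lo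
  have hqi : 0 < 1 / q := by positivity
  have hψc := (psi_contDiff q s c₀).continuous
  set w := ww q s (A / q) m with hw
  set ca : ℝ := -t₀ + 1 with hca
  set Λ : ℝ := 8 * q / c3 α with hΛ
  have hΛ0 : 0 < Λ := by positivity
  -- pointwise bounds on the strip
  have habs : ∀ x ∈ strip (A / q), |q * x.re| ≤ A := by
    intro x hx
    rw [abs_of_nonpos (mul_nonpos_of_nonneg_of_nonpos hq0.le hx.2.le)]
    have h2 := mul_lt_mul_of_pos_left hx.1 hq0
    have e : q * -(A / q) = -A := by field_simp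
    linarith
  have hκw : ∀ x ∈ strip (A / q), |x.im| ≤ B₀ + 1 → κ ≤ w x := fun x hx hb =>
    ww_ge hg hx.1 hx.2 (habs x hx) hb (by linarith)
  have hgg : ∀ x ∈ strip (A / q), |x.im| < B₀ → 1 / 2 ≤ gg q s x := by
    intro x hx hb
    refine (hg.gp_ge hx.1.le hx.2.le ?_).2
    have h1 : (q * x.re) ^ 2 ≤ A ^ 2 := by
      rw [← sq_abs (q * x.re)]
      exact pow_le_pow_left₀ (abs_nonneg _) (habs x hx) 2
    have h2 : x.im ^ 2 ≤ (B₀ + 1) ^ 2 := by
      rw [← sq_abs x.im]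
      exact pow_le_pow_left₀ (abs_nonneg _) (by linarith) 2
    linarith
  -- the initial mass
  have hFE : mu w (F ∩ up (psi q s c₀) ca) ≤ ε / q := by
    have h1 : F ∩ up (psi q s c₀) ca ⊆ (F \ Rh t₀) ∪ tr B₃ := by
      intro x hx
      by_cases hxR : x ∈ Rh t₀
      · right
        have h2 : ca < -x.re + Sf q s c₀ x.im := hx.2
        have h3 : t₀ < x.re := hxR
        have h4 : 1 < Sf q s c₀ x.im := by linarith
        have h5 := Sf_le (s := s) hq0 hc0 x.im
        have h6 : 1 < q * x.im ^ 2 / (4 * s) := lt_of_lt_of_le h4 h5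
        rw [lt_div_iff₀ (by positivity)] at h6
        have h7 : s ≤ x.im ^ 2 := by
          have h9 := mul_le_mul_of_nonneg_right hq14 (sq_nonneg x.im)
          linarith
        have h8 : B₃ ^ 2 ≤ |x.im| ^ 2 := by
          rw [sq_abs]
          linarith
        exact (pow_le_pow_iff_left₀ (by linarith) (abs_nonneg _) two_ne_zero).1 h8
      · exact Or.inl ⟨hx.1, hxR⟩
    have h2 := mu_mono hWT h1
    have h3 := mu_union_le hWT (G := F \ Rh t₀) (meas_tr B₃)
    have h4 := mu_tail hg (meas_tr B₃) (B := B₃) fun x hx => hx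
    rw [← hw] at h4
    have h5 : A / q * tl B₃ ≤ ε / 2 / q := by
      have h6 : A / q * tl B₃ ≤ A / q * (ε / (2 * A)) :=
        mul_le_mul_of_nonneg_left hBt (by positivity)
      have e : A / q * (ε / (2 * A)) = ε / 2 / q := by
        field_simp
      linarith
    have h6 : ε₂ / q ≤ ε / 2 / q := div_le_div_of_nonneg_right hε₂1 hq0.le
    have h7 : ε / 2 / q + ε / 2 / q = ε / q := by ring
    linarith
  have hanti : ∀ c, ca ≤ c → mu w (F ∩ up (psi q s c₀) c) ≤ ε / q := fun c hc =>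
    (mu_mono hWT (inter_subset_inter_right F fun x (hx : c < _) => lt_of_le_of_lt hc hx)).trans hFE
  have hone : ∀ c C : ℝ, ca ≤ c → PW w (F \ up (psi q s c₀) c) C →
      PW w F (C + Λ * mu w (F ∩ up (psi q s c₀) c)) := fun c C hc hPC =>
    hstep2 _ (meas_up hψc c) (hanti c hc) C hPC
  have hP4 : PW w F 4 := by
    have h1 : PW w (Rh t₀) 4 := PW_mono (PW_half (slice_int hg t₀)) (Wl_le hg t₀)
    exact hC.ex.min _ _ (meas_Rh t₀) hC.mass h1
  -- the left cutoff
  have ht0a : -t₀ ≤ ahi α / q := by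
    rw [le_div_iff₀ hq0]
    linarith [hC.hi]
  have hleft : ∀ c, c ≤ ca + 1 / q → ∀ x : ℂ, x.re ≤ -(A / q) + 1 →
      c + 1 + 1 / q ≤ psi q s c₀ x := by
    intro c hc x hx
    unfold psi
    have h1 := Sf_ge (s := s) hq0 hs0 hc0 x.im
    have h2 : q * (c₀ ^ 2 * s) ≤ 1 / q := by
      rw [le_div_iff₀ hq0]
      calc q * (c₀ ^ 2 * s) * q = c₀ ^ 2 * (q ^ 2 * s) := by ring
        _ = c₀ ^ 2 * θ ^ 2 := by rw [hqs]
        _ ≤ 1 := hcθ
    have h3 : q * c₀ ≤ 1 := (mul_le_mul hq14 hc1 hc0.le (by norm_num)).trans (by norm_num)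
    have h4 : (ahi α + 10) / q ≤ A / q := div_le_div_of_nonneg_right hA10 hq0.le
    have h5 : (ahi α + 10) / q = ahi α / q + 10 * (1 / q) := by ring
    have h6 : 4 ≤ 1 / q := by
      rw [le_div_iff₀ hq0]
      linarith
    linarith
  -- the tail is controlled by the bulk
  have htb : ∀ c, ca ≤ c → c ≤ ca + 1 / q → mu w (F ∩ up (psi q s c₀) c) ≤
      K * mu w ((F ∩ up (psi q s c₀) c) \ tr B₀) := by
    intro c hc1' hc2'
    have hΛq : Λ / q = 8 / c3 α := by
      rw [hΛ]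
      field_simp
    have h1 := tail_bulk hg hc0 hc1 hM0 hM (hleft c hc2') hC.ex.meas hP4 hΛ0
      (fun C hPC => hone c C hc1' hPC) hB1 (by
        rw [hΛq]
        have e : 2 * (8 / c3 α) = 16 / c3 α := by ring
        rw [e]
        exact hBc) hgg
    rw [← hw] at h1
    have h2 := mu_add_diff hWT (G := F ∩ up (psi q s c₀) c) (meas_tr B₀)
    have h3 : Λ * K = 2 * Λ + 2 * q * (4 * A + (3 * M + 2)) := by
      rw [hK, hΛ]
      field_simp
      ring
    have h4 : Λ * mu w (F ∩ up (psi q s c₀) c) ≤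
        Λ * (K * mu w ((F ∩ up (psi q s c₀) c) \ tr B₀)) := by
      rw [← mul_assoc, h3, ← h2]
      linarith
    exact le_of_mul_le_mul_left h4 hΛ0
  have hmain := extinct hg hc0 hc1 hC.ex.meas hP4 hΛ0.le hone hκ0 hB1 hκw hK1 htb
    (E := ε / q) ?_ hFE ?_ ?_ ?_
  · -- conclusion
    rw [← hw] at hmain
    have h1 : F ∩ {x | s - 1 < |x.im|} ⊆ (F ∩ up (psi q s c₀) (ca + 1 / q)) ∪ (strip (A / q))ᶜ := by
      intro x hx
      by_cases hxs : x ∈ strip (A / q)
      · left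
        refine ⟨hx.1, ?_⟩
        show ca + 1 / q < -x.re + Sf q s c₀ x.im
        have h2 := Sf_ge_far hq0 hs6 hc0 hc1 hx.2
        have h3 : q * s = θ ^ 2 / q := by
          rw [← hqs]
          field_simp
        have h4 : q * (s / 8 - 1 / 2) = ahi α / q + 5 * (1 / q) - q / 2 := by
          have e : q * (s / 8 - 1 / 2) = q * s / 8 - q / 2 := by ring
          rw [e, h3, hθ2]
          ring
        have h5 : x.re < 0 := hxs.2
        have h6 : 4 ≤ 1 / q := by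
          rw [le_div_iff₀ hq0]
          linarith
        linarith
      · exact Or.inr hxs
    have h2 := mu_mono hWT h1
    have h3 := mu_union_le hWT (G := F ∩ up (psi q s c₀) (ca + 1 / q))
      (isOpen_strip (A / q)).measurableSet.compl
    have h4 : mu w (strip (A / q))ᶜ = 0 := by
      apply setIntegral_eq_zero_of_forall_eq_zero
      intro x hx
      exact ww_of_notMem hx
    have h5 := mu_nonneg hWT (F ∩ {x | s - 1 < |x.im|})
    linarith
  · rw [le_div_iff₀ hq0]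
    linarith
  · -- the volume condition
    have h1 : ε / q / κ ≤ B₀ * A / (2 * q) := by
      rw [div_div, div_le_div_iff₀ (by positivity) (by positivity)]
      have h4 := mul_le_mul_of_nonneg_right hε4 (by linarith : 0 ≤ 2 * q)
      linarith
    have h2 : B₀ * A / q ≤ 2 * B₀ * (A / q - 4 - 2 * B₀) := by
      rw [div_le_iff₀ hq0]
      have e : 2 * B₀ * (A / q - 4 - 2 * B₀) * q = 2 * B₀ * (A - (4 + 2 * B₀) * q) := by
        field_simp
        ring
      rw [e]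
      rw [le_div_iff₀ (by positivity)] at hqB
      have h4 := mul_le_mul_of_nonneg_left hqB (by linarith : 0 ≤ B₀)
      linarith
    have h3 : B₀ * A / (2 * q) < B₀ * A / q := by
      apply div_lt_div_of_pos_left (by positivity) hq0
      linarith
    linarith
  · -- the first smallness condition
    have e : Λ * (ε / q) = 8 * ε / c3 α := by
      rw [hΛ]
      field_simp
    rw [e, div_le_div_iff₀ hc3 (by positivity)]
    rw [le_div_iff₀ (by positivity)] at hε2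
    linarith
  · -- the second smallness condition
    have e : 16 * (ε / q) * q = 16 * ε := by field_simp
    rw [e, lt_div_iff₀ hsK0]
    rw [le_div_iff₀ (by positivity)] at hε3
    have h4 := mul_pos hε0 hsK0
    linarith

end Pool.Agent.H84.Q2
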