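import Pool.Agent.H84.Q2.Near

/-!
# The quantile
-/

set_option autoImplicit false

open MeasureTheory Set Metric Filter Topology
open scoped ENNReal Real

noncomputable section

namespace Pool.Agent.H84.Q2

open Pool.Agent.TH304.MI Pool.Agent.TH703.HU

/-- the mass constant -/
def cM : ℝ := 2 * Real.exp (-6)

lemma cM_pos : 0 < cM := by
  unfold cM
  positivity

/-- lower bound for `-q t₀` -/
def alo : ℝ := cM / 8

lemma alo_pos : 0 < alo := div_pos cM_pos (by norm_num)

/-- upper bound for `-q t₀` -/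
def ahi (α : ℝ) : ℝ := 2 / (α * cM)

section quant

variable {q s A : ℝ} {m : ℕ}

lemma mass_lower (h : Good q s A m) (hs : 6 ≤ s) :
    cM / q ≤ mu (ww q s (A / q) m) univ := by
  have hq := h.q0
  have h1 := le_mu_slab h (t₁ := -(1 / q)) (t₂ := 0) (e := Real.exp (-6))
    (by have : 0 < 1 / q := by positivity
        linarith) (fun x hx1 hx2 hx3 => by
      have h2 : -(A / q) < x.re := by
        have : 1 / q ≤ A / q := div_le_div_of_nonneg_right h.A0 hq.le
        linarith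
      have h3 : |q * x.re| ≤ 1 := by
        rw [abs_of_nonpos (mul_nonpos_of_nonneg_of_nonpos hq.le hx2.le)]
        have := mul_lt_mul_of_pos_left hx1 hq
        have e : q * -(1 / q) = -1 := by field_simp
        linarith
      have h4 := ww_ge h h2 hx2 h3 hx3 (by nlinarith)
      have e : -(2 * (2 * (1 : ℝ) ^ 2 + 1 ^ 2)) = -6 := by norm_num
      rwa [e] at h4) MeasurableSet.univ (fun x _ _ => mem_univ x)
  have e : 2 * Real.exp (-6) * (0 - -(1 / q)) = cM / q := by
    unfold cM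
    ring
  rwa [e] at h1

lemma quant (h : Good q s A m) (hs : 6 ≤ s) {α : ℝ} (hα0 : 0 < α) (hα1 : α < 1 / 2) :
    ∃ t₀ : ℝ, -(A / q) < t₀ ∧ t₀ < 0 ∧ alo ≤ -(q * t₀) ∧ -(q * t₀) ≤ ahi α ∧
      mu (ww q s (A / q) m) (Rh t₀) = (1 - α) * mu (ww q s (A / q) m) univ := by
  have hq := h.q0
  have hWT := ww_WT h
  have hcM := cM_pos
  have hM := mass_lower h hs
  set w := ww q s (A / q) m with hw
  have hM0 : 0 < mu w univ := lt_of_lt_of_le (div_pos hcM hq) hM
  obtain ⟨t₀, h1, h2, h3⟩ := exists_quantile h (v := (1 - α) * mu w univ)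
    (mul_nonneg (by linarith) hM0.le) (by rw [← hw]; nlinarith)
  rw [← hw] at h3
  -- upper bound for the mass to the right
  have h4 : mu w (Rh t₀) ≤ 4 * (0 - t₀) := by
    have h5 : Rh t₀ ⊆ {x | t₀ ≤ x.re ∧ x.re ≤ 0} ∪ {x | 0 < x.re} := by
      intro x hx
      rcases le_or_gt x.re 0 with h6 | h6
      · exact Or.inl ⟨le_of_lt hx, h6⟩
      · exact Or.inr h6
    have m1 : MeasurableSet {x : ℂ | t₀ ≤ x.re ∧ x.re ≤ 0} :=
      (measurableSet_le measurable_const Complex.measurable_re).inter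
        (measurableSet_le Complex.measurable_re measurable_const)
    have m4 : MeasurableSet {x : ℂ | 0 < x.re} :=
      measurableSet_lt measurable_const Complex.measurable_re
    have b4 : mu w {x : ℂ | 0 < x.re} = 0 := by
      apply setIntegral_eq_zero_of_forall_eq_zero
      intro x hx
      apply ww_of_notMem
      intro h6
      exact absurd h6.2 (not_lt.2 (le_of_lt hx))
    have c1 := mu_mono hWT h5
    have c2 := mu_union_le hWT (G := {x : ℂ | t₀ ≤ x.re ∧ x.re ≤ 0}) m4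
    have c3 := mu_slab_Ioo h h2 m1 fun x hx => hx
    rw [← hw] at c3
    linarith
  have h5 : (1 - α) * (cM / q) ≤ 4 * (0 - t₀) := by
    rw [h3] at h4
    have := mul_le_mul_of_nonneg_left hM (by linarith : 0 ≤ 1 - α)
    linarith
  have h6 : alo ≤ -(q * t₀) := by
    have h7 := mul_le_mul_of_nonneg_left h5 hq.le
    have e1 : q * ((1 - α) * (cM / q)) = (1 - α) * cM := by field_simp
    rw [e1] at h7
    unfold alo
    nlinarith
  have h7 : t₀ < 0 := by
    have := alo_pos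
    by_contra h8
    have := mul_nonneg hq.le (not_lt.1 h8)
    linarith
  -- mass to the left
  have h8 : mu w (univ ∩ Rh t₀) + mu w (univ \ Rh t₀) = mu w univ := mu_add_diff hWT (meas_Rh _)
  rw [univ_inter, h3] at h8
  have h9 : mu w (univ \ Rh t₀) = α * mu w univ := by linarith
  have h10 := mu_left h h7 (G := univ \ Rh t₀) (MeasurableSet.univ.diff (meas_Rh _))
    (fun x hx => not_lt.1 hx.2)
  rw [← hw, h9] at h10
  have h11 : α * (cM / q) ≤ 2 / (q * (q * -t₀)) :=
    (mul_le_mul_of_nonneg_left hM hα0.le).trans h10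
  have ha0 : 0 < q * -t₀ := mul_pos hq (by linarith)
  refine ⟨t₀, ?_, h7, h6, ?_, h3⟩
  · rcases h1.lt_or_eq with h12 | h12
    · exact h12
    · exfalso
      have h13 : mu w (univ \ Rh t₀) = 0 := by
        apply setIntegral_eq_zero_of_forall_eq_zero
        intro x hx
        apply ww_of_notMem
        intro h14
        have h15 : x.re ≤ t₀ := not_lt.1 hx.2
        linarith [h14.1]
      rw [h9] at h13
      have := mul_pos hα0 hM0
      linarith
  · unfold ahi
    rw [le_div_iff₀ (by positivity)]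
    rw [le_div_iff₀ (by positivity)] at h11
    have e1 : α * (cM / q) * (q * (q * -t₀)) = -(q * t₀) * (α * cM) := by
      field_simp
    rw [e1] at h11
    exact h11

end quant

/-- The situation studied. -/
structure Cfg (α q s A : ℝ) (m : ℕ) (t₀ : ℝ) (F : Set ℂ) : Prop where
  good : Good q s A m
  t1 : -(A / q) < t₀
  t0 : t₀ < 0
  lo : alo ≤ -(q * t₀)
  hi : -(q * t₀) ≤ ahi α
  mass : mu (ww q s (A / q) m) (Rh t₀) = (1 - α) * mu (ww q s (A / q) m) univ
  ex : ExW (ww q s (A / q) m) ((1 - α) * mu (ww q s (A / q) m) univ) F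

lemma Cfg.diff_eq {α q s A : ℝ} {m : ℕ} {t₀ : ℝ} {F : Set ℂ} (h : Cfg α q s A m t₀ F) :
    mu (ww q s (A / q) m) (F \ Rh t₀) = mu (ww q s (A / q) m) (Rh t₀ \ F) := by
  have hWT := ww_WT h.good
  have h1 := mu_add_diff hWT (G := F) (meas_Rh t₀)
  have h2 := mu_add_diff hWT (G := Rh t₀) h.ex.meas
  rw [inter_comm, h.mass] at h2
  rw [h.ex.mass] at h1
  linarith

/-- lower bound for the weight near the quantile -/
def el (α : ℝ) : ℝ := Real.exp (-(2 * (2 * (2 * ahi α) ^ 2 + 1 ^ 2)))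

lemma el_pos (α : ℝ) : 0 < el α := Real.exp_pos _

/-- **First step.** The minimizer is close to the half plane. -/
theorem step1 {α : ℝ} (hα1 : α < 1 / 2) {A : ℝ} (hA : 1 ≤ A) {ε : ℝ} (hε : 0 < ε)
    (hεα : ε ≤ (1 - 2 * α) * cM / 2) :
    ∃ q₁ s₁ : ℝ, 0 < q₁ ∧ ∀ (q s : ℝ) (m : ℕ) (t₀ : ℝ) (F : Set ℂ), Cfg α q s A m t₀ F →
      q ≤ q₁ → s₁ ≤ s → mu (ww q s (A / q) m) (Rh t₀ \ F) ≤ ε / q ∧
        mu (ww q s (A / q) m) (F \ Rh t₀) ≤ ε / q := by
  have hcM := cM_pos
  have halo := alo_pos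
  have hel := el_pos α
  have hA0 : 0 < A := lt_of_lt_of_le one_pos hA
  set δ : ℝ := min (ε / 64) (alo / 8) with hδ
  have hδ0 : 0 < δ := lt_min (by positivity) (by positivity)
  have hδ1 : δ ≤ ε / 64 := min_le_left _ _
  have hδ2 : δ ≤ alo / 8 := min_le_right _ _
  obtain ⟨B₁, hB₁, hBt₁⟩ := tl_small (ε := min (ε / (4 * A)) (δ * alo * el α / 2))
    (lt_min (by positivity) (by positivity))
  have hBt := hBt₁ B₁ le_rfl
  have hBa : tl B₁ ≤ ε / (4 * A) := hBt.trans (min_le_left _ _)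
  have hBb : tl B₁ ≤ δ * alo * el α / 2 := hBt.trans (min_le_right _ _)
  set κ : ℝ := Real.exp (-(2 * (2 * A ^ 2 + (B₁ + 1) ^ 2))) with hκ
  have hκ0 : 0 < κ := Real.exp_pos _
  refine ⟨min δ (ε * κ / (32 * B₁)), max (max 6 ((B₁ + 1) ^ 2 / δ))
    (max (2 * (2 * A ^ 2 + (B₁ + 1) ^ 2)) (2 * (2 * (2 * ahi α) ^ 2 + 1 ^ 2))),
    lt_min hδ0 (by positivity), ?_⟩
  intro q s m t₀ F hC hq hs
  have hg := hC.good
  have hq0 := hg.q0
  have hs6 : 6 ≤ s := (le_max_left _ _).trans ((le_max_left _ _).trans hs)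
  have hsδ : (B₁ + 1) ^ 2 / δ ≤ s := (le_max_right _ _).trans ((le_max_left _ _).trans hs)
  have hsκ : 2 * (2 * A ^ 2 + (B₁ + 1) ^ 2) ≤ s :=
    (le_max_left _ _).trans ((le_max_right _ _).trans hs)
  have hse : 2 * (2 * (2 * ahi α) ^ 2 + 1 ^ 2) ≤ s :=
    (le_max_right _ _).trans ((le_max_right _ _).trans hs)
  have hss : s ≤ s ^ 2 := by nlinarith
  have hqδ : q ≤ δ := hq.trans (min_le_left _ _)
  have hqκ : q ≤ ε * κ / (32 * B₁) := hq.trans (min_le_right _ _)
  have hM := mass_lower hg hs6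
  have hgt0 : 0 < -(q * t₀) := lt_of_lt_of_le halo hC.lo
  -- the bound
  have hX : 8 * B₁ / κ + 16 * δ / q + A / q * tl B₁ ≤ 3 / 4 * (ε / q) := by
    have e1 : 8 * B₁ / κ ≤ 1 / 4 * (ε / q) := by
      rw [div_le_iff₀ hκ0]
      have e2 : 1 / 4 * (ε / q) * κ = ε * κ / (4 * q) := by
        field_simp
      rw [e2, le_div_iff₀ (by positivity)]
      rw [le_div_iff₀ (by positivity)] at hqκ
      linarith
    have e3 : 16 * δ / q ≤ 1 / 4 * (ε / q) := by
      have e4 : 1 / 4 * (ε / q) = ε / 4 / q := by ring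
      rw [e4]
      apply div_le_div_of_nonneg_right _ hq0.le
      linarith
    have e5 : A / q * tl B₁ ≤ 1 / 4 * (ε / q) := by
      have e6 : A / q * tl B₁ ≤ A / q * (ε / (4 * A)) :=
        mul_le_mul_of_nonneg_left hBa (by positivity)
      have e7 : A / q * (ε / (4 * A)) = 1 / 4 * (ε / q) := by
        field_simp
      linarith
    linarith
  have hεq : 0 < ε / q := by positivity
  have hnear := near hg hC.ex hC.t1 hC.t0 hC.mass (δ := δ) (B := B₁) (e := el α) (κ := κ) hδ0 hqδ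
    (by linarith [hC.lo]) hB₁ (by rw [div_le_iff₀ hδ0] at hsδ; linarith) ?_ hκ0 ?_ ?_ ?_
  · have h1 : mu (ww q s (A / q) m) (Rh t₀ \ F) ≤ ε / q := by linarith
    refine ⟨h1, ?_⟩
    rw [hC.diff_eq]
    exact h1
  · intro b hb
    have h1 := ww_ge hg (x := ⟨t₀, b⟩) (a := 2 * ahi α) (b := 1) hC.t1 hC.t0
      (by
        show |q * t₀| ≤ 2 * ahi α
        rw [abs_of_neg (by linarith)]
        linarith [hC.hi]) hb (by linarith)
    rw [ww_of_mem ⟨hC.t1, hC.t0⟩] at h1
    exact h1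
  · intro x hx hb
    apply ww_ge hg hx.1 hx.2 _ hb (by linarith)
    rw [abs_of_nonpos (mul_nonpos_of_nonneg_of_nonpos hq0.le hx.2.le)]
    have h1 := mul_lt_mul_of_pos_left hx.1 hq0
    have e : q * -(A / q) = -A := by field_simp
    linarith
  · have h1 : δ * alo * el α ≤ δ * -(q * t₀) * el α :=
      mul_le_mul_of_nonneg_right (mul_le_mul_of_nonneg_left hC.lo hδ0.le) hel.le
    have h2 : 0 < δ * alo * el α := by positivity
    linarith
  · have h1 : 3 / 4 * (ε / q) < (1 - 2 * α) * (cM / q) := by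
      have h2 : 3 / 4 * ε < (1 - 2 * α) * cM := by linarith
      have e1 : 3 / 4 * (ε / q) = 3 / 4 * ε / q := by ring
      have e2 : (1 - 2 * α) * (cM / q) = (1 - 2 * α) * cM / q := by ring
      rw [e1, e2]
      exact div_lt_div_of_pos_right h2 hq0
    have h3 : (1 - 2 * α) * (cM / q) ≤ (1 - 2 * α) * mu (ww q s (A / q) m) univ :=
      mul_le_mul_of_nonneg_left hM (by linarith)
    linarith

end Pool.Agent.H84.Q2
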