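import Pool.Graph.R_seed8.TH742.HU.C2
import Pool.Graph.R_seed8.TH663.HU.C3

/-!
# Slicing in one direction, with the sharp constant
-/

set_option autoImplicit false

open MeasureTheory Set Metric Filter Topology
open scoped ENNReal Real

noncomputable section

namespace Pool.Agent.H84.Q2

open Pool.Agent.TH304.MI Pool.Agent.TH703.HU Pool.Agent.TH742.HU

/-- Standing assumptions on the weight. -/
structure WT (w : ℂ → ℝ) : Prop where
  nn : ∀ x, 0 ≤ w x
  op : IsOpen {x | 0 < w x}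
  co : ContinuousOn w {x | 0 < w x}
  meas : Measurable w
  int : Integrable w

lemma key1S {w : ℂ → ℝ} {A : Set ℂ} {P : ℝ} (hP : PW w A P) {h : ℝ} (hh : 0 < h) {e : ℂ}
    (he : ‖e‖ = 1) {g : ℂ → ℝ} (hg : ContDiff ℝ 1 g) (c : HasCompactSupport g)
    (b : ∀ x : ℂ, ∀ t ∈ Icc (0 : ℝ) 1, |g (x - t • ((h : ℂ) * e))| ≤ w x)
    (s : ∀ x ∈ tsupport g, ∀ t ∈ Icc (0 : ℝ) 1, 0 < w (x + t • ((h : ℂ) * e))) :
    ((∫ x in A, g x) - ∫ x in A, g (x - (h : ℂ) * e)) ≤ h * P := by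
  have hd := fun t => hder (A := A) hg c ((h : ℂ) * e) t
  obtain ⟨t, ht, hslope⟩ := exists_hasDerivAt_eq_slope
    (fun t : ℝ => ∫ x in A, g (x - t • ((h : ℂ) * e)))
    (fun t => ∫ x in A, -(fderiv ℝ g (x - t • ((h : ℂ) * e)) ((h : ℂ) * e)))
    (zero_lt_one (α := ℝ))
    (fun t _ => (hd t).continuousAt.continuousWithinAt) (fun t _ => hd t)
  simp only [zero_smul, sub_zero, one_smul, div_one] at hslope
  have ht' : t ∈ Icc (0 : ℝ) 1 := ⟨ht.1.le, ht.2.le⟩
  let a : ℂ → ℝ := fun x => g (x - t • ((h : ℂ) * e))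
  let Y : ℂ → ℂ := fun x => (a x : ℂ) * e
  have ha : ContDiff ℝ 1 a := hg.comp (contDiff_id.sub contDiff_const)
  have hac : HasCompactSupport a := c.comp_homeomorph (Homeomorph.subRight (t • ((h : ℂ) * e)))
  have hY : TW w Y := by
    refine ⟨?_, ?_, ?_, ?_⟩
    · exact (Complex.ofRealCLM.contDiff.comp ha).mul contDiff_const
    · exact (hac.comp_left (g := fun r : ℝ => (r : ℂ)) (by simp)).mul_right (f' := fun _ => e)
    · have e1 : tsupport Y ⊆ ((fun x => x - t • ((h : ℂ) * e)) ⁻¹' tsupport g) := by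
        refine closure_minimal ?_ ((isClosed_tsupport g).preimage (by fun_prop))
        intro x hx
        by_contra hne
        have e2 : g (x - t • ((h : ℂ) * e)) = 0 := image_eq_zero_of_notMem_tsupport hne
        apply hx
        simp only [Y, a, e2]
        simp
      intro x hx
      have := s _ (e1 hx) t ht'
      simpa using this
    · intro x
      simp only [Y, norm_mul, he, mul_one, Complex.norm_real, Real.norm_eq_abs]
      exact b x t ht'
  have hdiv : ∀ x, dv2 Y x = fderiv ℝ g (x - t • ((h : ℂ) * e)) e := by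
    intro x
    have h1 : HasFDerivAt a (fderiv ℝ g (x - t • ((h : ℂ) * e))) x := by
      have h8 : HasFDerivAt (fun x : ℂ => x - t • ((h : ℂ) * e)) (ContinuousLinearMap.id ℝ ℂ) x :=
        (hasFDerivAt_id x).sub_const _
      have h9 := ((hg.differentiable (by norm_num)) (x - t • ((h : ℂ) * e))).hasFDerivAt.comp x h8
      rw [ContinuousLinearMap.comp_id] at h9
      exact h9
    have h3 : HasFDerivAt Y (e • Complex.ofRealCLM.comp (fderiv ℝ g (x - t • ((h : ℂ) * e)))) x :=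
      (Complex.ofRealCLM.hasFDerivAt.comp x h1).mul_const e
    have e1 : e = e.re • (1 : ℂ) + e.im • Complex.I := by
      apply Complex.ext <;> simp
    have e2 : fderiv ℝ g (x - t • ((h : ℂ) * e)) e =
        e.re * fderiv ℝ g (x - t • ((h : ℂ) * e)) 1 +
        e.im * fderiv ℝ g (x - t • ((h : ℂ) * e)) Complex.I := by
      conv_lhs => arg 2; rw [e1]
      rw [map_add, map_smul, map_smul, smul_eq_mul, smul_eq_mul]
    unfold dv2
    rw [h3.fderiv, e2]
    simp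
  have h6 := hP Y hY
  simp_rw [hdiv] at h6
  have e1 : ∀ x, fderiv ℝ g (x - t • ((h : ℂ) * e)) ((h : ℂ) * e) =
      h * fderiv ℝ g (x - t • ((h : ℂ) * e)) e := by
    intro x
    have : (h : ℂ) * e = h • e := by simp
    conv_lhs => arg 2; rw [this]
    rw [map_smul]
    simp
  rw [integral_neg] at hslope
  simp_rw [e1] at hslope
  rw [integral_const_mul] at hslope
  have h8 := mul_le_mul_of_nonneg_left h6 hh.le
  linarith

lemma nearS {w u : ℂ → ℝ} (hw : WT w) (hc : HasCompactSupport u)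
    (hs : tsupport u ⊆ {x | 0 < w x}) (hu0 : ∀ x, 0 ≤ u x) (hu : ∀ x, u x ≤ w x) {δ : ℝ}
    (hδ : 0 < δ) (hδ1 : δ < 1) : ∃ r : ℝ, 0 < r ∧ ∀ x y : ℂ, dist x y ≤ r →
      (1 - δ) * u y ≤ w x ∧ (y ∈ tsupport u → 0 < w x) := by
  rcases (tsupport u).eq_empty_or_nonempty with h0 | hne
  · refine ⟨1, one_pos, fun x y _ => ⟨?_, fun hy => by rw [h0] at hy; exact hy.elim⟩⟩
    have : u y = 0 := image_eq_zero_of_notMem_tsupport (by rw [h0]; exact fun h => h)
    rw [this, mul_zero]; exact hw.nn x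
  · have hK : IsCompact (tsupport u) := hc
    obtain ⟨r0, hr0, hr0s⟩ := hK.exists_cthickening_subset_open hw.op hs
    obtain ⟨z, hz, hmin⟩ := hK.exists_isMinOn hne (hw.co.mono hs)
    have hm : 0 < w z := hs hz
    have hK1 : IsCompact (cthickening r0 (tsupport u)) := hK.cthickening
    have huc := hK1.uniformContinuousOn_of_continuous (hw.co.mono hr0s)
    rw [Metric.uniformContinuousOn_iff] at huc
    obtain ⟨η, hη, H⟩ := huc (δ * w z) (by positivity)
    refine ⟨min (η / 2) r0, by positivity, fun x y hxy => ?_⟩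
    have hr1 : dist x y < η := by
      have := min_le_left (η / 2) r0
      linarith
    have hr2 : dist x y ≤ r0 := hxy.trans (min_le_right _ _)
    by_cases hy : y ∈ tsupport u
    · have hx1 : x ∈ cthickening r0 (tsupport u) := by
        exact mem_cthickening_of_dist_le x y r0 _ hy hr2
      have hy1 : y ∈ cthickening r0 (tsupport u) := self_subset_cthickening _ hy
      have h1 := H x hx1 y hy1 hr1
      rw [Real.dist_eq, abs_lt] at h1
      have h2 : w z ≤ w y := hmin hy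
      have h3 := hu y
      have h4 := hu0 y
      have h5 : (1 - δ) * w y ≤ w x := by nlinarith
      have h6 : (1 - δ) * u y ≤ (1 - δ) * w y := by
        apply mul_le_mul_of_nonneg_left h3; linarith
      refine ⟨h6.trans h5, fun _ => ?_⟩
      have : 0 < (1 - δ) * w y := mul_pos (by linarith) (by linarith)
      linarith
    · refine ⟨?_, fun h => absurd h hy⟩
      rw [image_eq_zero_of_notMem_tsupport hy, mul_zero]
      exact hw.nn x

lemma key2S {w u : ℂ → ℝ} {A : Set ℂ} {P δ r h : ℝ} (hw0 : ∀ x, 0 ≤ w x) (hu : Continuous u)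
    (hc : HasCompactSupport u) (hu0 : ∀ x, 0 ≤ u x) (hA : MeasurableSet A) (hP : PW w A P)
    (hδ1 : δ < 1) (hr : 0 < r) (H : ∀ x y : ℂ, dist x y ≤ r →
      (1 - δ) * u y ≤ w x ∧ (y ∈ tsupport u → 0 < w x)) (hh : 0 < h) (hhr : h ≤ r / 2) {e : ℂ}
    (he : ‖e‖ = 1) :
    (1 - δ) * (∫ x, u x * |sg A (h * e) x|) ≤ h * P := by
  obtain ⟨M, hM⟩ := hc.exists_bound_of_continuous hu
  have hM0 : 0 ≤ M := (norm_nonneg _).trans (hM 0)
  have hδ0 : 0 ≤ 1 - δ := by linarith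
  have hfm : ∀ v : ℂ, Measurable (fun x => (1 - δ) * u x * sg A v x) := fun v =>
    (measurable_const.mul hu.measurable).mul (sg_meas hA v)
  have hfb : ∀ v x, |(1 - δ) * u x * sg A v x| ≤ (1 - δ) * u x := by
    intro v x
    rw [abs_mul, abs_of_nonneg (mul_nonneg hδ0 (hu0 x))]
    exact mul_le_of_le_one_right (mul_nonneg hδ0 (hu0 x)) (sg_abs A v x)
  have hfM : ∀ v x, |(1 - δ) * u x * sg A v x| ≤ (1 - δ) * M := by
    intro v x
    refine (hfb v x).trans ?_
    have := hM x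
    rw [Real.norm_eq_abs, abs_of_nonneg (hu0 x)] at this
    gcongr
  have hf0 : ∀ v x, x ∉ tsupport u → (1 - δ) * u x * sg A v x = 0 := by
    intro v x hx
    rw [image_eq_zero_of_notMem_tsupport hx]; simp
  obtain ⟨g₁, a1, a2, a3, a4, a5⟩ := moll _ (hfm (h * e)) _ (hfM (h * e)) (tsupport u) hc
    (hf0 (h * e))
  have hM1 : 0 ≤ (1 - δ) * M := mul_nonneg hδ0 hM0
  have l1 := lim (A := A) hA (K := tsupport u) hc (h * e) hM1 a1
    (fun n x => a3 n x _ hM1 fun y _ => hfM _ y) a4 a5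
  have hle : ∀ᶠ n : ℕ in atTop, (∫ x, g₁ n x * sg A (h * e) x) ≤ h * P := by
    have h1 : ∀ᶠ n : ℕ in atTop, 1 / ((n : ℝ) + 1) < r / 2 :=
      tendsto_one_div_add_atTop_nhds_zero_nat.eventually (gt_mem_nhds (by positivity))
    filter_upwards [h1] with n hn
    rw [← shift hA (h * e) (a1 n).continuous (a2 n)]
    have nh : ∀ t ∈ Icc (0 : ℝ) 1, ‖t • ((h : ℂ) * e)‖ ≤ r / 2 := by
      intro t ht
      rw [norm_smul, norm_mul, he, mul_one, Real.norm_eq_abs, abs_of_nonneg ht.1,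
        Complex.norm_real, Real.norm_eq_abs, abs_of_pos hh]
      nlinarith [ht.1, ht.2]
    refine key1S hP hh he (a1 n) (a2 n) ?_ ?_
    · intro x t ht
      refine a3 n _ _ (hw0 x) fun y hy => (hfb _ y).trans (H x y ?_).1
      have h3 := nh t ht
      have h4 : dist x y ≤ dist (x - t • ((h : ℂ) * e)) y + ‖t • ((h : ℂ) * e)‖ := by
        have := dist_triangle x (x - t • ((h : ℂ) * e)) y
        have h5 : dist x (x - t • ((h : ℂ) * e)) = ‖t • ((h : ℂ) * e)‖ := by simp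
        linarith
      rw [dist_comm] at hy
      linarith
    · intro x hx t ht
      obtain ⟨y, hy, hxy⟩ := a4 n x hx
      refine (H _ y ?_).2 hy
      have h3 := nh t ht
      have h4 : dist (x + t • ((h : ℂ) * e)) y ≤ ‖t • ((h : ℂ) * e)‖ + dist x y := by
        have := dist_triangle (x + t • ((h : ℂ) * e)) x y
        have h5 : dist (x + t • ((h : ℂ) * e)) x = ‖t • ((h : ℂ) * e)‖ := by simp
        linarith
      linarith
  have h9 := le_of_tendsto l1 hle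
  have e' : ∀ v : ℂ, ∫ x, (1 - δ) * u x * sg A v x * sg A v x = (1 - δ) * ∫ x, u x * |sg A v x| := by
    intro v
    rw [← integral_const_mul]
    congr 1; ext x
    rw [mul_assoc ((1 - δ) * u x), sg_sq]; ring
  rw [e'] at h9
  linarith

lemma PW_nonneg {w : ℂ → ℝ} (hw0 : ∀ x, 0 ≤ w x) {A : Set ℂ} {P : ℝ} (hP : PW w A P) : 0 ≤ P := by
  have h1 : TW w (fun _ => (0 : ℂ)) := by
    refine ⟨contDiff_const, HasCompactSupport.zero, ?_, ?_⟩
    · intro x hx
      have : tsupport (fun _ : ℂ => (0 : ℂ)) = ∅ := by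
        rw [tsupport_eq_empty_iff]; rfl
      rw [this] at hx; exact hx.elim
    · intro x; simpa using hw0 x
  have h2 := hP _ h1
  have h3 : ∀ x, dv2 (fun _ => (0 : ℂ)) x = 0 := by
    intro x; unfold dv2; simp
  simp_rw [h3] at h2
  simpa using h2

/-- The estimate after the limit `h → 0`, in a general direction. -/
lemma dirS {w u : ℂ → ℝ} {A : Set ℂ} {P : ℝ} (hw : WT w) (hu : Continuous u)
    (hc : HasCompactSupport u) (hs : tsupport u ⊆ {x | 0 < w x}) (hu0 : ∀ x, 0 ≤ u x)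
    (huw : ∀ x, u x ≤ w x) (hA : MeasurableSet A) (hP : PW w A P) {e : ℂ} (he : ‖e‖ = 1) :
    liminf (fun n : ℕ => ((n : ℝ≥0∞) + 1) *
      ENNReal.ofReal (∫ x, u x * |sg A (((1 / ((n : ℝ) + 1) : ℝ)) * e) x|)) atTop ≤
    ENNReal.ofReal P := by
  have hP0 : 0 ≤ P := PW_nonneg hw.nn hP
  have main : ∀ δ : ℝ, 0 < δ → δ < 1 →
      liminf (fun n : ℕ => ((n : ℝ≥0∞) + 1) *
        ENNReal.ofReal (∫ x, u x * |sg A (((1 / ((n : ℝ) + 1) : ℝ)) * e) x|)) atTop ≤
      ENNReal.ofReal (P / (1 - δ)) := by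
    intro δ hδ hδ1
    obtain ⟨r, hr, H⟩ := nearS hw hc hs hu0 huw hδ hδ1
    have h1 : ∀ᶠ n : ℕ in atTop, 1 / ((n : ℝ) + 1) < r / 2 :=
      tendsto_one_div_add_atTop_nhds_zero_nat.eventually (gt_mem_nhds (by positivity))
    refine (liminf_le_liminf (v := fun _ : ℕ => ENNReal.ofReal (P / (1 - δ))) ?_).trans
      (le_of_eq (liminf_const _))
    filter_upwards [h1] with n hn
    have hn0 : (0 : ℝ) < (n : ℝ) + 1 := by positivity
    have h2 := key2S hw.nn hu hc hu0 hA hP hδ1 hr H (h := 1 / ((n : ℝ) + 1)) (by positivity) hn.le he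
    have e3 : ((n : ℝ≥0∞) + 1) = ENNReal.ofReal ((n : ℝ) + 1) := by
      rw [ENNReal.ofReal_add n.cast_nonneg zero_le_one, ENNReal.ofReal_natCast, ENNReal.ofReal_one]
    rw [e3, ← ENNReal.ofReal_mul hn0.le]
    apply ENNReal.ofReal_le_ofReal
    rw [le_div_iff₀ (by linarith)]
    have h3 : ((n : ℝ) + 1) * ((1 / ((n : ℝ) + 1)) * P) = P := by field_simp
    rw [← h3]
    calc ((n : ℝ) + 1) * (∫ x, u x * |sg A (((1 / ((n : ℝ) + 1) : ℝ)) * e) x|) * (1 - δ) =
        ((n : ℝ) + 1) * ((1 - δ) * (∫ x, u x * |sg A (((1 / ((n : ℝ) + 1) : ℝ)) * e) x|)) := by ring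
      _ ≤ _ := by gcongr
  -- `δ → 0`
  have hlim : Tendsto (fun δ : ℝ => ENNReal.ofReal (P / (1 - δ))) (𝓝[>] 0)
      (𝓝 (ENNReal.ofReal P)) := by
    have h1 : ContinuousAt (fun δ : ℝ => P / (1 - δ)) 0 := by
      apply ContinuousAt.div continuousAt_const (by fun_prop)
      norm_num
    have h2 : Tendsto (fun δ : ℝ => P / (1 - δ)) (𝓝[>] 0) (𝓝 P) := by
      have := h1.tendsto.mono_left (nhdsWithin_le_nhds (s := Ioi (0 : ℝ)))
      simpa using this
    exact (ENNReal.continuous_ofReal.tendsto _).comp h2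
  refine ge_of_tendsto hlim ?_
  filter_upwards [Ioo_mem_nhdsGT (zero_lt_one (α := ℝ))] with δ hδ
  exact main δ hδ.1 hδ.2

/-- Horizontal slicing. -/
theorem sliceH {w u : ℂ → ℝ} {A : Set ℂ} {P : ℝ} (hw : WT w) (hu : Continuous u)
    (hc : HasCompactSupport u) (hs : tsupport u ⊆ {x | 0 < w x}) (hu0 : ∀ x, 0 ≤ u x)
    (huw : ∀ x, u x ≤ w x) (hA : MeasurableSet A) (hP : PW w A P) :
    (∫⁻ y : ℝ, ev (fun t => u ⟨t, y⟩) {t | (⟨t, y⟩ : ℂ) ∈ A}) ≤ ENNReal.ofReal P := by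
  let U : ℂ → ℂ → ℝ≥0∞ := fun v x => ENNReal.ofReal (u x * |sg A v x|)
  have hUm : ∀ v, Measurable (U v) := fun v =>
    (hu.measurable.mul (sg_meas hA v).abs).ennreal_ofReal
  have hUi : ∀ v, Integrable (fun x => u x * |sg A v x|) := fun v =>
    (hu.integrable_of_hasCompactSupport hc).mul_bdd (c := 1) (sg_meas hA v).abs.aestronglyMeasurable
      (Eventually.of_forall fun x => by simpa using sg_abs A v x)
  have hU : ∀ v, ∫⁻ x, U v x = ENNReal.ofReal (∫ x, u x * |sg A v x|) := fun v =>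
    (ofReal_integral_eq_lintegral_ofReal (hUi v)
      (Eventually.of_forall fun x => mul_nonneg (hu0 x) (abs_nonneg _))).symm
  have f1 : (∫⁻ y : ℝ, ev (fun t => u ⟨t, y⟩) {t | (⟨t, y⟩ : ℂ) ∈ A}) ≤
      liminf (fun n : ℕ => ((n : ℝ≥0∞) + 1) * ∫⁻ x, U (((1 / ((n : ℝ) + 1) : ℝ)) * (1 : ℂ)) x)
        atTop := by
    have e1 : ∀ (n : ℕ) (y : ℝ), ((n : ℝ≥0∞) + 1) * ∫⁻ t : ℝ, ENNReal.ofReal (u ⟨t, y⟩ *
        |{t | (⟨t, y⟩ : ℂ) ∈ A}.indicator (fun _ => (1 : ℝ)) (t + 1 / ((n : ℝ) + 1)) -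
          {t | (⟨t, y⟩ : ℂ) ∈ A}.indicator (fun _ => (1 : ℝ)) t|) =
        ((n : ℝ≥0∞) + 1) * ∫⁻ t : ℝ, U (((1 / ((n : ℝ) + 1) : ℝ)) * (1 : ℂ)) ⟨t, y⟩ := by
      intro n y
      congr 1
      refine lintegral_congr fun t => ?_
      simp only [U, sg]
      rw [abs_sub_comm]
      have e2 : ∀ s : ℝ, (⟨t, y⟩ : ℂ) + (s : ℂ) * 1 = ⟨t + s, y⟩ := fun s => by
        apply Complex.ext <;> simp
      rw [e2]
      rfl
    unfold ev
    simp_rw [e1]
    have m1 : ∀ v, Measurable (fun y : ℝ => ∫⁻ t : ℝ, U v ⟨t, y⟩) := fun v =>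
      ((hUm v).comp mk_meas).lintegral_prod_left'
    refine (lintegral_liminf_le ?_).trans (le_of_eq ?_)
    · intro n
      exact (m1 _).const_mul _
    · congr 1; ext n
      rw [lintegral_const_mul _ (m1 _), ← fub1 (hUm _)]
  refine f1.trans ?_
  simp_rw [hU]
  exact dirS hw hu hc hs hu0 huw hA hP (by simp)

/-- Vertical slicing. -/
theorem sliceV {w u : ℂ → ℝ} {A : Set ℂ} {P : ℝ} (hw : WT w) (hu : Continuous u)
    (hc : HasCompactSupport u) (hs : tsupport u ⊆ {x | 0 < w x}) (hu0 : ∀ x, 0 ≤ u x)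
    (huw : ∀ x, u x ≤ w x) (hA : MeasurableSet A) (hP : PW w A P) :
    (∫⁻ x : ℝ, ev (fun t => u ⟨x, t⟩) {t | (⟨x, t⟩ : ℂ) ∈ A}) ≤ ENNReal.ofReal P := by
  let U : ℂ → ℂ → ℝ≥0∞ := fun v x => ENNReal.ofReal (u x * |sg A v x|)
  have hUm : ∀ v, Measurable (U v) := fun v =>
    (hu.measurable.mul (sg_meas hA v).abs).ennreal_ofReal
  have hUi : ∀ v, Integrable (fun x => u x * |sg A v x|) := fun v =>
    (hu.integrable_of_hasCompactSupport hc).mul_bdd (c := 1) (sg_meas hA v).abs.aestronglyMeasurable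
      (Eventually.of_forall fun x => by simpa using sg_abs A v x)
  have hU : ∀ v, ∫⁻ x, U v x = ENNReal.ofReal (∫ x, u x * |sg A v x|) := fun v =>
    (ofReal_integral_eq_lintegral_ofReal (hUi v)
      (Eventually.of_forall fun x => mul_nonneg (hu0 x) (abs_nonneg _))).symm
  have f2 : (∫⁻ x : ℝ, ev (fun t => u ⟨x, t⟩) {t | (⟨x, t⟩ : ℂ) ∈ A}) ≤
      liminf (fun n : ℕ => ((n : ℝ≥0∞) + 1) *
        ∫⁻ x, U (((1 / ((n : ℝ) + 1) : ℝ)) * Complex.I) x) atTop := by
    have e1 : ∀ (n : ℕ) (x : ℝ), ((n : ℝ≥0∞) + 1) * ∫⁻ t : ℝ, ENNReal.ofReal (u ⟨x, t⟩ *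
        |{t | (⟨x, t⟩ : ℂ) ∈ A}.indicator (fun _ => (1 : ℝ)) (t + 1 / ((n : ℝ) + 1)) -
          {t | (⟨x, t⟩ : ℂ) ∈ A}.indicator (fun _ => (1 : ℝ)) t|) =
        ((n : ℝ≥0∞) + 1) * ∫⁻ t : ℝ, U (((1 / ((n : ℝ) + 1) : ℝ)) * Complex.I) ⟨x, t⟩ := by
      intro n x
      congr 1
      refine lintegral_congr fun t => ?_
      simp only [U, sg]
      rw [abs_sub_comm]
      have e2 : ∀ s : ℝ, (⟨x, t⟩ : ℂ) + (s : ℂ) * Complex.I = ⟨x, t + s⟩ := fun s => by
        apply Complex.ext <;> simp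
      rw [e2]
      rfl
    unfold ev
    simp_rw [e1]
    have m1 : ∀ v, Measurable (fun x : ℝ => ∫⁻ t : ℝ, U v ⟨x, t⟩) := fun v =>
      ((hUm v).comp mk_meas).lintegral_prod_right'
    refine (lintegral_liminf_le ?_).trans (le_of_eq ?_)
    · intro n
      exact (m1 _).const_mul _
    · congr 1; ext n
      rw [lintegral_const_mul _ (m1 _), ← fub2 (hUm _)]
  refine f2.trans ?_
  simp_rw [hU]
  exact dirS hw hu hc hs hu0 huw hA hP (by simp)

end Pool.Agent.H84.Q2
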