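import Pool.Agent.H84.Q2.Quant

/-!
# One-sided minimality with explicit constants
-/

set_option autoImplicit false

open MeasureTheory Set Metric Filter Topology
open scoped ENNReal Real

noncomputable section

namespace Pool.Agent.H84.Q2

open Pool.Agent.TH304.MI Pool.Agent.TH703.HU

/-- the gain constant -/
def c3 (α : ℝ) : ℝ := 2 * el α * alo

lemma c3_pos (α : ℝ) : 0 < c3 α := by
  have h1 := el_pos α
  have h2 := alo_pos
  unfold c3
  positivity

/-- **Second step.** -/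
theorem step2 {α : ℝ} (hα0 : 0 < α) (hα1 : α < 1 / 2) {A : ℝ} (hA : 1 ≤ A)
    (hA2 : 2 * ahi α ≤ A)
    (hAe : 4 * A * Real.exp (-(A ^ 2 / 2)) ≤ c3 α / 8) {ε : ℝ} (hε : 0 < ε)
    (hεc : ε ≤ c3 α / 48) :
    ∃ q₁ s₁ : ℝ, 0 < q₁ ∧ ∀ (q s : ℝ) (m : ℕ) (t₀ : ℝ) (F : Set ℂ), Cfg α q s A m t₀ F →
      q ≤ q₁ → s₁ ≤ s → ∀ G : Set ℂ, MeasurableSet G →
        mu (ww q s (A / q) m) (F ∩ G) ≤ ε / q → ∀ C : ℝ, PW (ww q s (A / q) m) (F \ G) C →
        PW (ww q s (A / q) m) F (C + 8 * q / c3 α * mu (ww q s (A / q) m) (F ∩ G)) := by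
  have hcM := cM_pos
  have halo := alo_pos
  have hel := el_pos α
  have hc3 := c3_pos α
  have hA0 : 0 < A := lt_of_lt_of_le one_pos hA
  obtain ⟨B₁, hB₁, hBt₁⟩ := tl_small (ε := c3 α / (32 * A ^ 3)) (by positivity)
  have hBt := hBt₁ B₁ le_rfl
  set κ : ℝ := Real.exp (-(2 * (2 * A ^ 2 + B₁ ^ 2))) with hκ
  have hκ0 : 0 < κ := Real.exp_pos _
  set ε₂ : ℝ := min (min (c3 α / 48) (c3 α * κ / (256 * A ^ 2))) ((1 - 2 * α) * cM / 2) with hε₂
  have hε₂0 : 0 < ε₂ := by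
    refine lt_min (lt_min (by positivity) (by positivity)) ?_
    have : 0 < 1 - 2 * α := by linarith
    positivity
  have e1 : ε₂ ≤ c3 α / 48 := (min_le_left _ _).trans (min_le_left _ _)
  have e2 : ε₂ ≤ c3 α * κ / (256 * A ^ 2) := (min_le_left _ _).trans (min_le_right _ _)
  have e3 : ε₂ ≤ (1 - 2 * α) * cM / 2 := min_le_right _ _
  obtain ⟨q₁, s₁, hq₁, h1⟩ := step1 hα1 hA hε₂0 e3
  refine ⟨q₁, max s₁ (max (2 * (2 * A ^ 2 + B₁ ^ 2)) (2 * (2 * (2 * ahi α) ^ 2 + 1 ^ 2))), hq₁, ?_⟩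
  intro q s m t₀ F hC hq hs G hG hGm C hPC
  have hg := hC.good
  have hq0 := hg.q0
  have hs1 : s₁ ≤ s := (le_max_left _ _).trans hs
  have hsκ : 2 * (2 * A ^ 2 + B₁ ^ 2) ≤ s :=
    (le_max_left _ _).trans ((le_max_right _ _).trans hs)
  have hse : 2 * (2 * (2 * ahi α) ^ 2 + 1 ^ 2) ≤ s :=
    (le_max_right _ _).trans ((le_max_right _ _).trans hs)
  have hss : s ≤ s ^ 2 := by nlinarith [hg.s1]
  obtain ⟨g1, g2⟩ := h1 q s m t₀ F hC hq hs1
  have hγ : 0 < c3 α / (2 * q) := by positivity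
  have hgt0 : 0 < -(q * t₀) := lt_of_lt_of_le halo hC.lo
  have hmain := oneSided hg hC.ex hC.t0 hC.mass (e := el α) (κ := κ) (B := B₁)
    (γ := c3 α / (2 * q)) (g₀ := ε / q) ?_ hκ0 ?_ hγ ?_ ?_ hG hGm hPC
  · have e4 : 4 / (c3 α / (2 * q)) = 8 * q / c3 α := by
      field_simp
      ring
    rw [e4] at hmain
    exact hmain
  · intro x hx1 hx2 hx3
    have hx4 : x.re < 0 := hx2.trans hC.t0
    have hx5 : |q * x.re| ≤ 2 * ahi α := by
      rw [abs_of_neg (mul_neg_of_pos_of_neg hq0 hx4)]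
      have := mul_lt_mul_of_pos_left hx1 hq0
      have e4 : q * (2 * t₀) = 2 * (q * t₀) := by ring
      linarith [hC.hi]
    have hx6 : -(A / q) < x.re := by
      have h2 : -(A / q) ≤ 2 * t₀ := by
        have h3 : -(2 * t₀) ≤ A / q := by
          rw [le_div_iff₀ hq0]
          linarith [hC.hi]
        linarith
      linarith
    exact ww_ge hg hx6 hx4 hx5 hx3 (by linarith)
  · intro x hx hb
    apply ww_ge hg hx.1 hx.2 _ hb (by linarith)
    rw [abs_of_nonpos (mul_nonpos_of_nonneg_of_nonpos hq0.le hx.2.le)]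
    have h2 := mul_lt_mul_of_pos_left hx.1 hq0
    have e : q * -(A / q) = -A := by field_simp
    linarith
  · rw [div_le_div_iff₀ hq0 (by positivity)]
    nlinarith
  · -- the budget
    have a1 : c3 α / q ≤ 2 * el α * -t₀ := by
      rw [div_le_iff₀ hq0]
      have h2 : c3 α ≤ 2 * el α * -(q * t₀) := by
        unfold c3
        exact mul_le_mul_of_nonneg_left hC.lo (by positivity)
      linarith
    have a2 : 3 * (mu (ww q s (A / q) m) (Rh t₀ \ F) + ε / q) ≤ c3 α / 8 / q := by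
      have h2 : 3 * (ε₂ / q + ε / q) ≤ c3 α / 8 / q := by
        have e4 : 3 * (ε₂ / q + ε / q) = (3 * (ε₂ + ε)) / q := by ring
        rw [e4]
        apply div_le_div_of_nonneg_right _ hq0.le
        linarith
      linarith
    have a3 : 4 * A ^ 2 * (8 * mu (ww q s (A / q) m) (F \ Rh t₀) / κ) ≤ c3 α / 8 / q := by
      have h2 : 4 * A ^ 2 * (8 * mu (ww q s (A / q) m) (F \ Rh t₀) / κ) ≤
          4 * A ^ 2 * (8 * (ε₂ / q) / κ) := by
        apply mul_le_mul_of_nonneg_left _ (by positivity)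
        apply div_le_div_of_nonneg_right _ hκ0.le
        linarith
      have h3 : 4 * A ^ 2 * (8 * (ε₂ / q) / κ) ≤
          4 * A ^ 2 * (8 * (c3 α * κ / (256 * A ^ 2) / q) / κ) := by
        apply mul_le_mul_of_nonneg_left _ (by positivity)
        apply div_le_div_of_nonneg_right _ hκ0.le
        apply mul_le_mul_of_nonneg_left _ (by norm_num)
        exact div_le_div_of_nonneg_right e2 hq0.le
      have e4 : 4 * A ^ 2 * (8 * (c3 α * κ / (256 * A ^ 2) / q) / κ) = c3 α / 8 / q := by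
        field_simp
        ring
      linarith
    have a4 : 4 * A ^ 2 * (A / q * tl B₁) ≤ c3 α / 8 / q := by
      have h2 : 4 * A ^ 2 * (A / q * tl B₁) ≤ 4 * A ^ 2 * (A / q * (c3 α / (32 * A ^ 3))) := by
        apply mul_le_mul_of_nonneg_left _ (by positivity)
        exact mul_le_mul_of_nonneg_left hBt (by positivity)
      have e4 : 4 * A ^ 2 * (A / q * (c3 α / (32 * A ^ 3))) = c3 α / 8 / q := by
        field_simp
        ring
      linarith
    have a5 : 4 * Real.exp (-(A ^ 2 / 2)) * (A / q) ≤ c3 α / 8 / q := by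
      have e4 : 4 * Real.exp (-(A ^ 2 / 2)) * (A / q) =
          4 * A * Real.exp (-(A ^ 2 / 2)) / q := by ring
      rw [e4]
      exact div_le_div_of_nonneg_right hAe hq0.le
    have e5 : c3 α / (2 * q) = c3 α / q - 4 * (c3 α / 8 / q) := by
      field_simp
      ring
    rw [e5]
    have e6 : 4 * A ^ 2 * (8 * mu (ww q s (A / q) m) (F \ Rh t₀) / κ + A / q * tl B₁) =
        4 * A ^ 2 * (8 * mu (ww q s (A / q) m) (F \ Rh t₀) / κ) +
        4 * A ^ 2 * (A / q * tl B₁) := by ring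
    rw [e6]
    linarith

end Pool.Agent.H84.Q2
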