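import Pool.Agent.H84.Q2.FieldC

/-!
# The tail is controlled by the bulk
-/

set_option autoImplicit false

open MeasureTheory Set Metric Filter Topology
open scoped ENNReal Real

noncomputable section

namespace Pool.Agent.H84.Q2

open Pool.Agent.TH304.MI Pool.Agent.TH703.HU Pool.Agent.TH802.HU

section tail

variable {q s A c₀ c : ℝ} {m : ℕ}

/-- the tail region -/
def tr (B : ℝ) : Set ℂ := {x | B ≤ |x.im|}

lemma meas_tr (B : ℝ) : MeasurableSet (tr B) :=
  measurableSet_le measurable_const Complex.measurable_im.abs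

theorem tail_bulk (h : Good q s A m) (hc0 : 0 < c₀) (hc1 : c₀ ≤ 1 / 8) {M : ℝ} (hM0 : 0 ≤ M)
    (hM : ∀ t, deriv Real.smoothTransition t ≤ M)
    (hleft : ∀ x : ℂ, x.re ≤ -(A / q) + 1 → c + 1 + 1 / q ≤ psi q s c₀ x)
    {F : Set ℂ} (hF : MeasurableSet F) {P : ℝ} (hP : PW (ww q s (A / q) m) F P) {Λ : ℝ}
    (hΛ : 0 < Λ)
    (hone : ∀ C : ℝ, PW (ww q s (A / q) m) (F \ up (psi q s c₀) c) C →
      PW (ww q s (A / q) m) F (C + Λ * mu (ww q s (A / q) m) (F ∩ up (psi q s c₀) c)))
    {B₀ : ℝ} (hB : 1 ≤ B₀) (hcB : 4 * A + (3 * M + 2) + 2 * (Λ / q) ≤ c₀ * B₀ / 8)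
    (hgg : ∀ x ∈ strip (A / q), |x.im| < B₀ → 1 / 2 ≤ gg q s x) :
    Λ * mu (ww q s (A / q) m) (F ∩ up (psi q s c₀) c ∩ tr B₀) ≤
      (Λ + 2 * q * (4 * A + (3 * M + 2))) *
        mu (ww q s (A / q) m) ((F ∩ up (psi q s c₀) c) \ tr B₀) := by
  have hWT := ww_WT h
  have hq := h.q0
  have hm := h.m2
  have hA : 1 ≤ A := h.A0
  set w := ww q s (A / q) m with hw
  set G : Set ℂ := F ∩ up (psi q s c₀) c with hG
  have hGm : MeasurableSet G := hF.inter (meas_up (psi_contDiff q s c₀).continuous c)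
  set I : ℝ := ∫ x in G, Ph q s A c₀ c m x with hI
  -- first: the integral of the density is at most the penalty
  have h1 : I ≤ Λ * mu w G := by
    set S : Set ℝ := {p | ∃ Y : ℂ → ℂ, TW w Y ∧ p = ∫ z in F, dv2 Y z} with hS
    have hSne : S.Nonempty := ⟨_, fun _ => 0, TW_zero hWT.nn, rfl⟩
    have hSb : BddAbove S := by
      refine ⟨P, ?_⟩
      rintro _ ⟨Y, hY, rfl⟩
      exact hP Y hY
    have hP0 : PW w F (sSup S) := fun Y hY => le_csSup hSb ⟨Y, hY, rfl⟩
    have h2 : PW w (F \ up (psi q s c₀) c) (sSup S - I) := by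
      intro Y hY
      have := calib h hc0 hc1 hleft hF hP0 hY
      linarith
    have h3 := hone _ h2
    have h4 : sSup S ≤ sSup S - I + Λ * mu w G := by
      apply csSup_le hSne
      rintro _ ⟨Y, hY, rfl⟩
      exact h3 Y hY
    linarith
  -- splitting
  have hPi : Integrable (Ph q s A c₀ c m) := Ph_int h
  have h2 : (∫ x in G ∩ tr B₀, Ph q s A c₀ c m x) + ∫ x in G \ tr B₀, Ph q s A c₀ c m x = I :=
    integral_inter_add_sdiff (meas_tr B₀) hPi.integrableOn
  have h3 : mu w (G ∩ tr B₀) + mu w (G \ tr B₀) = mu w G := mu_add_diff hWT (meas_tr B₀)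
  have hPh0 : ∀ x ∉ strip (A / q), Ph q s A c₀ c m x = 0 := fun x hx => by
    unfold Ph
    rw [indicator_of_notMem hx]
  have hK0 : 0 ≤ 4 * A + (3 * M + 2) := by positivity
  -- the tail
  have h4 : 2 * Λ * mu w (G ∩ tr B₀) ≤ ∫ x in G ∩ tr B₀, Ph q s A c₀ c m x := by
    rw [mu, ← integral_const_mul]
    apply setIntegral_mono_on (hWT.int.const_mul _).integrableOn hPi.integrableOn
      (hGm.inter (meas_tr B₀))
    intro x hx
    by_cases hxs : x ∈ strip (A / q)
    · refine le_trans ?_ (Ph_lower h hc0 hc1 hM0 hM c hxs)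
      rw [hw, ww_of_mem hxs]
      have e1 : B₀ ≤ |x.im| := hx.2
      have e2 := b_si_ge (hB.trans e1)
      have e3 : 2 * (Λ / q) ≤ c₀ * (x.im * si x.im) / 4 - 4 * A - (3 * M + 2) := by
        have e4 : c₀ * B₀ / 8 ≤ c₀ * (x.im * si x.im) / 4 := by
          have e5 : B₀ / 2 ≤ x.im * si x.im := by linarith
          have := mul_le_mul_of_nonneg_left e5 hc0.le
          linarith
        linarith
      have e5 : 2 * Λ ≤ q * (c₀ * (x.im * si x.im) / 4 - 4 * A - (3 * M + 2)) := by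
        have := mul_le_mul_of_nonneg_left e3 hq.le
        have e6 : q * (2 * (Λ / q)) = 2 * Λ := by field_simp
        linarith
      have e7 : gp q s m x ≤ pm (m - 1) (gg q s x) :=
        pm_le_pred (by omega) (h.gg_le_one' hxs.1.le hxs.2.le)
      calc 2 * Λ * gp q s m x = gp q s m x * (2 * Λ) := by ring
        _ ≤ pm (m - 1) (gg q s x) *
            (q * (c₀ * (x.im * si x.im) / 4 - 4 * A - (3 * M + 2))) :=
            mul_le_mul e7 e5 (by linarith) (pm_nonneg _ _)
    · rw [hPh0 x hxs, hw, ww_of_notMem hxs, mul_zero]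
  -- the bulk
  have h5 : -(2 * q * (4 * A + (3 * M + 2))) * mu w (G \ tr B₀) ≤
      ∫ x in G \ tr B₀, Ph q s A c₀ c m x := by
    rw [mu, ← integral_const_mul]
    apply setIntegral_mono_on (hWT.int.const_mul _).integrableOn hPi.integrableOn
      (hGm.diff (meas_tr B₀))
    intro x hx
    by_cases hxs : x ∈ strip (A / q)
    · refine le_trans ?_ (Ph_lower h hc0 hc1 hM0 hM c hxs)
      rw [hw, ww_of_mem hxs]
      have e1 : |x.im| < B₀ := not_le.1 hx.2
      have e2 := hgg x hxs e1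
      have e3 : 0 ≤ c₀ * (x.im * si x.im) / 4 := by
        have := b_si_nonneg x.im
        positivity
      have e4 : pm (m - 1) (gg q s x) ≤ 2 * gp q s m x := by
        unfold gp
        rw [pm_succ (by omega : 1 ≤ m), max_eq_left (by linarith)]
        have := pm_nonneg (m - 1) (gg q s x)
        nlinarith
      have e5 : -(q * (4 * A + (3 * M + 2))) ≤
          q * (c₀ * (x.im * si x.im) / 4 - 4 * A - (3 * M + 2)) := by
        have := mul_nonneg hq.le e3
        nlinarith
      have e6 := pm_nonneg (m - 1) (gg q s x)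
      have e7 : pm (m - 1) (gg q s x) * -(q * (4 * A + (3 * M + 2))) ≤
          pm (m - 1) (gg q s x) *
            (q * (c₀ * (x.im * si x.im) / 4 - 4 * A - (3 * M + 2))) :=
        mul_le_mul_of_nonneg_left e5 e6
      have e8 : pm (m - 1) (gg q s x) * (q * (4 * A + (3 * M + 2))) ≤
          2 * gp q s m x * (q * (4 * A + (3 * M + 2))) :=
        mul_le_mul_of_nonneg_right e4 (mul_nonneg hq.le hK0)
      linarith
    · rw [hPh0 x hxs, hw, ww_of_notMem hxs, mul_zero]
  nlinarith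

end tail

end Pool.Agent.H84.Q2
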