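import Pool.Agent.H84.Q2.Slice

/-!
# The planar weight
-/

set_option autoImplicit false

open MeasureTheory Set Metric Filter Topology
open scoped ENNReal Real

noncomputable section

namespace Pool.Agent.H84.Q2

open Pool.Agent.TH304.MI Pool.Agent.TH703.HU

/-! ### Powers of the positive part -/

/-- powers of the positive part -/
def pm (m : ℕ) (y : ℝ) : ℝ := (max y 0) ^ m

lemma pm_nonneg (m : ℕ) (y : ℝ) : 0 ≤ pm m y := pow_nonneg (le_max_right _ _) _

lemma pm_pos {m : ℕ} {y : ℝ} (h : 0 < y) : pm m y = y ^ m := by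
  unfold pm
  rw [max_eq_left h.le]

lemma pm_zero {m : ℕ} (hm : 1 ≤ m) {y : ℝ} (h : y ≤ 0) : pm m y = 0 := by
  unfold pm
  rw [max_eq_right h, zero_pow (by omega)]

lemma pm_cont (m : ℕ) : Continuous (pm m) := by
  unfold pm
  fun_prop

lemma pm_mono (m : ℕ) : Monotone (pm m) := by
  intro x y h
  unfold pm
  exact pow_le_pow_left₀ (le_max_right _ _) (max_le_max h le_rfl) m

lemma pm_hasDerivAt {m : ℕ} (hm : 2 ≤ m) (y : ℝ) :
    HasDerivAt (pm m) (m * pm (m - 1) y) y := by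
  rcases lt_trichotomy y 0 with h | h | h
  · rw [pm_zero (by omega) h.le, mul_zero]
    refine (hasDerivAt_const y (0 : ℝ)).congr_of_eventuallyEq ?_
    filter_upwards [gt_mem_nhds h] with z hz
    exact pm_zero (by omega) hz.le
  · subst h
    rw [pm_zero (by omega) le_rfl, mul_zero]
    rw [hasDerivAt_iff_isLittleO]
    have e : (fun x' : ℝ => pm m x' - pm m 0 - (x' - 0) • (0 : ℝ)) = pm m := by
      ext x
      rw [pm_zero (by omega) le_rfl]
      simp
    rw [e]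
    refine Asymptotics.IsBigO.trans_isLittleO (g := fun x : ℝ => x ^ 2) ?_ ?_
    · refine Asymptotics.IsBigO.of_bound 1 ?_
      filter_upwards [gt_mem_nhds (zero_lt_one (α := ℝ))] with x hx1
      rw [Real.norm_of_nonneg (pm_nonneg _ _), Real.norm_of_nonneg (sq_nonneg x), one_mul]
      rcases le_total x 0 with h | h
      · rw [pm_zero (by omega) h]
        positivity
      · unfold pm
        rw [max_eq_left h]
        exact pow_le_pow_of_le_one h hx1.le hm
    · simp only [sub_zero]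
      exact Asymptotics.isLittleO_pow_id (by norm_num)
  · rw [pm_pos h]
    have h1 : HasDerivAt (fun z : ℝ => z ^ m) (m * y ^ (m - 1)) y := hasDerivAt_pow m y
    refine h1.congr_of_eventuallyEq ?_
    filter_upwards [lt_mem_nhds h] with z hz
    exact pm_pos hz

lemma pm_contDiff {m : ℕ} (hm : 2 ≤ m) : ContDiff ℝ 1 (pm m) := by
  rw [contDiff_one_iff_deriv]
  refine ⟨fun t => (pm_hasDerivAt hm t).differentiableAt, ?_⟩
  have : deriv (pm m) = fun t => m * pm (m - 1) t := funext fun t => (pm_hasDerivAt hm t).deriv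
  rw [this]
  exact continuous_const.mul (pm_cont _)

lemma pm_succ {m : ℕ} (hm : 1 ≤ m) {y : ℝ} : pm m y = pm (m - 1) y * max y 0 := by
  unfold pm
  obtain ⟨k, rfl⟩ : ∃ k, m = k + 1 := ⟨m - 1, by omega⟩
  rw [Nat.add_sub_cancel, pow_succ]

lemma pm_le_pred {m : ℕ} (hm : 1 ≤ m) {y : ℝ} (hy : y ≤ 1) : pm m y ≤ pm (m - 1) y := by
  rw [pm_succ hm]
  have h1 : max y 0 ≤ 1 := max_le hy zero_le_one
  have h2 := pm_nonneg (m - 1) y
  calc pm (m - 1) y * max y 0 ≤ pm (m - 1) y * 1 := mul_le_mul_of_nonneg_left h1 h2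
    _ = _ := mul_one _

/-! ### The base function -/

/-- the base function -/
def gg (q s : ℝ) (x : ℂ) : ℝ :=
  (1 + q * x.re / s) ^ 2 * ((1 - q * x.re / s) ^ 2 - (x.im / s) ^ 2)

/-- its first partial derivative -/
def gt (q s : ℝ) (x : ℂ) : ℝ :=
  2 * q / s * (1 + q * x.re / s) * (-(2 * (q * x.re / s)) * (1 - q * x.re / s) - (x.im / s) ^ 2)

/-- its second partial derivative -/
def gb (q s : ℝ) (x : ℂ) : ℝ := -(2 * x.im / s ^ 2) * (1 + q * x.re / s) ^ 2

lemma gg_hasFDerivAt (q s : ℝ) (x : ℂ) :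
    HasFDerivAt (gg q s) (gt q s x • Complex.reCLM + gb q s x • Complex.imCLM) x := by
  have h1 : HasFDerivAt (fun x : ℂ => x.im / s) ((1 / s) • Complex.imCLM) x := by
    have : HasFDerivAt (fun x : ℂ => x.im) Complex.imCLM x := Complex.imCLM.hasFDerivAt
    refine (this.mul_const s⁻¹).congr_fderiv ?_
    rw [one_div]
  have h2 : HasFDerivAt (fun x : ℂ => q * x.re / s) ((q / s) • Complex.reCLM) x := by
    have : HasFDerivAt (fun x : ℂ => x.re) Complex.reCLM x := Complex.reCLM.hasFDerivAt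
    refine ((this.const_mul q).mul_const s⁻¹).congr_fderiv ?_
    rw [smul_smul]
    congr 1
    rw [mul_comm, div_eq_mul_inv]
  have h3 : HasFDerivAt (gg q s) _ x :=
    ((h2.const_add 1).pow 2).mul (((h2.const_sub 1).pow 2).sub (h1.pow 2))
  refine h3.congr_fderiv (ContinuousLinearMap.ext fun v => ?_)
  simp [gt, gb]
  ring

lemma gg_contDiff (q s : ℝ) : ContDiff ℝ 1 (gg q s) := by
  unfold gg
  have h1 : ContDiff ℝ 1 fun x : ℂ => x.im := Complex.imCLM.contDiff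
  have h2 : ContDiff ℝ 1 fun x : ℂ => x.re := Complex.reCLM.contDiff
  fun_prop

lemma gg_cont (q s : ℝ) : Continuous (gg q s) := (gg_contDiff q s).continuous

/-- the open strip -/
def strip (T : ℝ) : Set ℂ := {x | -T < x.re ∧ x.re < 0}

lemma isOpen_strip (T : ℝ) : IsOpen (strip T) :=
  (isOpen_lt continuous_const Complex.continuous_re).inter
    (isOpen_lt Complex.continuous_re continuous_const)

/-- the weight, without the restriction to the strip -/
def gp (q s : ℝ) (m : ℕ) (x : ℂ) : ℝ := pm m (gg q s x)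

/-- the weight -/
def ww (q s T : ℝ) (m : ℕ) : ℂ → ℝ := (strip T).indicator (gp q s m)

lemma gp_hasFDerivAt (q s : ℝ) {m : ℕ} (hm : 2 ≤ m) (x : ℂ) :
    HasFDerivAt (gp q s m) ((m * pm (m - 1) (gg q s x)) •
      (gt q s x • Complex.reCLM + gb q s x • Complex.imCLM)) x :=
  (pm_hasDerivAt hm (gg q s x)).comp_hasFDerivAt x (gg_hasFDerivAt q s x)

lemma gp_cont (q s : ℝ) (m : ℕ) : Continuous (gp q s m) := (pm_cont m).comp (gg_cont q s)

lemma gp_nonneg (q s : ℝ) (m : ℕ) (x : ℂ) : 0 ≤ gp q s m x := pm_nonneg _ _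

/-- Standing assumptions on the parameters. -/
structure Good (q s A : ℝ) (m : ℕ) : Prop where
  q0 : 0 < q
  q1 : q ≤ 1 / 4
  s1 : 1 ≤ s
  ms : (m : ℝ) = s ^ 2
  m2 : 2 ≤ m
  A0 : 1 ≤ A
  As : 2 * A ≤ s

namespace Good

variable {q s A : ℝ} {m : ℕ}

lemma s0 (h : Good q s A m) : 0 < s := lt_of_lt_of_le one_pos h.s1

lemma T0 (h : Good q s A m) : 0 < A / q := div_pos (lt_of_lt_of_le one_pos h.A0) h.q0

lemma qT (h : Good q s A m) : q * (A / q) = A := mul_div_cancel₀ _ h.q0.ne'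

/-- bounds for `u = q t / s` -/
lemma u_bd (h : Good q s A m) {x : ℂ} (h1 : -(A / q) ≤ x.re) (h2 : x.re ≤ 0) :
    -(1 / 2) ≤ q * x.re / s ∧ q * x.re / s ≤ 0 := by
  have hs := h.s0
  have hq := h.q0
  have hqT := h.qT
  constructor
  · rw [le_div_iff₀ hs]
    have : q * -(A / q) ≤ q * x.re := mul_le_mul_of_nonneg_left h1 hq.le
    have := h.As
    nlinarith
  · apply div_nonpos_of_nonpos_of_nonneg _ hs.le
    exact mul_nonpos_of_nonneg_of_nonpos hq.le h2

lemma gg_eq (q s : ℝ) (x : ℂ) : gg q s x = (1 - (q * x.re / s) ^ 2) ^ 2 -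
    (x.im / s) ^ 2 * (1 + q * x.re / s) ^ 2 := by
  unfold gg
  ring

lemma gg_le (h : Good q s A m) {x : ℂ} (h1 : -(A / q) ≤ x.re) (h2 : x.re ≤ 0) :
    gg q s x ≤ (1 - (q * x.re / s) ^ 2) ^ 2 * (1 - (x.im / s) ^ 2 / 4) := by
  obtain ⟨h3, h4⟩ := h.u_bd h1 h2
  rw [gg_eq]
  set u := q * x.re / s
  have h5 : (1 - u ^ 2) ^ 2 / 4 ≤ (1 + u) ^ 2 := by
    have : (1 - u ^ 2) ^ 2 = (1 + u) ^ 2 * (1 - u) ^ 2 := by ring
    rw [this]
    have h6 : (1 - u) ^ 2 ≤ 4 := by nlinarith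
    nlinarith [sq_nonneg (1 + u)]
  nlinarith [sq_nonneg (x.im / s)]

lemma gg_le_one (h : Good q s A m) {x : ℂ} (h1 : -(A / q) ≤ x.re) (h2 : x.re ≤ 0) :
    gg q s x ≤ 1 - (x.im / s) ^ 2 / 4 := by
  obtain ⟨h3, h4⟩ := h.u_bd h1 h2
  rw [gg_eq]
  set u := q * x.re / s
  have h5 : (1 : ℝ) / 4 ≤ (1 + u) ^ 2 := by nlinarith
  have h6 : (1 - u ^ 2) ^ 2 ≤ 1 := by
    have : 0 ≤ 1 - u ^ 2 := by nlinarith
    nlinarith [sq_nonneg u]
  nlinarith [sq_nonneg (x.im / s)]

lemma gg_le_one' (h : Good q s A m) {x : ℂ} (h1 : -(A / q) ≤ x.re) (h2 : x.re ≤ 0) :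
    gg q s x ≤ 1 := by
  have := h.gg_le_one h1 h2
  nlinarith [sq_nonneg (x.im / s)]

/-- The Gaussian upper bound. -/
lemma gp_le (h : Good q s A m) {x : ℂ} (h1 : -(A / q) ≤ x.re) (h2 : x.re ≤ 0) :
    gp q s m x ≤ Real.exp (-(2 * (q * x.re) ^ 2) - x.im ^ 2 / 4) := by
  have hs := h.s0
  have h3 := h.gg_le h1 h2
  obtain ⟨h4, h5⟩ := h.u_bd h1 h2
  have e1 : (1 - (q * x.re / s) ^ 2) ≤ Real.exp (-(q * x.re / s) ^ 2) := by
    have := Real.add_one_le_exp (-(q * x.re / s) ^ 2)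
    linarith
  have e1' : 0 ≤ 1 - (q * x.re / s) ^ 2 := by nlinarith
  have e2 : (1 - (x.im / s) ^ 2 / 4) ≤ Real.exp (-((x.im / s) ^ 2 / 4)) := by
    have := Real.add_one_le_exp (-((x.im / s) ^ 2 / 4))
    linarith
  have e3 : gg q s x ≤ Real.exp (-(2 * (q * x.re / s) ^ 2) - (x.im / s) ^ 2 / 4) := by
    refine h3.trans ?_
    calc (1 - (q * x.re / s) ^ 2) ^ 2 * (1 - (x.im / s) ^ 2 / 4) ≤
          (1 - (q * x.re / s) ^ 2) ^ 2 * Real.exp (-((x.im / s) ^ 2 / 4)) :=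
          mul_le_mul_of_nonneg_left e2 (by positivity)
      _ ≤ (Real.exp (-(q * x.re / s) ^ 2)) ^ 2 * Real.exp (-((x.im / s) ^ 2 / 4)) :=
          mul_le_mul_of_nonneg_right (pow_le_pow_left₀ e1' e1 2) (Real.exp_pos _).le
      _ = _ := by
          rw [← Real.exp_nat_mul, ← Real.exp_add]
          congr 1
          push_cast
          ring
  unfold gp pm
  have e4 : max (gg q s x) 0 ≤ Real.exp (-(2 * (q * x.re / s) ^ 2) - (x.im / s) ^ 2 / 4) :=
    max_le e3 (Real.exp_pos _).le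
  calc (max (gg q s x) 0) ^ m ≤
        (Real.exp (-(2 * (q * x.re / s) ^ 2) - (x.im / s) ^ 2 / 4)) ^ m :=
        pow_le_pow_left₀ (le_max_right _ _) e4 m
    _ = _ := by
        rw [← Real.exp_nat_mul, h.ms]
        congr 1
        field_simp

lemma pm1_le (h : Good q s A m) {x : ℂ} (h1 : -(A / q) ≤ x.re) (h2 : x.re ≤ 0) :
    pm (m - 1) (gg q s x) ≤ Real.exp (-(x.im ^ 2 / 8)) := by
  have hs := h.s0
  have h3 := h.gg_le_one h1 h2
  have e2 : (1 - (x.im / s) ^ 2 / 4) ≤ Real.exp (-((x.im / s) ^ 2 / 4)) := by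
    have := Real.add_one_le_exp (-((x.im / s) ^ 2 / 4))
    linarith
  unfold pm
  have e4 : max (gg q s x) 0 ≤ Real.exp (-((x.im / s) ^ 2 / 4)) :=
    max_le (h3.trans e2) (Real.exp_pos _).le
  calc (max (gg q s x) 0) ^ (m - 1) ≤ (Real.exp (-((x.im / s) ^ 2 / 4))) ^ (m - 1) :=
        pow_le_pow_left₀ (le_max_right _ _) e4 _
    _ ≤ _ := by
        rw [← Real.exp_nat_mul]
        apply Real.exp_le_exp.2
        have hm2 := h.m2
        have hc : ((m - 1 : ℕ) : ℝ) = s ^ 2 - 1 := by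
          rw [Nat.cast_sub (by omega), h.ms]
          simp
        have h5 : (2 : ℝ) ≤ s ^ 2 := by
          rw [← h.ms]
          exact_mod_cast hm2
        rw [hc]
        have e5 : (x.im / s) ^ 2 = x.im ^ 2 / s ^ 2 := by ring
        rw [e5]
        have e6 : (s ^ 2 - 1) * -(x.im ^ 2 / s ^ 2 / 4) =
            -(x.im ^ 2 / 8) - (x.im ^ 2 / 8) * (1 - 2 / s ^ 2) := by
          field_simp
          ring
        rw [e6]
        have e7 : 0 ≤ 1 - 2 / s ^ 2 := by
          rw [sub_nonneg, div_le_one (by positivity)]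
          exact h5
        have e8 : 0 ≤ x.im ^ 2 / 8 * (1 - 2 / s ^ 2) := by positivity
        linarith

/-- The lower bound. -/
lemma gp_ge (h : Good q s A m) {x : ℂ} (h1 : -(A / q) ≤ x.re) (h2 : x.re ≤ 0)
    (h3 : 2 * (2 * (q * x.re) ^ 2 + x.im ^ 2) ≤ s ^ 2) :
    Real.exp (-(2 * (2 * (q * x.re) ^ 2 + x.im ^ 2))) ≤ gp q s m x ∧ 1 / 2 ≤ gg q s x := by
  have hs := h.s0
  obtain ⟨h4, h5⟩ := h.u_bd h1 h2
  set y : ℝ := (2 * (q * x.re) ^ 2 + x.im ^ 2) / s ^ 2 with hy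
  have hy0 : 0 ≤ y := by positivity
  have hy1 : y ≤ 1 / 2 := by
    rw [hy, div_le_iff₀ (by positivity)]
    linarith
  have e0 : y = 2 * (q * x.re / s) ^ 2 + (x.im / s) ^ 2 := by
    rw [hy]
    field_simp
  have e1 : 1 - y ≤ gg q s x := by
    rw [gg_eq, e0]
    set u := q * x.re / s
    have h6 : (1 + u) ^ 2 ≤ 1 := by nlinarith
    nlinarith [sq_nonneg (x.im / s), sq_nonneg (u ^ 2)]
  have e2 : Real.exp (-(2 * y)) ≤ 1 - y := by
    -- convexity of the exponential on `[0, 1/2]`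
    have h7 : Real.exp (-(2 * y)) * (1 + 2 * y) ≤ 1 := by
      have h8 := Real.add_one_le_exp (2 * y)
      have h9 : Real.exp (-(2 * y)) * Real.exp (2 * y) = 1 := by
        rw [← Real.exp_add]; simp
      have h10 := Real.exp_pos (-(2 * y))
      nlinarith
    have h11 := Real.exp_pos (-(2 * y))
    nlinarith
  have e3 : 0 < gg q s x := by linarith
  constructor
  · unfold gp
    rw [pm_pos e3]
    calc Real.exp (-(2 * (2 * (q * x.re) ^ 2 + x.im ^ 2))) = (Real.exp (-(2 * y))) ^ m := by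
          rw [← Real.exp_nat_mul, h.ms, hy]
          congr 1
          field_simp
      _ ≤ (gg q s x) ^ m := pow_le_pow_left₀ (Real.exp_pos _).le (e2.trans e1) m
  · linarith

/-- The gradient, multiplied by the exponent. -/
lemma m_gt (h : Good q s A m) (x : ℂ) : (m : ℝ) * gt q s x =
    q * (1 + q * x.re / s) * (-(4 * (q * x.re)) * (1 - q * x.re / s) - 2 * x.im ^ 2 / s) := by
  have hs := h.s0
  unfold gt
  rw [h.ms]
  field_simp
  ring

lemma m_gb (h : Good q s A m) (x : ℂ) : (m : ℝ) * gb q s x =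
    -(2 * x.im) * (1 + q * x.re / s) ^ 2 := by
  have hs := h.s0
  unfold gb
  rw [h.ms]
  field_simp

end Good

end Pool.Agent.H84.Q2
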